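import Pool.Agent.helper304_ico.WorldDefs

set_option autoImplicit false

namespace Pool.Agent.H304

/-- TARGET M5: identities for adjacent vertices of the icosahedron -/
theorem ico_id {p₀ p₁ : E} (h0 : dt p₀ p₀ = 1) (h1 : dt p₁ p₁ = 1) (h : (1 - C5) * dt p₀ p₁ = C5)
    {s : ℝ} (hs : s ^ 2 = 1 - C5 ^ 2) :
    (1 - C5) * dt p₀ (rot p₁ C5 s p₀) = C5 ∧
    rot p₁ C5 s p₀ = rot p₀ C5 (-s) p₁ ∧
    rot p₁ C5 s (rot p₁ C5 s p₀) = - rot p₀ C5 s (rot p₀ C5 s p₁) ∧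
    rot p₀ C5 s (rot p₀ C5 s (rot p₀ C5 s (rot p₀ C5 s (rot p₀ C5 s p₁)))) = p₁ := by
  have hC := C5_eq
  have h' : (1 - C5) * dt p₁ p₀ = C5 := by rw [dt_comm]; exact h
  refine ⟨?_, ?_, ?_, ?_⟩
  · have e1 : dt p₀ (rot p₁ C5 s p₀) = C5 + C5 * dt p₀ p₁ := by
      simp only [rot, dt_add_right, dt_smul_right, dt_self_cr_right, h', h0]; ring
    rw [e1]
    linear_combination C5 * h
  · simp only [rot, h, h']
    rw [cr_comm p₁ p₀]
    module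
  · rw [rot_rot h1, rot_rot h0]
    have e1 : C5 * C5 - s * s = 2 * C5 ^ 2 - 1 := by linear_combination -hs
    have e2 : (1 - (2 * C5 ^ 2 - 1)) * dt p₀ p₁ = -(2 * C5 ^ 2 - 1) := by
      linear_combination (2 * (1 + C5)) * h + hC
    have e3 : (1 - (2 * C5 ^ 2 - 1)) * dt p₁ p₀ = -(2 * C5 ^ 2 - 1) := by rw [dt_comm]; exact e2
    rw [e1]
    simp only [rot, e2, e3]
    rw [cr_comm p₁ p₀]
    module
  · rw [rot_rot h0, rot_rot h0, rot_rot h0, rot_rot h0]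
    have key : ∀ a b : ℝ, a = 1 → b = 0 → rot p₀ a b p₁ = p₁ := by
      intro a b ha hb; rw [ha, hb, rot_one]
    apply key
    · have e : C5 ^ 5 - 10 * C5 ^ 3 * s ^ 2 + 5 * C5 * (s ^ 2) ^ 2 = 1 := by
        rw [hs]
        linear_combination ((C5 - 1) * (4 * C5 ^ 2 + 2 * C5 - 1)) * hC
      rw [← e]; ring
    · have e : s * (5 * C5 ^ 4 - 10 * C5 ^ 2 * s ^ 2 + (s ^ 2) ^ 2) = 0 := by
        rw [hs]
        linear_combination (s * (4 * C5 ^ 2 - 2 * C5 - 1)) * hC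
      rw [← e]; ring

end Pool.Agent.H304
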