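import Pool.Agent.helper304_ico.WPair
import Pool.Agent.helper304_ico.IcoId

set_option autoImplicit false

namespace Pool.Agent.H304

lemma m6_gram (a b v : E) : dt (cr a b) v ^ 2 = dt a a * dt b b * dt v v +
    2 * dt a b * dt b v * dt a v - dt a a * dt b v ^ 2 - dt b b * dt a v ^ 2 -
      dt v v * dt a b ^ 2 := by
  simp [dt]; ring

lemma m6_unit_eq {v w : E} (hv : dt v v = 1) (hw : dt w w = 1) (h : dt v w = 1) : v = w := by
  have h1 : dt (v - w) (v - w) = 0 := by
    rw [dt_sub_left, dt_sub_right, dt_sub_right, dt_comm w v, hv, hw, h]; ring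
  exact sub_eq_zero.1 (dt_self_eq_zero h1)

lemma m6_unit_eq_neg {v w : E} (hv : dt v v = 1) (hw : dt w w = 1) (h : dt v w = -1) :
    v = -w := by
  apply m6_unit_eq hv (by rw [dt_neg_left, dt_neg_right, hw]; ring)
  rw [dt_neg_right, h]; ring

/-- parallel unit vectors -/
lemma m6_parallel {v w : E} (hv : dt v v = 1) (hw : dt w w = 1) (h : cr v w = 0) :
    v = w ∨ v = -w := by
  have h1 := dt_cr_axis hv w
  rw [h, dt_zero_left, hw] at h1
  have h2 : (dt v w - 1) * (dt v w + 1) = 0 := by linear_combination h1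
  rcases mul_eq_zero.1 h2 with h3 | h3
  · left; exact m6_unit_eq hv hw (by linarith)
  · right; exact m6_unit_eq_neg hv hw (by linarith)

lemma m6_norm_le {v : E} {R : ℝ} (hR : 0 < R) (h : dt v v ≤ 4 * R ^ 2) : ‖v‖ ≤ 2 * R := by
  rw [← norm_sq_eq_dt] at h
  nlinarith [norm_nonneg v]

lemma m6_norm_smul {D : ℝ} (hD : 0 < D) {w : E} (hw : dt w w = 1) : ‖D • w‖ = D := by
  rw [norm_smul, (norm_eq_one_iff_dt w).2 hw, Real.norm_eq_abs, abs_of_pos hD, mul_one]

section

variable {X : Set E} {R D : ℝ} {x₀ : E} {u : E → E} {c s : E → ℝ} {x : E}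

/-- direction of a good neighbour -/
def M6V (X : Set E) (D : ℝ) (u : E → E) (c s : E → ℝ) (x w : E) : Prop :=
  dt w w = 1 ∧ x + D • w ∈ X ∧ cr (u (x + D • w)) w = 0 ∧ c (x + D • w) = C5 ∧
    s (x + D • w) = S5

lemma m6_DR (W : LW X R D x₀ u c s) {t : ℝ} (ht : t ≤ 2 * (1 - C5)) :
    t * D ^ 2 ≤ 4 * R ^ 2 := by
  have h := W.DR
  have hD := W.Dpos
  have : t * D ^ 2 ≤ 2 * (1 - C5) * D ^ 2 := mul_le_mul_of_nonneg_right ht (by positivity)
  linarith

lemma m6_two (W : LW X R D x₀ u c s) (hR : 0 < R) {w : E} (hw : dt w w = 1) :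
    ‖D • w‖ ≤ 2 * R := by
  apply m6_norm_le hR
  rw [dt_smul_left, dt_smul_right, hw]
  have := m6_DR W (t := 1) (by nlinarith [C5_lt])
  linarith

lemma m6_near (W : LW X R D x₀ u c s) (hxn : ‖x - x₀‖ ≤ 10 * D) {w : E} (hw : dt w w = 1) :
    ‖x + D • w - x₀‖ ≤ 11 * D := by
  have h1 : x + D • w - x₀ = (x - x₀) + D • w := by abel
  rw [h1]
  have h2 := norm_add_le (x - x₀) (D • w)
  rw [m6_norm_smul W.Dpos hw] at h2
  linarith

/-- the claim -/
lemma m6_claim (W : LW X R D x₀ u c s) (hR : 0 < R) (hx : x ∈ X) (hxn : ‖x - x₀‖ ≤ 10 * D)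
    {w : E} (hw : dt w w = 1) (hwX : x + D • w ∈ X) (hk : dt (u x) w ^ 2 = 1 / 5) :
    M6V X D u c s x w := by
  have hD := W.Dpos
  have hux := W.unit x hx (by linarith)
  have hnear := m6_near W hxn hw
  have hv := W.unit (x + D • w) hwX (by linarith)
  have hsub : x + D • w - x = D • w := by abel
  have hsub2 : x - (x + D • w) = -(D • w) := by abel
  have hcr : dt (cr (u x) w) (cr (u x) w) = 4 / 5 := by
    rw [dt_cr_axis hux, hw, hk]; norm_num
  have hoff : cr (u x) (x + D • w - x) ≠ 0 := by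
    rw [hsub, cr_smul_right]
    intro h
    rcases smul_eq_zero.1 h with h | h
    · exact hD.ne' h
    · rw [h, dt_zero_left] at hcr
      norm_num at hcr
  obtain ⟨-, ⟨hc, hs⟩, halt⟩ := W.pair hx hwX (by linarith) (by
    rw [hsub, dt_smul_left, dt_smul_right, hw]
    apply le_of_eq; ring) hoff
  rcases halt with ⟨h1, -⟩ | ⟨h1, h2, h3⟩
  · rw [hsub, cr_smul_right] at h1
    refine ⟨hw, hwX, (smul_eq_zero.1 h1).resolve_left hD.ne', hc, hs⟩
  · exfalso
    rw [hsub, cr_smul_right] at h1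
    rw [hsub, cr_smul_right, dt_smul_left] at h3
    have h3' : dt (cr (u x) w) (u (x + D • w)) = 0 := (mul_eq_zero.1 h3).resolve_left hD.ne'
    have h1' : cr (u (x + D • w)) w ≠ 0 := fun h => h1 (by rw [h, smul_zero])
    set v := u (x + D • w) with hvdef
    have hg := m6_gram (u x) w v
    rw [h3', hux, hw, hv, hk, h2] at hg
    -- the value of `dt w v`
    have hab : (dt (u x) w * dt (u x) v) ^ 2 = 1 / 25 := by
      rw [mul_pow, hk, h2]; norm_num
    have hγ : dt w v ^ 2 = 1 ∨ dt w v ^ 2 = 9 / 25 := by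
      have hσ : dt (u x) w * dt (u x) v = 1 / 5 ∨ dt (u x) w * dt (u x) v = -(1 / 5) := by
        have : (dt (u x) w * dt (u x) v - 1 / 5) * (dt (u x) w * dt (u x) v + 1 / 5) = 0 := by
          linear_combination hab
        rcases mul_eq_zero.1 this with h | h
        · left; linarith
        · right; linarith
      rcases hσ with hσ | hσ
      · have h5 : (dt w v - 1) * (dt w v + 3 / 5) = 0 := by
          linear_combination hg + 2 * dt w v * hσ
        rcases mul_eq_zero.1 h5 with h6 | h6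
        · left; have : dt w v = 1 := by linarith
          rw [this]; norm_num
        · right; have : dt w v = -(3 / 5) := by linarith
          rw [this]; norm_num
      · have h5 : (dt w v + 1) * (dt w v - 3 / 5) = 0 := by
          linear_combination hg + 2 * dt w v * hσ
        rcases mul_eq_zero.1 h5 with h6 | h6
        · left; have : dt w v = -1 := by linarith
          rw [this]; norm_num
        · right; have : dt w v = 3 / 5 := by linarith
          rw [this]; norm_num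
    have hcv : dt (cr v w) (cr v w) = 1 - dt w v ^ 2 := by
      rw [dt_cr_axis hv, hw, dt_comm v w]
    rcases hγ with hγ | hγ
    · rw [hγ, sub_self] at hcv
      exact h1' (dt_self_eq_zero hcv)
    · have hfar := W.far (x := x + D • w) (z := x) hwX (by linarith) hx
        (by rw [hsub2, norm_neg, m6_norm_smul hD hw]; linarith)
        (by rw [hsub2, norm_neg]; exact m6_two W hR hw)
        (by
          rw [hsub2, cr_neg_right, cr_smul_right]
          intro h
          rcases smul_eq_zero.1 (neg_eq_zero.1 h) with h | h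
          · exact hD.ne' h
          · exact h1' h)
      rw [hsub2, cr_neg_right, dt_neg_left, dt_neg_right, neg_neg, cr_smul_right, dt_smul_left,
        dt_smul_right, ← hvdef, hcv, hγ, hc] at hfar
      have hC := C5_gt
      have hD2 : 0 < D ^ 2 := by positivity
      nlinarith

/-- rotating about a good neighbour -/
lemma m6_rot (W : LW X R D x₀ u c s) (hR : 0 < R) (hxn : ‖x - x₀‖ ≤ 10 * D)
    {w : E} (hV : M6V X D u c s x w) {g : E} (hg : dt g g = 1) (hgX : x + D • g ∈ X)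
    (hgw : C5 ≤ dt g w) :
    x + D • rot w C5 S5 g ∈ X ∧ x + D • rot w C5 (-S5) g ∈ X := by
  obtain ⟨hw, hwX, hpar, hc, hs⟩ := hV
  have hD := W.Dpos
  have hnear := m6_near W hxn hw
  have hv := W.unit (x + D • w) hwX (by linarith)
  have hv' : (x + D • w) + D • (g - w) = x + D • g := by
    rw [smul_sub]; abel
  have hn : ‖D • (g - w)‖ ≤ 2 * R := by
    apply m6_norm_le hR
    rw [dt_smul_left, dt_smul_right, dt_sub_left, dt_sub_right, dt_sub_right, hg, hw,
      dt_comm w g]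
    have := m6_DR W (t := 2 - 2 * dt g w) (by linarith)
    linarith
  have hrot := W.rot (x + D • w) hwX (by linarith) (D • (g - w)) hn (by rw [hv']; exact hgX)
  rw [hc, hs] at hrot
  have key : ∀ τ : ℝ, (x + D • w) + rot w C5 τ (D • (g - w)) = x + D • rot w C5 τ g := by
    intro τ
    rw [rot_smul, rot_sub, rot_axis hw, smul_sub]; abel
  rcases m6_parallel hv hw hpar with h | h
  · rw [h, key, key] at hrot
    exact hrot
  · rw [h, rot_neg_axis, rot_neg_axis, neg_neg, key, key] at hrot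
    exact ⟨hrot.2, hrot.1⟩

theorem m6_icoA' (W : LW X R D x₀ u c s) (hR : 0 < R)
    {y : E} (hx : x ∈ X) (hy : y ∈ X) (hxn : ‖x - x₀‖ ≤ 10 * D) (hD : ‖y - x‖ = D)
    (hoff : cr (u x) (y - x) ≠ 0) (hA : cr (u y) (y - x) = 0) :
    ∃ p₀ p₁ : E, Ico X x D p₀ p₁ := by
  have hD0 := W.Dpos
  have hux := W.unit x hx (by linarith)
  have hyx : dt (y - x) (y - x) = D ^ 2 := by rw [← norm_sq_eq_dt, hD]
  obtain ⟨⟨hcx, hsx⟩, ⟨hcy, hsy⟩, halt⟩ := W.pair hx hy (by linarith) hyx.le hoff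
  have hdt : dt (u x) (y - x) ^ 2 = 1 / 5 * D ^ 2 := by
    rcases halt with ⟨-, h⟩ | ⟨h, -⟩
    · rw [h, hyx]
    · exact absurd hA h
  obtain ⟨e, he⟩ : ∃ e : E, e = D⁻¹ • (y - x) := ⟨_, rfl⟩
  have hDe : D • e = y - x := by rw [he, smul_smul, mul_inv_cancel₀ hD0.ne', one_smul]
  have hye : x + D • e = y := by rw [hDe]; abel
  have hee : dt e e = 1 := by
    rw [he, dt_smul_left, dt_smul_right, hyx]
    field_simp
  have huxe : dt (u x) e ^ 2 = 1 / 5 := by
    rw [he, dt_smul_right, mul_pow, hdt]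
    field_simp
  have hcre : cr (u y) e = 0 := by rw [he, cr_smul_right, hA, smul_zero]
  have hVe : M6V X D u c s x e := by
    refine ⟨hee, ?_, ?_, ?_, ?_⟩ <;> rw [hye]
    · exact hy
    · exact hcre
    · exact hcy
    · exact hsy
  -- the axis with the right sign
  obtain ⟨u0, hu0, hu0x⟩ : ∃ u0 : E, 0 ≤ dt u0 e ∧ (u0 = u x ∨ u0 = -(u x)) := by
    rcases le_total 0 (dt (u x) e) with h | h
    · exact ⟨u x, h, Or.inl rfl⟩
    · exact ⟨-(u x), by rw [dt_neg_left]; linarith, Or.inr rfl⟩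
  have hu0u : dt u0 u0 = 1 := by
    rcases hu0x with h | h
    · rw [h, hux]
    · rw [h, dt_neg_left, dt_neg_right, hux]; ring
  have hsq : ∀ w : E, dt (u x) w ^ 2 = dt u0 w ^ 2 := by
    intro w
    rcases hu0x with h | h
    · rw [h]
    · rw [h, dt_neg_left]; ring
  have hk2 : dt u0 e ^ 2 = 1 / 5 := by rw [← hsq, huxe]
  have hC1 := C5_gt
  have hC2 := C5_lt
  have hCeq := C5_eq
  have hk : (1 - C5) * dt u0 e = C5 := by
    have h1 : ((1 - C5) * dt u0 e) ^ 2 = C5 ^ 2 := by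
      rw [mul_pow, hk2]
      linear_combination (-(1 / 5)) * hCeq
    have h2 : 0 ≤ (1 - C5) * dt u0 e := mul_nonneg (by linarith) hu0
    exact (pow_left_inj₀ h2 (by linarith) two_ne_zero).1 h1
  have hkC : C5 ≤ dt u0 e := by nlinarith
  -- rotations about `x`
  have hRx : ∀ w : E, dt w w = 1 → x + D • w ∈ X →
      x + D • rot u0 C5 S5 w ∈ X ∧ x + D • rot u0 C5 (-S5) w ∈ X := by
    intro w hw hwX
    have h := W.rot x hx (by linarith) (D • w) (m6_two W hR hw) hwX
    rw [hcx, hsx, rot_smul, rot_smul] at h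
    rcases hu0x with h' | h'
    · rw [h']; exact h
    · rw [h', rot_neg_axis, rot_neg_axis, neg_neg]
      exact ⟨h.2, h.1⟩
  -- identities
  obtain ⟨-, i2, i3, -⟩ := ico_id hu0u hee hk S5_sq
  obtain ⟨-, j2, -, -⟩ := ico_id hu0u hee hk (s := -S5) (by rw [neg_sq, S5_sq])
  rw [neg_neg] at j2
  set G : E := rot u0 C5 S5 e with hG
  have hGG : dt G G = 1 := by rw [hG, dt_rot_rot hu0u C5_S5, hee]
  have hGe : dt G e = C5 + (1 - C5) * (1 / 5) := by
    rw [hG, dt_comm]
    simp only [rot, dt_add_right, dt_smul_right, dt_self_cr_right, hee, dt_comm e u0]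
    rw [← hk2]; ring
  have hGeC : C5 ≤ dt G e := by rw [hGe]; linarith
  have hGX : x + D • G ∈ X := (hRx e hee (by rw [hye]; exact hy)).1
  have hu0G : u0 = rot e C5 S5 G := by
    rw [← j2, rot_inv' hee C5_S5]
  have hu0X : x + D • u0 ∈ X := by
    rw [hu0G]
    exact (m6_rot W hR hxn hVe hGG hGX hGeC).1
  -- the third identity
  have hr1 : x + D • rot e C5 S5 u0 ∈ X := (m6_rot W hR hxn hVe hu0u hu0X hkC).1
  have hr1u : dt (rot e C5 S5 u0) (rot e C5 S5 u0) = 1 := by
    rw [dt_rot_rot hee C5_S5, hu0u]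
  have hr1e : dt (rot e C5 S5 u0) e = dt u0 e := by
    rw [dt_comm, dt_axis_rot hee, dt_comm]
  have hr2 : x + D • rot e C5 S5 (rot e C5 S5 u0) ∈ X :=
    (m6_rot W hR hxn hVe hr1u hr1 (by rw [hr1e]; exact hkC)).1
  rw [i3] at hr2
  -- minus `e`
  have hm2u : dt (-rot u0 C5 S5 G) (-rot u0 C5 S5 G) = 1 := by
    rw [dt_neg_left, dt_neg_right, neg_neg, dt_rot_rot hu0u C5_S5, hGG]
  have hm1 : x + D • (-G) ∈ X := by
    have h := (hRx _ hm2u hr2).2
    rw [rot_neg, rot_inv hu0u C5_S5] at h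
    exact h
  have hm1u : dt (-G) (-G) = 1 := by rw [dt_neg_left, dt_neg_right, neg_neg, hGG]
  have hm0 : x + D • (-e) ∈ X := by
    have h := (hRx _ hm1u hm1).2
    rw [rot_neg, hG, rot_inv hu0u C5_S5] at h
    exact h
  have hm0u : dt (-e) (-e) = 1 := by rw [dt_neg_left, dt_neg_right, neg_neg, hee]
  have hVm : M6V X D u c s x (-e) := by
    apply m6_claim W hR hx hxn hm0u hm0
    rw [hsq, dt_neg_right, neg_sq, hk2]
  have hmu0X : x + D • (-u0) ∈ X := by
    have h := (m6_rot W hR hxn hVm hm1u hm1 (by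
      rw [dt_neg_left, dt_neg_right, neg_neg]; exact hGeC)).2
    rw [rot_neg_axis, neg_neg, rot_neg, ← hu0G] at h
    exact h
  -- the iterates
  have hit : ∀ n : ℕ, dt ((rot u0 C5 S5)^[n] e) ((rot u0 C5 S5)^[n] e) = 1 ∧
      x + D • ((rot u0 C5 S5)^[n] e) ∈ X ∧ x + D • (-((rot u0 C5 S5)^[n] e)) ∈ X := by
    intro n
    induction n with
    | zero =>
      simp only [Function.iterate_zero, id_eq]
      exact ⟨hee, by rw [hye]; exact hy, hm0⟩
    | succ n ih =>
      obtain ⟨k1, k2, k3⟩ := ih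
      rw [Function.iterate_succ_apply']
      refine ⟨by rw [dt_rot_rot hu0u C5_S5, k1], (hRx _ k1 k2).1, ?_⟩
      have h := (hRx _ (by rw [dt_neg_left, dt_neg_right, neg_neg, k1]) k3).1
      rw [rot_neg] at h
      exact h
  refine ⟨u0, e, hD0, hu0u, hee, hk, ?_, ?_⟩
  · rintro σ (rfl | rfl)
    · rw [one_mul]; exact hu0X
    · rw [neg_one_mul, neg_smul, ← smul_neg]; exact hmu0X
  · rintro σ (rfl | rfl) n
    · rw [one_mul]; exact (hit n).2.1
    · rw [neg_one_mul, neg_smul, ← smul_neg]; exact (hit n).2.2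

end

/-- TARGET M6: half-axial minimal pair gives an icosahedron -/
theorem LW.icoA {X : Set E} {R D : ℝ} {x₀ : E} {u : E → E} {c s : E → ℝ} (W : LW X R D x₀ u c s)
    {x y : E} (hx : x ∈ X) (hy : y ∈ X) (hxn : ‖x - x₀‖ ≤ 10 * D) (hD : ‖y - x‖ = D)
    (hoff : cr (u x) (y - x) ≠ 0) (hA : cr (u y) (y - x) = 0) :
    ∃ p₀ p₁ : E, Ico X x D p₀ p₁ :=
  m6_icoA' W W.Rpos hx hy hxn hD hoff hA

end Pool.Agent.H304
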