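import Pool.Agent.helper304_ico.WPair
import Pool.Agent.helper304_ico.IcoId

set_option autoImplicit false

namespace Pool.Agent.H304

section M7aux

/-- scalar product of adjacent vertex directions -/
noncomputable def m7k : ℝ := C5 / (1 - C5)

lemma m7_ne : (1 : ℝ) - C5 ≠ 0 := by have := C5_lt; linarith

lemma m7k_mul : (1 - C5) * m7k = C5 := by
  unfold m7k; rw [mul_div_cancel₀ _ m7_ne]

lemma m7k_iff {t : ℝ} : (1 - C5) * t = C5 ↔ t = m7k := by
  constructor
  · intro h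
    apply mul_left_cancel₀ m7_ne
    rw [h, m7k_mul]
  · rintro rfl; exact m7k_mul

lemma m7k_sq : m7k ^ 2 = 1 / 5 := by
  have h : (1 - C5) ^ 2 * m7k ^ 2 = (1 - C5) ^ 2 * (1 / 5) := by
    have h1 := m7k_mul
    have h2 := C5_eq
    have : (1 - C5) ^ 2 * m7k ^ 2 = C5 ^ 2 := by rw [← mul_pow, h1]
    rw [this]
    linear_combination (1 / 5) * h2
  exact mul_left_cancel₀ (pow_ne_zero 2 m7_ne) h

lemma m7k_pos : 0 < m7k := by
  have h1 := C5_gt
  have h2 := C5_lt
  unfold m7k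
  apply div_pos <;> linarith

lemma m7k_gt : 0.4472 < m7k := by
  have h := m7k_sq
  have h1 := m7k_pos
  nlinarith

lemma m7k_lt : m7k < 0.4473 := by
  have h := m7k_sq
  have h1 := m7k_pos
  nlinarith

lemma m7_span (a b d : E) : dt (cr a b) (cr a b) • d =
    (dt d a * dt b b - dt d b * dt a b) • a + (dt d b * dt a a - dt d a * dt a b) • b +
      dt d (cr a b) • cr a b := by
  apply ext3 <;> simp [dt] <;> ring

lemma m7_axis {a w : E} (ha : dt a a = 1) (hw : dt w w = 1) (h : cr a w = 0) :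
    a = w ∨ a = -w := by
  have h1 := dt_cr_cr a w a w
  rw [h, dt_zero_left, ha, hw, dt_comm w a] at h1
  have h2 : (dt a w - 1) * (dt a w + 1) = 0 := by linear_combination h1
  rcases mul_eq_zero.1 h2 with h3 | h3
  · left
    have h4 : dt (a - w) (a - w) = 0 := by
      rw [dt_sub_left, dt_sub_right, dt_sub_right, ha, hw, dt_comm w a]
      linear_combination (-2) * h3
    exact sub_eq_zero.1 (dt_self_eq_zero h4)
  · right
    have h4 : dt (a + w) (a + w) = 0 := by
      rw [dt_add_left, dt_add_right, dt_add_right, ha, hw, dt_comm w a]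
      linear_combination 2 * h3
    exact eq_neg_of_add_eq_zero_left (dt_self_eq_zero h4)

variable {X : Set E} {R D : ℝ} {x₀ : E} {u : E → E} {c s : E → ℝ}

lemma m7_le (W : LW X R D x₀ u c s) {v : E} (hv : dt v v ≤ D ^ 2) : ‖v‖ ≤ D ∧ ‖v‖ ≤ 2 * R := by
  have h1 := W.Dpos
  have h2 := W.Rpos
  have h3 := W.DR
  have h4 := C5_lt
  rw [← norm_sq_eq_dt] at hv
  have h5 : ‖v‖ ≤ D := by
    apply le_of_sq_le_sq hv h1.le
  have h6 : D ^ 2 ≤ (2 * R) ^ 2 := by nlinarith
  have h7 : D ≤ 2 * R := le_of_sq_le_sq h6 (by positivity)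
  exact ⟨h5, h5.trans h7⟩

lemma m7_turn (W : LW X R D x₀ u c s) {Z v w : E} (hZ : Z ∈ X) (hZn : ‖Z - x₀‖ ≤ 100 * D)
    (hc : c Z = C5) (hs : s Z = S5) (hw : dt w w = 1) (hax : cr (u Z) w = 0)
    (hv : dt v v ≤ D ^ 2) (hZv : Z + v ∈ X) :
    Z + rot w C5 S5 v ∈ X ∧ Z + rot w C5 (-S5) v ∈ X := by
  have h := W.rot Z hZ hZn v (m7_le W hv).2 hZv
  rw [hc, hs] at h
  rcases m7_axis (W.unit Z hZ hZn) hw hax with h1 | h1
  · rw [h1] at h; exact h
  · rw [h1, rot_neg_axis, rot_neg_axis, neg_neg] at h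
    exact h.symm

/-- good vertex directions -/
structure M7V (X : Set E) (u : E → E) (c s : E → ℝ) (q : E) (a : ℝ) (w : E) : Prop where
  unit : dt w w = 1
  mem : q + a • w ∈ X
  ax : cr (u (q + a • w)) w = 0
  hc : c (q + a • w) = C5
  hs : s (q + a • w) = S5

lemma m7_dist {w w' : E} {a : ℝ} (hw : dt w w = 1) (hw' : dt w' w' = 1) (h : dt w w' = m7k) :
    dt (a • (w' - w)) (a • (w' - w)) = a ^ 2 * (2 - 2 * m7k) := by
  rw [dt_smul_left, dt_smul_right, dt_sub_left, dt_sub_right, dt_sub_right, hw, hw', dt_comm w' w,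
    h]
  ring

/-- LEMMA R -/
lemma m7_R (W : LW X R D x₀ u c s) {q : E} {a : ℝ} {w w' : E}
    (hn : ‖q + a • w - x₀‖ ≤ 100 * D) (ha : a ^ 2 * (2 - 2 * m7k) ≤ D ^ 2)
    (hw : M7V X u c s q a w) (hu : dt w' w' = 1) (h : dt w w' = m7k) (hm : q + a • w' ∈ X) :
    q + a • rot w C5 S5 w' ∈ X ∧ q + a • rot w C5 (-S5) w' ∈ X := by
  have hd := m7_dist (a := a) hw.unit hu h
  have e1 : q + a • w + a • (w' - w) = q + a • w' := by module
  have h1 := m7_turn W (v := a • (w' - w)) hw.mem hn hw.hc hw.hs hw.unit hw.ax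
    (hd.trans_le ha) (by rw [e1]; exact hm)
  rw [rot_smul, rot_smul, rot_sub, rot_sub, rot_axis hw.unit, rot_axis hw.unit] at h1
  have e2 : ∀ z : E, q + a • w + a • (z - w) = q + a • z := fun z => by module
  rw [e2, e2] at h1
  exact h1

/-- LEMMA V -/
lemma m7_V (W : LW X R D x₀ u c s) {q : E} {a : ℝ} {w w' : E}
    (hn : ∀ z : E, dt z z = 1 → ‖q + a • z - x₀‖ ≤ 80 * D) (ha0 : 0 < a)
    (ha : a ^ 2 * (2 - 2 * m7k) ≤ D ^ 2)
    (hw : M7V X u c s q a w) (hu : dt w' w' = 1) (h : dt w w' = m7k) (hm : q + a • w' ∈ X) :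
    M7V X u c s q a w' := by
  have hD := W.Dpos
  have hk := m7k_sq
  have hk1 := m7k_gt
  have hk2 := m7k_lt
  have hnw := hn w hw.unit
  have hnw' := hn w' hu
  have hd := m7_dist (a := a) hw.unit hu h
  have e1 : q + a • w' - (q + a • w) = a • (w' - w) := by module
  have huX := W.unit _ hw.mem (hnw.trans (by linarith))
  have huY := W.unit _ hm (hnw'.trans (by linarith))
  have hcr : dt (cr w w') (cr w w') = 4 / 5 := by
    rw [dt_cr_cr, hw.unit, hu, dt_comm w' w, h]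
    linear_combination (-1) * hk
  have hcr0 : cr w w' ≠ 0 := by
    intro h0
    rw [h0, dt_zero_left] at hcr
    norm_num at hcr
  obtain ⟨ε, hε, huw⟩ : ∃ ε : ℝ, ε ^ 2 = 1 ∧ u (q + a • w) = ε • w := by
    rcases m7_axis huX hw.unit hw.ax with h1 | h1
    · exact ⟨1, by norm_num, by rw [h1, one_smul]⟩
    · exact ⟨-1, by norm_num, by rw [h1, neg_one_smul]⟩
  have hε0 : ε ≠ 0 := by
    rintro rfl
    norm_num at hε
  have hcrd : cr (u (q + a • w)) (a • (w' - w)) = (ε * a) • cr w w' := by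
    rw [huw, cr_smul_left, cr_smul_right, cr_sub_right, cr_self, sub_zero, smul_smul]
  have hoff : cr (u (q + a • w)) (q + a • w' - (q + a • w)) ≠ 0 := by
    rw [e1, hcrd]
    exact smul_ne_zero (mul_ne_zero hε0 ha0.ne') hcr0
  have hDle : dt (q + a • w' - (q + a • w)) (q + a • w' - (q + a • w)) ≤ D ^ 2 := by
    rw [e1, hd]; exact ha
  obtain ⟨-, ⟨hcY, hsY⟩, halt⟩ := W.pair hw.mem hm hnw hDle hoff
  refine ⟨hu, hm, ?_, hcY, hsY⟩
  rcases halt with ⟨-, h2⟩ | ⟨hYoff, h2, h3⟩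
  · exfalso
    rw [e1, hd, huw, dt_smul_left, dt_smul_right, dt_sub_right, h, hw.unit] at h2
    have h4 : a ^ 2 * ((m7k - 1) * (m7k - 3 / 5)) = 0 := by
      linear_combination h2 - (a * (m7k - 1)) ^ 2 * hε
    have h5 := (mul_eq_zero.1 h4).resolve_left (pow_ne_zero 2 ha0.ne')
    rcases mul_eq_zero.1 h5 with h6 | h6 <;> linarith
  · rw [huw, dt_smul_left] at h2
    rw [e1, hcrd, dt_smul_left] at h3
    set v := u (q + a • w') with hv
    have h4 : dt w v ^ 2 = 1 / 5 := by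
      linear_combination h2 - (dt w v) ^ 2 * hε
    have h5 : dt (cr w w') v = 0 := (mul_eq_zero.1 h3).resolve_left (mul_ne_zero hε0 ha0.ne')
    have h6 := m7_span w w' v
    rw [hcr, hw.unit, hu, h, dt_comm v (cr w w'), h5, zero_smul, add_zero, mul_one, mul_one,
      dt_comm v w, dt_comm v w'] at h6
    have h7 : 4 / 5 * dt v v = (dt w v - dt w' v * m7k) * dt w v +
        (dt w' v - dt w v * m7k) * dt w' v := by
      rw [← dt_smul_left, h6, dt_add_left, dt_smul_left, dt_smul_left]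
    rw [huY] at h7
    obtain ⟨η, hη, ht⟩ : ∃ η : ℝ, η ^ 2 = 1 ∧ dt w v = η * m7k := by
      have h8 : (dt w v - m7k) * (dt w v + m7k) = 0 := by linear_combination h4 - hk
      rcases mul_eq_zero.1 h8 with h9 | h9
      · exact ⟨1, by norm_num, by linarith⟩
      · exact ⟨-1, by norm_num, by linarith⟩
    have h8 : (dt w' v - η) * (dt w' v + 3 / 5 * η) = 0 := by
      rw [ht] at h7
      linear_combination (-1) * h7 + (-(4 / 5 : ℝ)) * hη + (-(1 : ℝ)) * η ^ 2 * hk + 2 * η * dt w' v * hk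
    rcases mul_eq_zero.1 h8 with h9 | h9
    · have h10 : dt w' v = η := by linarith
      have h11 : dt (v - η • w') (v - η • w') = 0 := by
        rw [dt_sub_left, dt_sub_right, dt_sub_right, dt_smul_left, dt_smul_left, dt_smul_right,
          dt_smul_right, huY, hu, dt_comm v w', h10]
        linear_combination (-1) * hη
      rw [sub_eq_zero.1 (dt_self_eq_zero h11), cr_smul_left, cr_self, smul_zero]
    · exfalso
      have h10 : dt w' v = -(3 / 5) * η := by linarith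
      have e2 : q + a • w - (q + a • w') = (-a) • (w' - w) := by module
      have h11 : dt (cr v ((-a) • (w' - w))) (cr v ((-a) • (w' - w))) =
          a ^ 2 * (36 / 25 - 16 / 5 * m7k) := by
        rw [dt_cr_cr, huY]
        simp only [dt_smul_left, dt_smul_right, dt_sub_left, dt_sub_right, hw.unit, hu,
          dt_comm w' w, dt_comm v w, dt_comm v w', h, h10, ht]
        linear_combination (-(a ^ 2) * (3 / 5 + m7k) ^ 2) * hη + (-(a ^ 2)) * hk
      have h12 : cr v (q + a • w - (q + a • w')) ≠ 0 := by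
        intro h0
        rw [e2] at h0
        rw [h0, dt_zero_left] at h11
        have h13 := (mul_eq_zero.1 h11.symm).resolve_left (pow_ne_zero 2 ha0.ne')
        have h14 : m7k = 9 / 20 := by linarith
        rw [h14] at hk
        norm_num at hk
      have h13 : dt (q + a • w - (q + a • w')) (q + a • w - (q + a • w')) ≤ D ^ 2 := by
        have : q + a • w - (q + a • w') = -(q + a • w' - (q + a • w)) := by abel
        rw [this, dt_neg_left, dt_neg_right, neg_neg]
        exact hDle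
      obtain ⟨h14, h15⟩ := m7_le W h13
      have h16 := W.far hm (hnw'.trans (by linarith)) hw.mem (h14.trans (by linarith)) h15 h12
      rw [e2, h11, hcY] at h16
      have hC1 := C5_gt
      have hC2 := C5_lt
      have h18 : 0 ≤ a ^ 2 := sq_nonneg a
      have h17 : a ^ 2 * 1 ≤ D ^ 2 :=
        (mul_le_mul_of_nonneg_left (by linarith : (1 : ℝ) ≤ 2 - 2 * m7k) h18).trans ha
      have h20 : 2 * (1 - C5) * (36 / 25 - 16 / 5 * m7k) ≤ 2 * (36 / 25 - 16 / 5 * m7k) :=
        mul_le_mul_of_nonneg_right (by linarith) (by nlinarith)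
      have h19 : a ^ 2 * (2 * (1 - C5) * (36 / 25 - 16 / 5 * m7k)) ≤ a ^ 2 * 0.02 :=
        mul_le_mul_of_nonneg_left (by linarith) h18
      have h21 : 0 < D ^ 2 := by positivity
      linarith

/-- adjacent good directions: all rotated ones are good -/
lemma m7_orbit (W : LW X R D x₀ u c s) {q : E} {a : ℝ} {w w' : E}
    (hn : ∀ z : E, dt z z = 1 → ‖q + a • z - x₀‖ ≤ 80 * D) (ha0 : 0 < a)
    (ha : a ^ 2 * (2 - 2 * m7k) ≤ D ^ 2)
    (hw : M7V X u c s q a w) (hw' : M7V X u c s q a w') (h : dt w w' = m7k) (n : ℕ) :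
    M7V X u c s q a ((rot w C5 S5)^[n] w') ∧ dt w ((rot w C5 S5)^[n] w') = m7k := by
  induction n with
  | zero => exact ⟨hw', h⟩
  | succ n ih =>
    obtain ⟨h1, h2⟩ := ih
    rw [Function.iterate_succ_apply']
    have hD := W.Dpos
    have h3 := m7_R W ((hn w hw.unit).trans (by linarith)) ha hw h1.unit h2 h1.mem
    have h4 : dt w (rot w C5 S5 ((rot w C5 S5)^[n] w')) = m7k := by
      rw [dt_axis_rot hw.unit, h2]
    refine ⟨m7_V W hn ha0 ha hw ?_ h4 h3.1, h4⟩
    rw [dt_rot_rot hw.unit C5_S5, h1.unit]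

lemma m7_core (W : LW X R D x₀ u c s) {x y q p p' : E} {a b : ℝ} (hx : x ∈ X) (hy : y ∈ X)
    (hxn : ‖x - x₀‖ ≤ 11 * D) (hyn : ‖y - x₀‖ ≤ 11 * D) (hD : dt (y - x) (y - x) = D ^ 2)
    (hxq : x = q + a • p) (hyq : y = q + b • p') (ha : 0 < a) (hab : a ≤ b)
    (hp : dt p p = 1) (hp' : dt p' p' = 1) (hpp : dt p p' = m7k)
    (hax : cr (u x) p = 0) (hay : cr (u y) p' = 0) (hcx : c x = C5) (hsx : s x = S5)
    (hcy : c y = C5) (hsy : s y = S5) :
    ∃ p₀ p₁ : E, ‖q - x‖ ≤ 2 * D ∧ Ico X q a p₀ p₁ := by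
  have hDp := W.Dpos
  have hk := m7k_sq
  have hk1 := m7k_gt
  have hk2 := m7k_lt
  have hDe : D ^ 2 = a ^ 2 + b ^ 2 - 2 * m7k * a * b := by
    rw [← hD, hxq, hyq]
    have e : q + b • p' - (q + a • p) = b • p' - a • p := by module
    rw [e]
    simp only [dt_smul_left, dt_smul_right, dt_sub_left, dt_sub_right, hp, hp', dt_comm p' p, hpp]
    ring
  have haD : a ^ 2 * (2 - 2 * m7k) ≤ D ^ 2 := by
    rw [hDe]
    nlinarith [mul_nonneg (sub_nonneg.2 hab) ha.le, mul_nonneg (sub_nonneg.2 hab) (sub_nonneg.2 hab),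
      mul_nonneg (mul_nonneg (sub_nonneg.2 hab) ha.le) (by linarith : (0 : ℝ) ≤ 1 - m7k)]
  have haD1 : a ≤ D := by
    apply le_of_sq_le_sq _ hDp.le
    nlinarith [sq_nonneg a]
  have hnz : ∀ z : E, dt z z = 1 → ‖z‖ = 1 := fun z hz => (norm_eq_one_iff_dt z).2 hz
  have hqx : ‖q - x‖ ≤ D := by
    have e : q - x = -(a • p) := by rw [hxq]; module
    rw [e, norm_neg, norm_smul, hnz p hp, mul_one, Real.norm_eq_abs, abs_of_pos ha]
    exact haD1
  have hn : ∀ z : E, dt z z = 1 → ‖q + a • z - x₀‖ ≤ 80 * D := by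
    intro z hz
    have e : q + a • z - x₀ = (q - x) + (x - x₀) + a • z := by abel
    rw [e]
    have h1 := norm_add_le (q - x + (x - x₀)) (a • z)
    have h2 := norm_add_le (q - x) (x - x₀)
    rw [norm_smul, hnz z hz, mul_one, Real.norm_eq_abs, abs_of_pos ha] at h1
    linarith
  have hVp : M7V X u c s q a p := by
    refine ⟨hp, ?_, ?_, ?_, ?_⟩ <;> rw [← hxq] <;> assumption
  -- rotate x about the axis of y
  have hs2 : S5 ^ 2 = 1 - C5 ^ 2 := S5_sq
  have hpp5 : (1 - C5) * dt p p' = C5 := m7k_iff.2 hpp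
  have hturn := m7_turn W (v := x - y) hy (hyn.trans (by linarith)) hcy hsy hp' hay
    (by
      have e : x - y = -(y - x) := by abel
      rw [e, dt_neg_left, dt_neg_right, neg_neg, hD])
    (by rw [add_sub_cancel]; exact hx)
  have hw1 : q + a • rot p' C5 S5 p ∈ X := by
    have h1 := hturn.1
    have e : x - y = a • p - b • p' := by rw [hxq, hyq]; module
    rw [e, rot_sub, rot_smul, rot_smul, rot_axis hp', hyq] at h1
    have e2 : q + b • p' + (a • rot p' C5 S5 p - b • p') = q + a • rot p' C5 S5 p := by module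
    rwa [e2] at h1
  set p₁ := rot p' C5 S5 p with hp₁
  have h01 : dt p p₁ = m7k := m7k_iff.1 (ico_id hp hp' hpp5 hs2).1
  have hp1u : dt p₁ p₁ = 1 := by rw [hp₁, dt_rot_rot hp' C5_S5, hp]
  have hV1 : M7V X u c s q a p₁ := m7_V W hn ha haD hVp hp1u h01 hw1
  have horb := fun n => m7_orbit W hn ha haD hVp hV1 h01 n
  have hneg2 : ∀ n : ℕ, M7V X u c s q a (-((rot p C5 S5)^[n + 2] p₁)) := by
    intro n
    obtain ⟨h1, h2⟩ := horb n
    have h3 := (m7_orbit W hn ha haD h1 hVp (by rw [dt_comm]; exact h2) 2).1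
    have h4 := (ico_id hp h1.unit (m7k_iff.2 h2) hs2).2.2.1
    have e1 : (rot ((rot p C5 S5)^[n] p₁) C5 S5)^[2] p =
        rot ((rot p C5 S5)^[n] p₁) C5 S5 (rot ((rot p C5 S5)^[n] p₁) C5 S5 p) := rfl
    have e2 : (rot p C5 S5)^[n + 2] p₁ = rot p C5 S5 (rot p C5 S5 ((rot p C5 S5)^[n] p₁)) := by
      rw [Function.iterate_succ_apply', Function.iterate_succ_apply']
    rw [e1, h4, ← e2] at h3
    exact h3
  have hper : ∀ n : ℕ, (rot p C5 S5)^[n + 5] p₁ = (rot p C5 S5)^[n] p₁ := by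
    intro n
    rw [Function.iterate_add_apply]
    congr 1
    exact (ico_id hp hp1u (m7k_iff.2 h01) hs2).2.2.2
  have hneg : ∀ n : ℕ, M7V X u c s q a (-((rot p C5 S5)^[n] p₁)) := by
    intro n
    rw [← hper n]
    exact hneg2 (n + 3)
  have hnegp : q + a • (-p) ∈ X := by
    have hm1 : M7V X u c s q a (-p₁) := hneg 0
    have hm2 : M7V X u c s q a (-(rot p C5 S5 p₁)) := hneg 1
    have h10 : dt p₁ p = m7k := by rw [dt_comm]; exact h01
    have h1 : dt p₁ (rot p C5 S5 p₁) = m7k :=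
      m7k_iff.1 (ico_id hp1u hp (m7k_iff.2 h10) hs2).1
    have h2 := (m7_R W ((hn _ hm1.unit).trans (by linarith)) haD hm1 hm2.unit
      (by rw [dt_neg_left, dt_neg_right, neg_neg]; exact h1) hm2.mem).2
    rw [rot_neg_axis, neg_neg, rot_neg] at h2
    have h3 := (ico_id (s := -S5) hp hp1u (m7k_iff.2 h01) (by rw [neg_sq]; exact hs2)).2.1
    rw [neg_neg] at h3
    rw [← h3, rot_inv' hp1u C5_S5] at h2
    exact h2
  refine ⟨p, p₁, hqx.trans (by linarith), ha, hp, hp1u, m7k_iff.2 h01, ?_, ?_⟩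
  · rintro σ (rfl | rfl)
    · rw [one_mul]; exact hVp.mem
    · rw [neg_one_mul, neg_smul, ← smul_neg]; exact hnegp
  · rintro σ (rfl | rfl) n
    · rw [one_mul]; exact (horb n).1.mem
    · rw [neg_one_mul, neg_smul, ← smul_neg]; exact (hneg n).mem

/-- TARGET M7: the other minimal pairs give an icosahedron -/
theorem LW.icoB {X : Set E} {R D : ℝ} {x₀ : E} {u : E → E} {c s : E → ℝ} (W : LW X R D x₀ u c s)
    {x y : E} (hx : x ∈ X) (hy : y ∈ X) (hxn : ‖x - x₀‖ ≤ 10 * D) (hD : ‖y - x‖ = D)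
    (hoff : cr (u x) (y - x) ≠ 0) (hB : cr (u y) (y - x) ≠ 0) :
    ∃ q p₀ p₁ : E, ∃ a : ℝ, ‖q - x‖ ≤ 3 * D ∧ Ico X q a p₀ p₁ := by
  have hDp := W.Dpos
  have hk := m7k_sq
  have hk1 := m7k_gt
  have hk2 := m7k_lt
  have hdD : dt (y - x) (y - x) = D ^ 2 := by rw [← norm_sq_eq_dt, hD]
  have hyn : ‖y - x₀‖ ≤ 11 * D := by
    have e : y - x₀ = (y - x) + (x - x₀) := by abel
    rw [e]
    have := norm_add_le (y - x) (x - x₀)
    linarith
  obtain ⟨⟨hcx, hsx⟩, ⟨hcy, hsy⟩, halt⟩ := W.pair hx hy (hxn.trans (by linarith)) hdD.le hoff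
  obtain ⟨-, hg, htr⟩ := halt.resolve_left (fun h => hB h.1)
  have hux := W.unit x hx (hxn.trans (by linarith))
  have huy := W.unit y hy (hyn.trans (by linarith))
  set g := dt (u x) (u y) with hgdef
  have hcr : dt (cr (u x) (u y)) (cr (u x) (u y)) = 4 / 5 := by
    rw [dt_cr_cr, hux, huy, dt_comm (u y) (u x), ← hgdef]
    linear_combination (-1) * hg
  have htr2 : dt (y - x) (cr (u x) (u y)) = 0 := by
    rw [dt_comm, dt_cr_cycle, dt_cr_cycle, dt_cr_swap] at *
    first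
      | linarith
      | (simp only [dt, cr_0, cr_1, cr_2] at *; linarith)
  have hsp := m7_span (u x) (u y) (y - x)
  rw [hcr, htr2, zero_smul, add_zero, hux, huy, ← hgdef, mul_one, mul_one] at hsp
  obtain ⟨α, β, hd⟩ : ∃ α β : ℝ, y - x = α • u x - β • u y := by
    refine ⟨5 / 4 * (dt (y - x) (u x) - dt (y - x) (u y) * g),
      -(5 / 4 * (dt (y - x) (u y) - dt (y - x) (u x) * g)), ?_⟩
    have h1 : y - x = (5 / 4 : ℝ) • ((4 / 5 : ℝ) • (y - x)) := by
      rw [smul_smul]; norm_num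
    rw [hsp] at h1
    refine h1.trans ?_
    module
  have hoff2 : cr (u y) (x - y) ≠ 0 := by
    have e : x - y = -(y - x) := by abel
    rw [e, cr_neg_right]
    exact neg_ne_zero.2 hB
  have hβ : 0.904 * D ^ 2 ≤ β ^ 2 := by
    have h1 := W.far hx (hxn.trans (by linarith)) hy (by rw [hD]; linarith)
      (m7_le W hdD.le).2 hoff
    have h2 : dt (cr (u x) (y - x)) (cr (u x) (y - x)) = β ^ 2 * (4 / 5) := by
      rw [hd, cr_sub_right, cr_smul_right, cr_smul_right, cr_self, smul_zero, zero_sub, dt_neg_left,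
        dt_neg_right, neg_neg, dt_smul_left, dt_smul_right, hcr]
      ring
    rw [h2, hcx] at h1
    have hC1 := C5_gt
    nlinarith [sq_nonneg β, sq_nonneg D]
  have hα : 0.904 * D ^ 2 ≤ α ^ 2 := by
    have e : x - y = -(y - x) := by abel
    have h0 : dt (x - y) (x - y) ≤ D ^ 2 := by
      rw [e, dt_neg_left, dt_neg_right, neg_neg]; exact hdD.le
    have h1 := W.far hy (hyn.trans (by linarith)) hx ((m7_le W h0).1.trans (by linarith))
      (m7_le W h0).2 hoff2
    have h2 : dt (cr (u y) (x - y)) (cr (u y) (x - y)) = α ^ 2 * (4 / 5) := by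
      rw [e, hd, cr_neg_right, cr_sub_right, cr_smul_right, cr_smul_right, cr_self, smul_zero,
        sub_zero, dt_neg_left, dt_neg_right, neg_neg, dt_smul_left, dt_smul_right,
        cr_comm (u y) (u x), dt_neg_left, dt_neg_right, neg_neg, hcr]
      ring
    rw [h2, hcy] at h1
    have hC1 := C5_gt
    nlinarith [sq_nonneg α, sq_nonneg D]
  have hD2 : 0 < D ^ 2 := by positivity
  have hα0 : α ≠ 0 := by
    rintro rfl
    nlinarith
  have hβ0 : β ≠ 0 := by
    rintro rfl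
    nlinarith
  -- signs
  obtain ⟨ε, hε, hεα⟩ : ∃ ε : ℝ, ε ^ 2 = 1 ∧ |α| = -(ε * α) := by
    rcases lt_or_gt_of_ne hα0 with h | h
    · exact ⟨1, by norm_num, by rw [abs_of_neg h]; ring⟩
    · exact ⟨-1, by norm_num, by rw [abs_of_pos h]; ring⟩
  obtain ⟨η, hη, hηβ⟩ : ∃ η : ℝ, η ^ 2 = 1 ∧ |β| = -(η * β) := by
    rcases lt_or_gt_of_ne hβ0 with h | h
    · exact ⟨1, by norm_num, by rw [abs_of_neg h]; ring⟩
    · exact ⟨-1, by norm_num, by rw [abs_of_pos h]; ring⟩
  have hα1 : 0 < |α| := abs_pos.2 hα0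
  have hβ1 : 0 < |β| := abs_pos.2 hβ0
  have hpα : |α| • (ε • u x) = -(α • u x) := by
    rw [hεα, smul_smul, ← neg_smul]
    congr 1
    linear_combination (-α) * hε
  have hpβ : |β| • (η • u y) = -(β • u y) := by
    rw [hηβ, smul_smul, ← neg_smul]
    congr 1
    linear_combination (-β) * hη
  have hpu : dt (ε • u x) (ε • u x) = 1 := by
    rw [dt_smul_left, dt_smul_right, hux]; linear_combination hε
  have hpu' : dt (η • u y) (η • u y) = 1 := by
    rw [dt_smul_left, dt_smul_right, huy]; linear_combination hη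
  have hkk : (ε * (η * g)) ^ 2 = m7k ^ 2 := by
    rw [hk, mul_pow, mul_pow, hε, hη, hg]; norm_num
  have hDe : D ^ 2 = |α| ^ 2 + |β| ^ 2 - 2 * (ε * (η * g)) * (|α| * |β|) := by
    rw [← hdD, hd, hεα, hηβ]
    simp only [dt_smul_left, dt_smul_right, dt_sub_left, dt_sub_right, hux, huy,
      dt_comm (u y) (u x), ← hgdef]
    linear_combination (-(α ^ 2)) * hε - β ^ 2 * hη +
      (2 * α * β * g) * (hε * η ^ 2 + hη)
  have hpp : dt (ε • u x) (η • u y) = m7k := by
    rw [dt_smul_left, dt_smul_right, ← hgdef]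
    have h1 : (ε * (η * g) - m7k) * (ε * (η * g) + m7k) = 0 := by linear_combination hkk
    rcases mul_eq_zero.1 h1 with h2 | h2
    · linarith
    · exfalso
      have h3 : ε * (η * g) = -m7k := by linarith
      rw [h3, sq_abs, sq_abs] at hDe
      nlinarith [mul_pos hα1 hβ1]
  have hswap : cr (u x) (ε • u x) = 0 := by rw [cr_smul_right, cr_self, smul_zero]
  have hswap' : cr (u y) (η • u y) = 0 := by rw [cr_smul_right, cr_self, smul_zero]
  have hxq : x = (x + α • u x) + |α| • (ε • u x) := by rw [hpα]; abel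
  have hyq : y = (x + α • u x) + |β| • (η • u y) := by
    rw [hpβ]
    have h1 : y = x + (α • u x - β • u y) := by rw [← hd]; abel
    refine h1.trans ?_
    abel
  rcases le_total |α| |β| with hle | hle
  · obtain ⟨p₀, p₁, h1, h2⟩ := m7_core W hx hy (hxn.trans (by linarith)) hyn hdD hxq hyq hα1 hle
      hpu hpu' hpp hswap hswap' hcx hsx hcy hsy
    exact ⟨_, p₀, p₁, _, h1.trans (by linarith), h2⟩
  · have e : x - y = -(y - x) := by abel
    obtain ⟨p₀, p₁, h1, h2⟩ := m7_core W hy hx hyn (hxn.trans (by linarith))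
      (by rw [e, dt_neg_left, dt_neg_right, neg_neg]; exact hdD) hyq hxq hβ1 hle
      hpu' hpu (by rw [dt_comm]; exact hpp) hswap' hswap hcy hsy hcx hsx
    refine ⟨_, p₀, p₁, _, ?_, h2⟩
    have e2 : x + α • u x - x = (x + α • u x - y) + (y - x) := by abel
    rw [e2]
    have := norm_add_le (x + α • u x - y) (y - x)
    rw [hD] at this
    linarith



end M7aux

end Pool.Agent.H304
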