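import Pool.Agent.helper304_ico.Consts

set_option autoImplicit false


namespace Pool.Agent.H304

/-- the standard basis -/
noncomputable def eb : Module.Basis (Fin 3) ℝ E := (EuclideanSpace.basisFun (Fin 3) ℝ).toBasis

lemma eb_det (p q w : E) : eb.det ![p, q, w] = dt (cr p q) w := by
  rw [Module.Basis.det_apply, Matrix.det_fin_three]
  simp [eb, Module.Basis.toMatrix_apply, dt]
  ring

lemma eb0 (i : Fin 3) : (eb i : E) = EuclideanSpace.single i 1 := by
  simp [eb]

lemma triple (A : E ≃ₗᵢ[ℝ] E)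
    (hdet : LinearMap.det A.toLinearIsometry.toLinearMap = 1) (p q w : E) :
    dt (cr (A p) (A q)) (A w) = dt (cr p q) w := by
  rw [← eb_det, ← eb_det]
  have := Module.Basis.det_comp eb A.toLinearIsometry.toLinearMap ![p, q, w]
  rw [hdet, one_mul] at this
  rw [← this]
  congr 1
  ext i
  fin_cases i <;> simp

lemma dt_map (A : E ≃ₗᵢ[ℝ] E) (p q : E) : dt (A p) (A q) = dt p q := by
  rw [← inner_eq_dt, ← inner_eq_dt]
  exact A.inner_map_map p q

lemma eq_of_dt {a b : E} (h : ∀ w, dt a w = dt b w) : a = b := by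
  have : dt (a - b) (a - b) = 0 := by
    rw [dt_sub_left, h]; ring
  exact sub_eq_zero.mp (dt_self_eq_zero this)

lemma map_cr (A : E ≃ₗᵢ[ℝ] E)
    (hdet : LinearMap.det A.toLinearIsometry.toLinearMap = 1) (p q : E) :
    A (cr p q) = cr (A p) (A q) := by
  apply eq_of_dt
  intro w
  obtain ⟨w', rfl⟩ := A.surjective w
  rw [dt_map, triple A hdet]

lemma det_sub_one (A : E ≃ₗᵢ[ℝ] E)
    (hdet : LinearMap.det A.toLinearIsometry.toLinearMap = 1) :
    LinearMap.det (A.toLinearIsometry.toLinearMap - 1) = 0 := by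
  set L := A.toLinearIsometry.toLinearMap with hL
  set e0 : E := EuclideanSpace.single 0 1 with he0
  set e1 : E := EuclideanSpace.single 1 1 with he1
  set e2 : E := EuclideanSpace.single 2 1 with he2
  have h01 : cr e0 e1 = e2 := by apply ext3 <;> simp [he0, he1, he2]
  have h12 : cr e1 e2 = e0 := by apply ext3 <;> simp [he0, he1, he2]
  have h20 : cr e2 e0 = e1 := by apply ext3 <;> simp [he0, he1, he2]
  have key := Module.Basis.det_comp eb (L - 1) ![e0, e1, e2]
  have h1 : eb.det ![e0, e1, e2] = 1 := by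
    rw [eb_det, h01]; simp [he2, dt]
  rw [h1, mul_one] at key
  rw [← key]
  have h2 : (⇑(L - 1) ∘ ![e0, e1, e2]) = ![A e0 - e0, A e1 - e1, A e2 - e2] := by
    ext i
    fin_cases i <;> simp [hL]
  rw [h2, eb_det]
  have t1 := triple A hdet e0 e1 e2
  have t2 : dt (cr (A e0) (A e1)) e2 = dt (A e2) e2 := by rw [← map_cr A hdet, h01]
  have t3 : dt (cr (A e1) (A e2)) e0 = dt (A e0) e0 := by rw [← map_cr A hdet, h12]
  have t4 : dt (cr (A e2) (A e0)) e1 = dt (A e1) e1 := by rw [← map_cr A hdet, h20]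
  have s2 : dt (cr e0 e1) (A e2) = dt e2 (A e2) := by rw [h01]
  have s3 : dt (cr e1 e2) (A e0) = dt e0 (A e0) := by rw [h12]
  have s4 : dt (cr e2 e0) (A e1) = dt e1 (A e1) := by rw [h20]
  have c3 : dt (cr (A e1) (A e2)) e0 = dt (cr e0 (A e1)) (A e2) := by rw [dt_cr_cycle e0]
  have c4 : dt (cr (A e2) (A e0)) e1 = dt (cr (A e0) e1) (A e2) := by
    rw [dt_cr_cycle (A e0), dt_cr_cycle e1]
  have c5 : dt (cr e1 e2) (A e0) = dt (cr (A e0) e1) e2 := by rw [dt_cr_cycle (A e0)]
  have c6 : dt (cr e2 e0) (A e1) = dt (cr e0 (A e1)) e2 := by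
    rw [dt_cr_cycle e0, dt_cr_cycle (A e1)]
  have r2 := dt_comm e2 (A e2)
  have r1 := dt_comm e1 (A e1)
  have r0 := dt_comm e0 (A e0)
  simp only [cr_sub_left, cr_sub_right, dt_sub_left, dt_sub_right]
  linarith

lemma exists_axis (A : E ≃ₗᵢ[ℝ] E)
    (hdet : LinearMap.det A.toLinearIsometry.toLinearMap = 1) :
    ∃ u : E, dt u u = 1 ∧ A u = u := by
  have h := LinearMap.bot_lt_ker_of_det_eq_zero (det_sub_one A hdet)
  obtain ⟨v, hv, hv0⟩ := Submodule.exists_mem_ne_zero_of_ne_bot h.ne'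
  have hfix : A v = v := by
    have : (A.toLinearIsometry.toLinearMap - 1) v = 0 := hv
    simpa [sub_eq_zero] using this
  refine ⟨(‖v‖)⁻¹ • v, ?_, ?_⟩
  · rw [← norm_eq_one_iff_dt, norm_smul, norm_inv, norm_norm]
    exact inv_mul_cancel₀ (norm_ne_zero_iff.mpr hv0)
  · rw [map_smul, hfix]

lemma exists_perp {u : E} (hu : dt u u = 1) : ∃ p : E, dt p p = 1 ∧ dt u p = 0 := by
  have h : ∃ w : E, cr u w ≠ 0 := by
    by_contra hcon
    push Not at hcon
    have h1 := hcon (EuclideanSpace.single 0 1)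
    have h2 := hcon (EuclideanSpace.single 1 1)
    have a1 := congrArg (fun z : E => z 1) h1
    have a2 := congrArg (fun z : E => z 2) h1
    have a3 := congrArg (fun z : E => z 2) h2
    simp at a1 a2 a3
    simp [dt, a1, a2, a3] at hu
  obtain ⟨w, hw⟩ := h
  refine ⟨(‖cr u w‖)⁻¹ • cr u w, ?_, ?_⟩
  · rw [← norm_eq_one_iff_dt, norm_smul, norm_inv, norm_norm]
    exact inv_mul_cancel₀ (norm_ne_zero_iff.mpr hw)
  · rw [dt_smul_right]; simp

lemma decomp {u p : E} (hu : dt u u = 1) (hp : dt p p = 1) (hup : dt u p = 0) (v : E) :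
    v = dt u v • u + dt p v • p + dt (cr u p) v • cr u p := by
  have hq : dt (cr u p) (cr u p) = 1 := by
    rw [dt_cr_cr, hu, hp, hup]; ring
  -- use the triple product expansion
  have h1 : cr (cr u p) v = dt u v • p - dt p v • u := cr_cr' u p v
  have h2 : cr (cr u p) (cr (cr u p) v) = dt (cr u p) v • cr u p - v := by
    rw [cr_cr, hq, one_smul]
  rw [h1, cr_sub_right, cr_smul_right, cr_smul_right] at h2
  have h3 : cr (cr u p) p = - u := by
    rw [cr_cr', hup, hp]; simp
  have h4 : cr (cr u p) u = p := by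
    rw [cr_cr', hu, dt_comm p u, hup]; simp
  rw [h3, h4] at h2
  calc v = dt (cr u p) v • cr u p - (dt u v • -u - dt p v • p) := by
        rw [h2]; abel
    _ = dt u v • u + dt p v • p + dt (cr u p) v • cr u p := by
        generalize dt (cr u p) v = a
        generalize dt u v = b
        generalize dt p v = c
        module

lemma is_rot (A : E ≃ₗᵢ[ℝ] E)
    (hdet : LinearMap.det A.toLinearIsometry.toLinearMap = 1) :
    ∃ (u : E) (c s : ℝ), dt u u = 1 ∧ c ^ 2 + s ^ 2 = 1 ∧ ∀ v : E, A v = rot u c s v := by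
  obtain ⟨u, hu, hAu⟩ := exists_axis A hdet
  obtain ⟨p, hp, hup⟩ := exists_perp hu
  have huAp : dt u (A p) = 0 := by
    have := dt_map A u p
    rw [hAu] at this
    rw [this, hup]
  have hd := decomp hu hp hup (A p)
  rw [huAp, zero_smul, zero_add] at hd
  set c := dt p (A p) with hc
  set s := dt (cr u p) (A p) with hs
  have hq : dt (cr u p) (cr u p) = 1 := by
    rw [dt_cr_cr, hu, hp, hup]; ring
  have hpq : dt p (cr u p) = 0 := by simp
  have hcs : c ^ 2 + s ^ 2 = 1 := by
    have h1 : dt (A p) (A p) = 1 := by rw [dt_map, hp]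
    rw [hd] at h1
    simp only [dt_add_left, dt_add_right, dt_smul_left, dt_smul_right, hp, hq, hpq,
      dt_comm (cr u p) p] at h1
    linarith
  have hpu : dt p u = 0 := by rw [dt_comm, hup]
  have hAq : A (cr u p) = c • cr u p - s • p := by
    rw [map_cr A hdet, hAu, hd, cr_add_right, cr_smul_right, cr_smul_right, cr_cr, hup, hu]
    module
  refine ⟨u, c, s, hu, hcs, fun v => ?_⟩
  have h0 : A u = rot u c s u := by rw [rot_axis hu, hAu]
  have h1 : A p = rot u c s p := by
    rw [hd, rot, hup]; simp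
  have h2 : A (cr u p) = rot u c s (cr u p) := by
    rw [hAq, rot, cr_cr, hup, hu]
    simp only [dt_self_cr_left]
    module
  have hv := decomp hu hp hup v
  calc A v = A (dt u v • u + dt p v • p + dt (cr u p) v • cr u p) := by rw [← hv]
    _ = dt u v • A u + dt p v • A p + dt (cr u p) v • A (cr u p) := by
        rw [map_add, map_add, map_smul, map_smul, map_smul]
    _ = rot u c s (dt u v • u + dt p v • p + dt (cr u p) v • cr u p) := by
        rw [h0, h1, h2, rot_add, rot_add, rot_smul, rot_smul, rot_smul]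
    _ = rot u c s v := by rw [← hv]

lemma pow_rot {A : E ≃ₗᵢ[ℝ] E} {u : E} (hu : dt u u = 1) {t : ℝ}
    (hA : ∀ v : E, A v = rot u (Real.cos t) (Real.sin t) v) (n : ℕ) (v : E) :
    (A ^ n) v = rot u (Real.cos (n * t)) (Real.sin (n * t)) v := by
  induction n generalizing v with
  | zero => simp [rot_one]
  | succ k ih =>
    rw [pow_succ, LinearIsometryEquiv.coe_mul, Function.comp_apply, hA, ih, rot_rot hu]
    congr 1
    · rw [← Real.cos_add]; congr 1; push_cast; ring
    · rw [add_comm, ← Real.sin_add]; congr 1; push_cast; ring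

lemma inv_rot {A : E ≃ₗᵢ[ℝ] E} {u : E} (hu : dt u u = 1) {c s : ℝ} (h : c ^ 2 + s ^ 2 = 1)
    (hA : ∀ v : E, A v = rot u c s v) (v : E) :
    A⁻¹ v = rot u c (-s) v := by
  have h1 : A (A⁻¹ v) = v := by
    exact LinearIsometryEquiv.apply_symm_apply A v
  have h2 : A (rot u c (-s) v) = v := by rw [hA, rot_inv' hu h]
  exact A.injective (h1.trans h2.symm)

lemma zpow_rot {A : E ≃ₗᵢ[ℝ] E} {u : E} (hu : dt u u = 1) {t : ℝ}
    (hA : ∀ v : E, A v = rot u (Real.cos t) (Real.sin t) v) (n : ℤ) (v : E) :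
    (A ^ n) v = rot u (Real.cos (n * t)) (Real.sin (n * t)) v := by
  cases n with
  | ofNat k =>
    have := pow_rot hu hA k v
    simpa using this
  | negSucc k =>
    rw [zpow_negSucc, inv_rot hu (Real.cos_sq_add_sin_sq _) (pow_rot hu hA (k + 1))]
    congr 1
    · rw [← Real.cos_neg]; congr 1; push_cast; ring
    · rw [← Real.sin_neg]; congr 1; push_cast; ring

lemma exists_angle {c s : ℝ} (h : c ^ 2 + s ^ 2 = 1) :
    ∃ t : ℝ, Real.cos t = c ∧ Real.sin t = s := by
  have hn : ‖(⟨c, s⟩ : ℂ)‖ = 1 := by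
    have h1 : ‖(⟨c, s⟩ : ℂ)‖ ^ 2 = 1 := by
      rw [← Complex.normSq_eq_norm_sq, Complex.normSq_mk]
      linarith
    have := norm_nonneg (⟨c, s⟩ : ℂ)
    nlinarith
  have h0 : (⟨c, s⟩ : ℂ) ≠ 0 := by
    intro h0
    rw [h0] at hn
    simp at hn
  refine ⟨Complex.arg ⟨c, s⟩, ?_, ?_⟩
  · rw [Complex.cos_arg h0, hn]; simp
  · rw [Complex.sin_arg, hn]; simp

lemma cos_bounds {x : ℝ} (h0 : 0 < x) (h1 : x ≤ 2 * Real.pi / 7) :
    0.59 ≤ Real.cos x ∧ Real.cos x < 1 := by
  have hpi := Real.pi_lt_d2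
  have hpi0 := Real.pi_pos
  have hx : x < 0.9 := by linarith
  constructor
  · have := Real.one_sub_sq_div_two_le_cos (x := x)
    nlinarith
  · have := Real.cos_lt_cos_of_nonneg_of_le_pi (le_refl (0 : ℝ)) (by linarith : x ≤ Real.pi) h0
    simpa using this

lemma cos_72 : Real.cos (2 * Real.pi / 5) = C5 := by
  have h : 2 * Real.pi / 5 = 2 * (Real.pi / 5) := by ring
  rw [h, Real.cos_two_mul, Real.cos_pi_div_five]
  have := sqrt5_sq
  unfold C5
  linear_combination (1 / 8) * this

lemma sin_72 : Real.sin (2 * Real.pi / 5) = S5 := by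
  have hpi0 := Real.pi_pos
  have h1 : 0 < Real.sin (2 * Real.pi / 5) := Real.sin_pos_of_pos_of_lt_pi (by positivity) (by linarith)
  have h2 := Real.cos_sq_add_sin_sq (2 * Real.pi / 5)
  rw [cos_72] at h2
  unfold S5
  rw [← h2, add_sub_cancel_left, Real.sqrt_sq h1.le]

/-- TARGET -/
theorem bad_rot (A : E ≃ₗᵢ[ℝ] E)
    (hdet : LinearMap.det A.toLinearIsometry.toLinearMap = 1)
    (hord : orderOf A ∉ ({1, 2, 3, 4, 6} : Finset ℕ)) :
    ∃ (n : ℤ) (u : E) (c s : ℝ), dt u u = 1 ∧ c ^ 2 + s ^ 2 = 1 ∧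
      ((c = C5 ∧ s = S5) ∨ (0.59 ≤ c ∧ c < 1)) ∧ ∀ v : E, (A ^ n) v = rot u c s v := by
  obtain ⟨u, c, s, hu, hcs, hA⟩ := is_rot A hdet
  obtain ⟨t, rfl, rfl⟩ := exists_angle hcs
  have hpi0 := Real.pi_pos
  -- angles in the subgroup
  have hang : ∀ (n m : ℤ) (x : ℝ), n • t + m • (2 * Real.pi) = x →
      ∀ v : E, (A ^ n) v = rot u (Real.cos x) (Real.sin x) v := by
    intro n m x hx v
    rw [zpow_rot hu hA n v]
    have h1 : (n : ℝ) * t = x - m * (2 * Real.pi) := by
      rw [← hx]; simp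
    rw [h1, Real.cos_sub_int_mul_two_pi, Real.sin_sub_int_mul_two_pi]
  rcases AddSubgroup.dense_or_cyclic (AddSubgroup.closure ({t, 2 * Real.pi} : Set ℝ)) with hd | ⟨a, ha⟩
  · obtain ⟨x, hxm, hx0, hx1⟩ := hd.exists_between (show (0 : ℝ) < 2 * Real.pi / 7 by positivity)
    obtain ⟨n, m, hnm⟩ := AddSubgroup.mem_closure_pair.mp hxm
    exact ⟨n, u, Real.cos x, Real.sin x, hu, Real.cos_sq_add_sin_sq x,
      Or.inr (cos_bounds hx0 hx1.le), hang n m x hnm⟩
  · -- normalise the generator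
    have hpair : ∃ (N : ℕ) (M n m : ℤ) (b : ℝ), 1 ≤ N ∧ 2 * Real.pi = N * b ∧ t = M * b ∧
        n • t + m • (2 * Real.pi) = b := by
      have m1 : t ∈ AddSubgroup.closure ({a} : Set ℝ) := by
        rw [← ha]; exact AddSubgroup.subset_closure (by simp)
      have m2 : 2 * Real.pi ∈ AddSubgroup.closure ({a} : Set ℝ) := by
        rw [← ha]; exact AddSubgroup.subset_closure (by simp)
      have m3 : a ∈ AddSubgroup.closure ({t, 2 * Real.pi} : Set ℝ) := by
        rw [ha]; exact AddSubgroup.subset_closure (by simp)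
      obtain ⟨M, hM⟩ := AddSubgroup.mem_closure_singleton.mp m1
      obtain ⟨N, hN⟩ := AddSubgroup.mem_closure_singleton.mp m2
      obtain ⟨n, m, hnm⟩ := AddSubgroup.mem_closure_pair.mp m3
      have hN0 : N ≠ 0 := by
        rintro rfl
        rw [zero_smul] at hN
        linarith
      rcases lt_or_gt_of_ne hN0 with hneg | hpos
      · refine ⟨N.natAbs, -M, -n, -m, -a, ?_, ?_, ?_, ?_⟩
        · omega
        · rw [← hN, zsmul_eq_mul]
          have : ((N.natAbs : ℕ) : ℝ) = -(N : ℝ) := by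
            rw [Nat.cast_natAbs, abs_of_neg hneg]; push_cast; ring
          rw [this]; ring
        · rw [← hM, zsmul_eq_mul]; push_cast; ring
        · rw [← hnm]; simp only [neg_smul]; abel
      · refine ⟨N.natAbs, M, n, m, a, ?_, ?_, ?_, hnm⟩
        · omega
        · rw [← hN, zsmul_eq_mul]
          have : ((N.natAbs : ℕ) : ℝ) = (N : ℝ) := by
            rw [Nat.cast_natAbs, abs_of_pos hpos]
          rw [this]
        · rw [← hM, zsmul_eq_mul]
    obtain ⟨N, M, n, m, b, hN1, hN, hM, hnm⟩ := hpair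
    have hNpos : (0 : ℝ) < N := by exact_mod_cast hN1
    have hb : b = 2 * Real.pi / N := by
      rw [hN]; field_simp
    have hApow : A ^ N = 1 := by
      apply LinearIsometryEquiv.ext
      intro v
      rw [pow_rot hu hA N v]
      have h1 : (N : ℝ) * t = M * (2 * Real.pi) := by
        rw [hM, hN]; ring
      have h2 : Real.cos ((M : ℝ) * (2 * Real.pi)) = 1 := Real.cos_int_mul_two_pi M
      have h3 : Real.sin ((M : ℝ) * (2 * Real.pi)) = 0 := by
        have := Real.sin_int_mul_pi (M * 2)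
        push_cast at this
        rw [← this]; congr 1; ring
      rw [h1, h2, h3, rot_one]
      simp
    have hdvd := orderOf_dvd_of_pow_eq_one hApow
    rcases lt_or_ge N 7 with hlt | hge
    · by_cases h5 : N = 5
      · subst h5
        refine ⟨n, u, C5, S5, hu, C5_S5, Or.inl ⟨rfl, rfl⟩, ?_⟩
        intro v
        rw [hang n m b hnm v, hb]
        push_cast
        rw [cos_72, sin_72]
      · exfalso
        apply hord
        have hle := Nat.le_of_dvd (by omega) hdvd
        have hpos : 0 < orderOf A := Nat.pos_of_dvd_of_pos hdvd (by omega)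
        have hne : orderOf A ≠ 5 := by
          intro h
          rw [h] at hdvd hle
          obtain ⟨k, hk⟩ := hdvd
          omega
        simp only [Finset.mem_insert, Finset.mem_singleton]
        omega
    · have hNge : (7 : ℝ) ≤ N := by exact_mod_cast hge
      refine ⟨n, u, Real.cos b, Real.sin b, hu, Real.cos_sq_add_sin_sq b,
        Or.inr (cos_bounds ?_ ?_), hang n m b hnm⟩
      · rw [hb]; positivity
      · rw [hb]
        exact div_le_div_of_nonneg_left (by positivity) (by norm_num) hNge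

end Pool.Agent.H304
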