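import Pool.Agent.helper304_ico.WorldDefs
import Pool.Agent.helper304_ico.Rotation

set_option autoImplicit false

namespace Pool.Agent.H304

/-- powers of a map preserving a cluster preserve it -/
lemma m9_zpow {X : Set E} {R : ℝ} {x : E} {A : E ≃ₗᵢ[ℝ] E}
    (hA : ∀ v : E, ‖v‖ ≤ 2 * R → (x + v ∈ X ↔ x + A v ∈ X)) (n : ℤ) :
    ∀ v : E, ‖v‖ ≤ 2 * R → (x + v ∈ X ↔ x + (A ^ n) v ∈ X) := by
  have hinv : ∀ v : E, A (A⁻¹ v) = v := fun v => A.apply_symm_apply v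
  have hinvn : ∀ v : E, ‖A⁻¹ v‖ = ‖v‖ := fun v => LinearIsometryEquiv.norm_map _ _
  induction n using Int.induction_on with
  | zero => intro v _; simp
  | succ n ih =>
    intro v hv
    have h1 : (A ^ ((n : ℤ) + 1)) v = (A ^ (n : ℤ)) (A v) := by
      rw [zpow_add, zpow_one]; rfl
    rw [h1, ← ih (A v) (by rw [LinearIsometryEquiv.norm_map]; exact hv)]
    exact hA v hv
  | pred n ih =>
    intro v hv
    have h1 : (A ^ (-(n : ℤ) - 1)) v = (A ^ (-(n : ℤ))) (A⁻¹ v) := by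
      rw [sub_eq_add_neg, zpow_add, zpow_neg_one]; rfl
    have h2 := hA (A⁻¹ v) (by rw [hinvn]; exact hv)
    rw [hinv] at h2
    rw [h1, ← ih (A⁻¹ v) (by rw [hinvn]; exact hv)]
    exact h2.symm

lemma m9_zpow_neg {A : E ≃ₗᵢ[ℝ] E} {n : ℤ} {u : E} {c s : ℝ} (hu : dt u u = 1)
    (hcs : c ^ 2 + s ^ 2 = 1) (h : ∀ v : E, (A ^ n) v = rot u c s v) (v : E) :
    (A ^ (-n)) v = rot u c (-s) v := by
  have h1 : (A ^ (-n)) ((A ^ n) (rot u c (-s) v)) = rot u c (-s) v := by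
    have h2 : (A ^ (-n)) * (A ^ n) = 1 := by rw [← zpow_add]; simp
    have h3 := congrArg (fun B : E ≃ₗᵢ[ℝ] E => B (rot u c (-s) v)) h2
    exact h3
  rw [h, rot_inv' hu hcs] at h1
  exact h1

/-- a uniformly separated set is locally finite -/
lemma m9_fin {X : Set E} {r : ℝ} (hr : 0 < r)
    (hsep : ∀ x ∈ X, ∀ y ∈ X, x ≠ y → 2 * r ≤ dist x y) (K : ℝ) :
    (X ∩ {x | ‖x‖ ≤ K}).Finite := by
  have hc : IsCompact (Metric.closedBall (0 : E) K) := isCompact_closedBall _ _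
  obtain ⟨t, -, htf, ht⟩ := hc.finite_cover_balls hr
  refine (htf.biUnion (t := fun y => X ∩ Metric.ball y r) fun y _ => ?_).subset ?_
  · apply Set.Subsingleton.finite
    rintro a ⟨haX, ha⟩ b ⟨hbX, hb⟩
    by_contra hne
    have h1 := hsep a haX b hbX hne
    have h2 := dist_triangle_right a b y
    rw [Metric.mem_ball] at ha hb
    linarith
  · rintro x ⟨hxX, hx⟩
    have h1 : x ∈ Metric.closedBall (0 : E) K := by
      rw [Metric.mem_closedBall, dist_zero_right]; exact hx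
    have h2 := ht h1
    simp only [Set.mem_iUnion] at h2 ⊢
    obtain ⟨y, hy, hxy⟩ := h2
    exact ⟨y, hy, hxX, hxy⟩

/-- TARGET M9: choice of the rotations when there is no kernel point -/
theorem GW.of_no_kernel {X : Set E} {r R K : ℝ} (hr : 0 < r)
    (hsep : ∀ x ∈ X, ∀ y ∈ X, x ≠ y → 2 * r ≤ dist x y)
    (hcov : ∀ y : E, ∃ x ∈ X, dist x y ≤ R) (p₀ : E)
    (hno : ∀ x ∈ X, dist x p₀ ≤ K → ∃ A : E ≃ₗᵢ[ℝ] E,
      (∀ v : E, ‖v‖ ≤ 2 * R → (x + v ∈ X ↔ x + A v ∈ X)) ∧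
      LinearMap.det A.toLinearIsometry.toLinearMap = 1 ∧
      orderOf A ∉ ({1, 2, 3, 4, 6} : Finset ℕ)) :
    ∃ (u : E → E) (c s : E → ℝ), GW X R p₀ K u c s := by
  have hex : ∀ x : E, ∃ (u : E) (c s : ℝ), x ∈ X → ‖x - p₀‖ ≤ K →
      dt u u = 1 ∧ c ^ 2 + s ^ 2 = 1 ∧ ((c = C5 ∧ s = S5) ∨ (0.59 ≤ c ∧ c < 1)) ∧
      ∀ v : E, ‖v‖ ≤ 2 * R → x + v ∈ X → x + H304.rot u c s v ∈ X ∧ x + H304.rot u c (-s) v ∈ X := by
    intro x
    by_cases hx : x ∈ X ∧ ‖x - p₀‖ ≤ K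
    · obtain ⟨hxX, hxK⟩ := hx
      obtain ⟨A, hA, hdet, hord⟩ := hno x hxX (by rw [dist_eq_norm]; exact hxK)
      obtain ⟨n, u, c, s, hu, hcs, hang, hrot⟩ := bad_rot A hdet hord
      refine ⟨u, c, s, fun _ _ => ⟨hu, hcs, hang, fun v hv hxv => ⟨?_, ?_⟩⟩⟩
      · rw [← hrot]
        exact (m9_zpow hA n v hv).1 hxv
      · rw [← m9_zpow_neg hu hcs hrot]
        exact (m9_zpow hA (-n) v hv).1 hxv
    · exact ⟨0, 0, 0, fun h1 h2 => absurd ⟨h1, h2⟩ hx⟩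
  choose u c s h using hex
  have hR : 0 < R := by
    by_contra hR
    rw [not_lt] at hR
    have hall : ∀ y : E, y ∈ X := by
      intro y
      obtain ⟨x, hx, hxy⟩ := hcov y
      have h1 : dist x y = 0 := le_antisymm (hxy.trans hR) dist_nonneg
      rw [← dist_eq_zero.1 h1]
      exact hx
    obtain ⟨w, hw⟩ := exists_norm_eq E hr.le
    have hw0 : w ≠ 0 := by
      rintro rfl
      rw [norm_zero] at hw
      exact hr.ne hw
    have h2 := hsep w (hall w) 0 (hall 0) hw0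
    rw [dist_zero_right, hw] at h2
    linarith
  refine ⟨u, c, s, hR, ?_, m9_fin hr hsep, ?_, ?_, ?_, ?_⟩
  · intro y
    obtain ⟨x, hx, hxy⟩ := hcov y
    exact ⟨x, hx, by rw [← dist_eq_norm]; exact hxy⟩
  · exact fun x hx hK => (h x hx hK).1
  · exact fun x hx hK => (h x hx hK).2.1
  · exact fun x hx hK => (h x hx hK).2.2.1
  · exact fun x hx hK => (h x hx hK).2.2.2

end Pool.Agent.H304
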