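import Pool.Agent.helper304_ico.WorldDefs

set_option autoImplicit false

namespace Pool.Agent.H304

/-- the angle between adjacent vertices -/
lemma ico_kappa {κ : ℝ} (h : (1 - C5) * κ = C5) : κ = Real.sqrt 5 / 5 := by
  have h5 := sqrt5_sq
  have hg := sqrt5_gt
  have hl := sqrt5_lt
  have e : (5 - Real.sqrt 5) * κ = Real.sqrt 5 - 1 := by
    have := h
    unfold C5 at this
    linarith
  have hne : (5 - Real.sqrt 5) ≠ 0 := by linarith
  have e2 : (5 - Real.sqrt 5) * (Real.sqrt 5 / 5) = Real.sqrt 5 - 1 := by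
    linear_combination (-1 / 5) * h5
  exact mul_left_cancel₀ hne (e.trans e2.symm)

lemma S5_sq' : S5 ^ 2 = (5 + Real.sqrt 5) / 8 := by
  rw [S5_sq]; unfold C5; linear_combination (-1 / 16) * sqrt5_sq

lemma two_phi_C5 : 2 * Real.goldenRatio * C5 = 1 := by
  unfold C5 Real.goldenRatio
  linear_combination (1 / 4) * sqrt5_sq

/-- orthonormal basis from three orthonormal vectors given by `dt` -/
lemma exists_basis_of_dt {b0 b1 b2 : E} (h00 : dt b0 b0 = 1) (h11 : dt b1 b1 = 1) (h22 : dt b2 b2 = 1)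
    (h01 : dt b0 b1 = 0) (h02 : dt b0 b2 = 0) (h12 : dt b1 b2 = 0) :
    ∃ b : OrthonormalBasis (Fin 3) ℝ (EuclideanSpace ℝ (Fin 3)), b 0 = b0 ∧ b 1 = b1 ∧ b 2 = b2 := by
  have ho : Orthonormal ℝ (![b0, b1, b2] : Fin 3 → EuclideanSpace ℝ (Fin 3)) := by
    rw [orthonormal_iff_ite]
    intro i j
    rw [inner_eq_dt]
    fin_cases i <;> fin_cases j <;> simp [h00, h11, h22, h01, h02, h12, dt_comm b1 b0, dt_comm b2 b0, dt_comm b2 b1]
  have hcard : Fintype.card (Fin 3) = Module.finrank ℝ (EuclideanSpace ℝ (Fin 3)) := by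
    simp
  let bb := basisOfOrthonormalOfCardEqFinrank ho hcard
  have hbb : (bb : Fin 3 → EuclideanSpace ℝ (Fin 3)) = ![b0, b1, b2] :=
    coe_basisOfOrthonormalOfCardEqFinrank ho hcard
  have hob : Orthonormal ℝ bb := by rw [hbb]; exact ho
  refine ⟨bb.toOrthonormalBasis hob, ?_, ?_, ?_⟩
  · rw [Module.Basis.coe_toOrthonormalBasis, hbb]; rfl
  · rw [Module.Basis.coe_toOrthonormalBasis, hbb]; rfl
  · rw [Module.Basis.coe_toOrthonormalBasis, hbb]; rfl


lemma C5_def' : C5 = (Real.sqrt 5 - 1) / 4 := rfl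
lemma phi_def' : Real.goldenRatio = (1 + Real.sqrt 5) / 2 := rfl

/-- the rotation about `p₀` in the coordinates `p₀`, `p₁`, `cr p₀ p₁` -/
lemma rot_coord {p₀ p₁ : E} (h0 : dt p₀ p₀ = 1) (h : dt p₀ p₁ = Real.sqrt 5 / 5) (x y z : ℝ) :
    rot p₀ C5 S5 (x • p₀ + y • p₁ + z • cr p₀ p₁) =
      (x + C5 * y + S5 * (Real.sqrt 5 / 5) * z) • p₀ + (C5 * y - S5 * z) • p₁ +
        (S5 * y + C5 * z) • cr p₀ p₁ := by
  have h1 : cr p₀ (cr p₀ p₁) = (Real.sqrt 5 / 5) • p₀ - p₁ := by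
    rw [cr_cr, h0, h, one_smul]
  have hk : (1 - C5) * (Real.sqrt 5 / 5) = C5 := by
    rw [C5_def']; linear_combination (-1 / 20) * sqrt5_sq
  rw [rot_add, rot_add, rot_smul, rot_smul, rot_smul, rot_axis h0]
  have e1 : rot p₀ C5 S5 p₁ = C5 • p₀ + C5 • p₁ + S5 • cr p₀ p₁ := by
    simp only [rot, h, hk]; abel
  have e2 : rot p₀ C5 S5 (cr p₀ p₁) = (S5 * (Real.sqrt 5 / 5)) • p₀ - S5 • p₁ + C5 • cr p₀ p₁ := by
    simp only [rot, h1, dt_self_cr_left, mul_zero, zero_smul, add_zero]; module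
  rw [e1, e2]
  module

lemma rot1 {p₀ p₁ : E} (h0 : dt p₀ p₀ = 1) (h : dt p₀ p₁ = Real.sqrt 5 / 5) :
    (rot p₀ C5 S5)^[1] p₁ = C5 • p₀ + C5 • p₁ + S5 • cr p₀ p₁ := by
  have := rot_coord h0 h 0 1 0
  simpa using this

lemma rot2 {p₀ p₁ : E} (h0 : dt p₀ p₀ = 1) (h : dt p₀ p₁ = Real.sqrt 5 / 5) :
    (rot p₀ C5 S5)^[2] p₁ = (Real.goldenRatio / 2) • p₀ + (-(Real.goldenRatio / 2)) • p₁ +
      (2 * C5 * S5) • cr p₀ p₁ := by
  rw [Function.iterate_succ_apply', rot1 h0 h, rot_coord h0 h]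
  have hS := S5_sq'
  have h5 := sqrt5_sq
  congr 1
  · congr 1
    · congr 1
      rw [C5_def', phi_def']
      linear_combination (Real.sqrt 5 / 5) * hS + (1 / 16 + 1 / 40) * h5
    · congr 1
      rw [C5_def', phi_def']
      linear_combination (-1) * hS + (1 / 16) * h5
  · congr 1
    ring

lemma rot3 {p₀ p₁ : E} (h0 : dt p₀ p₀ = 1) (h : dt p₀ p₁ = Real.sqrt 5 / 5) :
    (rot p₀ C5 S5)^[3] p₁ = (Real.goldenRatio / 2) • p₀ + (-(Real.goldenRatio / 2)) • p₁ +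
      (-(2 * C5 * S5)) • cr p₀ p₁ := by
  rw [Function.iterate_succ_apply', rot2 h0 h, rot_coord h0 h]
  have hS := S5_sq'
  have h5 := sqrt5_sq
  congr 1
  · congr 1
    · congr 1
      rw [C5_def', phi_def']
      linear_combination (Real.sqrt 5 / 5 * (Real.sqrt 5 - 1) / 2) * hS + (-1/16 + 1/80 * Real.sqrt 5 + 4/80) * h5
    · congr 1
      rw [C5_def', phi_def']
      linear_combination (-(Real.sqrt 5 - 1) / 2) * hS + (-1/16 - 1/16) * h5
  · congr 1
    rw [C5_def', phi_def']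
    linear_combination (S5 / 8) * h5

lemma rot4 {p₀ p₁ : E} (h0 : dt p₀ p₀ = 1) (h : dt p₀ p₁ = Real.sqrt 5 / 5) :
    (rot p₀ C5 S5)^[4] p₁ = C5 • p₀ + C5 • p₁ + (-S5) • cr p₀ p₁ := by
  rw [Function.iterate_succ_apply', rot3 h0 h, rot_coord h0 h]
  have hS := S5_sq'
  have h5 := sqrt5_sq
  congr 1
  · congr 1
    · congr 1
      rw [C5_def', phi_def']
      linear_combination (-(Real.sqrt 5 / 5 * (Real.sqrt 5 - 1) / 2)) * hS + (-1/16 - 1/80 * Real.sqrt 5 - 4/80) * h5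
    · congr 1
      rw [C5_def', phi_def']
      linear_combination ((Real.sqrt 5 - 1) / 2) * hS + (-1/16 + 1/16) * h5
  · congr 1
    rw [C5_def', phi_def']
    linear_combination (-S5 / 8) * h5

/-- TARGET M8: standard form of the icosahedron -/
theorem Ico.standard {X : Set E} {q : E} {a : ℝ} {p₀ p₁ : E} (h : Ico X q a p₀ p₁) :
    ∃ a' : ℝ, 0 < a' ∧ ∃ b : OrthonormalBasis (Fin 3) ℝ (EuclideanSpace ℝ (Fin 3)),
      ∀ i : Fin 3, ∀ σ τ : ℝ, (σ = 1 ∨ σ = -1) → (τ = 1 ∨ τ = -1) →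
        q + a' • (σ • b i + (τ * Real.goldenRatio) • b (i + 1)) ∈ X := by
  obtain ⟨ha, h00, h11, hk, hA, hB⟩ := h
  have h01 : dt p₀ p₁ = Real.sqrt 5 / 5 := ico_kappa hk
  have hS := S5_sq'
  have h5 := sqrt5_sq
  have hSpos := S5_pos
  have hSne : S5 ≠ 0 := hSpos.ne'
  have hφC := two_phi_C5
  set w := cr p₀ p₁ with hw
  have hww : dt w w = 4 / 5 := by
    rw [hw, dt_cr_cr, h00, h11, dt_comm p₁ p₀, h01]
    linear_combination (-1 / 25) * h5
  have d0w : dt p₀ w = 0 := dt_self_cr_left _ _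
  have d1w : dt p₁ w = 0 := dt_self_cr_right _ _
  have dw0 : dt w p₀ = 0 := dt_cr_self_left _ _
  have dw1 : dt w p₁ = 0 := dt_cr_self_right _ _
  have h10 : dt p₁ p₀ = Real.sqrt 5 / 5 := by rw [dt_comm]; exact h01
  obtain ⟨b, hb0, hb1, hb2⟩ := exists_basis_of_dt (b0 := (4 * C5 * S5 ^ 2) • w)
    (b1 := S5 • (p₀ - p₁)) (b2 := (2 * C5 * S5) • (p₀ + p₁))
    (by
      rw [dt_smul_left, dt_smul_right, hww, hS, C5_def']
      linear_combination (1/80 * Real.sqrt 5 ^ 2 - 1/16 + 1/10 * Real.sqrt 5 + 1/5) * h5)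
    (by
      simp only [dt_smul_left, dt_smul_right, dt_sub_left, dt_sub_right, h00, h11, h01, h10]
      linear_combination (2 - 2 * Real.sqrt 5 / 5) * hS + (-1/20) * h5)
    (by
      simp only [dt_smul_left, dt_smul_right, dt_add_left, dt_add_right, h00, h11, h01, h10]
      rw [C5_def']
      linear_combination (((Real.sqrt 5 - 1)/2)^2 * (2 + 2 * Real.sqrt 5 / 5)) * hS +
        (1/80 * Real.sqrt 5 ^ 2 - 1/16 + 1/10 * Real.sqrt 5 + 1/5) * h5)
    (by simp only [dt_smul_left, dt_smul_right, dt_sub_right, dw0, dw1]; ring)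
    (by simp only [dt_smul_left, dt_smul_right, dt_add_right, dw0, dw1]; ring)
    (by simp only [dt_smul_left, dt_smul_right, dt_sub_left, dt_add_right, h00, h11, h01, h10]; ring)
  refine ⟨a / (2 * S5), by positivity, b, ?_⟩
  intro i σ τ hσ hτ
  have key : ∀ v : E, (∃ ε : ℝ, (ε = 1 ∨ ε = -1) ∧
      ((v = (ε * (2 * S5)) • p₀) ∨ ∃ n : ℕ, v = (ε * (2 * S5)) • ((rot p₀ C5 S5)^[n] p₁))) →
      q + (a / (2 * S5)) • v ∈ X := by
    rintro v ⟨ε, hε, h | ⟨n, h⟩⟩
    · have := hA ε hε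
      rw [h, smul_smul]
      convert this using 3
      field_simp
    · have := hB ε hε n
      rw [h, smul_smul]
      convert this using 3
      field_simp
  apply key
  have i0 : (0 : Fin 3) + 1 = 1 := rfl
  have i1 : (1 : Fin 3) + 1 = 2 := rfl
  have i2 : (2 : Fin 3) + 1 = 0 := rfl
  fin_cases i
  · simp only [Fin.zero_eta, i0, hb0, hb1]
    refine ⟨τ, hτ, Or.inr ?_⟩
    have hst : σ = τ ∨ σ = -τ := by
      rcases hσ with rfl | rfl <;> rcases hτ with rfl | rfl <;> norm_num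
    rcases hst with rfl | rfl
    · refine ⟨2, ?_⟩
      rw [rot2 h00 h01]
      module
    · refine ⟨3, ?_⟩
      rw [rot3 h00 h01]
      module
  · simp only [Fin.mk_one, i1, hb1, hb2]
    have hst : σ = τ ∨ σ = -τ := by
      rcases hσ with rfl | rfl <;> rcases hτ with rfl | rfl <;> norm_num
    refine ⟨τ, hτ, ?_⟩
    rcases hst with rfl | rfl
    · left
      have e : (σ * Real.goldenRatio) • (2 * C5 * S5) • (p₀ + p₁) = (σ * S5) • (p₀ + p₁) := by
        rw [smul_smul]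
        congr 1
        linear_combination (σ * S5) * hφC
      rw [e]
      module
    · right
      refine ⟨0, ?_⟩
      have e : (τ * Real.goldenRatio) • (2 * C5 * S5) • (p₀ + p₁) = (τ * S5) • (p₀ + p₁) := by
        rw [smul_smul]
        congr 1
        linear_combination (τ * S5) * hφC
      rw [e]
      simp only [Function.iterate_zero, id]
      module
  · have i2'' : (⟨2, by norm_num⟩ : Fin 3) = 2 := rfl
    simp only [i2'', i2, hb0, hb2]
    have hst : σ = τ ∨ σ = -τ := by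
      rcases hσ with rfl | rfl <;> rcases hτ with rfl | rfl <;> norm_num
    refine ⟨σ, hσ, Or.inr ?_⟩
    have e : (τ * Real.goldenRatio) • (4 * C5 * S5 ^ 2) • w = (τ * (2 * S5 ^ 2)) • w := by
      rw [smul_smul]
      congr 1
      linear_combination (τ * (2 * S5 ^ 2)) * hφC
    rw [e]
    rcases hst with rfl | rfl
    · refine ⟨1, ?_⟩
      rw [rot1 h00 h01]
      module
    · refine ⟨4, ?_⟩
      rw [rot4 h00 h01]
      module

end Pool.Agent.H304
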