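import Pool.Agent.helper304_ico.WClose

set_option autoImplicit false

namespace Pool.Agent.H304

/-- TARGET M2: a minimal pair and the local world around it -/
theorem GW.minimal {X : Set E} {R T : ℝ} {p₀ : E} {u : E → E} {c s : E → ℝ}
    (W : GW X R p₀ T u c s) (hT : 10 ^ 8 * R ≤ T) :
    ∃ x ∈ X, ∃ y ∈ X, ‖x - p₀‖ ≤ 10 ^ 7 * R ∧ cr (u x) (y - x) ≠ 0 ∧
      LW X R ‖y - x‖ x u c s := by
  have hR := W.Rpos
  have hC1 := C5_gt
  have hC2 := C5_lt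
  -- short vectors
  have hshort : ∀ v : E, (1 - C5) * dt v v < 2 * R ^ 2 → ‖v‖ ≤ 2 * R := by
    intro v hv
    rw [← norm_sq_eq_dt] at hv
    have h0 := norm_nonneg v
    by_contra hlt
    push Not at hlt
    nlinarith [mul_self_nonneg (‖v‖ - 2 * R)]
  let P : Set (E × E) := {q | q.1 ∈ X ∧ q.2 ∈ X ∧ cr (u q.1) (q.2 - q.1) ≠ 0 ∧
    (1 - C5) * dt (q.2 - q.1) (q.2 - q.1) < 2 * R ^ 2 ∧
    ‖q.1 - p₀‖ + 10 ^ 6 * ‖q.2 - q.1‖ ≤ 10 ^ 7 * R}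
  have hfin : P.Finite := by
    have hF := W.fin (‖p₀‖ + 10 ^ 8 * R)
    refine (hF.prod hF).subset ?_
    rintro ⟨a, b⟩ ⟨ha, hb, _, h1, h2⟩
    simp only at ha hb h1 h2
    have hab := hshort _ h1
    have h3 : ‖a - p₀‖ ≤ 10 ^ 7 * R := by
      have := norm_nonneg (b - a)
      linarith
    have h4 : ‖a‖ ≤ ‖p₀‖ + ‖a - p₀‖ := by
      calc ‖a‖ = ‖p₀ + (a - p₀)‖ := by rw [add_sub_cancel]
        _ ≤ _ := norm_add_le _ _
    have h5 : ‖b‖ ≤ ‖a‖ + ‖b - a‖ := by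
      calc ‖b‖ = ‖a + (b - a)‖ := by rw [add_sub_cancel]
        _ ≤ _ := norm_add_le _ _
    refine ⟨⟨ha, ?_⟩, ⟨hb, ?_⟩⟩
    · show ‖a‖ ≤ _
      linarith
    · show ‖b‖ ≤ _
      linarith
  have hne : P.Nonempty := by
    obtain ⟨x, hx, y, hy, h1, _, h2, h3⟩ := W.close (by linarith)
    refine ⟨(x, y), hx, hy, h2, h3, ?_⟩
    have := hshort _ h3
    show ‖x - p₀‖ + 10 ^ 6 * ‖y - x‖ ≤ 10 ^ 7 * R
    linarith
  obtain ⟨⟨x, y⟩, ⟨hx, hy, hcr, hsm, hsum⟩, hmin⟩ :=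
    Set.exists_min_image P (fun q => ‖q.2 - q.1‖) hfin hne
  simp only at hx hy hcr hsm hsum hmin
  have hxy : y - x ≠ 0 := by
    intro h
    rw [h] at hcr
    exact hcr (cr_zero_right _)
  have hD : 0 < ‖y - x‖ := norm_pos_iff.2 hxy
  have hxp : ‖x - p₀‖ + 100 * ‖y - x‖ ≤ 10 ^ 7 * R := by linarith
  have hnear : ∀ z : E, ‖z - x‖ ≤ 100 * ‖y - x‖ → ‖z - p₀‖ ≤ ‖x - p₀‖ + 100 * ‖y - x‖ := by
    intro z hz
    calc ‖z - p₀‖ = ‖(z - x) + (x - p₀)‖ := by rw [sub_add_sub_cancel]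
      _ ≤ ‖z - x‖ + ‖x - p₀‖ := norm_add_le _ _
      _ ≤ _ := by linarith
  have hnT : ∀ z : E, ‖z - x‖ ≤ 100 * ‖y - x‖ → ‖z - p₀‖ ≤ T := by
    intro z hz
    have := hnear z hz
    linarith
  refine ⟨x, hx, y, hy, by linarith, hcr, ?_⟩
  -- pairs in the ball that are not coaxial are not shorter
  have key : ∀ a ∈ X, ‖a - x‖ ≤ 100 * ‖y - x‖ → ∀ b ∈ X,
      dt (b - a) (b - a) < 0.9998 * ‖y - x‖ ^ 2 → cr (u a) (b - a) = 0 := by
    intro a ha hax b hb hlt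
    by_contra hcr'
    rw [← norm_sq_eq_dt] at hlt hsm
    have h0 := norm_nonneg (b - a)
    have h1 : ‖b - a‖ ≤ 0.9999 * ‖y - x‖ := by
      by_contra h2
      push Not at h2
      nlinarith
    have h2 := hnear a hax
    have hP : ((a, b) : E × E) ∈ P := by
      refine ⟨ha, hb, hcr', ?_, ?_⟩
      · show (1 - C5) * dt (b - a) (b - a) < 2 * R ^ 2
        rw [← norm_sq_eq_dt]
        nlinarith
      · show ‖a - p₀‖ + 10 ^ 6 * ‖b - a‖ ≤ 10 ^ 7 * R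
        linarith
    have h3 := hmin _ hP
    simp only at h3
    linarith
  refine ⟨hD, hR, by rw [norm_sq_eq_dt]; exact hsm, fun z hz hzx => W.unit z hz (hnT z hzx),
    fun z hz hzx => W.cs z hz (hnT z hzx), fun z hz hzx => W.ang z hz (hnT z hzx),
    fun z hz hzx => W.rot z hz (hnT z hzx), ?_⟩
  intro a ha hax b hb hbx _ hlt
  refine ⟨key a ha hax b hb hlt, ?_⟩
  have h1 : a - b = -(b - a) := by abel
  have h2 : dt (a - b) (a - b) < 0.9998 * ‖y - x‖ ^ 2 := by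
    rw [h1, dt_neg_left, dt_neg_right, neg_neg]; exact hlt
  have h3 := key b hb hbx a ha h2
  rw [h1, cr_neg_right, neg_eq_zero] at h3
  exact h3

end Pool.Agent.H304
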