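import Mathlib

set_option autoImplicit false

namespace Pool.Agent.H304

/-- Euclidean three-space -/
abbrev E := EuclideanSpace ℝ (Fin 3)

/-- cross product -/
noncomputable def cr (u v : E) : E :=
  !₂[u 1 * v 2 - u 2 * v 1, u 2 * v 0 - u 0 * v 2, u 0 * v 1 - u 1 * v 0]

/-- scalar product -/
noncomputable def dt (u v : E) : ℝ := u 0 * v 0 + u 1 * v 1 + u 2 * v 2

@[simp] lemma cr_0 (u v : E) : (cr u v) 0 = u 1 * v 2 - u 2 * v 1 := by simp [cr]
@[simp] lemma cr_1 (u v : E) : (cr u v) 1 = u 2 * v 0 - u 0 * v 2 := by simp [cr]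
@[simp] lemma cr_2 (u v : E) : (cr u v) 2 = u 0 * v 1 - u 1 * v 0 := by simp [cr]

lemma ext3 {u v : E} (h0 : u 0 = v 0) (h1 : u 1 = v 1) (h2 : u 2 = v 2) : u = v := by
  ext i; fin_cases i <;> simp_all

lemma inner_eq_dt (u v : E) : inner ℝ u v = dt u v := by
  simp [dt, PiLp.inner_apply, Fin.sum_univ_three]; ring

lemma norm_sq_eq_dt (u : E) : ‖u‖ ^ 2 = dt u u := by
  rw [← inner_eq_dt, real_inner_self_eq_norm_sq]

lemma norm_eq_sqrt_dt (u : E) : ‖u‖ = Real.sqrt (dt u u) := by
  rw [← norm_sq_eq_dt, Real.sqrt_sq (norm_nonneg _)]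

lemma norm_eq_one_iff_dt (u : E) : ‖u‖ = 1 ↔ dt u u = 1 := by
  rw [← norm_sq_eq_dt]
  constructor
  · intro h; rw [h]; norm_num
  · intro h
    have := norm_nonneg u
    nlinarith

lemma dt_self_nonneg (u : E) : 0 ≤ dt u u := by rw [← norm_sq_eq_dt]; positivity

lemma dt_self_eq_zero {u : E} (h : dt u u = 0) : u = 0 := by
  rw [← norm_sq_eq_dt] at h
  simpa using h

lemma dt_comm (u v : E) : dt u v = dt v u := by simp only [dt]; ring
lemma dt_add_left (u v w : E) : dt (u + v) w = dt u w + dt v w := by simp [dt]; ring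
lemma dt_add_right (u v w : E) : dt w (u + v) = dt w u + dt w v := by simp [dt]; ring
lemma dt_sub_left (u v w : E) : dt (u - v) w = dt u w - dt v w := by simp [dt]; ring
lemma dt_sub_right (u v w : E) : dt w (u - v) = dt w u - dt w v := by simp [dt]; ring
lemma dt_smul_left (a : ℝ) (u w : E) : dt (a • u) w = a * dt u w := by simp [dt]; ring
lemma dt_smul_right (a : ℝ) (u w : E) : dt w (a • u) = a * dt w u := by simp [dt]; ring
lemma dt_neg_left (u w : E) : dt (-u) w = - dt u w := by simp [dt]; ring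
lemma dt_neg_right (u w : E) : dt w (-u) = - dt w u := by simp [dt]; ring
@[simp] lemma dt_zero_left (w : E) : dt 0 w = 0 := by simp [dt]
@[simp] lemma dt_zero_right (w : E) : dt w 0 = 0 := by simp [dt]

lemma cr_add_left (u v w : E) : cr (u + v) w = cr u w + cr v w := by
  apply ext3 <;> simp <;> ring
lemma cr_add_right (u v w : E) : cr w (u + v) = cr w u + cr w v := by
  apply ext3 <;> simp <;> ring
lemma cr_sub_left (u v w : E) : cr (u - v) w = cr u w - cr v w := by
  apply ext3 <;> simp <;> ring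
lemma cr_sub_right (u v w : E) : cr w (u - v) = cr w u - cr w v := by
  apply ext3 <;> simp <;> ring
lemma cr_smul_left (a : ℝ) (u w : E) : cr (a • u) w = a • cr u w := by
  apply ext3 <;> simp <;> ring
lemma cr_smul_right (a : ℝ) (u w : E) : cr w (a • u) = a • cr w u := by
  apply ext3 <;> simp <;> ring
lemma cr_neg_left (u w : E) : cr (-u) w = - cr u w := by
  apply ext3 <;> simp <;> ring
lemma cr_neg_right (u w : E) : cr w (-u) = - cr w u := by
  apply ext3 <;> simp <;> ring
@[simp] lemma cr_self (u : E) : cr u u = 0 := by apply ext3 <;> simp <;> ring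
@[simp] lemma cr_zero_left (u : E) : cr 0 u = 0 := by apply ext3 <;> simp
@[simp] lemma cr_zero_right (u : E) : cr u 0 = 0 := by apply ext3 <;> simp
lemma cr_comm (u v : E) : cr u v = - cr v u := by apply ext3 <;> simp <;> ring

@[simp] lemma dt_cr_self_left (u v : E) : dt (cr u v) u = 0 := by simp [dt]; ring
@[simp] lemma dt_cr_self_right (u v : E) : dt (cr u v) v = 0 := by simp [dt]; ring
@[simp] lemma dt_self_cr_left (u v : E) : dt u (cr u v) = 0 := by simp [dt]; ring
@[simp] lemma dt_self_cr_right (u v : E) : dt v (cr u v) = 0 := by simp [dt]; ring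

lemma dt_cr_cr (a b c d : E) :
    dt (cr a b) (cr c d) = dt a c * dt b d - dt a d * dt b c := by simp [dt]; ring

lemma cr_cr (a b c : E) : cr a (cr b c) = dt a c • b - dt a b • c := by
  apply ext3 <;> simp [dt] <;> ring

lemma cr_cr' (a b c : E) : cr (cr a b) c = dt a c • b - dt b c • a := by
  apply ext3 <;> simp [dt] <;> ring

/-- triple product -/
lemma dt_cr_cycle (a b c : E) : dt (cr a b) c = dt (cr b c) a := by simp [dt]; ring
lemma dt_cr_swap (a b c : E) : dt (cr a b) c = - dt (cr b a) c := by simp [dt]; ring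
lemma dt_cr_right (a b c : E) : dt a (cr b c) = dt (cr a b) c := by simp [dt]; ring

/-- rotation about the unit vector `u` with cosine `c` and sine `s` -/
noncomputable def rot (u : E) (c s : ℝ) (v : E) : E :=
  c • v + s • cr u v + ((1 - c) * dt u v) • u

lemma rot_add (u : E) (c s : ℝ) (v w : E) : rot u c s (v + w) = rot u c s v + rot u c s w := by
  apply ext3 <;> simp [rot, dt] <;> ring
lemma rot_sub (u : E) (c s : ℝ) (v w : E) : rot u c s (v - w) = rot u c s v - rot u c s w := by
  apply ext3 <;> simp [rot, dt] <;> ring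
lemma rot_smul (u : E) (c s a : ℝ) (v : E) : rot u c s (a • v) = a • rot u c s v := by
  apply ext3 <;> simp [rot, dt] <;> ring
lemma rot_neg (u : E) (c s : ℝ) (v : E) : rot u c s (-v) = - rot u c s v := by
  apply ext3 <;> simp [rot, dt] <;> ring
@[simp] lemma rot_zero (u : E) (c s : ℝ) : rot u c s 0 = 0 := by
  apply ext3 <;> simp [rot, dt]
lemma rot_neg_axis (u : E) (c s : ℝ) (v : E) : rot (-u) c s v = rot u c (-s) v := by
  apply ext3 <;> simp [rot, dt] <;> ring

lemma dt_axis_rot {u : E} (hu : dt u u = 1) (c s : ℝ) (v : E) : dt u (rot u c s v) = dt u v := by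
  simp only [rot, dt_add_right, dt_smul_right, dt_self_cr_left, hu]; ring

lemma rot_axis {u : E} (hu : dt u u = 1) (c s : ℝ) : rot u c s u = u := by
  simp only [rot, cr_self, hu, smul_zero, add_zero, mul_one, ← add_smul]
  simp

lemma rot_rot {u : E} (hu : dt u u = 1) (c s c' s' : ℝ) (v : E) :
    rot u c s (rot u c' s' v) = rot u (c * c' - s * s') (c * s' + s * c') v := by
  have h1 : cr u (cr u v) = dt u v • u - v := by rw [cr_cr, hu, one_smul]
  have e1 : rot u c s (rot u c' s' v) = c • (rot u c' s' v) + s • cr u (rot u c' s' v)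
      + ((1 - c) * dt u v) • u := by
    conv_lhs => rw [rot, dt_axis_rot hu]
  rw [e1]
  simp only [rot, cr_add_right, cr_smul_right, h1, cr_self, smul_zero, add_zero]
  module

lemma rot_one (u : E) (v : E) : rot u 1 0 v = v := by
  simp [rot]

lemma rot_inv {u : E} (hu : dt u u = 1) {c s : ℝ} (h : c ^ 2 + s ^ 2 = 1) (v : E) :
    rot u c (-s) (rot u c s v) = v := by
  rw [rot_rot hu]
  have h1 : c * c - -s * s = 1 := by linear_combination h
  have h2 : c * s + -s * c = 0 := by ring
  rw [h1, h2, rot_one]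

lemma rot_inv' {u : E} (hu : dt u u = 1) {c s : ℝ} (h : c ^ 2 + s ^ 2 = 1) (v : E) :
    rot u c s (rot u c (-s) v) = v := by
  have := rot_inv hu (c := c) (s := -s) (by simpa using h) v
  simpa using this

lemma dt_rot_rot {u : E} (hu : dt u u = 1) {c s : ℝ} (h : c ^ 2 + s ^ 2 = 1) (v w : E) :
    dt (rot u c s v) (rot u c s w) = dt v w := by
  simp only [rot, dt_add_left, dt_add_right, dt_smul_left, dt_smul_right, dt_self_cr_left,
    dt_cr_self_left, dt_cr_cr, hu]
  have e1 : dt v (cr u w) = dt (cr v u) w := dt_cr_right _ _ _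
  have e2 : dt (cr u v) w = - dt (cr v u) w := dt_cr_swap _ _ _
  have e3 : dt v u = dt u v := dt_comm _ _
  rw [e1, e2, e3]
  linear_combination (dt v w - dt u v * dt u w) * h

lemma dt_rot_left {u : E} (hu : dt u u = 1) {c s : ℝ} (h : c ^ 2 + s ^ 2 = 1) (v w : E) :
    dt (rot u c s v) w = dt v (rot u c (-s) w) := by
  rw [← dt_rot_rot hu h v (rot u c (-s) w), rot_inv' hu h]

lemma norm_rot {u : E} (hu : dt u u = 1) {c s : ℝ} (h : c ^ 2 + s ^ 2 = 1) (v : E) :
    ‖rot u c s v‖ = ‖v‖ := by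
  rw [norm_eq_sqrt_dt, norm_eq_sqrt_dt, dt_rot_rot hu h]

lemma dt_rot_sub_self {u : E} (hu : dt u u = 1) {c s : ℝ} (h : c ^ 2 + s ^ 2 = 1) (v : E) :
    dt (rot u c s v - v) (rot u c s v - v) = 2 * (1 - c) * (dt v v - dt u v ^ 2) := by
  rw [dt_sub_left, dt_sub_right, dt_sub_right, dt_rot_rot hu h]
  have e1 : dt v (rot u c s v) = c * dt v v + (1 - c) * dt u v ^ 2 := by
    simp only [rot, dt_add_right, dt_smul_right, dt_self_cr_right, dt_comm v u]; ring
  rw [dt_comm (rot u c s v) v, e1]; ring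

/-- squared distance to the axis -/
lemma dt_cr_axis {u : E} (hu : dt u u = 1) (v : E) :
    dt (cr u v) (cr u v) = dt v v - dt u v ^ 2 := by
  rw [dt_cr_cr, hu, dt_comm v u]; ring

end Pool.Agent.H304
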