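import Pool.Agent.helper304_ico.LineEq

set_option autoImplicit false

namespace Pool.Agent.H304

/-- chain world, normalised to covering radius 1: every point of `X` in the ball of radius 20 has a rotation
(about the line through `x` with unit direction `u x`, cosine `c x`, sine `s x`) preserving the cluster of radius 2,
and any two points closer than sqrt (2 / (1 - C5)) (about 1.7013) are coaxial -/
structure CW (X : Set E) (u : E → E) (c s : E → ℝ) : Prop where
  cov : ∀ y : E, ∃ x ∈ X, ‖x - y‖ ≤ 1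
  fin : ∀ T : ℝ, (X ∩ {x | ‖x‖ ≤ T}).Finite
  unit : ∀ x ∈ X, ‖x‖ ≤ 20 → dt (u x) (u x) = 1
  cs : ∀ x ∈ X, ‖x‖ ≤ 20 → c x ^ 2 + s x ^ 2 = 1
  ang : ∀ x ∈ X, ‖x‖ ≤ 20 → (c x = C5 ∧ s x = S5) ∨ (0.59 ≤ c x ∧ c x < 1)
  rot : ∀ x ∈ X, ‖x‖ ≤ 20 → ∀ v : E, dt v v ≤ 4 → x + v ∈ X →
    x + rot (u x) (c x) (s x) v ∈ X ∧ x + rot (u x) (c x) (-(s x)) v ∈ X
  coax : ∀ x ∈ X, ‖x‖ ≤ 20 → ∀ y ∈ X, ‖y‖ ≤ 20 → x ≠ y → (1 - C5) * dt (y - x) (y - x) < 2 →
    cr (u x) (y - x) = 0 ∧ cr (u y) (y - x) = 0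


/-- the two images of a point have a nonzero cross product -/
lemma dt_cr_two_images {u : E} (hu : dt u u = 1) (c s : ℝ) (d : E) :
    dt u (cr (rot u c s d - d) (rot u c (-s) d - d)) =
      2 * (1 - c) * s * dt (cr u d) (cr u d) := by
  have ha : rot u c s d - d = -(1 - c) • (d - dt u d • u) + s • cr u d := by
    simp only [rot]; module
  have hb : rot u c (-s) d - d = -(1 - c) • (d - dt u d • u) + (-s) • cr u d := by
    simp only [rot]; module
  rw [ha, hb]
  have h1 : cr (d - dt u d • u) (cr u d) = dt (cr u d) (cr u d) • u := by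
    rw [cr_cr, dt_cr_axis hu]
    simp only [dt_sub_left, dt_smul_left, hu, dt_comm d u]
    simp only [mul_one, sub_self, zero_smul, sub_zero]
    congr 1; ring
  have h2 : cr (cr u d) (d - dt u d • u) = -(dt (cr u d) (cr u d) • u) := by
    rw [cr_comm, h1]
  simp only [cr_add_left, cr_add_right, cr_smul_left, cr_smul_right, cr_self, h1, h2,
    dt_add_right, dt_smul_right, dt_neg_right, hu, smul_neg, smul_zero, dt_zero_right]
  ring

lemma par_of_cr {n a : E} (hn : dt n n = 1) (h : cr n a = 0) : a = dt n a • n := by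
  have h1 : cr n (cr n a) = dt n a • n - dt n n • a := cr_cr n n a
  rw [h, hn, one_smul] at h1
  simp only [cr_zero_right] at h1
  exact (sub_eq_zero.mp h1.symm).symm

lemma cr_eq_zero_of_cr {n a b : E} (hn : dt n n = 1) (ha : cr n a = 0) (hb : cr n b = 0) :
    cr a b = 0 := by
  rw [par_of_cr hn ha, par_of_cr hn hb, cr_smul_left, cr_smul_right, cr_self]
  simp

lemma CW.c_lt {X : Set E} {u : E → E} {c s : E → ℝ} (W : CW X u c s) {x : E} (hx : x ∈ X)
    (hxn : ‖x‖ ≤ 20) : C5 ≤ c x ∧ c x < 1 ∧ s x ≠ 0 := by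
  have h1 := C5_gt
  have h2 := C5_lt
  have hcs := W.cs x hx hxn
  rcases W.ang x hx hxn with ⟨h, h'⟩ | ⟨h, h'⟩
  · refine ⟨h.ge, by rw [h]; linarith, ?_⟩
    rw [h']; exact S5_pos.ne'
  · refine ⟨by linarith, h', ?_⟩
    intro h0
    rw [h0] at hcs
    nlinarith

lemma norm_le_of_dt {v : E} {r : ℝ} (hr : 0 ≤ r) (h : dt v v ≤ r ^ 2) : ‖v‖ ≤ r := by
  rw [← norm_sq_eq_dt] at h
  exact abs_le_of_sq_le_sq' h hr |>.2

lemma dt_pos {v : E} (h : v ≠ 0) : 0 < dt v v := by
  rcases lt_or_eq_of_le (dt_self_nonneg v) with h1 | h1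
  · exact h1
  · exact absurd (dt_self_eq_zero h1.symm) h

/-- TARGET K1: a point off the axis and its rotated copies are far apart -/
theorem CW.far {X : Set E} {u : E → E} {c s : E → ℝ} (W : CW X u c s) {x z : E} (hx : x ∈ X)
    (hxn : ‖x‖ ≤ 17) (hz : z ∈ X) (hd : dt (z - x) (z - x) ≤ 4) (hoff : cr (u x) (z - x) ≠ 0) :
    1 ≤ (1 - C5) * (1 - c x) * dt (cr (u x) (z - x)) (cr (u x) (z - x)) := by
  by_contra hcon
  push Not at hcon
  have hxn' : ‖x‖ ≤ 20 := by linarith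
  have hu := W.unit x hx hxn'
  have hcs := W.cs x hx hxn'
  have hcs' : c x ^ 2 + (-(s x)) ^ 2 = 1 := by rw [neg_sq]; exact hcs
  obtain ⟨hc1, hc2, hs⟩ := W.c_lt hx hxn'
  set d := z - x with hdd
  have hzx : x + d = z := by rw [hdd]; abel
  have hDpos : 0 < dt (cr (u x) d) (cr (u x) d) := dt_pos hoff
  have hr := W.rot x hx hxn' d hd (by rw [hzx]; exact hz)
  obtain ⟨hr1, hr2⟩ := hr
  have hnd : ‖d‖ ≤ 2 := norm_le_of_dt (by norm_num) (by linarith)
  have hzn : ‖z‖ ≤ 20 := by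
    rw [← hzx]
    calc ‖x + d‖ ≤ ‖x‖ + ‖d‖ := norm_add_le _ _
      _ ≤ 20 := by linarith
  have huz := W.unit z hz hzn
  have key : ∀ t : ℝ, c x ^ 2 + t ^ 2 = 1 → x + Pool.Agent.H304.rot (u x) (c x) t d ∈ X →
      cr (u z) (Pool.Agent.H304.rot (u x) (c x) t d - d) = 0 := by
    intro t ht hm
    have hn : ‖x + Pool.Agent.H304.rot (u x) (c x) t d‖ ≤ 20 := by
      calc ‖x + Pool.Agent.H304.rot (u x) (c x) t d‖ ≤ ‖x‖ + ‖Pool.Agent.H304.rot (u x) (c x) t d‖ := norm_add_le _ _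
        _ = ‖x‖ + ‖d‖ := by rw [norm_rot hu ht]
        _ ≤ 20 := by linarith
    have he : x + Pool.Agent.H304.rot (u x) (c x) t d - z = Pool.Agent.H304.rot (u x) (c x) t d - d := by
      rw [hdd]; abel
    have hsq := dt_rot_sub_self hu ht d
    rw [← dt_cr_axis hu] at hsq
    have hne : z ≠ x + Pool.Agent.H304.rot (u x) (c x) t d := by
      intro h
      have h0 : Pool.Agent.H304.rot (u x) (c x) t d - d = 0 := by
        rw [← he, ← h, sub_self]
      rw [h0] at hsq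
      simp only [dt_zero_left] at hsq
      have : 0 < 2 * (1 - c x) * dt (cr (u x) d) (cr (u x) d) := by
        have : 0 < 1 - c x := by linarith
        positivity
      linarith
    have := W.coax z hz hzn _ hm hn hne (by rw [he, hsq]; nlinarith)
    rw [he] at this
    exact this.1
  have k1 := key (s x) hcs hr1
  have k2 := key (-(s x)) hcs' hr2
  have h0 := cr_eq_zero_of_cr huz k1 k2
  have h1 := dt_cr_two_images hu (c x) (s x) d
  rw [h0, dt_zero_right] at h1
  have h2 : 2 * (1 - c x) * s x * dt (cr (u x) d) (cr (u x) d) ≠ 0 := by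
    have : (1 - c x) ≠ 0 := by linarith
    positivity
  exact h2 h1.symm

/-- TARGET K2: a point off the axis of `x` is far from every point of `X` on this axis -/
theorem CW.offdist {X : Set E} {u : E → E} {c s : E → ℝ} (W : CW X u c s) {x z w : E} (hx : x ∈ X)
    (hxn : ‖x‖ ≤ 15) (hz : z ∈ X) (hzd : dt (z - x) (z - x) ≤ 16) (hz0 : cr (u x) (z - x) = 0)
    (hw : w ∈ X) (hwd : dt (w - x) (w - x) ≤ 4) (hoff : cr (u x) (w - x) ≠ 0) :
    2 ≤ (1 - C5) * dt (w - z) (w - z) := by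
  by_contra hcon
  push Not at hcon
  have hxn' : ‖x‖ ≤ 20 := by linarith
  have hu := W.unit x hx hxn'
  have hcs := W.cs x hx hxn'
  have hcs' : c x ^ 2 + (-(s x)) ^ 2 = 1 := by rw [neg_sq]; exact hcs
  obtain ⟨hc1, hc2, hs⟩ := W.c_lt hx hxn'
  set d := w - x with hdd
  clear_value d
  have hwx : x + d = w := by rw [hdd]; abel
  have hDpos : 0 < dt (cr (u x) d) (cr (u x) d) := dt_pos hoff
  obtain ⟨hr1, hr2⟩ := W.rot x hx hxn' d hwd (by rw [hwx]; exact hw)
  have hnd : ‖d‖ ≤ 2 := norm_le_of_dt (by norm_num) (by linarith)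
  have hnz : ‖z - x‖ ≤ 4 := norm_le_of_dt (by norm_num) (by linarith)
  have hzn : ‖z‖ ≤ 20 := by
    have : z = x + (z - x) := by abel
    rw [this]
    calc ‖x + (z - x)‖ ≤ ‖x‖ + ‖z - x‖ := norm_add_le _ _
      _ ≤ 20 := by linarith
  have hwn : ‖w‖ ≤ 20 := by
    rw [← hwx]
    calc ‖x + d‖ ≤ ‖x‖ + ‖d‖ := norm_add_le _ _
      _ ≤ 20 := by linarith
  have huz := W.unit z hz hzn
  have hzw : w - z ≠ 0 := by
    intro h
    have : w = z := sub_eq_zero.mp h
    rw [hdd, this] at hoff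
    exact hoff hz0
  have hzpar := par_of_cr hu hz0
  have hfix : ∀ t : ℝ, Pool.Agent.H304.rot (u x) (c x) t (z - x) = z - x := by
    intro t
    rw [hzpar, rot_smul, rot_axis hu]
  have hw0 := (W.coax z hz hzn w hw hwn (fun h => hzw (by rw [h, sub_self])) hcon).1
  have key : ∀ t : ℝ, c x ^ 2 + t ^ 2 = 1 → x + Pool.Agent.H304.rot (u x) (c x) t d ∈ X →
      cr (u z) (Pool.Agent.H304.rot (u x) (c x) t d - d) = 0 := by
    intro t ht hm
    have hn : ‖x + Pool.Agent.H304.rot (u x) (c x) t d‖ ≤ 20 := by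
      calc ‖x + Pool.Agent.H304.rot (u x) (c x) t d‖ ≤ ‖x‖ + ‖Pool.Agent.H304.rot (u x) (c x) t d‖ := norm_add_le _ _
        _ = ‖x‖ + ‖d‖ := by rw [norm_rot hu ht]
        _ ≤ 20 := by linarith
    have he : x + Pool.Agent.H304.rot (u x) (c x) t d - z = Pool.Agent.H304.rot (u x) (c x) t (w - z) := by
      have h1 : w - z = d - (z - x) := by rw [hdd]; abel
      rw [h1, rot_sub, hfix]; abel
    have hsq := dt_rot_rot hu ht (w - z) (w - z)
    have hne : z ≠ x + Pool.Agent.H304.rot (u x) (c x) t d := by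
      intro h
      rw [← he, ← h, sub_self, dt_zero_left] at hsq
      exact hzw (dt_self_eq_zero hsq.symm)
    have h2 := (W.coax z hz hzn _ hm hn hne (by rw [he, hsq]; exact hcon)).1
    have h3 : Pool.Agent.H304.rot (u x) (c x) t d - d = (x + Pool.Agent.H304.rot (u x) (c x) t d - z) - (w - z) := by
      rw [hdd]; abel
    rw [h3, cr_sub_right, h2, hw0, sub_zero]
  have k1 := key (s x) hcs hr1
  have k2 := key (-(s x)) hcs' hr2
  have h0 := cr_eq_zero_of_cr huz k1 k2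
  have h1 := dt_cr_two_images hu (c x) (s x) d
  rw [h0, dt_zero_right] at h1
  have h2 : 2 * (1 - c x) * s x * dt (cr (u x) d) (cr (u x) d) ≠ 0 := by
    have : (1 - c x) ≠ 0 := by linarith
    positivity
  exact h2 h1.symm

/-- TARGET K3: there is a next point of `X` on the axis on each side, at distance at most 2 -/
theorem CW.next {X : Set E} {u : E → E} {c s : E → ℝ} (W : CW X u c s) {x v : E} (hx : x ∈ X)
    (hxn : ‖x‖ ≤ 15) (hv : v = u x ∨ v = - u x) :
    ∃ τ : ℝ, 0 < τ ∧ τ ≤ 2 ∧ x + τ • v ∈ X ∧ ∀ τ' : ℝ, 0 < τ' → τ' < τ → x + τ' • v ∉ X := by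
  have hxn' : ‖x‖ ≤ 20 := by linarith
  have hu := W.unit x hx hxn'
  obtain ⟨hc1, hc2, hs⟩ := W.c_lt hx hxn'
  have hvv : dt v v = 1 := by
    rcases hv with h | h <;> rw [h]
    · exact hu
    · rw [dt_neg_left, dt_neg_right, neg_neg, hu]
  have hvn : ‖v‖ = 1 := (norm_eq_one_iff_dt v).mpr hvv
  -- a point of X other than x in the closed unit ball about x + v
  have hex : ∃ w ∈ X, w ≠ x ∧ ‖w - (x + v)‖ ≤ 1 := by
    by_contra hno
    push Not at hno
    have hfin : ((X ∩ {y | ‖y‖ ≤ 20}) \ {x}).Finite := (W.fin 20).subset Set.sdiff_subset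
    have hstep : ∀ ε : ℝ, 0 < ε → ε ≤ 1 → ∃ w ∈ (X ∩ {y | ‖y‖ ≤ 20}) \ {x}, ‖w - (x + v)‖ ≤ 1 + ε := by
      intro ε h0 h1
      obtain ⟨w, hw, hw1⟩ := W.cov (x + (1 + ε) • v)
      have hne : w ≠ x := by
        intro h
        rw [h] at hw1
        have : x - (x + (1 + ε) • v) = -((1 + ε) • v) := by abel
        rw [this, norm_neg, norm_smul, hvn, Real.norm_eq_abs, abs_of_pos (by linarith)] at hw1
        linarith
      have hb : ‖w - (x + v)‖ ≤ 1 + ε := by
        have : w - (x + v) = (w - (x + (1 + ε) • v)) + ε • v := by module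
        rw [this]
        calc ‖(w - (x + (1 + ε) • v)) + ε • v‖ ≤ ‖w - (x + (1 + ε) • v)‖ + ‖ε • v‖ := norm_add_le _ _
          _ ≤ 1 + ε := by
            rw [norm_smul, hvn, Real.norm_eq_abs, abs_of_pos h0]; linarith
      refine ⟨w, ⟨⟨hw, ?_⟩, hne⟩, hb⟩
      show ‖w‖ ≤ 20
      have : w = (w - (x + v)) + (x + v) := by abel
      rw [this]
      calc ‖(w - (x + v)) + (x + v)‖ ≤ ‖w - (x + v)‖ + ‖x + v‖ := norm_add_le _ _
        _ ≤ ‖w - (x + v)‖ + (‖x‖ + ‖v‖) := by gcongr; exact norm_add_le _ _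
        _ ≤ 20 := by rw [hvn]; linarith
    obtain ⟨w0, hw0, hmin⟩ := Set.exists_min_image _ (fun y => ‖y - (x + v)‖) hfin
      (by obtain ⟨w, hw, _⟩ := hstep 1 one_pos le_rfl; exact ⟨w, hw⟩)
    have hgt : 1 < ‖w0 - (x + v)‖ := hno w0 hw0.1.1 hw0.2
    obtain ⟨w, hw, hw1⟩ := hstep (min 1 ((‖w0 - (x + v)‖ - 1) / 2))
      (lt_min one_pos (by linarith)) (min_le_left _ _)
    have h1 := hmin w hw
    have h2 := min_le_right 1 ((‖w0 - (x + v)‖ - 1) / 2)
    linarith
  obtain ⟨w, hw, hwx, hw1⟩ := hex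
  obtain ⟨d, hdd⟩ : ∃ d, d = w - x := ⟨_, rfl⟩
  have hdv : dt (d - v) (d - v) ≤ 1 := by
    have : w - (x + v) = d - v := by rw [hdd]; abel
    rw [this] at hw1
    rw [← norm_sq_eq_dt]
    have := norm_nonneg (d - v)
    nlinarith
  have h1 : dt d d ≤ 2 * dt v d := by
    rw [dt_sub_left, dt_sub_right, dt_sub_right, hvv, dt_comm d v] at hdv
    linarith
  have hd0 : d ≠ 0 := fun h => hwx (sub_eq_zero.mp (hdd.symm.trans h))
  have hdpos := dt_pos hd0
  have hax := dt_cr_axis hvv d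
  have haxn := dt_self_nonneg (cr v d)
  have h4 : dt d d ≤ 4 := by
    by_contra h
    push Not at h
    nlinarith
  have hcrv : dt (cr (u x) d) (cr (u x) d) = dt (cr v d) (cr v d) := by
    rcases hv with h | h <;> rw [h]
    rw [cr_neg_left, dt_neg_left, dt_neg_right, neg_neg]
  have hcr0 : cr (u x) d = 0 := by
    by_contra hoff
    have hk := W.far hx (by linarith) hw (by rw [← hdd]; exact h4) (by rw [← hdd]; exact hoff)
    rw [← hdd, hcrv] at hk
    have g1 := C5_gt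
    have g2 := C5_lt
    have hD : dt (cr v d) (cr v d) ≤ 1 := by
      rw [hax]
      nlinarith [sq_nonneg (dt d d - 2)]
    have hA : (1 - C5) * (1 - c x) ≤ 0.48 := by nlinarith
    have hA0 : 0 ≤ (1 - C5) * (1 - c x) := by
      apply mul_nonneg <;> linarith
    nlinarith
  have hcrv0 : cr v d = 0 := by
    rcases hv with h | h <;> rw [h]
    · exact hcr0
    · rw [cr_neg_left, hcr0, neg_zero]
  have hpar := par_of_cr hvv hcrv0
  have hτ : 0 < dt v d := by linarith
  have hτ2 : dt v d ≤ 2 := by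
    rw [hcrv0, dt_zero_left] at hax
    nlinarith
  have hmem : x + dt v d • v ∈ X := by
    rw [← hpar, hdd]
    have : x + (w - x) = w := by abel
    rw [this]; exact hw
  have hSfin : {τ : ℝ | 0 < τ ∧ τ ≤ 2 ∧ x + τ • v ∈ X}.Finite := by
    have hinj : Set.InjOn (fun τ : ℝ => x + τ • v) {τ : ℝ | 0 < τ ∧ τ ≤ 2 ∧ x + τ • v ∈ X} := by
      intro a _ b _ hab
      simp only [add_right_inj] at hab
      have := congrArg (dt v) hab
      rw [dt_smul_right, dt_smul_right, hvv, mul_one, mul_one] at this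
      exact this
    apply Set.Finite.of_finite_image _ hinj
    apply (W.fin 20).subset
    rintro y ⟨τ, ⟨ht0, ht2, htm⟩, rfl⟩
    refine ⟨htm, ?_⟩
    show ‖x + τ • v‖ ≤ 20
    calc ‖x + τ • v‖ ≤ ‖x‖ + ‖τ • v‖ := norm_add_le _ _
      _ ≤ 20 := by
        rw [norm_smul, hvn, Real.norm_eq_abs, abs_of_pos ht0]; linarith
  obtain ⟨τ, ⟨ht0, ht2, htm⟩, hmin⟩ := Set.exists_min_image _ (fun t => t) hSfin
    ⟨dt v d, hτ, hτ2, hmem⟩
  refine ⟨τ, ht0, ht2, htm, ?_⟩
  intro τ' h0 hlt hm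
  have := hmin τ' ⟨h0, by linarith, hm⟩
  linarith



lemma k4_normalize {w : E} (hw : w ≠ 0) : ∃ k : ℝ, dt (k • w) (k • w) = 1 := by
  refine ⟨‖w‖⁻¹, ?_⟩
  rw [← norm_sq_eq_dt, norm_smul, norm_inv, norm_norm, inv_mul_cancel₀ (norm_ne_zero_iff.mpr hw)]
  norm_num

lemma k4_parallel {a b : E} (ha : dt a a = 1) (h : cr a b = 0) : b = dt a b • a := by
  have h1 := cr_cr a a b
  rw [h, cr_zero_right, ha, one_smul] at h1
  exact (sub_eq_zero.mp h1.symm).symm

lemma k4_perp {v : E} (_hv : dt v v = 1) : ∃ e : E, dt e e = 1 ∧ dt e v = 0 := by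
  by_cases h : v 0 = 0 ∧ v 1 = 0
  · refine ⟨!₂[1, 0, 0], ?_, ?_⟩
    · simp [dt]
    · simp [dt, h.1]
  · have hw : (!₂[-(v 1), v 0, 0] : E) ≠ 0 := by
      intro h0
      apply h
      have e0 := congrArg (fun z : E => z 0) h0
      have e1 := congrArg (fun z : E => z 1) h0
      simp at e0 e1
      exact ⟨e1, e0⟩
    obtain ⟨k, hk⟩ := k4_normalize hw
    refine ⟨_, hk, ?_⟩
    rw [dt_smul_left]
    have : dt (!₂[-(v 1), v 0, 0] : E) v = 0 := by simp [dt]; ring
    rw [this, mul_zero]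

lemma k4_perp2 {v : E} (hv : dt v v = 1) (b : E) : ∃ e : E, dt e e = 1 ∧ dt e v = 0 ∧ dt e b = 0 := by
  by_cases h : cr v b = 0
  · obtain ⟨e, he, hev⟩ := k4_perp hv
    refine ⟨e, he, hev, ?_⟩
    rw [k4_parallel hv h, dt_smul_right, hev, mul_zero]
  · obtain ⟨k, hk⟩ := k4_normalize h
    refine ⟨_, hk, ?_, ?_⟩
    · rw [dt_smul_left, dt_cr_self_left, mul_zero]
    · rw [dt_smul_left, dt_cr_self_right, mul_zero]

lemma k4_param {v e r : E} (hv : dt v v = 1) (he : dt e e = 1) (hev : dt e v = 0)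
    (hr : dt r r = 1) (hrv : dt r v = 0) :
    ∃ θ : ℝ, r = Real.cos θ • e + Real.sin θ • cr v e := by
  have hexp : r = dt r e • e + dt r (cr v e) • cr v e := by
    have hve : dt v e = 0 := by rw [dt_comm]; exact hev
    have h1 : dt (cr v e) (cr v e) = 1 := by rw [dt_cr_cr, hv, he, hve, hev]; ring
    -- w := r - a e - b (v×e) is orthogonal to v, e, v × e
    have hcr : cr (cr v e) r = dt v r • e - dt e r • v := cr_cr' v e r
    have hvr : dt v r = 0 := by rw [dt_comm]; exact hrv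
    rw [hvr, zero_smul, zero_sub] at hcr
    -- (v×e) × ((v×e) × r) = dt (v×e) r (v×e) - r
    have h2 := cr_cr (cr v e) (cr v e) r
    rw [h1, one_smul, hcr, cr_neg_right, cr_smul_right, cr_cr' v e v, hv, hev, one_smul, zero_smul,
      sub_zero] at h2
    rw [dt_comm r e, dt_comm r (cr v e)]
    rw [← sub_eq_zero]
    have h3 : dt (cr v e) r • cr v e = - (dt e r • e) + r := by
      rw [h2]; abel
    rw [h3]; abel
  have hsq : dt r e ^ 2 + dt r (cr v e) ^ 2 = 1 := by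
    have hve : dt v e = 0 := by rw [dt_comm]; exact hev
    have h1 : dt (cr v e) (cr v e) = 1 := by rw [dt_cr_cr, hv, he, hve, hev]; ring
    have h2 : dt r r = dt r (dt r e • e + dt r (cr v e) • cr v e) := by rw [← hexp]
    rw [dt_add_right, dt_smul_right, dt_smul_right, hr] at h2
    linarith
  -- angle
  have hz : ‖(⟨dt r e, dt r (cr v e)⟩ : ℂ)‖ = 1 := by
    rw [Complex.norm_def, Complex.normSq_mk]
    rw [show dt r e * dt r e + dt r (cr v e) * dt r (cr v e) = 1 by linarith]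
    exact Real.sqrt_one
  refine ⟨Complex.arg ⟨dt r e, dt r (cr v e)⟩, ?_⟩
  have hne : (⟨dt r e, dt r (cr v e)⟩ : ℂ) ≠ 0 := by
    intro h0; rw [h0, norm_zero] at hz; norm_num at hz
  rw [Complex.cos_arg hne, Complex.sin_arg, hz, div_one, div_one]
  exact hexp

lemma k4_coax {a0 a1 a2 w0 w w' : E} (h1 : dt a1 a1 = 1)
    (c0 : cr a0 (w - w0) = 0) (c1 : cr a1 (w - w0) = 0) (hne : w ≠ w0)
    (d1 : cr a1 (w' - w) = 0) (d2 : cr a2 (w' - w) = 0) (hne' : w' ≠ w) :
    cr a0 (w' - w0) = 0 ∧ cr a2 (w' - w0) = 0 := by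
  have p1 := k4_parallel h1 c1
  have p2 := k4_parallel h1 d1
  set q := dt a1 (w - w0)
  set s := dt a1 (w' - w)
  have hq : q ≠ 0 := by
    intro h; rw [h, zero_smul] at p1; exact hne (sub_eq_zero.mp p1)
  have hs : s ≠ 0 := by
    intro h; rw [h, zero_smul] at p2; exact hne' (sub_eq_zero.mp p2)
  have e01 : cr a0 a1 = 0 := by
    rw [p1, cr_smul_right] at c0
    exact (smul_eq_zero.mp c0).resolve_left hq
  have e21 : cr a2 a1 = 0 := by
    rw [p2, cr_smul_right] at d2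
    exact (smul_eq_zero.mp d2).resolve_left hs
  have hsum : w' - w0 = (s + q) • a1 := by
    rw [add_smul, ← p1, ← p2]; abel
  rw [hsum, cr_smul_right, cr_smul_right, e01, e21, smul_zero]
  exact ⟨rfl, rfl⟩

lemma k4_closed (m e f w : E) (d : ℝ) :
    IsClosed {θ : ℝ | dt (w - (m + d • (Real.cos θ • e + Real.sin θ • f)))
      (w - (m + d • (Real.cos θ • e + Real.sin θ • f))) ≤ 1} := by
  apply isClosed_le _ continuous_const
  simp only [dt, PiLp.sub_apply, PiLp.add_apply, PiLp.smul_apply, smul_eq_mul]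
  fun_prop

/-- TARGET K4, the circle lemma: if every point of a circle about the line `m + ℝ u` is within distance 1 of a point of `X` off
this line, always on the outer side, then some point of the circle is within 1 of two different non-coaxial points -/
theorem circle_lemma {X : Set E} {u : E → E} {c s : E → ℝ} (W : CW X u c s) {m v : E} {d : ℝ}
    (hv : dt v v = 1) (hd : 0 ≤ d) (hd1 : d ≤ 1) (hm : ‖m‖ ≤ 17)
    (h1 : ∀ r : E, dt r r = 1 → dt r v = 0 →
      ∃ w ∈ X, cr v (w - m) ≠ 0 ∧ dt (w - (m + d • r)) (w - (m + d • r)) ≤ 1)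
    (h2 : ∀ r : E, dt r r = 1 → dt r v = 0 →
      ∀ w ∈ X, cr v (w - m) ≠ 0 → dt (w - (m + d • r)) (w - (m + d • r)) ≤ 1 →
        0 < dt (w - (m + d • r)) r) :
    ∃ r w w' : E, dt r r = 1 ∧ dt r v = 0 ∧ w ∈ X ∧ w' ∈ X ∧ w ≠ w' ∧
      cr v (w - m) ≠ 0 ∧ cr v (w' - m) ≠ 0 ∧
      dt (w - (m + d • r)) (w - (m + d • r)) ≤ 1 ∧ dt (w' - (m + d • r)) (w' - (m + d • r)) ≤ 1 ∧
      ¬ (cr (u w) (w' - w) = 0 ∧ cr (u w') (w' - w) = 0) := by
  by_contra hcon
  have key : ∀ r w w' : E, dt r r = 1 → dt r v = 0 → w ∈ X → w' ∈ X → w ≠ w' →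
      cr v (w - m) ≠ 0 → cr v (w' - m) ≠ 0 →
      dt (w - (m + d • r)) (w - (m + d • r)) ≤ 1 → dt (w' - (m + d • r)) (w' - (m + d • r)) ≤ 1 →
      (cr (u w) (w' - w) = 0 ∧ cr (u w') (w' - w) = 0) := by
    intro r w w' a1 a2 a3 a4 a5 a6 a7 a8 a9
    by_contra hc
    exact hcon ⟨r, w, w', a1, a2, a3, a4, a5, a6, a7, a8, a9, hc⟩
  obtain ⟨e, he, hev⟩ := k4_perp hv
  have hve : dt v e = 0 := by rw [dt_comm]; exact hev
  have hff : dt (cr v e) (cr v e) = 1 := by rw [dt_cr_cr, hv, he, hve, hev]; ring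
  set f : E := cr v e with hf
  have hef : dt e f = 0 := by rw [hf]; exact dt_self_cr_right v e
  have hfe : dt f e = 0 := by rw [dt_comm]; exact hef
  have hfv : dt f v = 0 := by rw [hf]; exact dt_cr_self_left v e
  let R : ℝ → E := fun θ => Real.cos θ • e + Real.sin θ • f
  have hR1 : ∀ θ, dt (R θ) (R θ) = 1 := by
    intro θ
    simp only [R, dt_add_left, dt_add_right, dt_smul_left, dt_smul_right, he, hff, hef, hfe]
    nlinarith [Real.cos_sq_add_sin_sq θ]
  have hRv : ∀ θ, dt (R θ) v = 0 := by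
    intro θ
    simp only [R, dt_add_left, dt_smul_left, hev, hfv]; ring
  have hbound : ∀ r w : E, dt r r = 1 → dt (w - (m + d • r)) (w - (m + d • r)) ≤ 1 → ‖w‖ ≤ 19 := by
    intro r w hr hw
    have hr' : ‖r‖ = 1 := (norm_eq_one_iff_dt r).mpr hr
    have hw' : ‖w - (m + d • r)‖ ≤ 1 := by
      rw [← norm_sq_eq_dt] at hw
      nlinarith [norm_nonneg (w - (m + d • r))]
    have h1 : ‖w‖ ≤ ‖w - (m + d • r)‖ + ‖m + d • r‖ := by
      have := norm_add_le (w - (m + d • r)) (m + d • r)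
      simpa using this
    have h2 : ‖m + d • r‖ ≤ ‖m‖ + ‖d • r‖ := norm_add_le _ _
    rw [norm_smul, hr', mul_one, Real.norm_eq_abs, abs_of_nonneg hd] at h2
    linarith
  obtain ⟨w0, hw0X, hw0a, hw0c⟩ := h1 (R 0) (hR1 0) (hRv 0)
  let L : E → Prop := fun w => w = w0 ∨ (cr (u w0) (w - w0) = 0 ∧ cr (u w) (w - w0) = 0)
  let SA : Set E := {w | w ∈ X ∧ ‖w‖ ≤ 19 ∧ cr v (w - m) ≠ 0 ∧ L w}
  let SB : Set E := {w | w ∈ X ∧ ‖w‖ ≤ 19 ∧ cr v (w - m) ≠ 0 ∧ ¬ L w}
  have hSA : SA.Finite := (W.fin 19).subset (fun w hw => ⟨hw.1, hw.2.1⟩)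
  have hSB : SB.Finite := (W.fin 19).subset (fun w hw => ⟨hw.1, hw.2.1⟩)
  let A : Set ℝ := ⋃ w ∈ SA, {θ : ℝ | dt (w - (m + d • (Real.cos θ • e + Real.sin θ • f)))
      (w - (m + d • (Real.cos θ • e + Real.sin θ • f))) ≤ 1}
  let B : Set ℝ := ⋃ w ∈ SB, {θ : ℝ | dt (w - (m + d • (Real.cos θ • e + Real.sin θ • f)))
      (w - (m + d • (Real.cos θ • e + Real.sin θ • f))) ≤ 1}
  have hA : IsClosed A := hSA.isClosed_biUnion (fun w _ => k4_closed m e f w d)
  have hB : IsClosed B := hSB.isClosed_biUnion (fun w _ => k4_closed m e f w d)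
  have hcov : (Set.univ : Set ℝ) ⊆ A ∪ B := by
    intro θ _
    obtain ⟨w, hwX, hwa, hwc⟩ := h1 (R θ) (hR1 θ) (hRv θ)
    have hwn := hbound (R θ) w (hR1 θ) hwc
    by_cases hL : L w
    · left
      exact Set.mem_biUnion (show w ∈ SA from ⟨hwX, hwn, hwa, hL⟩) hwc
    · right
      exact Set.mem_biUnion (show w ∈ SB from ⟨hwX, hwn, hwa, hL⟩) hwc
  have hw0n := hbound (R 0) w0 (hR1 0) hw0c
  have h0A : (Set.univ ∩ A).Nonempty := by
    refine ⟨0, Set.mem_univ _, ?_⟩
    exact Set.mem_biUnion (show w0 ∈ SA from ⟨hw0X, hw0n, hw0a, Or.inl rfl⟩) hw0c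
  have hBempty : ∀ θ : ℝ, θ ∉ B := by
    intro θ hθ
    have hpre := (isPreconnected_closed_iff.mp (isPreconnected_univ : IsPreconnected (Set.univ : Set ℝ)))
      A B hA hB hcov h0A ⟨θ, Set.mem_univ _, hθ⟩
    obtain ⟨t, _, htA, htB⟩ := hpre
    obtain ⟨w, hwS, hwc⟩ := Set.mem_iUnion₂.mp htA
    obtain ⟨w', hwS', hwc'⟩ := Set.mem_iUnion₂.mp htB
    obtain ⟨hwX, hwn, hwa, hL⟩ := hwS
    obtain ⟨hwX', hwn', hwa', hL'⟩ := hwS'
    have hne : w ≠ w' := by
      intro h; rw [h] at hL; exact hL' hL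
    have hc := key (R t) w w' (hR1 t) (hRv t) hwX hwX' hne hwa hwa' hwc hwc'
    apply hL'
    rcases hL with hL | hL
    · right
      rw [hL] at hc
      exact hc
    · by_cases hww : w = w0
      · right
        rw [hww] at hc
        exact hc
      · right
        exact k4_coax (W.unit w hwX (by linarith)) hL.1 hL.2 hww hc.1 hc.2 (Ne.symm hne)
  -- final contradiction
  obtain ⟨r0, hr0, hr0v, hr0u⟩ := k4_perp2 hv (u w0)
  obtain ⟨r, hr, hrv, hru, hrs⟩ : ∃ r : E, dt r r = 1 ∧ dt r v = 0 ∧ dt r (u w0) = 0 ∧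
      dt (w0 - m) r ≤ 0 := by
    by_cases hs : dt (w0 - m) r0 ≤ 0
    · exact ⟨r0, hr0, hr0v, hr0u, hs⟩
    · refine ⟨-r0, ?_, ?_, ?_, ?_⟩
      · rw [dt_neg_left, dt_neg_right, neg_neg]; exact hr0
      · rw [dt_neg_left, hr0v, neg_zero]
      · rw [dt_neg_left, hr0u, neg_zero]
      · rw [dt_neg_right]; linarith
  obtain ⟨θ, hθ⟩ := k4_param hv he hev hr hrv
  have hθA : θ ∈ A := by
    rcases hcov (Set.mem_univ θ) with h | h
    · exact h
    · exact absurd h (hBempty θ)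
  obtain ⟨w, hwS, hwc⟩ := Set.mem_iUnion₂.mp hθA
  obtain ⟨hwX, hwn, hwa, hL⟩ := hwS
  have hwc2 : dt (w - (m + d • r)) (w - (m + d • r)) ≤ 1 := by
    rw [hθ]; exact hwc
  have hpos := h2 r hr hrv w hwX hwa hwc2
  have hw0r : dt (w - w0) r = 0 := by
    rcases hL with hL | hL
    · rw [hL]; simp
    · have hp := k4_parallel (W.unit w0 hw0X (by linarith)) hL.1
      rw [hp, dt_smul_left, dt_comm (u w0) r, hru, mul_zero]
  have hsplit : dt (w - (m + d • r)) r = dt (w - w0) r + dt (w0 - m) r - d * dt r r := by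
    simp only [dt_sub_left, dt_add_left, dt_smul_left]; ring
  rw [hsplit, hw0r, hr] at hpos
  linarith



lemma gap_h1 {X : Set E} {u : E → E} {c s : E → ℝ} (W : CW X u c s) {x v : E}
    (hxn : ‖x‖ ≤ 15) (hvv : dt v v = 1) {τ : ℝ} (h0 : 0 < τ) (h2 : τ ≤ 2)
    (hnext : ∀ τ' : ℝ, 0 < τ' → τ' < τ → x + τ' • v ∉ X) {m : E} {d : ℝ}
    (hm : m = x + (τ / 2) • v) (hd0 : 0 ≤ d) (hd2 : d ^ 2 = 1 - (τ / 2) ^ 2) (hm17 : ‖m‖ ≤ 17)
    {r : E} (hr : dt r r = 1) (hrv : dt r v = 0) :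
    ∃ w ∈ X, cr v (w - m) ≠ 0 ∧ dt (w - (m + d • r)) (w - (m + d • r)) ≤ 1 := by
  by_contra hcon
  push Not at hcon
  have hd1 : d ≤ 1 := by nlinarith [sq_nonneg (τ / 2)]
  have hrn : ‖r‖ = 1 := (norm_eq_one_iff_dt r).mpr hr
  set F : Set E := {w | w ∈ X ∩ {x | ‖x‖ ≤ 20} ∧ cr v (w - m) ≠ 0} with hF
  have hFfin : F.Finite := (W.fin 20).subset fun w hw => hw.1
  have hev : ∀ w ∈ F, ∀ᶠ e : ℝ in nhdsWithin 0 (Set.Ioi 0),
      1 < dt (w - (m + (d + e) • r)) (w - (m + (d + e) • r)) := by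
    intro w hw
    have hlt : 1 < dt (w - (m + (d + 0) • r)) (w - (m + (d + 0) • r)) := by
      rw [add_zero]
      exact hcon w hw.1.1 hw.2
    have hcont : Continuous (fun e : ℝ => dt (w - (m + (d + e) • r)) (w - (m + (d + e) • r))) := by
      have : (fun e : ℝ => dt (w - (m + (d + e) • r)) (w - (m + (d + e) • r))) =
          fun e : ℝ => ‖w - (m + (d + e) • r)‖ ^ 2 := by
        funext e
        rw [norm_sq_eq_dt]
      rw [this]
      fun_prop
    exact (hcont.continuousAt.eventually (lt_mem_nhds hlt)).filter_mono nhdsWithin_le_nhds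
  have hev2 : ∀ᶠ e : ℝ in nhdsWithin 0 (Set.Ioi 0), ∀ w ∈ F,
      1 < dt (w - (m + (d + e) • r)) (w - (m + (d + e) • r)) :=
    (Set.Finite.eventually_all hFfin).mpr hev
  have hev3 : ∀ᶠ e : ℝ in nhdsWithin 0 (Set.Ioi 0), e < 1 :=
    (gt_mem_nhds one_pos).filter_mono nhdsWithin_le_nhds
  obtain ⟨e, ⟨he2, he3⟩, he0⟩ := ((hev2.and hev3).and self_mem_nhdsWithin).exists
  have he0' : 0 < e := he0
  obtain ⟨w, hwX, hw1⟩ := W.cov (m + (d + e) • r)
  have hw2 : dt (w - (m + (d + e) • r)) (w - (m + (d + e) • r)) ≤ 1 := by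
    rw [← norm_sq_eq_dt]
    have := norm_nonneg (w - (m + (d + e) • r))
    nlinarith
  have hwn : ‖w‖ ≤ 20 := by
    have e1 : w = (w - (m + (d + e) • r)) + (m + (d + e) • r) := by abel
    have e2 : ‖(d + e) • r‖ ≤ 2 := by
      rw [norm_smul, hrn, mul_one, Real.norm_eq_abs, abs_of_nonneg (by linarith)]
      linarith
    calc ‖w‖ = ‖(w - (m + (d + e) • r)) + (m + (d + e) • r)‖ := by rw [← e1]
      _ ≤ ‖w - (m + (d + e) • r)‖ + (‖m‖ + ‖(d + e) • r‖) :=
          (norm_add_le _ _).trans (add_le_add le_rfl (norm_add_le _ _))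
      _ ≤ 20 := by linarith
  by_cases hoff : cr v (w - m) = 0
  · -- on the axis
    set σ : ℝ := dt v (w - m) with hσ
    have hwm : w - m = σ • v := by
      have h3 := cr_cr v v (w - m)
      rw [hoff, cr_zero_right, hvv, one_smul] at h3
      exact (sub_eq_zero.mp h3.symm).symm
    have e1 : w - (m + (d + e) • r) = σ • v - (d + e) • r := by rw [← hwm]; abel
    have hvr : dt v r = 0 := by rw [dt_comm]; exact hrv
    have e2 : dt (w - (m + (d + e) • r)) (w - (m + (d + e) • r)) = σ ^ 2 + (d + e) ^ 2 := by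
      rw [e1]
      simp only [dt_sub_left, dt_sub_right, dt_smul_left, dt_smul_right, hvv, hr, hrv, hvr]
      ring
    rw [e2] at hw2
    have h4 : σ ^ 2 < (τ / 2) ^ 2 := by nlinarith
    have h5 : |σ| < τ / 2 := by
      rw [← abs_of_pos (show (0:ℝ) < τ / 2 by linarith)]
      exact sq_lt_sq.mp h4
    rw [abs_lt] at h5
    refine hnext (τ / 2 + σ) (by linarith) (by linarith) ?_
    have e3 : x + (τ / 2 + σ) • v = w := by
      have : w = m + σ • v := by rw [← hwm]; abel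
      rw [this, hm, add_smul]; abel
    rw [e3]
    exact hwX
  · have := he2 w ⟨⟨hwX, hwn⟩, hoff⟩
    linarith

/-- TARGET K5: consecutive points on an axis are close -/
theorem CW.gap {X : Set E} {u : E → E} {c s : E → ℝ} (W : CW X u c s) {x v : E} (hx : x ∈ X)
    (hxn : ‖x‖ ≤ 15) (hv : v = u x ∨ v = - u x) {τ : ℝ} (h0 : 0 < τ) (h2 : τ ≤ 2)
    (hτ : x + τ • v ∈ X) (hnext : ∀ τ' : ℝ, 0 < τ' → τ' < τ → x + τ' • v ∉ X) :
    τ ^ 2 ≤ 8 / 5 * (1 - C5) := by
  have hux : dt (u x) (u x) = 1 := W.unit x hx (by linarith)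
  have hvv : dt v v = 1 := by
    rcases hv with rfl | rfl
    · exact hux
    · rw [dt_neg_left, dt_neg_right, neg_neg, hux]
  have hcru : ∀ y : E, cr (u x) y = 0 ↔ cr v y = 0 := by
    intro y
    rcases hv with rfl | rfl
    · rfl
    · rw [cr_neg_left, neg_eq_zero]
  have hvn : ‖v‖ = 1 := (norm_eq_one_iff_dt v).mpr hvv
  have hC1 := C5_gt
  have hC2 := C5_lt
  have hC3 := C5_eq
  set d : ℝ := Real.sqrt (1 - (τ / 2) ^ 2) with hd
  have hle : 0 ≤ 1 - (τ / 2) ^ 2 := by nlinarith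
  have hd0 : 0 ≤ d := Real.sqrt_nonneg _
  have hd2 : d ^ 2 = 1 - (τ / 2) ^ 2 := Real.sq_sqrt hle
  have hd1 : d ≤ 1 := by nlinarith [sq_nonneg (τ / 2)]
  clear_value d
  obtain ⟨m, hm⟩ : ∃ m : E, m = x + (τ / 2) • v := ⟨_, rfl⟩
  have hm17 : ‖m‖ ≤ 16 := by
    rw [hm]
    have e2 : ‖(τ / 2) • v‖ ≤ 1 := by
      rw [norm_smul, hvn, mul_one, Real.norm_eq_abs, abs_of_nonneg (by linarith)]
      linarith
    exact (norm_add_le _ _).trans (by linarith)
  have hcrm : ∀ w : E, cr v (w - m) = cr v (w - x) := by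
    intro w
    rw [hm, cr_sub_right, cr_sub_right, cr_add_right, cr_smul_right, cr_self, smul_zero, add_zero]
  -- the number κ
  obtain ⟨κ, hκ⟩ : ∃ κ : ℝ, (1 - C5) * κ = C5 := ⟨C5 / (1 - C5), by
    rw [mul_div_cancel₀]; linarith⟩
  have hκ0 : 0 < κ := by
    by_contra h
    push Not at h
    nlinarith
  have hκ5 : 5 * κ ^ 2 = 1 := by
    have h3 : (1 - C5) ^ 2 * (5 * κ ^ 2) = (1 - C5) ^ 2 * 1 := by
      have : (1 - C5) ^ 2 * (5 * κ ^ 2) = 5 * ((1 - C5) * κ) ^ 2 := by ring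
      rw [this, hκ]
      linear_combination hC3
    exact mul_left_cancel₀ (by nlinarith) h3
  -- points off the axis near the circle
  have key : ∀ r : E, dt r r = 1 → dt r v = 0 → ∀ w ∈ X, cr v (w - m) ≠ 0 →
      dt (w - (m + d • r)) (w - (m + d • r)) ≤ 1 → κ ≤ d * dt (w - (m + d • r)) r := by
    intro r hr hrv w hw hoff hwd
    have hvr : dt v r = 0 := by rw [dt_comm]; exact hrv
    set n : E := w - (m + d • r) with hn
    have e1 : w - x = n + ((τ / 2) • v + d • r) := by rw [hn, hm]; abel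
    have e2 : w - (x + τ • v) = n + (-((τ / 2) • v) + d • r) := by
      rw [hn, hm]
      have : τ • v = (τ / 2) • v + (τ / 2) • v := by rw [← add_smul]; congr 1; ring
      rw [this]; abel
    have hoffx : cr (u x) (w - x) ≠ 0 := by
      intro h
      exact hoff (by rw [hcrm]; exact (hcru _).mp h)
    have d1 : dt (w - x) (w - x) = dt n n + 2 * (τ / 2 * dt n v + d * dt n r) + 1 := by
      rw [e1]
      simp only [dt_add_left, dt_add_right, dt_smul_left, dt_smul_right, hvv, hr, hrv, hvr,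
        dt_comm v n, dt_comm r n]
      linear_combination hd2
    have d2 : dt (w - (x + τ • v)) (w - (x + τ • v)) =
        dt n n + 2 * (-(τ / 2 * dt n v) + d * dt n r) + 1 := by
      rw [e2]
      simp only [dt_add_left, dt_add_right, dt_smul_left, dt_smul_right, dt_neg_left,
        dt_neg_right, hvv, hr, hrv, hvr, dt_comm v n, dt_comm r n]
      linear_combination hd2
    have hwx4 : dt (w - x) (w - x) ≤ 4 := by
      rw [← norm_sq_eq_dt, e1]
      have n1 : ‖n‖ ≤ 1 := by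
        rw [norm_eq_sqrt_dt]
        exact Real.sqrt_le_one.mpr hwd
      have n2 : ‖(τ / 2) • v + d • r‖ = 1 := by
        rw [norm_eq_one_iff_dt]
        simp only [dt_add_left, dt_add_right, dt_smul_left, dt_smul_right, hvv, hr, hrv, hvr]
        linear_combination hd2
      have n3 := norm_add_le n ((τ / 2) • v + d • r)
      have n4 := norm_nonneg (n + ((τ / 2) • v + d • r))
      nlinarith
    have k1 := W.offdist hx hxn hx (by simp) (by simp) hw hwx4 hoffx
    have k2 := W.offdist hx hxn hτ (by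
      rw [add_sub_cancel_left, dt_smul_left, dt_smul_right, hvv]; nlinarith) (by
      rw [hcru, add_sub_cancel_left, cr_smul_right, cr_self, smul_zero]) hw hwx4 hoffx
    rw [d1] at k1
    rw [d2] at k2
    have k3 : 2 ≤ (1 - C5) * (2 + 2 * (d * dt n r)) := by nlinarith
    have k4 : (1 - C5) * κ ≤ (1 - C5) * (d * dt n r) := by linarith
    exact le_of_mul_le_mul_left k4 (by linarith)
  obtain ⟨r, w, w', hr, hrv, hw, hw', hne, ho, ho', hn, hn', hcoax⟩ := circle_lemma W (m := m)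
    (v := v) (d := d) hvv hd0 hd1 (by linarith)
    (fun r hr hrv => gap_h1 W hxn hvv h0 h2 hnext hm hd0 hd2 (by linarith) hr hrv)
    (fun r hr hrv w hw ho hwd => by
      have h3 := key r hr hrv w hw ho hwd
      by_contra h4
      push Not at h4
      have : d * dt (w - (m + d • r)) r ≤ 0 := mul_nonpos_of_nonneg_of_nonpos hd0 h4
      linarith)
  have k1 := key r hr hrv w hw ho hn
  have k2 := key r hr hrv w' hw' ho' hn'
  have hrn : ‖r‖ = 1 := (norm_eq_one_iff_dt r).mpr hr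
  have hnorm : ∀ w : E, dt (w - (m + d • r)) (w - (m + d • r)) ≤ 1 → ‖w‖ ≤ 20 := by
    intro w hw
    have n1 : ‖w - (m + d • r)‖ ≤ 1 := by
      rw [norm_eq_sqrt_dt]
      exact Real.sqrt_le_one.mpr hw
    have e1 : w = (w - (m + d • r)) + (m + d • r) := by abel
    have e2 : ‖d • r‖ ≤ 1 := by
      rw [norm_smul, hrn, mul_one, Real.norm_eq_abs, abs_of_nonneg hd0]
      exact hd1
    calc ‖w‖ = ‖(w - (m + d • r)) + (m + d • r)‖ := by rw [← e1]
      _ ≤ ‖w - (m + d • r)‖ + (‖m‖ + ‖d • r‖) :=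
          (norm_add_le _ _).trans (add_le_add le_rfl (norm_add_le _ _))
      _ ≤ 20 := by linarith
  have hfar : 2 ≤ (1 - C5) * dt (w' - w) (w' - w) := by
    by_contra h
    push Not at h
    exact hcoax (W.coax w hw (hnorm w hn) w' hw' (hnorm w' hn') hne h)
  set n : E := w - (m + d • r) with hndef
  set n' : E := w' - (m + d • r) with hndef'
  have e1 : w' - w = n' - n := by rw [hndef, hndef']; abel
  rw [e1] at hfar
  have e2 : dt (n' - n) (n' - n) + dt (n + n') (n + n') = 2 * dt n n + 2 * dt n' n' := by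
    simp only [dt_sub_left, dt_sub_right, dt_add_left, dt_add_right, dt_comm n' n]
    ring
  have hcs : (dt (n + n') r) ^ 2 ≤ dt (n + n') (n + n') := by
    have h3 := abs_real_inner_le_norm (n + n') r
    rw [inner_eq_dt, hrn, mul_one] at h3
    rw [← norm_sq_eq_dt, ← sq_abs]
    exact pow_le_pow_left₀ (abs_nonneg _) h3 2
  have hsum : 2 * κ ≤ d * dt (n + n') r := by
    rw [dt_add_left, mul_add]
    linarith
  have hN : dt (n + n') (n + n') ≤ 2 - 2 * κ := by
    have h3 : 2 + 2 * κ ≤ dt (n' - n) (n' - n) := by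
      have h4 : (1 - C5) * (2 + 2 * κ) ≤ (1 - C5) * dt (n' - n) (n' - n) := by
        have : (1 - C5) * (2 + 2 * κ) = 2 := by linear_combination 2 * hκ
        linarith
      exact le_of_mul_le_mul_left h4 (by linarith)
    linarith
  have h5 : (2 * κ) ^ 2 ≤ d ^ 2 * (2 - 2 * κ) := by
    calc (2 * κ) ^ 2 ≤ (d * dt (n + n') r) ^ 2 := pow_le_pow_left₀ (by linarith) hsum 2
      _ = d ^ 2 * (dt (n + n') r) ^ 2 := by ring
      _ ≤ d ^ 2 * (2 - 2 * κ) := mul_le_mul_of_nonneg_left (hcs.trans hN) (sq_nonneg d)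
  have h6 : (3 + 2 * C5) * (1 - κ) = 2 := by
    have h7 : (1 - C5) * ((3 + 2 * C5) * (1 - κ)) = (1 - C5) * 2 := by
      linear_combination (-(3 + 2 * C5)) * hκ - hC3
    exact mul_left_cancel₀ (by linarith) h7
  have h8 : 0 < 1 - κ := by
    by_contra h
    push Not at h
    nlinarith
  have h9 : (3 + 2 * C5) / 5 ≤ d ^ 2 := by
    have : (1 - κ) * ((3 + 2 * C5) / 5) ≤ (1 - κ) * d ^ 2 := by
      have h10 : (2 * κ) ^ 2 = 4 / 5 := by linear_combination (4 / 5) * hκ5
      rw [h10] at h5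
      linarith
    exact le_of_mul_le_mul_left this h8
  have h11 : τ ^ 2 = 4 * (1 - d ^ 2) := by rw [hd2]; ring
  rw [h11]
  linarith


theorem cwk_par {a w : E} (ha : dt a a = 1) (h : cr a w = 0) : w = dt a w • a := by
  have h1 := cr_cr' a w a
  rw [h, cr_zero_left, ha, one_smul] at h1
  rw [dt_comm a w]
  exact (sub_eq_zero.mp h1.symm)

theorem cwk_pm {a b : E} (ha : dt a a = 1) (hb : dt b b = 1) (h : cr a b = 0) :
    b = a ∨ b = -a := by
  have h1 := cwk_par ha h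
  have h2 : dt a b ^ 2 = 1 := by
    have h3 : dt b b = dt a b * dt a b * dt a a := by
      conv_lhs => rw [h1, dt_smul_left, dt_smul_right]
      ring
    rw [hb, ha] at h3
    linarith
  have h4 : (dt a b - 1) * (dt a b + 1) = 0 := by linear_combination h2
  rcases mul_eq_zero.mp h4 with h | h
  · left; rw [h1, show dt a b = 1 by linarith, one_smul]
  · right; rw [h1, show dt a b = -1 by linarith, neg_one_smul]

theorem cwk_dist {v : E} (hv : dt v v = 1) (p : E) (σ : ℝ) :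
    dt (p - σ • v) (p - σ • v) = dt p p - 2 * σ * dt v p + σ ^ 2 := by
  rw [dt_sub_left, dt_sub_right, dt_sub_right, dt_smul_left, dt_smul_right, dt_smul_left,
    dt_smul_right, hv, dt_comm p v]
  ring

/-- signs -/
theorem cwk_sign {a b v : E} (hv : v = a ∨ v = -a) (hb : b = a ∨ b = -a) : v = b ∨ v = -b := by
  rcases hv with rfl | rfl <;> rcases hb with rfl | rfl
  · left; rfl
  · right; rw [neg_neg]
  · right; rfl
  · left; rfl

theorem cwk_unit {a v : E} (ha : dt a a = 1) (hv : v = a ∨ v = -a) : dt v v = 1 := by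
  rcases hv with rfl | rfl
  · exact ha
  · rw [dt_neg_left, dt_neg_right, neg_neg, ha]

theorem cwk_cr {a v : E} (hv : v = a ∨ v = -a) : cr a v = 0 := by
  rcases hv with rfl | rfl
  · exact cr_self _
  · rw [cr_neg_right, cr_self, neg_zero]

theorem cwk_norm {x v : E} (hv : dt v v = 1) (hx : ‖x‖ ≤ 10) {τ : ℝ} (h0 : 0 ≤ τ) {r : ℝ}
    (h2 : τ ≤ r) : ‖x + τ • v‖ ≤ 10 + r := by
  have h1 : ‖v‖ = 1 := (norm_eq_one_iff_dt v).mpr hv
  calc ‖x + τ • v‖ ≤ ‖x‖ + ‖τ • v‖ := norm_add_le _ _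
    _ = ‖x‖ + τ := by rw [norm_smul, h1, mul_one, Real.norm_eq_abs, abs_of_nonneg h0]
    _ ≤ 10 + r := by linarith

theorem cwk_fin {X : Set E} {u : E → E} {c s : E → ℝ} (W : CW X u c s) {x v : E}
    (hv : dt v v = 1) (hx : ‖x‖ ≤ 10) {T : Set ℝ}
    (hT : ∀ τ ∈ T, 0 ≤ τ ∧ τ ≤ 2 ∧ x + τ • v ∈ X) : T.Finite := by
  have hv0 : v ≠ 0 := by
    rintro rfl
    simp at hv
  have hinj : Function.Injective (fun τ : ℝ => x + τ • v) := by
    intro a b hab
    have h1 : a • v = b • v := add_left_cancel hab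
    exact smul_left_injective ℝ hv0 h1
  apply ((W.fin 12).preimage hinj.injOn).subset
  intro τ hτ
  obtain ⟨h0, h2, h3⟩ := hT τ hτ
  refine ⟨h3, ?_⟩
  have := cwk_norm hv hx h0 h2
  change ‖x + τ • v‖ ≤ 12
  linarith

theorem cwk_C5 : (1 - C5) * (8 / 5 * (1 - C5)) < 2 := by
  nlinarith [C5_gt, C5_lt]

/-- TARGET K6: all points of `X` on the axis of `x` (near `x`) have the same axis -/
theorem CW.chain {X : Set E} {u : E → E} {c s : E → ℝ} (W : CW X u c s) {x z : E} (hx : x ∈ X)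
    (hxn : ‖x‖ ≤ 10) (hz : z ∈ X) (hzd : dt (z - x) (z - x) ≤ 4) (hz0 : cr (u x) (z - x) = 0) :
    cr (u x) (u z) = 0 := by
  have hux := W.unit x hx (by linarith)
  have hpar := cwk_par hux hz0
  -- the direction
  obtain ⟨v, f, hv, hf0, hzf⟩ : ∃ (v : E) (f : ℝ), (v = u x ∨ v = -u x) ∧ 0 ≤ f ∧
      z = x + f • v := by
    rcases le_total 0 (dt (u x) (z - x)) with h | h
    · exact ⟨u x, dt (u x) (z - x), Or.inl rfl, h, by rw [← hpar]; abel⟩
    · refine ⟨-u x, -dt (u x) (z - x), Or.inr rfl, by linarith, ?_⟩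
      rw [neg_smul_neg, ← hpar]; abel
  have hvv := cwk_unit hux hv
  have hf2 : f ≤ 2 := by
    rw [hzf, add_sub_cancel_left, dt_smul_left, dt_smul_right, hvv] at hzd
    nlinarith
  rcases hf0.eq_or_lt with hf | hf
  · rw [hzf, ← hf, zero_smul, add_zero, cr_self]
  -- the last good point before `z`
  set T : Set ℝ := {τ | 0 ≤ τ ∧ τ < f ∧ x + τ • v ∈ X ∧ cr (u x) (u (x + τ • v)) = 0} with hT
  have hTfin : T.Finite := cwk_fin W hvv hxn (fun τ hτ => ⟨hτ.1, by linarith [hτ.2.1], hτ.2.2.1⟩)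
  have h0T : (0 : ℝ) ∈ T := ⟨le_rfl, hf, by rwa [zero_smul, add_zero], by
    rw [zero_smul, add_zero, cr_self]⟩
  obtain ⟨τ, hτ, hmax⟩ := Set.exists_max_image T id hTfin ⟨0, h0T⟩
  simp only [id] at hmax
  obtain ⟨t0, t1, t2, t3⟩ := hτ
  have hyn : ‖x + τ • v‖ ≤ 12 := by
    have := cwk_norm hvv hxn t0 (by linarith : τ ≤ 2)
    linarith
  have huy := W.unit _ t2 (by linarith)
  have hvy : v = u (x + τ • v) ∨ v = -u (x + τ • v) := cwk_sign hv (cwk_pm hux huy t3)
  obtain ⟨τ', p0, p2, pX, pmin⟩ := W.next t2 (by linarith) hvy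
  have pgap := W.gap t2 (by linarith) hvy p0 p2 pX pmin
  have hle : τ' ≤ f - τ := by
    by_contra hcon
    push Not at hcon
    apply pmin (f - τ) (by linarith) hcon
    have : x + τ • v + (f - τ) • v = z := by rw [hzf, sub_smul]; abel
    rw [this]; exact hz
  have hadd : x + τ • v + τ' • v = x + (τ + τ') • v := by rw [add_smul]; abel
  have hy'n : ‖x + τ • v + τ' • v‖ ≤ 12 := by
    rw [hadd]
    have := cwk_norm hvv hxn (by linarith : 0 ≤ τ + τ') (by linarith : τ + τ' ≤ 2)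
    linarith
  have hv0 : v ≠ 0 := by
    rintro rfl
    simp at hvv
  have hcoax := W.coax _ t2 (by linarith) _ pX (by linarith)
    (by
      intro h
      have h1 : τ' • v = 0 := by simpa using h.symm
      rcases smul_eq_zero.mp h1 with h | h
      · linarith
      · exact hv0 h)
    (by
      rw [add_sub_cancel_left, dt_smul_left, dt_smul_right, hvv]
      have := cwk_C5
      have h1 : 0 < 1 - C5 := by linarith [C5_lt]
      nlinarith)
  have hcr : cr (u x) (u (x + τ • v + τ' • v)) = 0 := by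
    have h1 := hcoax.2
    rw [add_sub_cancel_left, cr_smul_right] at h1
    have h2 : cr (u (x + τ • v + τ' • v)) v = 0 := by
      rcases smul_eq_zero.mp h1 with h | h
      · linarith
      · exact h
    rw [cr_comm, neg_eq_zero]
    rcases hv with h | h
    · rw [← h]; exact h2
    · have : u x = -v := by rw [h, neg_neg]
      rw [this, cr_neg_right, h2, neg_zero]
  rcases lt_or_ge (τ + τ') f with h | h
  · have := hmax (τ + τ') ⟨by linarith, h, by rw [← hadd]; exact pX, by rw [← hadd]; exact hcr⟩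
    linarith
  · have e : τ + τ' = f := by linarith
    rw [hadd, e, ← hzf] at hcr
    exact hcr

/-- TARGET K7: distance of off-axis points to the axis -/
theorem CW.axis_dist {X : Set E} {u : E → E} {c s : E → ℝ} (W : CW X u c s) {x w : E} (hx : x ∈ X)
    (hxn : ‖x‖ ≤ 10) (hw : w ∈ X) (hwd : dt (w - x) (w - x) ≤ 4) (hoff : cr (u x) (w - x) ≠ 0) :
    2 + 2 * C5 ≤ dt (cr (u x) (w - x)) (cr (u x) (w - x)) := by
  have hux := W.unit x hx (by linarith)
  obtain ⟨v, hv, hf0⟩ : ∃ v : E, (v = u x ∨ v = -u x) ∧ 0 ≤ dt v (w - x) := by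
    rcases le_total 0 (dt (u x) (w - x)) with h | h
    · exact ⟨u x, Or.inl rfl, h⟩
    · exact ⟨-u x, Or.inr rfl, by rw [dt_neg_left]; linarith⟩
  have hvv := cwk_unit hux hv
  set f : ℝ := dt v (w - x) with hf
  have hcrv : dt (cr (u x) (w - x)) (cr (u x) (w - x)) = dt (w - x) (w - x) - f ^ 2 := by
    rw [dt_cr_axis hux, hf]
    rcases hv with rfl | rfl
    · rfl
    · rw [dt_neg_left]; ring
  have hD0 := dt_self_nonneg (cr (u x) (w - x))
  have hf2 : f ≤ 2 := by nlinarith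
  set T : Set ℝ := {τ | 0 ≤ τ ∧ τ ≤ f ∧ x + τ • v ∈ X} with hT
  have hTfin : T.Finite := cwk_fin W hvv hxn (fun τ hτ => ⟨hτ.1, by linarith [hτ.2.1], hτ.2.2⟩)
  have h0T : (0 : ℝ) ∈ T := ⟨le_rfl, hf0, by rwa [zero_smul, add_zero]⟩
  obtain ⟨τ, hτ, hmax⟩ := Set.exists_max_image T id hTfin ⟨0, h0T⟩
  simp only [id] at hmax
  obtain ⟨t0, t1, t2⟩ := hτ
  have hyn : ‖x + τ • v‖ ≤ 12 := by
    have := cwk_norm hvv hxn t0 (by linarith : τ ≤ 2)
    linarith
  have huy := W.unit _ t2 (by linarith)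
  have t3 : cr (u x) (u (x + τ • v)) = 0 := by
    apply W.chain hx hxn t2
    · rw [add_sub_cancel_left, dt_smul_left, dt_smul_right, hvv]
      nlinarith
    · rw [add_sub_cancel_left, cr_smul_right, cwk_cr hv, smul_zero]
  have hvy : v = u (x + τ • v) ∨ v = -u (x + τ • v) := cwk_sign hv (cwk_pm hux huy t3)
  obtain ⟨τ', p0, p2, pX, pmin⟩ := W.next t2 (by linarith) hvy
  have pgap := W.gap t2 (by linarith) hvy p0 p2 pX pmin
  have hadd : x + τ • v + τ' • v = x + (τ + τ') • v := by rw [add_smul]; abel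
  have hgt : f < τ + τ' := by
    by_contra hcon
    push Not at hcon
    have := hmax (τ + τ') ⟨by linarith, hcon, by rw [← hadd]; exact pX⟩
    linarith
  -- the nearer of the two points
  obtain ⟨σ, hσ0, hσ4, hσX, hσ⟩ : ∃ σ : ℝ, 0 ≤ σ ∧ σ ≤ 4 ∧ x + σ • v ∈ X ∧
      (f - σ) ^ 2 ≤ τ' ^ 2 / 4 := by
    rcases le_total (f - τ) (τ' / 2) with h | h
    · exact ⟨τ, t0, by linarith, t2, by nlinarith⟩
    · exact ⟨τ + τ', by linarith, by linarith, by rw [← hadd]; exact pX, by nlinarith⟩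
  have key := W.offdist hx (by linarith) hσX
    (by
      rw [add_sub_cancel_left, dt_smul_left, dt_smul_right, hvv]
      nlinarith)
    (by rw [add_sub_cancel_left, cr_smul_right, cwk_cr hv, smul_zero]) hw hwd hoff
  have hdist : dt (w - (x + σ • v)) (w - (x + σ • v)) = dt (w - x) (w - x) - f ^ 2 + (f - σ) ^ 2 := by
    have e : w - (x + σ • v) = (w - x) - σ • v := by abel
    rw [e, cwk_dist hvv, ← hf]
    ring
  rw [hdist, ← hcrv] at key
  set D := dt (cr (u x) (w - x)) (cr (u x) (w - x)) with hDdef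
  have hc1 : 0 < 1 - C5 := by linarith [C5_lt]
  have h1 : (f - σ) ^ 2 ≤ 2 / 5 * (1 - C5) := by linarith
  have h2 : 2 ≤ (1 - C5) * (D + 2 / 5 * (1 - C5)) := by
    refine key.trans ?_
    gcongr
  have h3 : (1 - C5) * (2 + 2 * C5) ≤ (1 - C5) * D := by
    nlinarith [C5_eq]
  exact le_of_mul_le_mul_left h3 hc1


/-- TARGET K8: closeness lemma, pure algebra -/
theorem closeness {u α β : E} (hu : dt u u = 1)
    (h1 : 2 ≤ (1 - C5) * dt α α) (h2 : 2 ≤ (1 - C5) * dt β β)
    (h3 : 2 ≤ (1 - C5) * dt (α - β) (α - β))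
    (hsum : dt α α + dt β β + dt (α - β) (α - β) ≤ 9)
    (ha : 2 + 2 * C5 ≤ dt (cr u α) (cr u α)) (hb : 2 + 2 * C5 ≤ dt (cr u β) (cr u β)) :
    ∃ s' : ℝ, (s' = S5 ∨ s' = -S5) ∧
      (1 - C5) * dt (α - rot u C5 s' β) (α - rot u C5 s' β) < 2 := by
  have hCg := C5_gt
  have hCl := C5_lt
  rw [dt_cr_axis hu] at ha hb
  -- the Gram identity
  have gram : dt α (cr u β) ^ 2 + (dt α β - dt u α * dt u β) ^ 2 =
      (dt α α - dt u α ^ 2) * (dt β β - dt u β ^ 2) := by
    have g : dt α (cr u β) ^ 2 = dt u u * (dt α α * dt β β - dt α β ^ 2)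
        - dt u α * (dt u α * dt β β - dt α β * dt u β)
        + dt u β * (dt u α * dt α β - dt α α * dt u β) := by
      simp only [dt, cr_0, cr_1, cr_2]; ring
    rw [g, hu]; ring
  have e3 : dt (α - β) (α - β) = dt α α + dt β β - 2 * dt α β := by
    rw [dt_sub_left, dt_sub_right, dt_sub_right, dt_comm β α]; ring
  have key : ∀ s' : ℝ, C5 ^ 2 + s' ^ 2 = 1 →
      dt (α - rot u C5 s' β) (α - rot u C5 s' β) = dt (α - β) (α - β)
        + 2 * (1 - C5) * (dt α β - dt u α * dt u β) - 2 * (s' * dt α (cr u β)) := by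
    intro s' hs'
    have e4 : dt α (rot u C5 s' β) = C5 * dt α β + s' * dt α (cr u β)
        + (1 - C5) * dt u β * dt u α := by
      simp only [rot, dt_add_right, dt_smul_right, dt_comm α u]
    rw [dt_sub_left, dt_sub_right, dt_sub_right, dt_rot_rot hu hs', dt_comm (rot u C5 s' β) α,
      e4, e3]
    ring
  -- names
  obtain ⟨T, hT0, hT2, s', hs', hsT⟩ : ∃ T : ℝ, 0 ≤ T ∧ T ^ 2 = S5 ^ 2 * dt α (cr u β) ^ 2 ∧
      ∃ s' : ℝ, (s' = S5 ∨ s' = -S5) ∧ s' * dt α (cr u β) = T := by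
    rcases le_total 0 (dt α (cr u β)) with h | h
    · exact ⟨S5 * dt α (cr u β), mul_nonneg S5_pos.le h, by ring, S5, Or.inl rfl, rfl⟩
    · refine ⟨-S5 * dt α (cr u β), ?_, by ring, -S5, Or.inr rfl, rfl⟩
      have := mul_nonneg S5_pos.le (neg_nonneg.mpr h)
      linarith
  refine ⟨s', hs', ?_⟩
  have hs2 : C5 ^ 2 + s' ^ 2 = 1 := by
    rcases hs' with rfl | rfl
    · exact C5_S5
    · rw [neg_sq]; exact C5_S5
  rw [key s' hs2, hsT]
  rw [S5_sq] at hT2
  generalize dt α (cr u β) = R at *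
  generalize hs3d : dt (α - β) (α - β) = s3 at *
  generalize dt α α = s1 at *
  generalize dt β β = s2 at *
  generalize dt u α = a at *
  generalize dt u β = b at *
  generalize dt α β = g at *
  clear key hs3d
  set P := g - a * b with hP
  have hs1 : 2.8944 ≤ s1 := by nlinarith
  have hs2' : 2.8944 ≤ s2 := by nlinarith
  have hs3 : 2.8944 ≤ s3 := by nlinarith
  have hPu : P ≤ 9 - 3 / 2 * s3 - (2 + 2 * C5) := by nlinarith [sq_nonneg (a + b)]
  have hPl : (2 + 2 * C5) - s3 / 2 ≤ P := by nlinarith [sq_nonneg (a - b)]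
  have hP0 : 0 < P := by linarith
  have hP2 : P ^ 2 ≤ 4.1636 := by
    have h5 : P ≤ 2.0405 := by linarith
    nlinarith
  have hprod : (2 + 2 * C5) * (2 + 2 * C5) ≤ (s1 - a ^ 2) * (s2 - b ^ 2) :=
    mul_le_mul ha hb (by linarith) (by linarith)
  have hR : 2.69 ≤ R ^ 2 := by nlinarith
  have hTT : 1.55 ≤ T := by
    have h6 : 0.9045 ≤ 1 - C5 ^ 2 := by nlinarith
    have h7 : 2.43 ≤ T ^ 2 := by rw [hT2]; nlinarith
    nlinarith
  have hk : (1 - C5) * (1 - C5) ≤ 0.47746 := by nlinarith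
  have hkP : (1 - C5) * (1 - C5) * P ≤ 0.47746 * P := mul_le_mul_of_nonneg_right hk hP0.le
  have hks : (1 - C5) * s3 ≤ 0.690984 * s3 :=
    mul_le_mul_of_nonneg_right (by linarith) (by linarith)
  have hkT : 0.69098 * 1.55 ≤ (1 - C5) * T := by nlinarith
  have : (1 - C5) * (s3 + 2 * (1 - C5) * P - 2 * T) =
      (1 - C5) * s3 + 2 * ((1 - C5) * (1 - C5) * P) - 2 * ((1 - C5) * T) := by ring
  rw [this]
  linarith



lemma K9_par {a b : E} (ha : dt a a = 1) (h : cr a b = 0) : b = dt a b • a := by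
  have h1 : cr a (cr a b) = dt a b • a - dt a a • b := cr_cr a a b
  rw [h, cr_zero_right, ha, one_smul] at h1
  exact (sub_eq_zero.1 h1.symm).symm

lemma K9_par2 {a b e : E} (ha : dt a a = 1) (h : cr a b = 0) (h2 : cr a e = 0) : cr b e = 0 := by
  rw [K9_par ha h, cr_smul_left, h2, smul_zero]

lemma K9_norm {x y : E} {R : ℝ} (h : dt (y - x) (y - x) ≤ 4) (hx : ‖x‖ ≤ R) : ‖y‖ ≤ R + 2 := by
  have h1 : ‖y - x‖ ^ 2 ≤ 2 ^ 2 := by rw [norm_sq_eq_dt]; linarith
  have h2 : ‖y - x‖ ≤ 2 := by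
    have := abs_le_of_sq_le_sq h1 (by norm_num)
    rwa [abs_of_nonneg (norm_nonneg _)] at this
  have h3 : ‖y‖ ≤ ‖y - x‖ + ‖x‖ := by
    have := norm_add_le (y - x) x
    rwa [sub_add_cancel] at this
  linarith

lemma K9_lb {a : ℝ} (ha : 2 ≤ (1 - C5) * a) : 2.8944 ≤ a := by
  have h1 := C5_gt
  have h2 := C5_lt
  by_contra hcon
  push Not at hcon
  nlinarith

lemma K9_ub {a b c : ℝ} (ha : 2 ≤ (1 - C5) * a) (hb : 2 ≤ (1 - C5) * b) (h : a + b + c ≤ 9) :
    c ≤ 3.2112 := by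
  have := K9_lb ha
  have := K9_lb hb
  linarith

lemma K9_s2 {s' : ℝ} (h : s' = S5 ∨ s' = -S5) : C5 ^ 2 + s' ^ 2 = 1 := by
  rcases h with rfl | rfl
  · exact C5_S5
  · rw [neg_sq]; exact C5_S5

lemma K9_dt_sub_comm (a b : E) : dt (a - b) (a - b) = dt (b - a) (b - a) := by
  have : b - a = -(a - b) := by abel
  rw [this, dt_neg_left, dt_neg_right, neg_neg]

/-- the angle is 72 degrees -/
lemma K9_ang {X : Set E} {u : E → E} {c s : E → ℝ} (W : CW X u c s) {x z : E} (hx : x ∈ X)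
    (hxn : ‖x‖ ≤ 10) (hz : z ∈ X) (hd : dt (z - x) (z - x) ≤ 3.2112)
    (hoff : cr (u x) (z - x) ≠ 0) : c x = C5 ∧ s x = S5 := by
  rcases W.ang x hx (by linarith) with h | h
  · exact h
  · exfalso
    have h1 := W.far hx (by linarith) hz (by linarith) hoff
    rw [dt_cr_axis (W.unit x hx (by linarith))] at h1
    have h2 := C5_gt
    have h3 := C5_lt
    have h4 : dt (z - x) (z - x) - dt (u x) (z - x) ^ 2 ≤ 3.2112 := by
      nlinarith [sq_nonneg (dt (u x) (z - x))]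
    have h5 : 0 ≤ (1 - C5) * (1 - c x) := mul_nonneg (by linarith) (by linarith [h.2])
    have h6 : (1 - C5) * (1 - c x) ≤ 0.691 * 0.41 :=
      mul_le_mul (by linarith) (by linarith [h.1]) (by linarith [h.2]) (by norm_num)
    have h7 : (1 - C5) * (1 - c x) * (dt (z - x) (z - x) - dt (u x) (z - x) ^ 2) ≤
        (0.691 * 0.41) * 3.2112 := by
      calc (1 - C5) * (1 - c x) * (dt (z - x) (z - x) - dt (u x) (z - x) ^ 2)
          ≤ (1 - C5) * (1 - c x) * 3.2112 := mul_le_mul_of_nonneg_left h4 h5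
        _ ≤ (0.691 * 0.41) * 3.2112 := mul_le_mul_of_nonneg_right h6 (by norm_num)
    norm_num at h7
    linarith

/-- rotation at a point of `X` with the angle 72 degrees -/
lemma K9_rot {X : Set E} {u : E → E} {c s : E → ℝ} (W : CW X u c s) {x v : E} (hx : x ∈ X)
    (hxn : ‖x‖ ≤ 20) (hcs : c x = C5 ∧ s x = S5) {s' : ℝ} (hs : s' = S5 ∨ s' = -S5)
    (hv : dt v v ≤ 4) (hxv : x + v ∈ X) : x + rot (u x) C5 s' v ∈ X := by
  have h := W.rot x hx hxn v hv hxv
  rw [hcs.1, hcs.2] at h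
  rcases hs with rfl | rfl
  · exact h.1
  · exact h.2

/-- a point far from the axis is moved a lot -/
lemma K9_moved {u' v : E} (hu : dt u' u' = 1) {s' : ℝ} (hs : s' = S5 ∨ s' = -S5)
    (hF : 2 + 2 * C5 ≤ dt (cr u' v) (cr u' v)) :
    3.6 ≤ dt (rot u' C5 s' v - v) (rot u' C5 s' v - v) := by
  rw [dt_rot_sub_self hu (K9_s2 hs), ← dt_cr_axis hu]
  have h2 := C5_gt
  have h3 := C5_lt
  have h4 : 2 * (1 - C5) * (2 + 2 * C5) ≤ 2 * (1 - C5) * dt (cr u' v) (cr u' v) :=
    mul_le_mul_of_nonneg_left hF (by linarith)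
  nlinarith

/-- the closeness argument at a base point `P` -/
lemma K9_base {X : Set E} {u : E → E} {c s : E → ℝ} (W : CW X u c s) {P A B : E} (hP : P ∈ X)
    (hPn : ‖P‖ ≤ 5) (hA : A ∈ X) (hB : B ∈ X)
    (h1 : 2 ≤ (1 - C5) * dt (A - P) (A - P)) (h2 : 2 ≤ (1 - C5) * dt (B - P) (B - P))
    (h3 : 2 ≤ (1 - C5) * dt (A - B) (A - B))
    (hsum : dt (A - P) (A - P) + dt (B - P) (B - P) + dt (A - B) (A - B) ≤ 9)
    (oA : cr (u P) (A - P) ≠ 0) (oB : cr (u P) (B - P) ≠ 0) :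
    ∃ s' : ℝ, (s' = S5 ∨ s' = -S5) ∧
      P + rot (u P) C5 s' (B - P) - A ≠ 0 ∧ cr (u A) (P + rot (u P) C5 s' (B - P) - A) = 0 ∧
      P + rot (u P) C5 (-s') (A - P) - B ≠ 0 ∧
      cr (u B) (P + rot (u P) C5 (-s') (A - P) - B) = 0 := by
  have uA : dt (A - P) (A - P) ≤ 3.2112 := K9_ub h2 h3 (by linarith)
  have uB : dt (B - P) (B - P) ≤ 3.2112 := K9_ub h1 h3 (by linarith)
  have uAB : dt (A - B) (A - B) ≤ 3.2112 := K9_ub h1 h2 hsum
  have hcs := K9_ang W hP (by linarith) hA uA oA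
  have hu := W.unit P hP (by linarith)
  have FA := W.axis_dist hP (by linarith) hA (by linarith) oA
  have FB := W.axis_dist hP (by linarith) hB (by linarith) oB
  have e0 : A - P - (B - P) = A - B := by abel
  obtain ⟨s', hs', hcl⟩ := closeness hu h1 h2 (by rw [e0]; exact h3)
    (by rw [e0]; exact hsum) FA FB
  have hs'' : -s' = S5 ∨ -s' = -S5 := by
    rcases hs' with rfl | rfl
    · exact Or.inr rfl
    · exact Or.inl (neg_neg _)
  have hc2 := K9_s2 hs'
  have hc2' := K9_s2 hs''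
  -- the rotated points
  have gB : P + rot (u P) C5 s' (B - P) ∈ X := K9_rot W hP (by linarith) hcs hs' (by linarith)
    (by rw [add_sub_cancel]; exact hB)
  have gA : P + rot (u P) C5 (-s') (A - P) ∈ X := K9_rot W hP (by linarith) hcs hs'' (by linarith)
    (by rw [add_sub_cancel]; exact hA)
  have nA : ‖A‖ ≤ 5 + 2 := K9_norm (by linarith) hPn
  have nB : ‖B‖ ≤ 5 + 2 := K9_norm (by linarith) hPn
  have ngB : ‖P + rot (u P) C5 s' (B - P)‖ ≤ 5 + 2 := K9_norm (x := P) (by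
    rw [add_sub_cancel_left, dt_rot_rot hu hc2]; linarith) hPn
  have ngA : ‖P + rot (u P) C5 (-s') (A - P)‖ ≤ 5 + 2 := K9_norm (x := P) (by
    rw [add_sub_cancel_left, dt_rot_rot hu hc2']; linarith) hPn
  -- they are close
  have cl1 : (1 - C5) * dt (P + rot (u P) C5 s' (B - P) - A) (P + rot (u P) C5 s' (B - P) - A) < 2 := by
    have e : P + rot (u P) C5 s' (B - P) - A = -(A - P - rot (u P) C5 s' (B - P)) := by abel
    rw [e, dt_neg_left, dt_neg_right, neg_neg]
    exact hcl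
  have cl2 : (1 - C5) * dt (P + rot (u P) C5 (-s') (A - P) - B)
      (P + rot (u P) C5 (-s') (A - P) - B) < 2 := by
    have e : P + rot (u P) C5 (-s') (A - P) - B =
        rot (u P) C5 (-s') (A - P - rot (u P) C5 s' (B - P)) := by
      rw [rot_sub (u P) C5 (-s') (A - P) (rot (u P) C5 s' (B - P)), rot_inv hu hc2]; abel
    rw [e, dt_rot_rot hu hc2']
    exact hcl
  -- they are different
  have ne1 : P + rot (u P) C5 s' (B - P) - A ≠ 0 := by
    intro h
    have h4 := K9_moved hu hs' FB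
    have e : rot (u P) C5 s' (B - P) - (B - P) = A - B := by
      rw [← sub_eq_zero.1 h]; abel
    rw [e] at h4
    linarith
  have ne2 : P + rot (u P) C5 (-s') (A - P) - B ≠ 0 := by
    intro h
    have h4 := K9_moved hu hs'' FA
    have e : rot (u P) C5 (-s') (A - P) - (A - P) = -(A - B) := by
      have e' : A - B = A - (P + rot (u P) C5 (-s') (A - P)) := by rw [sub_eq_zero.1 h]
      rw [e']; abel
    rw [e, dt_neg_left, dt_neg_right, neg_neg] at h4
    linarith
  refine ⟨s', hs', ne1, ?_, ne2, ?_⟩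
  · have h5 := W.coax _ hA (by linarith) _ gB (by linarith)
      (fun h => ne1 (by rw [← h, sub_self])) cl1
    exact h5.1
  · have h5 := W.coax _ hB (by linarith) _ gA (by linarith)
      (fun h => ne2 (by rw [← h, sub_self])) cl2
    exact h5.1

/-- a finite set with a strict inequality -/
lemma K9_gap {S : Set E} (hS : S.Finite) (f : E → ℝ) (h : ∀ w ∈ S, 1 < f w) :
    ∃ δ : ℝ, 0 < δ ∧ ∀ w ∈ S, 1 + δ ≤ f w := by
  rcases S.eq_empty_or_nonempty with he | hne
  · exact ⟨1, one_pos, fun w hw => by rw [he] at hw; exact absurd hw (Set.notMem_empty w)⟩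
  · obtain ⟨w0, hw0, hmin⟩ := Set.exists_min_image S f hS hne
    exact ⟨f w0 - 1, by linarith [h w0 hw0], fun w hw => by linarith [hmin w hw]⟩

/-- hypothesis `h1` of the circle lemma -/
lemma K9_cover {X : Set E} {u : E → E} {c s : E → ℝ} (W : CW X u c s) {x v : E}
    (hxn : ‖x‖ ≤ 1) (hv : dt v v = 1) {r : E} (hr : dt r r = 1) (hrv : dt r v = 0) :
    ∃ w ∈ X, cr v (w - x) ≠ 0 ∧ dt (w - (x + (1 : ℝ) • r)) (w - (x + (1 : ℝ) • r)) ≤ 1 := by
  by_contra hcon
  push Not at hcon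
  rw [one_smul] at hcon
  have hrn : ‖r‖ = 1 := (norm_eq_one_iff_dt r).2 hr
  set S : Set E := X ∩ {w | ‖w‖ ≤ 4} ∩ {w | cr v (w - x) ≠ 0} with hSdef
  have hS : S.Finite := (W.fin 4).subset Set.inter_subset_left
  obtain ⟨δ, hδ, hgap⟩ := K9_gap hS (fun w => dt (w - (x + r)) (w - (x + r)))
    (fun w hw => hcon w hw.1.1 hw.2)
  set ε : ℝ := min 1 (δ / 20) with hε
  have hε0 : 0 < ε := lt_min one_pos (by positivity)
  have hε1 : ε ≤ 1 := min_le_left _ _
  have hε2 : ε ≤ δ / 20 := min_le_right _ _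
  obtain ⟨w, hw, hwn⟩ := W.cov (x + (1 + ε) • r)
  have hy : ‖x + (1 + ε) • r‖ ≤ 3 := by
    calc ‖x + (1 + ε) • r‖ ≤ ‖x‖ + ‖(1 + ε) • r‖ := norm_add_le _ _
      _ = ‖x‖ + (1 + ε) := by rw [norm_smul, hrn, mul_one, Real.norm_of_nonneg (by linarith)]
      _ ≤ 3 := by linarith
  have hw4 : ‖w‖ ≤ 4 := by
    have := norm_add_le (w - (x + (1 + ε) • r)) (x + (1 + ε) • r)
    rw [sub_add_cancel] at this
    linarith
  have hwd : dt (w - (x + (1 + ε) • r)) (w - (x + (1 + ε) • r)) ≤ 1 := by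
    rw [← norm_sq_eq_dt]
    have := norm_nonneg (w - (x + (1 + ε) • r))
    nlinarith
  -- `w` is off the axis
  have hoff : cr v (w - x) ≠ 0 := by
    intro h
    have h1 := K9_par hv h
    have e : w - (x + (1 + ε) • r) = dt v (w - x) • v - (1 + ε) • r := by
      rw [← h1]; abel
    rw [e] at hwd
    simp only [dt_sub_left, dt_sub_right, dt_smul_left, dt_smul_right, hv, hr, hrv,
      dt_comm v r] at hwd
    nlinarith [sq_nonneg (dt v w - dt v x)]
  have hgw := hgap w ⟨⟨hw, hw4⟩, hoff⟩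
  have e : w - (x + (1 + ε) • r) = (w - (x + r)) - ε • r := by
    rw [add_smul, one_smul]; abel
  rw [e] at hwd
  simp only [dt_sub_left (w - (x + r)), dt_sub_right (w - (x + r)), dt_smul_left, dt_smul_right,
    hr, dt_comm r (w - (x + r))] at hwd
  have hb : dt (w - (x + r)) r ≤ 7 := by
    have h1 : ‖w - (x + r)‖ ≤ 6 := by
      have h2 := norm_sub_le w (x + r)
      have h3 := norm_add_le x r
      linarith
    have h4 : dt (w - (x + r)) r ≤ ‖w - (x + r)‖ * ‖r‖ := by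
      rw [← inner_eq_dt]; exact real_inner_le_norm _ _
    rw [hrn] at h4
    linarith
  have hgw' : 1 + δ ≤ dt (w - (x + r)) (w - (x + r)) := hgw
  nlinarith

lemma K9_gram {a b : E} (ha : dt a a = 1) (hb : dt b b = 1) (e : E) :
    dt e e * (1 - dt a b ^ 2) - dt a e ^ 2 - dt b e ^ 2 + 2 * dt a e * dt b e * dt a b =
      dt (cr a e) b ^ 2 := by
  have h1 : dt (cr a e) b ^ 2 = dt a a * (dt e e * dt b b - dt e b * dt b e) -
      dt a e * (dt e a * dt b b - dt e b * dt b a) +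
      dt a b * (dt e a * dt b e - dt e e * dt b a) := by
    simp only [dt, cr_0, cr_1, cr_2]
    ring
  rw [h1, ha, hb, dt_comm e a, dt_comm e b, dt_comm b a]
  ring

lemma K9_num {t a b nn : ℝ} (ht : t ^ 2 = 1 / 5)
    (hg : nn * (1 - t ^ 2) - a ^ 2 - b ^ 2 + 2 * a * b * t = 0 ^ 2)
    (FA : 2 + 2 * C5 ≤ nn - a ^ 2) (FB : 2 + 2 * C5 ≤ nn - b ^ 2) (U : nn ≤ 3.2112) : False := by
  have hC := C5_gt
  rw [zero_pow (by norm_num)] at hg
  have hab : -(2 * a * b * t) ≤ 0.45 * (a ^ 2 + b ^ 2) := by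
    have h1 : |t| ≤ 0.45 := by
      apply abs_le_of_sq_le_sq _ (by norm_num)
      rw [ht]; norm_num
    have h2 : |2 * a * b| ≤ a ^ 2 + b ^ 2 := by
      rw [abs_le]
      constructor <;> nlinarith [sq_nonneg (a + b), sq_nonneg (a - b)]
    calc -(2 * a * b * t) ≤ |2 * a * b * t| := neg_le_abs _
      _ = |2 * a * b| * |t| := abs_mul _ _
      _ ≤ (a ^ 2 + b ^ 2) * 0.45 := mul_le_mul h2 h1 (abs_nonneg _) (by positivity)
      _ = 0.45 * (a ^ 2 + b ^ 2) := by ring
  rw [ht] at hg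
  linarith

lemma K9_false {X : Set E} {u : E → E} {c s : E → ℝ} (W : CW X u c s) : False := by
  have hC1 := C5_gt
  have hC2 := C5_lt
  obtain ⟨x, hx, hxn⟩ := W.cov 0
  rw [sub_zero] at hxn
  have hux := W.unit x hx (by linarith)
  obtain ⟨r, w, w', hr, hrv, hw, hw', hww', ow, ow', dw, dw', hnc⟩ :=
    circle_lemma W (m := x) (v := u x) (d := 1) hux zero_le_one le_rfl (by linarith)
      (fun r hr hrv => K9_cover W hxn hux hr hrv)
      (fun r hr hrv w hw hoff hd => by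
        rw [one_smul] at hd ⊢
        have hrn : ‖r‖ = 1 := (norm_eq_one_iff_dt r).2 hr
        have e : w - x = (w - (x + r)) + r := by abel
        have e2 : dt (w - x) (w - x) = dt (w - (x + r)) (w - (x + r)) + 2 * dt (w - (x + r)) r + 1 := by
          rw [e]
          simp only [dt_add_left (w - (x + r)), dt_add_right (w - (x + r)), hr,
            dt_comm r (w - (x + r))]
          ring
        have hwn : ‖w‖ ≤ 3 := by
          have h1 : ‖w - (x + r)‖ ≤ 1 := by
            have h2 : ‖w - (x + r)‖ ^ 2 ≤ 1 ^ 2 := by rw [norm_sq_eq_dt]; linarith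
            have := abs_le_of_sq_le_sq h2 (by norm_num)
            rwa [abs_of_nonneg (norm_nonneg _)] at this
          have h3 := norm_add_le (w - (x + r)) (x + r)
          rw [sub_add_cancel] at h3
          have h4 := norm_add_le x r
          linarith
        have h5 : 2 ≤ (1 - C5) * dt (w - x) (w - x) := by
          by_contra hcon
          push Not at hcon
          have hne : x ≠ w := by
            rintro rfl
            exact hoff (by rw [sub_self, cr_zero_right])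
          exact hoff (W.coax x hx (by linarith) w hw (by linarith) hne hcon).1
        rw [e2] at h5
        by_contra hcon
        push Not at hcon
        nlinarith)
  rw [one_smul] at dw dw'
  have hrn : ‖r‖ = 1 := (norm_eq_one_iff_dt r).2 hr
  have nrm : ∀ z : E, dt (z - (x + r)) (z - (x + r)) ≤ 1 → ‖z‖ ≤ 3 := by
    intro z hz
    have h1 : ‖z - (x + r)‖ ≤ 1 := by
      have h2 : ‖z - (x + r)‖ ^ 2 ≤ 1 ^ 2 := by rw [norm_sq_eq_dt]; linarith
      have := abs_le_of_sq_le_sq h2 (by norm_num)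
      rwa [abs_of_nonneg (norm_nonneg _)] at this
    have h3 := norm_add_le (z - (x + r)) (x + r)
    rw [sub_add_cancel] at h3
    have h4 := norm_add_le x r
    linarith
  have hwn := nrm w dw
  have hwn' := nrm w' dw'
  -- distances
  have D1 : 2 ≤ (1 - C5) * dt (w - x) (w - x) := by
    by_contra hcon
    push Not at hcon
    have hne : x ≠ w := by
      rintro rfl
      exact ow (by rw [sub_self, cr_zero_right])
    exact ow (W.coax x hx (by linarith) w hw (by linarith) hne hcon).1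
  have D2 : 2 ≤ (1 - C5) * dt (w' - x) (w' - x) := by
    by_contra hcon
    push Not at hcon
    have hne : x ≠ w' := by
      rintro rfl
      exact ow' (by rw [sub_self, cr_zero_right])
    exact ow' (W.coax x hx (by linarith) w' hw' (by linarith) hne hcon).1
  have D3 : 2 ≤ (1 - C5) * dt (w' - w) (w' - w) := by
    by_contra hcon
    push Not at hcon
    exact hnc (W.coax w hw (by linarith) w' hw' (by linarith) hww' hcon)
  have hsum : dt (w - x) (w - x) + dt (w' - x) (w' - x) + dt (w' - w) (w' - w) ≤ 9 := by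
    set n := w - (x + r) with hn
    set n' := w' - (x + r) with hn'
    have e1 : w - x = n + r := by rw [hn]; abel
    have e2 : w' - x = n' + r := by rw [hn']; abel
    have e3 : w' - w = n' - n := by rw [hn, hn']; abel
    rw [e1, e2, e3]
    have h0 := dt_self_nonneg (n + n' - r)
    simp only [dt_add_left, dt_add_right, dt_sub_left, dt_sub_right] at h0 ⊢
    rw [dt_comm r n, dt_comm r n', dt_comm n' n] at *
    linarith
  have U1 : dt (w - x) (w - x) ≤ 3.2112 := K9_ub D2 D3 (by linarith)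
  have U2 : dt (w' - x) (w' - x) ≤ 3.2112 := K9_ub D1 D3 (by linarith)
  have U3 : dt (w' - w) (w' - w) ≤ 3.2112 := K9_ub D1 D2 hsum
  have huw := W.unit w hw (by linarith)
  have huw' := W.unit w' hw' (by linarith)
  -- off-axis facts
  have o3 : cr (u w) (x - w) ≠ 0 := by
    intro h
    have h1 := W.chain hw (by linarith) hx (by rw [K9_dt_sub_comm]; linarith) h
    have h2 := K9_par2 huw h1 h
    apply ow
    have e : w - x = -(x - w) := by abel
    rw [e, cr_neg_right, h2, neg_zero]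
  have o5 : cr (u w) (w' - w) ≠ 0 := by
    intro h
    have h1 := W.chain hw (by linarith) hw' (by linarith) h
    have h2 := K9_par2 huw h1 h
    exact hnc ⟨h, h2⟩
  -- closeness at `x`
  have e31 : dt (w - w') (w - w') = dt (w' - w) (w' - w) := K9_dt_sub_comm _ _
  obtain ⟨s₁, hs₁, n1, E1, n2, E2⟩ := K9_base W hx (by linarith) hw hw' D1 D2
    (by rw [e31]; exact D3) (by rw [e31]; exact hsum) ow ow'
  -- closeness at `w`
  have e32 : dt (x - w) (x - w) = dt (w - x) (w - x) := K9_dt_sub_comm _ _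
  obtain ⟨s₂, hs₂, n3, E3, n4, E4⟩ := K9_base W hw (by linarith) hw' hx D3
    (by rw [e32]; exact D1) D2 (by rw [e32]; linarith) o5 o3
  set e := w - x with he
  have hxw : x - w = -e := by rw [he]; abel
  have hs₁' : -s₁ = S5 ∨ -s₁ = -S5 := by
    rcases hs₁ with rfl | rfl
    · exact Or.inr rfl
    · exact Or.inl (neg_neg _)
  have c1 := K9_s2 hs₁
  have c1' := K9_s2 hs₁'
  have c2 := K9_s2 hs₂
  set M := rot (u x) C5 (-s₁) e + rot (u w) C5 s₂ e - e with hM
  -- M = p - q', where p - w' and q' - w' are parallel to u w'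
  have hMeq : M = (x + rot (u x) C5 (-s₁) e - w') - (w + rot (u w) C5 s₂ (x - w) - w') := by
    rw [hxw, rot_neg, hM, he]; abel
  have hMpar : cr (u w') M = 0 := by
    rw [hMeq, cr_sub_right, E2, E3, sub_zero]
  have FA := W.axis_dist hx (by linarith) hw (by linarith) ow
  have FB := W.axis_dist hw (by linarith) hx (by linarith) o3
  have hM0 : M ≠ 0 := by
    intro h
    rw [hMeq] at h
    have h1 : rot (u x) C5 (-s₁) e - e = - rot (u w) C5 s₂ e := by
      have h2 : x + rot (u x) C5 (-s₁) e - w' = w + rot (u w) C5 s₂ (x - w) - w' :=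
        sub_eq_zero.1 h
      have h3 : x + rot (u x) C5 (-s₁) e = w + rot (u w) C5 s₂ (x - w) := sub_left_injective h2
      rw [hxw, rot_neg] at h3
      have h4 : rot (u x) C5 (-s₁) e = w + -rot (u w) C5 s₂ e - x := by rw [← h3]; abel
      rw [h4, he]; abel
    have h5 := K9_moved hux hs₁' FA
    rw [← he] at h5
    rw [h1, dt_neg_left, dt_neg_right, neg_neg, dt_rot_rot huw c2] at h5
    linarith
  -- direction of `u w'`
  have par_of : ∀ {a D : E}, D ≠ 0 → cr (u w') D = 0 → cr a D = 0 → cr a M = 0 := by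
    intro a D hD h1 h2
    have h3 := K9_par huw' h1
    have h4 := K9_par huw' hMpar
    have ht : dt (u w') D ≠ 0 := by
      intro h0
      rw [h0, zero_smul] at h3
      exact hD h3
    have h5 : cr a (u w') = 0 := by
      rw [h3, cr_smul_right] at h2
      exact (smul_eq_zero.1 h2).resolve_left ht
    rw [h4, cr_smul_right, h5, smul_zero]
  have hg : cr (rot (u x) C5 (-s₁) (u w)) M = 0 := by
    refine par_of n2 E2 ?_
    have h1 := K9_par huw E1
    set t := dt (u w) (x + rot (u x) C5 s₁ (w' - x) - w) with ht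
    have h2 : x + rot (u x) C5 (-s₁) e - w' = -(t • rot (u x) C5 (-s₁) (u w)) := by
      rw [← rot_smul, ← h1]
      have h3 : x + rot (u x) C5 s₁ (w' - x) - w = rot (u x) C5 s₁ (w' - x) - e := by
        rw [he]; abel
      have h4 : rot (u x) C5 (-s₁) (rot (u x) C5 s₁ (w' - x) - e) =
          (w' - x) - rot (u x) C5 (-s₁) e := by
        rw [rot_sub (u x) C5 (-s₁) (rot (u x) C5 s₁ (w' - x)) e, rot_inv hux c1]
      rw [h3, h4, neg_sub]; abel
    rw [h2, cr_neg_right, cr_smul_right, cr_self, smul_zero, neg_zero]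
  have hh : cr (rot (u w) C5 s₂ (u x)) M = 0 := by
    refine par_of n3 E3 ?_
    have h1 := K9_par hux E4
    set t := dt (u x) (w + rot (u w) C5 (-s₂) (w' - w) - x) with ht
    have h2 : w + rot (u w) C5 s₂ (x - w) - w' = -(t • rot (u w) C5 s₂ (u x)) := by
      rw [← rot_smul, ← h1]
      have h3 : w + rot (u w) C5 (-s₂) (w' - w) - x = rot (u w) C5 (-s₂) (w' - w) - (x - w) := by
        abel
      have h4 : rot (u w) C5 s₂ (rot (u w) C5 (-s₂) (w' - w) - (x - w)) =
          (w' - w) - rot (u w) C5 s₂ (x - w) := by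
        rw [rot_sub (u w) C5 s₂ (rot (u w) C5 (-s₂) (w' - w)) (x - w), rot_inv' huw c2]
      rw [h3, h4, neg_sub]; abel
    rw [h2, cr_neg_right, cr_smul_right, cr_self, smul_zero, neg_zero]
  obtain ⟨ht, hco⟩ := line_eq hux huw C5 (-s₁) s₂ C5_eq (by linarith) (by linarith)
    (by linarith) (by linarith) ow hM0 hg hh
  -- the Gram determinant
  have hgram := K9_gram hux huw e
  rw [hco] at hgram
  rw [dt_cr_axis hux] at FA
  rw [dt_cr_axis huw, hxw, dt_neg_left, dt_neg_right, neg_neg, dt_neg_right, neg_sq] at FB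
  rw [← he] at FA
  exact K9_num ht hgram FA FB U1

/-- TARGET K9: the chain world does not exist -/
theorem CW.false {X : Set E} {u : E → E} {c s : E → ℝ} (W : CW X u c s) : False :=
  K9_false W


end Pool.Agent.H304
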