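import Pool.Agent.helper304_ico.Basic

set_option autoImplicit false

namespace Pool.Agent.H304

/-- cosine of 72 degrees -/
noncomputable def C5 : ℝ := (Real.sqrt 5 - 1) / 4
/-- sine of 72 degrees -/
noncomputable def S5 : ℝ := Real.sqrt (1 - C5 ^ 2)

lemma sqrt5_sq : Real.sqrt 5 ^ 2 = 5 := Real.sq_sqrt (by norm_num)
lemma sqrt5_gt : 2.2360679 < Real.sqrt 5 := by
  rw [show (2.2360679 : ℝ) = Real.sqrt (2.2360679 ^ 2) from (Real.sqrt_sq (by norm_num)).symm]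
  exact Real.sqrt_lt_sqrt (by norm_num) (by norm_num)
lemma sqrt5_lt : Real.sqrt 5 < 2.2360680 := by
  rw [show (2.2360680 : ℝ) = Real.sqrt (2.2360680 ^ 2) from (Real.sqrt_sq (by norm_num)).symm]
  exact Real.sqrt_lt_sqrt (by norm_num) (by norm_num)

lemma C5_eq : 4 * C5 ^ 2 + 2 * C5 = 1 := by
  have h := sqrt5_sq
  unfold C5
  linear_combination (1 / 4) * h

lemma C5_gt : 0.30901697 < C5 := by
  have := sqrt5_gt; unfold C5; norm_num at *; linarith
lemma C5_lt : C5 < 0.30901700 := by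
  have := sqrt5_lt; unfold C5; norm_num at *; linarith

lemma S5_sq : S5 ^ 2 = 1 - C5 ^ 2 := by
  apply Real.sq_sqrt
  nlinarith [C5_gt, C5_lt]

lemma S5_pos : 0 < S5 := by
  apply Real.sqrt_pos.mpr
  nlinarith [C5_gt, C5_lt]

lemma C5_S5 : C5 ^ 2 + S5 ^ 2 = 1 := by rw [S5_sq]; ring

end Pool.Agent.H304
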