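import Pool.Agent.helper304_ico.Consts

set_option autoImplicit false

namespace Pool.Agent.H304

/-- two unit vectors both parallel to a nonzero vector are equal up to sign -/
lemma par_unit {p q m : E} (hp : dt p p = 1) (hq : dt q q = 1) (hm : m ≠ 0)
    (h1 : cr p m = 0) (h2 : cr q m = 0) : q = p ∨ q = -p := by
  have hmm : dt m m ≠ 0 := fun h => hm (dt_self_eq_zero h)
  have e1 : dt p m • p = m := by
    have := cr_cr p p m
    rw [h1, hp] at this
    simp only [cr_zero_right, one_smul] at this
    exact (sub_eq_zero.mp this.symm)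
  have e2 : dt q m • q = m := by
    have := cr_cr q q m
    rw [h2, hq] at this
    simp only [cr_zero_right, one_smul] at this
    exact (sub_eq_zero.mp this.symm)
  have hpm : dt p m ≠ 0 := by
    intro h; rw [h, zero_smul] at e1; exact hm e1.symm
  have hqm : dt q m ≠ 0 := by
    intro h; rw [h, zero_smul] at e2; exact hm e2.symm
  have h3 : dt p m ^ 2 = dt m m := by
    conv_rhs => rw [← e1]
    rw [dt_smul_left, dt_smul_right, hp]; ring
  have h4 : dt q m ^ 2 = dt m m := by
    conv_rhs => rw [← e2]
    rw [dt_smul_left, dt_smul_right, hq]; ring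
  have h5 : dt q m = dt p m ∨ dt q m = - dt p m := by
    apply sq_eq_sq_iff_eq_or_eq_neg.mp; rw [h3, h4]
  have h6 : dt q m • q = dt p m • p := by rw [e1, e2]
  rcases h5 with h5 | h5
  · left
    rw [h5] at h6
    exact smul_right_injective _ hpm h6
  · right
    rw [h5, neg_smul] at h6
    have : dt p m • q = dt p m • (-p) := by
      rw [smul_neg, ← h6, neg_neg]
    exact smul_right_injective _ hpm this

lemma dt_rot_self {v : E} (c s : ℝ) (u : E) (hu : dt u u = 1) :
    dt u (rot v c s u) = c + (1 - c) * dt u v ^ 2 := by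
  simp only [rot, dt_add_right, dt_smul_right, dt_self_cr_right, hu, dt_comm v u]; ring

/-- the line equality: if the rotated axes and the difference of the rotated points are all parallel, then the
axes meet (or are coplanar) at the icosahedral angle -/
theorem line_eq {u v e : E} (hu : dt u u = 1) (hv : dt v v = 1) (C s₁ s₂ : ℝ)
    (hC : 4 * C ^ 2 + 2 * C = 1) (hC0 : 0.3 < C) (hC1 : C < 0.31)
    (h1 : s₁ ^ 2 = 1 - C ^ 2) (h2 : s₂ ^ 2 = 1 - C ^ 2)
    (hoff : cr u e ≠ 0)
    (hm0 : rot u C s₁ e + rot v C s₂ e - e ≠ 0)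
    (hg : cr (rot u C s₁ v) (rot u C s₁ e + rot v C s₂ e - e) = 0)
    (hh : cr (rot v C s₂ u) (rot u C s₁ e + rot v C s₂ e - e) = 0) :
    dt u v ^ 2 = 1 / 5 ∧ dt (cr u e) v = 0 := by
  have c1 : C ^ 2 + s₁ ^ 2 = 1 := by rw [h1]; ring
  have c2 : C ^ 2 + s₂ ^ 2 = 1 := by rw [h2]; ring
  set m := rot u C s₁ e + rot v C s₂ e - e with hm
  have hGv : dt (rot u C s₁ v) (rot u C s₁ v) = 1 := by rw [dt_rot_rot hu c1, hv]
  have hHu : dt (rot v C s₂ u) (rot v C s₂ u) = 1 := by rw [dt_rot_rot hv c2, hu]
  have hpar := par_unit hGv hHu hm0 hg hh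
  obtain ⟨η, hη, hpar⟩ : ∃ η : ℝ, η ^ 2 = 1 ∧ rot v C s₂ u = η • rot u C s₁ v := by
    rcases hpar with h | h
    · exact ⟨1, by norm_num, by rw [h, one_smul]⟩
    · exact ⟨-1, by norm_num, by rw [h, neg_one_smul]⟩
  -- equation for t
  have ht : C + (1 - C) * dt u v ^ 2 = η * dt u v := by
    have e1 := dt_rot_self (v := v) C s₂ u hu
    rw [hpar, dt_smul_right, dt_axis_rot hu] at e1
    linarith
  set t := dt u v with htdef
  have hη' : η = 1 ∨ η = -1 := by
    have : (η - 1) * (η + 1) = 0 := by linear_combination hη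
    rcases mul_eq_zero.mp this with h | h
    · left; linarith
    · right; linarith
  have hfac : (η * t - 1) * ((1 - C) * (η * t) - C) = 0 := by
    linear_combination ht + (1 - C) * t ^ 2 * hη
  rcases mul_eq_zero.mp hfac with h | h
  · -- parallel axes: impossible
    exfalso
    have ht2 : t ^ 2 = 1 := by
      have : η * t = 1 := by linarith
      calc t ^ 2 = (η * t) ^ 2 - (η ^ 2 - 1) * t ^ 2 := by ring
        _ = 1 := by rw [this, hη]; ring
    have hvt : v = t • u := by
      have h0 : dt (v - t • u) (v - t • u) = 0 := by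
        simp only [dt_sub_left, dt_sub_right, dt_smul_left, dt_smul_right, hu, hv, dt_comm v u]
        rw [← htdef]; linear_combination -ht2
      exact sub_eq_zero.mp (dt_self_eq_zero h0)
    have hGv' : rot u C s₁ v = t • u := by rw [hvt, rot_smul, rot_axis hu]
    have ht0 : t ≠ 0 := by intro h0; rw [h0] at ht2; norm_num at ht2
    have hum : cr u m = 0 := by
      rw [hGv', cr_smul_left] at hg
      exact (smul_eq_zero.mp hg).resolve_left ht0
    have hkey : dt (cr u m) (cr u e) = (2 * C - 1) * dt (cr u e) (cr u e) := by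
      have e1 : cr u (cr u e) = dt u e • u - e := by rw [cr_cr, hu, one_smul]
      have hve : dt v e = t * dt u e := by rw [hvt, dt_smul_left]
      have hcve : cr v e = t • cr u e := by rw [hvt, cr_smul_left]
      have hcuv : cr u v = 0 := by rw [hvt, cr_smul_right, cr_self, smul_zero]
      rw [hm]
      simp only [rot, cr_add_right, cr_sub_right, cr_smul_right, cr_self, smul_zero, add_zero,
        hcve, hcuv, e1, dt_add_left, dt_sub_left, dt_smul_left, dt_self_cr_left,
        dt_self_cr_right]
      ring
    rw [hum, dt_zero_left] at hkey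
    have : dt (cr u e) (cr u e) = 0 := by
      have h2 : (2 * C - 1) ≠ 0 := by intro h0; linarith
      exact (mul_eq_zero.mp hkey.symm).resolve_left h2
    exact hoff (dt_self_eq_zero this)
  · -- the icosahedral angle
    have ht2 : t ^ 2 = 1 / 5 := by
      have h1C : (1 - C) ^ 2 ≠ 0 := by
        have : 0 < 1 - C := by linarith
        positivity
      have e1 : (1 - C) * (η * t) = C := by linarith
      have e2 : (1 - C) ^ 2 * t ^ 2 = C ^ 2 := by
        calc (1 - C) ^ 2 * t ^ 2 = ((1 - C) * (η * t)) ^ 2 - (1 - C) ^ 2 * t ^ 2 * (η ^ 2 - 1) := by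
              ring
          _ = C ^ 2 := by rw [e1, hη]; ring
      have e3 : (1 - C) ^ 2 * (t ^ 2 - 1 / 5) = 0 := by
        linear_combination e2 + (1 / 5) * hC
      have := (mul_eq_zero.mp e3).resolve_left h1C
      linarith
    refine ⟨ht2, ?_⟩
    set n := cr u v with hn
    have hnn : dt n n = 1 - t ^ 2 := by
      rw [hn, dt_cr_cr, hu, hv, dt_comm v u, ← htdef]; ring
    have hnn0 : dt n n ≠ 0 := by rw [hnn, ht2]; norm_num
    -- s₂ = - η s₁
    have hs : s₂ = - η * s₁ := by
      have e1 : dt (rot v C s₂ u) n = - s₂ * dt n n := by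
        simp only [rot, dt_add_left, dt_smul_left]
        rw [cr_comm v u, ← hn, dt_neg_left]
        have a1 : dt u n = 0 := by rw [hn]; simp
        have a2 : dt v n = 0 := by rw [hn]; simp
        rw [a1, a2]; ring
      have e2 : dt (rot u C s₁ v) n = s₁ * dt n n := by
        simp only [rot, dt_add_left, dt_smul_left]
        rw [← hn]
        have a1 : dt u n = 0 := by rw [hn]; simp
        have a2 : dt v n = 0 := by rw [hn]; simp
        rw [a1, a2]; ring
      rw [hpar, dt_smul_left, e2] at e1
      have : (s₂ + η * s₁) * dt n n = 0 := by linear_combination e1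
      have := (mul_eq_zero.mp this).resolve_right hnn0
      linarith
    -- m is orthogonal to the rotated normal
    have hmn : dt m (rot u C s₁ n) = 0 := by
      have e1 : dt (rot u C s₁ v) m • (rot u C s₁ v) = m := by
        have := cr_cr (rot u C s₁ v) (rot u C s₁ v) m
        rw [hg, hGv] at this
        simp only [cr_zero_right, one_smul] at this
        exact (sub_eq_zero.mp this.symm)
      rw [← e1, dt_smul_left, dt_rot_rot hu c1]
      have : dt v n = 0 := by rw [hn]; simp
      rw [this, mul_zero]
    have hGn : rot u C s₁ n = C • n + s₁ • (t • u - v) := by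
      have a1 : dt u n = 0 := by rw [hn]; simp
      have a2 : cr u n = t • u - v := by rw [hn, cr_cr, hu, one_smul, ← htdef]
      rw [rot, a1, a2]; simp
    rw [hGn] at hmn
    have b1 : dt (rot u C s₁ e) (rot u C s₁ n) = dt e n := dt_rot_rot hu c1 e n
    rw [hGn] at b1
    have b2 : dt (cr v e) n = t * dt v e - dt u e := by
      rw [hn, dt_cr_cr, hv, dt_comm v u, dt_comm e v, dt_comm e u, ← htdef]; ring
    have b3 : dt (cr v e) u = dt e n := by
      rw [hn, dt_cr_cycle v e u, dt_cr_cycle e u v, dt_comm]
    have b4 : dt e u = dt u e := dt_comm _ _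
    have b5 : dt e v = dt v e := dt_comm _ _
    have b6 : dt v n = 0 := by rw [hn]; simp
    have b7 : dt v u = t := by rw [dt_comm, ← htdef]
    have b8 : dt (cr v e) v = 0 := by simp
    have hδ : dt e n = 0 := by
      rw [hm, dt_sub_left, dt_add_left, b1] at hmn
      simp only [rot, dt_add_left, dt_smul_left, dt_add_right, dt_smul_right, dt_sub_right,
        b2, b3, b4, b5, b6, b7, b8, hv] at hmn
      have e1 : (1 - C) * (η * t) = C := by linarith
      rw [hs] at hmn
      have h12 : (1 - 2 * C) * dt e n = 0 := by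
        have h3 : s₁ ^ 2 * (η * t) = C * (1 + C) := by
          rw [h1]; linear_combination (1 + C) * e1
        have h4 : (1 - C) * t = η * C := by
          calc (1 - C) * t = η * ((1 - C) * (η * t)) - (1 - C) * t * (η ^ 2 - 1) := by ring
            _ = η * C := by rw [e1, hη]; ring
        linear_combination hmn + dt e n * h3 + s₁ * (dt u e - dt v e * t) * h4
      have h5 : (1 - 2 * C) ≠ 0 := by intro h0; linarith
      exact (mul_eq_zero.mp h12).resolve_left h5
    have : dt (cr u e) v = - dt e n := by
      rw [hn, dt_cr_swap u e v, dt_cr_cycle e u v, dt_comm]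
    rw [this, hδ, neg_zero]

end Pool.Agent.H304
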