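import Pool.Agent.helper304_ico.WMin
import Pool.Agent.helper304_ico.IcoA
import Pool.Agent.helper304_ico.IcoB
import Pool.Agent.helper304_ico.IcoStd
import Pool.Agent.helper304_ico.WChoice

set_option autoImplicit false

namespace Pool.Agent.H304

/-- TARGET M10: final statement -/
theorem main_ico :
    ∃ k : ℝ, ∀ (X : Set (EuclideanSpace ℝ (Fin 3))) (r R : ℝ), 0 < r →
    (∀ x ∈ X, ∀ y ∈ X, x ≠ y → 2 * r ≤ dist x y) →
    (∀ y : EuclideanSpace ℝ (Fin 3), ∃ x ∈ X, dist x y ≤ R) →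
    ∀ y : EuclideanSpace ℝ (Fin 3),
      (∃ x ∈ X, dist x y ≤ k * R ∧
        ∀ A : EuclideanSpace ℝ (Fin 3) ≃ₗᵢ[ℝ] EuclideanSpace ℝ (Fin 3),
          (∀ v : EuclideanSpace ℝ (Fin 3), ‖v‖ ≤ 2 * R → (x + v ∈ X ↔ x + A v ∈ X)) →
          LinearMap.det A.toLinearIsometry.toLinearMap = 1 →
          orderOf A ∈ ({1, 2, 3, 4, 6} : Finset ℕ)) ∨
      (∃ (q : EuclideanSpace ℝ (Fin 3)) (a : ℝ)
        (b : OrthonormalBasis (Fin 3) ℝ (EuclideanSpace ℝ (Fin 3))),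
        0 < a ∧ dist q y ≤ k * R ∧
        ∀ i : Fin 3, ∀ σ τ : ℝ, (σ = 1 ∨ σ = -1) → (τ = 1 ∨ τ = -1) →
          q + a • (σ • b i + (τ * Real.goldenRatio) • b (i + 1)) ∈ X) := by
  refine ⟨10 ^ 9, ?_⟩
  intro X r R hr hsep hcov y
  by_cases h : ∃ x ∈ X, dist x y ≤ 10 ^ 9 * R ∧
        ∀ A : EuclideanSpace ℝ (Fin 3) ≃ₗᵢ[ℝ] EuclideanSpace ℝ (Fin 3),
          (∀ v : EuclideanSpace ℝ (Fin 3), ‖v‖ ≤ 2 * R → (x + v ∈ X ↔ x + A v ∈ X)) →
          LinearMap.det A.toLinearIsometry.toLinearMap = 1 →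
          orderOf A ∈ ({1, 2, 3, 4, 6} : Finset ℕ)
  · exact Or.inl h
  · right
    obtain ⟨u, c, s, W⟩ := GW.of_no_kernel (K := 10 ^ 9 * R) hr hsep hcov y (by
      intro x hx hxy
      by_contra h1
      refine h ⟨x, hx, hxy, fun A hA hdet => ?_⟩
      by_contra h2
      exact h1 ⟨A, hA, hdet, h2⟩)
    have hR := W.Rpos
    obtain ⟨x, hx, y', hy', hxy, hoff, L⟩ := W.minimal (by
      apply mul_le_mul_of_nonneg_right _ hR.le
      norm_num)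
    have hD := L.Dpos
    have hDR := L.DR
    have hD2 : ‖y' - x‖ ≤ 2 * R := by
      by_contra h1
      push Not at h1
      have h2 := C5_lt
      nlinarith
    have hx0 : ‖x - x‖ ≤ 10 * ‖y' - x‖ := by
      rw [sub_self, norm_zero]
      linarith
    have key : ∃ q p₀ p₁ : E, ∃ a : ℝ, ‖q - x‖ ≤ 3 * ‖y' - x‖ ∧ Ico X q a p₀ p₁ := by
      by_cases hA : cr (u y') (y' - x) = 0
      · obtain ⟨p₀, p₁, hI⟩ := L.icoA hx hy' hx0 rfl hoff hA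
        exact ⟨x, p₀, p₁, ‖y' - x‖, by rw [sub_self, norm_zero]; linarith, hI⟩
      · exact L.icoB hx hy' hx0 rfl hoff hA
    obtain ⟨q, p₀, p₁, a, hq, hI⟩ := key
    obtain ⟨a', ha', b, hb⟩ := hI.standard
    refine ⟨q, a', b, ha', ?_, hb⟩
    rw [dist_eq_norm]
    have h3 : ‖q - y‖ ≤ ‖q - x‖ + ‖x - y‖ := norm_sub_le_norm_sub_add_norm_sub q x y
    nlinarith

end Pool.Agent.H304
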