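import Pool.Agent.helper304_ico.PairDefs

set_option autoImplicit false

namespace Pool.Agent.H304

lemma PD.negv {X : Set E} {x y u v : E} (P : PD X x y u v) : PD X x y u (-v) where
  hx := P.hx
  hy := P.hy
  he := P.he
  hu := P.hu
  hv := by rw [dt_neg_left, dt_neg_right, neg_neg]; exact P.hv
  rx := P.rx
  ry := by
    intro z hz h s hs
    rw [rot_neg_axis]
    refine P.ry z hz h (-s) ?_
    rcases hs with hs | hs
    · right; rw [hs]
    · left; rw [hs, neg_neg]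
  fx := P.fx
  fy := by
    intro z hz h hc
    rw [cr_neg_left] at hc ⊢
    rw [dt_neg_left, dt_neg_right, neg_neg]
    exact P.fy z hz h (fun h0 => hc (by rw [h0, neg_zero]))
  pr := P.pr

lemma PD.negu {X : Set E} {x y u v : E} (P : PD X x y u v) : PD X x y (-u) v where
  hx := P.hx
  hy := P.hy
  he := P.he
  hv := P.hv
  hu := by rw [dt_neg_left, dt_neg_right, neg_neg]; exact P.hu
  ry := P.ry
  rx := by
    intro z hz h s hs
    rw [rot_neg_axis]
    refine P.rx z hz h (-s) ?_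
    rcases hs with hs | hs
    · right; rw [hs]
    · left; rw [hs, neg_neg]
  fy := P.fy
  fx := by
    intro z hz h hc
    rw [cr_neg_left] at hc ⊢
    rw [dt_neg_left, dt_neg_right, neg_neg]
    exact P.fx z hz h (fun h0 => hc (by rw [h0, neg_zero]))
  pr := P.pr

lemma frame_rot {e f g : E} (he : dt e e = 1) (hef : dt e f = 0) (heg : dt e g = 0)
    (c1 : cr e f = -g) (c2 : cr e g = f) (c s α β γ : ℝ) :
    rot e c s (α • e + β • f + γ • g) =
      α • e + (c * β + s * γ) • f + (c * γ - s * β) • g := by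
  have h1 : dt e (α • e + β • f + γ • g) = α := by
    rw [dt_add_right, dt_add_right, dt_smul_right, dt_smul_right, dt_smul_right, he, hef, heg]
    ring
  have h2 : cr e (α • e + β • f + γ • g) = γ • f - β • g := by
    rw [cr_add_right, cr_add_right, cr_smul_right, cr_smul_right, cr_smul_right, cr_self, c1, c2]
    module
  rw [rot, h1, h2]
  module

lemma PD.caseA_aux {X : Set E} {x y u : E} (P : PD X x y u (y - x)) (h1 : cr u (y - x) ≠ 0)
    (ha : 0 ≤ dt u (y - x)) : dt u (y - x) ^ 2 = 1 / 5 := by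
  obtain ⟨e, he_def⟩ : ∃ e : E, e = y - x := ⟨_, rfl⟩
  have hy_eq : y = x + e := by rw [he_def]; abel
  have he : dt e e = 1 := by rw [he_def]; exact P.he
  have hu := P.hu
  rw [← he_def] at h1 ha ⊢
  obtain ⟨a, ha_def⟩ : ∃ a : ℝ, a = dt u e := ⟨_, rfl⟩
  rw [← ha_def] at ha ⊢
  obtain ⟨f, hf⟩ : ∃ f : E, f = u - a • e := ⟨_, rfl⟩
  obtain ⟨g, hg⟩ : ∃ g : E, g = cr u e := ⟨_, rfl⟩
  have hue : u = f + a • e := by rw [hf]; abel
  -- the frame
  have hef : dt e f = 0 := by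
    rw [hf, dt_sub_right, dt_smul_right, he, dt_comm e u, ← ha_def]; ring
  have heg : dt e g = 0 := by rw [hg]; exact dt_self_cr_right u e
  have hff : dt f f = 1 - a ^ 2 := by
    have h2 : dt f f = dt u u - a * dt u e - a * dt e u + a * a * dt e e := by
      rw [hf]; simp only [dt_sub_left, dt_sub_right, dt_smul_left, dt_smul_right]; ring
    rw [h2, hu, dt_comm e u, he, ← ha_def]; ring
  have hgg : dt g g = 1 - a ^ 2 := by
    rw [hg, dt_cr_axis hu, he, ← ha_def]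
  have hfg : dt f g = 0 := by
    rw [hf, hg, dt_sub_left, dt_smul_left, dt_self_cr_left, dt_self_cr_right]; ring
  have c1 : cr e f = -g := by
    rw [hf, cr_sub_right, cr_smul_right, cr_self, smul_zero, sub_zero, cr_comm, hg]
  have c2 : cr e g = f := by
    rw [hg, cr_cr, he, one_smul, dt_comm e u, ← ha_def, hf]
  have c3 : cr f g = -((1 - a ^ 2) • e) := by
    have hfe : dt f e = 0 := by rw [dt_comm]; exact hef
    have hfu : dt f u = 1 - a ^ 2 := by
      rw [hue, dt_add_right, dt_smul_right, hff, hfe]; ring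
    rw [hg, cr_cr, hfe, hfu]
    module
  have hC1 := C5_gt
  have hC2 := C5_lt
  have hCe := C5_eq
  have hS := S5_sq
  have hSp := S5_pos
  have hs2 : C5 ^ 2 + S5 ^ 2 = 1 := C5_S5
  -- bound for a
  have hga : 0 < 1 - a ^ 2 := by
    rw [← hgg]
    refine lt_of_le_of_ne (dt_self_nonneg g) fun h0 => h1 ?_
    rw [← hg]
    exact dt_self_eq_zero h0.symm
  have hyx : dt (y - x) (y - x) ≤ 2 * (1 - C5) := by
    rw [← he_def, he]; linarith
  have hfx := P.fx y P.hy hyx (by rw [← he_def]; exact h1)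
  rw [← he_def, ← hg, hgg] at hfx
  have ha2 : a ^ 2 ≤ 0.2779 := by
    have h20 : 2 * (1 - C5) * (1 - a ^ 2) ≤ 1.381967 * (1 - a ^ 2) :=
      mul_le_mul_of_nonneg_right (by norm_num at hC1 ⊢; linarith) hga.le
    norm_num at hfx h20 ⊢
    linarith
  -- points
  have rotu : ∀ s : ℝ, rot u C5 s e = (C5 + (1 - C5) * a ^ 2) • e + ((1 - C5) * a) • f + s • g := by
    intro s
    rw [rot, ← hg, ← ha_def]
    conv_lhs => rw [hue]
    module
  obtain ⟨al, hal⟩ : ∃ al : ℝ, al = C5 + (1 - C5) * a ^ 2 := ⟨_, rfl⟩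
  have nrm : ∀ α β γ : ℝ, dt (α • e + β • f + γ • g) (α • e + β • f + γ • g) =
      α ^ 2 + (β ^ 2 + γ ^ 2) * (1 - a ^ 2) := by
    intro α β γ
    have hfe : dt f e = 0 := by rw [dt_comm]; exact hef
    have hge : dt g e = 0 := by rw [dt_comm]; exact heg
    have hgf : dt g f = 0 := by rw [dt_comm]; exact hfg
    simp only [dt_add_left, dt_add_right, dt_smul_left, dt_smul_right, he, hef, heg, hff, hgg,
      hfg, hfe, hge, hgf]
    ring
  -- P
  have hP : x + (al • e + ((1 - C5) * a) • f + (-S5) • g) ∈ X := by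
    have := P.rx y P.hy hyx (-S5) (Or.inr rfl)
    rwa [← he_def, rotu, ← hal] at this
  have hp1 : x + (al • e + ((1 - C5) * a) • f + S5 • g) ∈ X := by
    have := P.rx y P.hy hyx S5 (Or.inl rfl)
    rwa [← he_def, rotu, ← hal] at this
  -- norm relation: al ^ 2 + ((1-C)^2 a^2 + S^2)(1-a^2) = 1
  have hn1 : al ^ 2 + (((1 - C5) * a) ^ 2 + S5 ^ 2) * (1 - a ^ 2) = 1 := by
    have h3 : dt (rot u C5 S5 e) (rot u C5 S5 e) = 1 := by rw [dt_rot_rot hu hs2, he]
    rw [rotu, ← hal, nrm] at h3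
    exact h3
  have hdy : ∀ β γ : ℝ, β ^ 2 + γ ^ 2 = ((1 - C5) * a) ^ 2 + S5 ^ 2 →
      dt (x + (al • e + β • f + γ • g) - y) (x + (al • e + β • f + γ • g) - y) ≤
        2 * (1 - C5) := by
    intro β γ h
    have h4 : x + (al • e + β • f + γ • g) - y = (al - 1) • e + β • f + γ • g := by
      rw [hy_eq]; module
    rw [h4, nrm, h]
    have h5 : (al - 1) ^ 2 = al ^ 2 - 2 * al + 1 := by ring
    rw [h5]
    have h6 : 0 ≤ (1 - C5) * a ^ 2 := mul_nonneg (by linarith) (sq_nonneg a)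
    linarith
  have hry : ∀ β γ : ℝ, β ^ 2 + γ ^ 2 = ((1 - C5) * a) ^ 2 + S5 ^ 2 →
      x + (al • e + β • f + γ • g) ∈ X → ∀ s, (s = S5 ∨ s = -S5) →
      x + (al • e + (C5 * β + s * γ) • f + (C5 * γ - s * β) • g) ∈ X := by
    intro β γ h hX s hs
    have h7 := P.ry _ hX (hdy β γ h) s hs
    have h4 : x + (al • e + β • f + γ • g) - y = (al - 1) • e + β • f + γ • g := by
      rw [hy_eq]; module
    rw [h4, ← he_def, frame_rot he hef heg c1 c2] at h7
    convert h7 using 1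
    rw [hy_eq]
    module
  have hrn : ∀ β γ s : ℝ, (s = S5 ∨ s = -S5) →
      (C5 * β + s * γ) ^ 2 + (C5 * γ - s * β) ^ 2 = β ^ 2 + γ ^ 2 := by
    intro β γ s hs
    have h8 : s ^ 2 = S5 ^ 2 := by rcases hs with h | h <;> rw [h]; ring
    have h9 : C5 ^ 2 + s ^ 2 = 1 := by rw [h8]; exact hs2
    linear_combination (β ^ 2 + γ ^ 2) * h9
  -- Q
  have hq1 := hry _ _ rfl hp1 S5 (Or.inl rfl)
  have hQ := hry _ _ (hrn _ _ _ (Or.inl rfl)) hq1 S5 (Or.inl rfl)
  -- T
  have hT := hry _ _ (by ring) hP (-S5) (Or.inr rfl)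
  -- differences
  by_contra hne
  have hk : (1 - C5) * a - C5 ≠ 0 := by
    intro h0
    apply hne
    have h10 : (1 - C5) * a = C5 := by linarith
    have h11 : ((1 - C5) * a) ^ 2 = C5 ^ 2 := by rw [h10]
    have h12 : 0 < (1 - C5) ^ 2 := pow_pos (by linarith) 2
    have h13 : (1 - C5) ^ 2 * (a ^ 2 - 1 / 5) = 0 := by
      linear_combination h11 + (1 / 5) * hCe
    have h14 : a ^ 2 - 1 / 5 = 0 := by
      rcases mul_eq_zero.1 h13 with h | h
      · exact absurd h h12.ne'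
      · exact h
    linarith
  obtain ⟨k, hk_def⟩ : ∃ k : ℝ, k = -(2 * S5 * ((1 - C5) * a - C5)) := ⟨_, rfl⟩
  have hk0 : k ≠ 0 := by
    rw [hk_def]
    exact neg_ne_zero.2 (mul_ne_zero (by positivity) hk)
  obtain ⟨PP, hPP⟩ : ∃ PP : E, PP = x + (al • e + ((1 - C5) * a) • f + (-S5) • g) := ⟨_, rfl⟩
  obtain ⟨QQ, hQQ⟩ : ∃ QQ : E, QQ = x + (al • e +
    (C5 * (C5 * ((1 - C5) * a) + S5 * S5) + S5 * (C5 * S5 - S5 * ((1 - C5) * a))) • f +
    (C5 * (C5 * S5 - S5 * ((1 - C5) * a)) - S5 * (C5 * ((1 - C5) * a) + S5 * S5)) • g) := ⟨_, rfl⟩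
  obtain ⟨TT, hTT⟩ : ∃ TT : E, TT = x + (al • e + (C5 * ((1 - C5) * a) + -S5 * -S5) • f +
    (C5 * -S5 - -S5 * ((1 - C5) * a)) • g) := ⟨_, rfl⟩
  rw [← hPP] at hP
  rw [← hQQ] at hQ
  rw [← hTT] at hT
  have hQP : QQ - PP = (k * S5) • f + (k * C5) • g := by
    have e1 : QQ - PP =
      ((C5 * (C5 * ((1 - C5) * a) + S5 * S5) + S5 * (C5 * S5 - S5 * ((1 - C5) * a))) -
        (1 - C5) * a) • f +
      ((C5 * (C5 * S5 - S5 * ((1 - C5) * a)) - S5 * (C5 * ((1 - C5) * a) + S5 * S5)) + S5) • g := by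
      rw [hQQ, hPP]; module
    rw [e1]
    congr 2
    · rw [hk_def]
      linear_combination ((1 - C5) * a) * hs2
    · rw [hk_def]
      linear_combination (-S5) * hs2
  obtain ⟨p, hp⟩ : ∃ p : ℝ, p = S5 ^ 2 - (1 - C5) ^ 2 * a := ⟨_, rfl⟩
  obtain ⟨q, hq⟩ : ∃ q : ℝ, q = S5 * (1 - C5) * (1 + a) := ⟨_, rfl⟩
  have hTP : TT - PP = p • f + q • g := by
    rw [hTT, hPP, hp, hq]; module
  have hcr : cr (QQ - PP) (TT - PP) = (k * (S5 * q - C5 * p)) • cr f g := by
    rw [hQP, hTP]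
    simp only [cr_add_left, cr_add_right, cr_smul_left, cr_smul_right, cr_self, smul_zero]
    rw [cr_comm g f]
    module
  have hm : S5 * q - C5 * p = S5 ^ 2 * (1 - 2 * C5) + a * (S5 ^ 2 * (1 - C5) + C5 * (1 - C5) ^ 2) := by
    rw [hq, hp]; ring
  obtain ⟨m, hm_def⟩ : ∃ m : ℝ, m = S5 * q - C5 * p := ⟨_, rfl⟩
  have hcrn : dt (cr (QQ - PP) (TT - PP)) (cr (QQ - PP) (TT - PP)) =
      k ^ 2 * m ^ 2 * (1 - a ^ 2) ^ 2 := by
    rw [hcr, c3, dt_smul_left, dt_smul_right, dt_neg_left, dt_neg_right, dt_smul_left,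
      dt_smul_right, he, ← hm_def]
    ring
  have hQPn : dt (QQ - PP) (QQ - PP) = k ^ 2 * (1 - a ^ 2) := by
    have e2 : (k * S5) • f + (k * C5) • g = (0 : ℝ) • e + (k * S5) • f + (k * C5) • g := by module
    rw [hQP, e2, nrm]
    linear_combination (k ^ 2 * (1 - a ^ 2)) * hs2
  have hTPn : dt (TT - PP) (TT - PP) = (p ^ 2 + q ^ 2) * (1 - a ^ 2) := by
    have e2 : p • f + q • g = (0 : ℝ) • e + p • f + q • g := by module
    rw [hTP, e2, nrm]
    ring
  have hS2 : S5 ^ 2 = (3 + 2 * C5) / 4 := by linear_combination hS - (1 / 4) * hCe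
  have hm2 : m = (1 - C5) / 2 + 5 / 2 * C5 * a := by
    rw [hm_def, hm, hS2]
    linear_combination (-(1 / 4) + a * (C5 / 4 - 3 / 4)) * hCe
  have ha3 : a ≤ 0.5272 := by
    have h21 : a ^ 2 ≤ 0.5272 ^ 2 := ha2.trans (by norm_num)
    exact le_of_sq_le_sq h21 (by norm_num)
  have hm_pos : 0 < m := by
    rw [hm2]
    have : 0 ≤ 5 / 2 * C5 * a := by positivity
    linarith
  have hm_le : m ≤ 0.76 := by
    rw [hm2]
    have h22 : C5 * a ≤ 0.310 * 0.5272 := mul_le_mul (by linarith) ha3 ha (by norm_num)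
    norm_num at h22 ⊢
    linarith
  have hk2 : 0 < k ^ 2 := by positivity
  have hcr0 : cr (QQ - PP) (TT - PP) ≠ 0 := by
    intro h0
    rw [h0, dt_zero_left] at hcrn
    have : 0 < k ^ 2 * m ^ 2 * (1 - a ^ 2) ^ 2 := by positivity
    linarith
  have hPQ : PP ≠ QQ := by
    intro h0
    rw [← h0, sub_self, dt_zero_left] at hQPn
    have : 0 < k ^ 2 * (1 - a ^ 2) := by positivity
    linarith
  have hk_le : k ^ 2 ≤ 0.4 := by
    have e3 : k ^ 2 = 4 * S5 ^ 2 * ((1 - C5) * a - C5) ^ 2 := by rw [hk_def]; ring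
    have e4 : ((1 - C5) * a - C5) ^ 2 ≤ C5 ^ 2 := by
      have e5 : (1 - C5) * a ≤ 0.6910 * 0.5272 :=
        mul_le_mul (by linarith) ha3 ha (by norm_num)
      have e6 : 0 ≤ (1 - C5) * a := mul_nonneg (by linarith) ha
      have e61 : 0 ≤ 2 * C5 - (1 - C5) * a := by norm_num at e5; linarith
      have e62 := mul_nonneg e6 e61
      have e63 : ((1 - C5) * a - C5) ^ 2 = C5 ^ 2 - (1 - C5) * a * (2 * C5 - (1 - C5) * a) := by
        ring
      rw [e63]
      linarith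
    have e7 : C5 ^ 2 ≤ 0.0955 := by
      have : C5 ^ 2 = (1 - 2 * C5) / 4 := by linear_combination (1 / 4) * hCe
      rw [this]
      linarith
    have e8 : S5 ^ 2 ≤ 0.905 := by rw [hS2]; linarith
    have e9 : ((1 - C5) * a - C5) ^ 2 ≤ 0.0955 := e4.trans e7
    have e10 := sq_nonneg ((1 - C5) * a - C5)
    have e11 : S5 ^ 2 * ((1 - C5) * a - C5) ^ 2 ≤ 0.905 * 0.0955 :=
      mul_le_mul e8 e9 e10 (by norm_num)
    rw [e3, mul_assoc]
    norm_num at e11 ⊢
    linarith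
  have hQPlt : dt (QQ - PP) (QQ - PP) < 0.998 := by
    rw [hQPn]
    have e10 : k ^ 2 * (1 - a ^ 2) ≤ k ^ 2 :=
      mul_le_of_le_one_right hk2.le (by linarith [sq_nonneg a])
    linarith
  have hTPle : dt (TT - PP) (TT - PP) ≤ 2 * (1 - C5) := by
    have e11 : p ^ 2 + q ^ 2 = 2 * (1 - C5) * (((1 - C5) * a) ^ 2 + S5 ^ 2) := by
      rw [hp, hq]
      linear_combination (S5 ^ 2 + (1 - C5) ^ 2 * a ^ 2) * hs2
    rw [hTPn, e11]
    have e12 : 0 ≤ al ^ 2 := sq_nonneg _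
    have e13 : (((1 - C5) * a) ^ 2 + S5 ^ 2) * (1 - a ^ 2) ≤ 1 := by linarith
    calc 2 * (1 - C5) * (((1 - C5) * a) ^ 2 + S5 ^ 2) * (1 - a ^ 2)
        = 2 * (1 - C5) * ((((1 - C5) * a) ^ 2 + S5 ^ 2) * (1 - a ^ 2)) := by ring
      _ ≤ 2 * (1 - C5) * 1 := mul_le_mul_of_nonneg_left e13 (by linarith)
      _ = 2 * (1 - C5) := by ring
  have hPx : ‖PP - x‖ ≤ 5 := by
    have e14 : ‖PP - x‖ = 1 := by
      rw [norm_eq_one_iff_dt, hPP, add_sub_cancel_left, nrm]
      linear_combination hn1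
    rw [e14]
    norm_num
  have hpr := P.pr PP hP QQ hQ TT hT hPx hPQ hQPlt hTPle hcr0
  rw [hQPn, hcrn] at hpr
  have e15 : 0 < k ^ 2 * (1 - a ^ 2) := by positivity
  have e16 : 0.998 ≤ 2 * (1 - C5) * m ^ 2 * (1 - a ^ 2) := by
    by_contra h17
    rw [not_le] at h17
    have h18 := mul_lt_mul_of_pos_right h17 e15
    have h19 : 2 * (1 - C5) * m ^ 2 * (1 - a ^ 2) * (k ^ 2 * (1 - a ^ 2)) =
      2 * (1 - C5) * (k ^ 2 * m ^ 2 * (1 - a ^ 2) ^ 2) := by ring
    rw [h19] at h18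
    linarith
  have e17 : m ^ 2 ≤ 0.5776 := by
    have : m ^ 2 ≤ 0.76 ^ 2 := pow_le_pow_left₀ hm_pos.le hm_le 2
    norm_num at this ⊢
    exact this
  have e18 : m ^ 2 * (1 - a ^ 2) ≤ 0.5776 :=
    (mul_le_of_le_one_right (sq_nonneg m) (by linarith [sq_nonneg a])).trans e17
  have e19 : (2 * (1 - C5)) * (m ^ 2 * (1 - a ^ 2)) ≤ 1.382 * 0.5776 :=
    mul_le_mul (by linarith) e18 (mul_nonneg (sq_nonneg m) hga.le) (by norm_num)
  rw [mul_assoc] at e16
  norm_num at e16 e19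
  linarith

/-- TARGET L4: half-axial pairs -/
theorem PD.caseA {X : Set E} {x y u v : E} (P : PD X x y u v) (h1 : cr u (y - x) ≠ 0)
    (h2 : cr v (y - x) = 0) : dt u (y - x) ^ 2 = 1 / 5 := by
  have key : ∀ w : E, PD X x y w (y - x) → cr w (y - x) ≠ 0 → dt w (y - x) ^ 2 = 1 / 5 := by
    intro w Pw hw
    rcases le_total 0 (dt w (y - x)) with h | h
    · exact Pw.caseA_aux hw h
    · have h3 := Pw.negu.caseA_aux (by rw [cr_neg_left]; exact neg_ne_zero.2 hw)
        (by rw [dt_neg_left]; linarith)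
      rw [dt_neg_left] at h3
      linarith [h3, neg_sq (dt w (y - x))]
  have h4 : v = dt (y - x) v • (y - x) := by
    have h5 := cr_cr (y - x) v (y - x)
    rw [h2, cr_zero_right, P.he, one_smul] at h5
    exact (sub_eq_zero.1 h5.symm)
  have h6 : dt (y - x) v ^ 2 = 1 := by
    have h7 := P.hv
    rw [h4, dt_smul_left, dt_smul_right, P.he] at h7
    linear_combination h7
  have h8 : dt (y - x) v * dt (y - x) v = 1 := by rw [← sq]; exact h6
  rcases mul_self_eq_one_iff.1 h8 with h | h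
  · rw [h, one_smul] at h4
    rw [h4] at P
    exact key u P h1
  · rw [h, neg_smul, one_smul] at h4
    have P' := P.negv
    rw [h4, neg_neg] at P'
    exact key u P' h1

end Pool.Agent.H304
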