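import Pool.Agent.helper304_ico.PairDefs

set_option autoImplicit false

namespace Pool.Agent.H304

/-- vectors in the frame `e, v, cr v e` -/
noncomputable def vc (e v : E) (a b c : ℝ) : E := a • e + b • v + c • cr v e

/-- the frame relations -/
structure Fr (e v : E) (b : ℝ) : Prop where
  ee : dt e e = 1
  vv : dt v v = 1
  ve : dt v e = b

lemma vc_dt {e v : E} {b : ℝ} (h : Fr e v b) (a1 b1 c1 a2 b2 c2 : ℝ) :
    dt (vc e v a1 b1 c1) (vc e v a2 b2 c2)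
      = a1 * a2 + b1 * b2 + (a1 * b2 + b1 * a2) * b + c1 * c2 * (1 - b * b) := by
  have h1 : dt e v = b := by rw [dt_comm]; exact h.ve
  have h2 : dt (cr v e) (cr v e) = 1 - b * b := by
    rw [dt_cr_cr, h.vv, h.ee, h.ve, h1]; ring
  simp only [vc, dt_add_left, dt_add_right, dt_smul_left, dt_smul_right, h.ee, h.vv, h.ve, h1, h2,
    dt_cr_self_left, dt_cr_self_right, dt_self_cr_left, dt_self_cr_right]
  ring

lemma vc_cr {e v : E} {b : ℝ} (h : Fr e v b) (a1 b1 c1 a2 b2 c2 : ℝ) :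
    cr (vc e v a1 b1 c1) (vc e v a2 b2 c2)
      = vc e v (-(b * (a1 * c2 - c1 * a2)) - (b1 * c2 - c1 * b2))
          ((a1 * c2 - c1 * a2) + b * (b1 * c2 - c1 * b2)) (-(a1 * b2 - b1 * a2)) := by
  have h1 : dt e v = b := by rw [dt_comm]; exact h.ve
  have e1 : cr e v = - cr v e := cr_comm _ _
  have e2 : cr e (cr v e) = v - b • e := by rw [cr_cr, h.ee, h1, one_smul]
  have e3 : cr v (cr v e) = b • v - e := by rw [cr_cr, h.vv, h.ve, one_smul]
  have e4 : cr (cr v e) e = b • e - v := by rw [cr_comm, e2]; module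
  have e5 : cr (cr v e) v = e - b • v := by rw [cr_comm, e3]; module
  simp only [vc, cr_add_left, cr_add_right, cr_smul_left, cr_smul_right, cr_self, e1, e2, e3, e4,
    e5]
  module

lemma vc_rot {e v : E} {b : ℝ} (h : Fr e v b) (c s a1 b1 c1 a2 b2 c2 : ℝ) :
    rot (vc e v a1 b1 c1) c s (vc e v a2 b2 c2)
      = vc e v (c * a2 + s * (-(b * (a1 * c2 - c1 * a2)) - (b1 * c2 - c1 * b2))
            + (1 - c) * (a1 * a2 + b1 * b2 + (a1 * b2 + b1 * a2) * b + c1 * c2 * (1 - b * b)) * a1)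
          (c * b2 + s * ((a1 * c2 - c1 * a2) + b * (b1 * c2 - c1 * b2))
            + (1 - c) * (a1 * a2 + b1 * b2 + (a1 * b2 + b1 * a2) * b + c1 * c2 * (1 - b * b)) * b1)
          (c * c2 + s * (-(a1 * b2 - b1 * a2))
            + (1 - c) * (a1 * a2 + b1 * b2 + (a1 * b2 + b1 * a2) * b + c1 * c2 * (1 - b * b)) * c1)
      := by
  rw [rot, vc_dt h, vc_cr h]
  simp only [vc]
  module

lemma vc_sub {e v : E} (a1 b1 c1 a2 b2 c2 : ℝ) :
    vc e v a1 b1 c1 - vc e v a2 b2 c2 = vc e v (a1 - a2) (b1 - b2) (c1 - c2) := by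
  simp only [vc]; module

lemma vc_add {e v : E} (a1 b1 c1 a2 b2 c2 : ℝ) :
    vc e v a1 b1 c1 + vc e v a2 b2 c2 = vc e v (a1 + a2) (b1 + b2) (c1 + c2) := by
  simp only [vc]; module

lemma vc_neg {e v : E} (a1 b1 c1 : ℝ) :
    - vc e v a1 b1 c1 = vc e v (-a1) (-b1) (-c1) := by
  simp only [vc]; module

lemma vc_e (e v : E) : vc e v 1 0 0 = e := by simp only [vc]; module

lemma vc_v (e v : E) : vc e v 0 1 0 = v := by simp only [vc]; module

lemma C5_sq' : C5 ^ 2 = (1 - 2 * C5) / 4 := by linear_combination (1 / 4) * C5_eq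

lemma stp1 {e v : E} {s b : ℝ} (h : Fr e v b) (hC : C5 ^ 2 = (1 - 2 * C5) / 4)
    (hs2 : s ^ 2 = (3 + 2 * C5) / 4) (hb2 : b ^ 2 = (13 - 8 * C5) / 41) :
    rot (vc e v ((3/2) * b + (-1/2) * C5 * b) ((-1/2) + (1/2) * C5) ((-17/10) * s * b + (-4/5) * C5 * s * b)) C5 s (vc e v 1 0 0)
      = vc e v ((1/4) + (-1/2) * C5) ((3/4) * b + (5/2) * C5 * b) ((-1) * s + (1) * C5 * s) := by
  rw [vc_rot h]
  congr 1
  · linear_combination ((293/410) + (-4/205) * C5) * hC + ((-17/10) * b ^ 2 + (-4/5) * C5 * b ^ 2) * hs2 + ((9/40) + (-69/20) * C5 + (1/10) * C5 ^ 2) * hb2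
  · linear_combination ((-1/10) * b) * hC + ((17/10) * b + (4/5) * C5 * b) * hs2 + (0) * hb2
  · linear_combination ((32/205) * s + (-32/205) * C5 * s) * hC + (0) * hs2 + ((-17/10) * s + (9/10) * C5 * s + (4/5) * C5 ^ 2 * s) * hb2

lemma stp2 {e v : E} {s b : ℝ} (h : Fr e v b) (hC : C5 ^ 2 = (1 - 2 * C5) / 4)
    (hs2 : s ^ 2 = (3 + 2 * C5) / 4) (hb2 : b ^ 2 = (13 - 8 * C5) / 41) :
    rot (vc e v 0 1 0) C5 (-s) (vc e v ((1/4) + (-1/2) * C5) ((3/4) * b + (5/2) * C5 * b) ((-1) * s + (1) * C5 * s))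
      = vc e v ((-3/4) + (1/2) * C5) ((7/4) * b + (3/2) * C5 * b) ((-1) * C5 * s) := by
  rw [vc_rot h]
  congr 1
  · linear_combination (0) * hC + ((-1) + (1) * C5) * hs2 + (0) * hb2
  · linear_combination (0) * hC + ((1) * b + (-1) * C5 * b) * hs2 + (0) * hb2
  · linear_combination ((1) * s) * hC + (0) * hs2 + (0) * hb2

lemma stp3 {e v : E} {s b : ℝ} (h : Fr e v b) (hC : C5 ^ 2 = (1 - 2 * C5) / 4)
    (hs2 : s ^ 2 = (3 + 2 * C5) / 4) (hb2 : b ^ 2 = (13 - 8 * C5) / 41) :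
    rot (vc e v ((3/2) * b + (-1/2) * C5 * b) ((-1/2) + (1/2) * C5) ((-17/10) * s * b + (-4/5) * C5 * s * b)) C5 s (vc e v ((1) + (-1) * C5) ((-1) * b + (1) * C5 * b) ((1) * s))
      = vc e v ((3/8) + (-1) * C5) ((9/8) * b + (2) * C5 * b) ((-1/4) * s + (5/2) * C5 * s) := by
  rw [vc_rot h]
  congr 1
  · linear_combination ((19071/16810) + (-5589/8405) * C5 + (-1347/8405) * C5 ^ 2 + (594/8405) * C5 ^ 3 + (-16/8405) * C5 ^ 4) * hC + ((1/2) + (-81/20) * b ^ 2 + (51/20) * b ^ 4 + (-1/2) * C5 + (27/10) * C5 * b ^ 2 + (-11/5) * C5 * b ^ 4 + (3/4) * C5 ^ 2 * b ^ 2 + (-3/4) * C5 ^ 2 * b ^ 4 + (-2/5) * C5 ^ 3 * b ^ 2 + (2/5) * C5 ^ 3 * b ^ 4) * hs2 + ((-1467/1640) + (-27/80) * b ^ 2 + (-6807/1640) * C5 + (45/8) * C5 * b ^ 2 + (829/205) * C5 ^ 2 + (-573/80) * C5 ^ 2 * b ^ 2 + (17/205) * C5 ^ 3 + (77/40) * C5 ^ 3 * b ^ 2 + (-14/41) * C5 ^ 4 + (-1/20) * C5 ^ 4 * b ^ 2 + (2/205) * C5 ^ 5) * hb2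
  · linear_combination ((-687/410) * b + (-13/205) * C5 * b + (51/205) * C5 ^ 2 * b + (-2/205) * C5 ^ 3 * b) * hC + ((71/20) * b + (-51/20) * b ^ 3 + (-11/5) * C5 * b + (11/5) * C5 * b ^ 3 + (-3/4) * C5 ^ 2 * b + (3/4) * C5 ^ 2 * b ^ 3 + (2/5) * C5 ^ 3 * b + (-2/5) * C5 ^ 3 * b ^ 3) * hs2 + ((-93/80) * b + (-17/8) * C5 * b + (373/80) * C5 ^ 2 * b + (-57/40) * C5 ^ 3 * b + (1/20) * C5 ^ 4 * b) * hb2
  · linear_combination ((-24002/42025) * s + (-33601/42025) * C5 * s + (2322/8405) * C5 ^ 2 * s + (4096/42025) * C5 ^ 3 * s + (-128/42025) * C5 ^ 4 * s) * hC + ((289/100) * s * b ^ 2 + (-289/100) * s * b ^ 4 + (-17/100) * C5 * s * b ^ 2 + (17/100) * C5 * s * b ^ 4 + (-52/25) * C5 ^ 2 * s * b ^ 2 + (52/25) * C5 ^ 2 * s * b ^ 4 + (-16/25) * C5 ^ 3 * s * b ^ 2 + (16/25) * C5 ^ 3 * s * b ^ 4) * hs2 + ((5079/4100) * s + (153/400) * s * b ^ 2 + (8483/4100) * C5 * s + (-2427/400) * C5 * s * b ^ 2 + (-881/2050) * C5 ^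 2 * s + (619/200) * C5 ^ 2 * s * b ^ 2 + (-2488/1025) * C5 ^ 3 * s + (267/100) * C5 ^ 3 * s * b ^ 2 + (-478/1025) * C5 ^ 4 * s + (-2/25) * C5 ^ 4 * s * b ^ 2 + (16/1025) * C5 ^ 5 * s) * hb2

lemma nrmDD {e v : E} {s b : ℝ} (h : Fr e v b) (hC : C5 ^ 2 = (1 - 2 * C5) / 4)
    (hs2 : s ^ 2 = (3 + 2 * C5) / 4) (hb2 : b ^ 2 = (13 - 8 * C5) / 41) :
    dt (vc e v ((1/8) + (-1/2) * C5) ((3/8) * b + (-1/2) * C5 * b) ((-5/4) * s + (7/2) * C5 * s)) (vc e v ((1/8) + (-1/2) * C5) ((3/8) * b + (-1/2) * C5 * b) ((-5/4) * s + (7/2) * C5 * s)) = (46/41) + (-145/41) * C5 := by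
  rw [vc_dt h]
  linear_combination ((38/41) + (359/82) * C5 + (49/41) * C5 ^ 2) * hC + ((25/16) + (-25/16) * b ^ 2 + (-35/4) * C5 + (35/4) * C5 * b ^ 2 + (49/4) * C5 ^ 2 + (-49/4) * C5 ^ 2 * b ^ 2) * hs2 + ((-15/16) + (157/32) * C5 + (-65/16) * C5 ^ 2 + (-49/8) * C5 ^ 3) * hb2

lemma nrmDr {e v : E} {s b : ℝ} (h : Fr e v b) (hC : C5 ^ 2 = (1 - 2 * C5) / 4)
    (hs2 : s ^ 2 = (3 + 2 * C5) / 4) (hb2 : b ^ 2 = (13 - 8 * C5) / 41) :
    dt (vc e v ((1/8) + (-1/2) * C5) ((3/8) * b + (-1/2) * C5 * b) ((-5/4) * s + (7/2) * C5 * s)) (vc e v ((-3/4) + (1/2) * C5) ((7/4) * b + (3/2) * C5 * b) ((-1) * C5 * s)) = (-11/41) + (105/82) * C5 := by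
  rw [vc_dt h]
  linear_combination ((-119/82) + (-44/41) * C5 + (-14/41) * C5 ^ 2) * hC + ((5/4) * C5 + (-5/4) * C5 * b ^ 2 + (-7/2) * C5 ^ 2 + (7/2) * C5 ^ 2 * b ^ 2) * hs2 + ((19/32) + (-11/8) * C5 + (1/4) * C5 ^ 2 + (7/4) * C5 ^ 3) * hb2

lemma nrmrr {e v : E} {s b : ℝ} (h : Fr e v b) (hC : C5 ^ 2 = (1 - 2 * C5) / 4)
    (hs2 : s ^ 2 = (3 + 2 * C5) / 4) (hb2 : b ^ 2 = (13 - 8 * C5) / 41) :
    dt (vc e v ((-3/4) + (1/2) * C5) ((7/4) * b + (3/2) * C5 * b) ((-1) * C5 * s)) (vc e v ((-3/4) + (1/2) * C5) ((7/4) * b + (3/2) * C5 * b) ((-1) * C5 * s)) = (1) := by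
  rw [vc_dt h]
  linear_combination ((49/41) + (-12/41) * C5 + (4/41) * C5 ^ 2) * hC + ((1) * C5 ^ 2 + (-1) * C5 ^ 2 * b ^ 2) * hs2 + ((7/16) + (19/4) * C5 + (3) * C5 ^ 2 + (-1/2) * C5 ^ 3) * hb2

lemma nrmzp {e v : E} {s b : ℝ} (h : Fr e v b) (hC : C5 ^ 2 = (1 - 2 * C5) / 4)
    (hs2 : s ^ 2 = (3 + 2 * C5) / 4) (hb2 : b ^ 2 = (13 - 8 * C5) / 41) :
    dt (vc e v ((1/4) + (-1/2) * C5) ((3/4) * b + (5/2) * C5 * b) ((1) * s + (-1) * C5 * s)) (vc e v ((1/4) + (-1/2) * C5) ((3/4) * b + (5/2) * C5 * b) ((1) * s + (-1) * C5 * s)) = (1) := by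
  rw [vc_dt h]
  linear_combination ((21/41) + (-20/41) * C5 + (4/41) * C5 ^ 2) * hC + ((1) + (-1) * b ^ 2 + (-2) * C5 + (2) * C5 * b ^ 2 + (1) * C5 ^ 2 + (-1) * C5 ^ 2 * b ^ 2) * hs2 + ((3/16) + (21/4) * C5 + (4) * C5 ^ 2 + (-1/2) * C5 ^ 3) * hb2

/-- the symmetric case `a = b` -/
lemma PD.core {X : Set E} {x y u v : E} (P : PD X x y u v) {s b : ℝ} (hs : s = S5 ∨ s = -S5)
    (hb : dt v (y - x) = b) (hb2 : b ^ 2 = (13 - 8 * C5) / 41)
    (hu : vc (y - x) v (1 - C5) (-((1 - C5) * b)) (-s) = (2 * b) • u) : False := by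
  have hC := C5_sq'
  have hs2 : s ^ 2 = (3 + 2 * C5) / 4 := by
    rcases hs with rfl | rfl
    · rw [S5_sq]; linear_combination -hC
    · rw [neg_sq, S5_sq]; linear_combination -hC
  have hns : -s = S5 ∨ -s = -S5 := by
    rcases hs with rfl | rfl
    · right; rfl
    · left; ring
  have hC5_1 := C5_gt
  have hC5_2 := C5_lt
  set e : E := y - x with he
  have h : Fr e v b := ⟨P.he, P.hv, hb⟩
  have hU : u = vc e v ((3/2) * b + (-1/2) * C5 * b) ((-1/2) + (1/2) * C5) ((-17/10) * s * b + (-4/5) * C5 * s * b) := by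
    have h2 : (2 * b) * (b * (17 / 10 + 4 / 5 * C5)) = 1 := by
      linear_combination (2 * (17 / 10 + 4 / 5 * C5)) * hb2 - (64 / 205) * hC
    have h3 : u = (b * (17 / 10 + 4 / 5 * C5)) • ((2 * b) • u) := by
      rw [smul_smul, mul_comm (b * (17 / 10 + 4 / 5 * C5)), h2, one_smul]
    rw [h3, ← hu]
    have h4 : ∀ t a b c : ℝ, t • vc e v a b c = vc e v (t * a) (t * b) (t * c) := by
      intro t a b c
      simp only [vc]; module
    rw [h4]
    congr 1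
    · linear_combination ((-4/5) * b) * hC + (0) * hs2 + (0) * hb2
    · linear_combination ((32/205) + (-32/205) * C5) * hC + (0) * hs2 + ((-17/10) + (9/10) * C5 + (4/5) * C5 ^ 2) * hb2
    · linear_combination (0) * hC + (0) * hs2 + (0) * hb2
  have hx1 : rot u C5 s e = vc e v ((1/4) + (-1/2) * C5) ((3/4) * b + (5/2) * C5 * b) ((-1) * s + (1) * C5 * s) := by
    have := stp1 h hC hs2 hb2
    rw [← hU, vc_e] at this
    exact this
  have hx2 : e - rot v C5 (-s) e = vc e v ((1) + (-1) * C5) ((-1) * b + (1) * C5 * b) ((1) * s) := by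
    have h5 : dt v e = b := hb
    rw [rot, h5, vc]
    module
  have hz : rot u C5 s (e - rot v C5 (-s) e) = vc e v ((3/8) + (-1) * C5) ((9/8) * b + (2) * C5 * b) ((-1/4) * s + (5/2) * C5 * s) := by
    have := stp3 h hC hs2 hb2
    rw [← hU, ← hx2] at this
    exact this
  have hr2 : rot v C5 (-s) (rot u C5 s e) = vc e v ((-3/4) + (1/2) * C5) ((7/4) * b + (3/2) * C5 * b) ((-1) * C5 * s) := by
    have := stp2 h hC hs2 hb2
    rw [vc_v, ← hx1] at this
    exact this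
  -- the points
  have hA : (1 : ℝ) ≤ 2 * (1 - C5) := by linarith
  have hps : x + rot u C5 s e ∈ X := P.rx y P.hy (by rw [P.he]; exact hA) s hs
  have hq : y + rot v C5 (-s) (x - y) ∈ X :=
    P.ry x P.hx (by
      have : x - y = -(y - x) := by abel
      rw [this, dt_neg_left, dt_neg_right, neg_neg, P.he]; exact hA) (-s) hns
  have eqq : y + rot v C5 (-s) (x - y) - x = e - rot v C5 (-s) e := by
    have : x - y = -e := by rw [he]; abel
    rw [this, rot_neg, he]; abel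
  have hcs : C5 ^ 2 + s ^ 2 = 1 := by linear_combination hC + hs2
  have hcs' : C5 ^ 2 + (-s) ^ 2 = 1 := by rw [neg_sq]; exact hcs
  have hzX : x + rot u C5 s (e - rot v C5 (-s) e) ∈ X := by
    have := P.rx _ hq (by
      rw [eqq]
      have h6 : e - rot v C5 (-s) e = -(rot v C5 (-s) e - e) := by abel
      rw [h6, dt_neg_left, dt_neg_right, neg_neg, dt_rot_sub_self P.hv hcs', P.he]
      nlinarith [sq_nonneg (dt v e)]) s hs
    rwa [eqq] at this
  have hpy : x + rot u C5 s e - y = rot u C5 s e - e := by rw [he]; abel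
  have hzX' : y + rot v C5 (-s) (rot u C5 s e - e) ∈ X := by
    have := P.ry _ hps (by
      rw [hpy, dt_rot_sub_self P.hu hcs, P.he]
      nlinarith [sq_nonneg (dt u e)]) (-s) hns
    rwa [hpy] at this
  have hzpx : y + rot v C5 (-s) (rot u C5 s e - e) - x = vc e v ((1/4) + (-1/2) * C5) ((3/4) * b + (5/2) * C5 * b) ((1) * s + (-1) * C5 * s) := by
    have : y + rot v C5 (-s) (rot u C5 s e - e) - x
        = (e - rot v C5 (-s) e) + rot v C5 (-s) (rot u C5 s e) := by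
      rw [rot_sub, he]; abel
    rw [this, hx2, hr2, vc_add]
    congr 1 <;> ring
  have hTP : y + rot v C5 (-s) (x - y) - (y + rot v C5 (-s) (rot u C5 s e - e))
      = - vc e v ((-3/4) + (1/2) * C5) ((7/4) * b + (3/2) * C5 * b) ((-1) * C5 * s) := by
    have h7 : x - y = -e := by rw [he]; abel
    rw [← hr2, h7, rot_neg, rot_sub v C5 (-s) (rot u C5 s e) e]; abel
  have hQP : x + rot u C5 s (e - rot v C5 (-s) e) - (y + rot v C5 (-s) (rot u C5 s e - e))
      = vc e v ((1/8) + (-1/2) * C5) ((3/8) * b + (-1/2) * C5 * b) ((-5/4) * s + (7/2) * C5 * s) := by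
    have : x + rot u C5 s (e - rot v C5 (-s) e) - (y + rot v C5 (-s) (rot u C5 s e - e))
        = rot u C5 s (e - rot v C5 (-s) e) - (y + rot v C5 (-s) (rot u C5 s e - e) - x) := by abel
    rw [this, hz, hzpx, vc_sub]
    congr 1 <;> ring
  have n1 := nrmDD h hC hs2 hb2
  have n2 := nrmDr h hC hs2 hb2
  have n3 := nrmrr h hC hs2 hb2
  have n4 := nrmzp h hC hs2 hb2
  rw [← hQP] at n1 n2
  rw [← hzpx] at n4
  set Z := x + rot u C5 s (e - rot v C5 (-s) e) with hZ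
  set Z' := y + rot v C5 (-s) (rot u C5 s e - e) with hZ'
  set Q := y + rot v C5 (-s) (x - y) with hQ
  have m2 : dt (Z - Z') (Q - Z') = -((-11/41) + (105/82) * C5) := by rw [hTP, dt_neg_right, n2]
  have m3 : dt (Q - Z') (Q - Z') = 1 := by rw [hTP, dt_neg_left, dt_neg_right, neg_neg, n3]
  have m4 : dt (cr (Z - Z') (Q - Z')) (cr (Z - Z') (Q - Z')) = (17215/26896) + (-27295/13448) * C5 := by
    rw [dt_cr_cr, n1, m3, dt_comm (Q - Z'), m2]
    linear_combination ((-11025/6724)) * hC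
  have hnorm : ‖Z' - x‖ ≤ 5 := by
    rw [norm_eq_sqrt_dt, n4]
    norm_num
  have hne : Z' ≠ Z := by
    intro h8
    rw [← h8, sub_self, dt_zero_left] at n1
    linarith
  have hcr : cr (Z - Z') (Q - Z') ≠ 0 := by
    intro h8
    rw [h8, dt_zero_left] at m4
    linarith
  have := P.pr Z' hzX' Z hzX Q hq hnorm hne (by rw [n1]; linarith) (by rw [m3]; exact hA) hcr
  rw [n1, m4] at this
  nlinarith

lemma PD.negv5 {X : Set E} {x y u v : E} (P : PD X x y u v) : PD X x y u (-v) where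
  hx := P.hx
  hy := P.hy
  he := P.he
  hu := P.hu
  hv := by rw [dt_neg_left, dt_neg_right, neg_neg, P.hv]
  rx := P.rx
  ry := by
    intro z hz hd s hs
    rw [rot_neg_axis]
    refine P.ry z hz hd (-s) ?_
    rcases hs with rfl | rfl
    · right; rfl
    · left; ring
  fx := P.fx
  fy := by
    intro z hz hd hc
    rw [cr_neg_left, dt_neg_left, dt_neg_right, neg_neg]
    refine P.fy z hz hd ?_
    intro h0
    apply hc
    rw [cr_neg_left, h0, neg_zero]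
  pr := P.pr

/-- TARGET L5: the image of `x` under the rotation at `y` is not on the axis of `x` -/
theorem PD.killE1 {X : Set E} {x y u v : E} (P : PD X x y u v) (h1 : cr u (y - x) ≠ 0)
    (h2 : cr v (y - x) ≠ 0) {s : ℝ} (hs : s = S5 ∨ s = -S5)
    (h : cr u ((y - x) - rot v C5 s (y - x)) = 0) : False := by
  have hC := C5_sq'
  have hs2 : s ^ 2 = 1 - C5 ^ 2 := by
    rcases hs with rfl | rfl
    · exact S5_sq
    · rw [neg_sq, S5_sq]
  have hns : -s = S5 ∨ -s = -S5 := by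
    rcases hs with rfl | rfl
    · right; rfl
    · left; ring
  have hC5_1 := C5_gt
  have hC5_2 := C5_lt
  have hcs : C5 ^ 2 + s ^ 2 = 1 := by linear_combination hs2
  have hcs' : C5 ^ 2 + (-s) ^ 2 = 1 := by rw [neg_sq]; exact hcs
  set e : E := y - x with he
  set b : ℝ := dt v e with hb
  set a : ℝ := dt u e with ha
  have hFr : Fr e v b := ⟨P.he, P.hv, rfl⟩
  set x1 : E := e - rot v C5 s e with hx1
  have hx1v : x1 = vc e v (1 - C5) (-((1 - C5) * b)) (-s) := by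
    rw [hx1, rot, ← hb, vc]
    module
  set τ : ℝ := dt u x1 with hτ
  -- x1 = τ u
  have hx1u : x1 = τ • u := by
    have h3 : cr u (cr u x1) = dt u x1 • u - dt u u • x1 := cr_cr _ _ _
    rw [h, cr_zero_right, P.hu, one_smul] at h3
    exact (sub_eq_zero.1 h3.symm).symm
  have hb1 : b ^ 2 < 1 := by
    have h3 := dt_cr_axis P.hv e
    rw [P.he, ← hb] at h3
    have h4 : 0 ≤ dt (cr v e) (cr v e) := dt_self_nonneg _
    have h5 : dt (cr v e) (cr v e) ≠ 0 := fun h6 => h2 (dt_self_eq_zero h6)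
    have h6 : 0 < dt (cr v e) (cr v e) := lt_of_le_of_ne h4 h5.symm
    linarith
  have hτ2 : τ ^ 2 = 2 * (1 - C5) * (1 - b ^ 2) := by
    have h3 : dt x1 x1 = τ ^ 2 := by
      rw [hx1u, dt_smul_left, dt_smul_right, P.hu]; ring
    rw [← h3, hx1v, vc_dt hFr]
    linear_combination (1 - b ^ 2) * hs2
  have hτ0 : τ ≠ 0 := by
    intro h3
    rw [h3] at hτ2
    nlinarith
  have huv : dt u v = 0 := by
    have h3 : dt x1 v = 0 := by
      have h4 : v = vc e v 0 1 0 := (vc_v e v).symm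
      have h5 : dt (vc e v (1 - C5) (-((1 - C5) * b)) (-s)) (vc e v 0 1 0) = 0 := by
        rw [vc_dt hFr]; ring
      rw [vc_v] at h5
      rw [hx1v]; exact h5
    rw [hx1u, dt_smul_left] at h3
    exact (mul_eq_zero.1 h3).resolve_left hτ0
  have haτ : a = τ / 2 := by
    have h5 : dt (vc e v (1 - C5) (-((1 - C5) * b)) (-s)) (vc e v 1 0 0)
        = (1 - C5) * (1 - b ^ 2) := by
      rw [vc_dt hFr]; ring
    rw [vc_e, ← hx1v, hx1u, dt_smul_left, ← ha] at h5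
    have h6 : τ * (a - τ / 2) = 0 := by linear_combination h5 - (1 / 2) * hτ2
    have := (mul_eq_zero.1 h6).resolve_left hτ0
    linarith
  have ha2 : a ^ 2 = (1 - C5) / 2 * (1 - b ^ 2) := by
    rw [haτ]; linear_combination (1 / 4) * hτ2
  -- bounds
  have hA : (1 : ℝ) ≤ 2 * (1 - C5) := by linarith
  have hfx : 0.998 ≤ 2 * (1 - C5) * (1 - a ^ 2) := by
    have h3 := P.fx y P.hy (by rw [P.he]; exact hA) h1
    rw [dt_cr_axis P.hu, P.he] at h3
    exact h3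
  have hfy : 0.998 ≤ 2 * (1 - C5) * (1 - b ^ 2) := by
    have hxy : x - y = -e := by rw [he]; abel
    have h3 := P.fy x P.hx (by rw [hxy, dt_neg_left, dt_neg_right, neg_neg, P.he]; exact hA) (by
      rw [hxy, cr_neg_right]
      intro h4
      exact h2 (neg_eq_zero.1 h4))
    rw [hxy, cr_neg_right, dt_neg_left, dt_neg_right, neg_neg, dt_cr_axis P.hv, P.he] at h3
    exact h3
  -- the vector `cr u e`
  have hcue : τ * dt v (cr u e) = s * (1 - b ^ 2) := by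
    have h3 : τ • cr u e = vc e v (-(s * b)) s (-((1 - C5) * b)) := by
      rw [← cr_smul_left, ← hx1u, hx1v]
      have := vc_cr hFr (1 - C5) (-((1 - C5) * b)) (-s) 1 0 0
      rw [vc_e] at this
      rw [this]
      congr 1 <;> ring
    have h4 : dt (vc e v 0 1 0) (vc e v (-(s * b)) s (-((1 - C5) * b))) = s * (1 - b ^ 2) := by
      rw [vc_dt hFr]; ring
    rw [vc_v, ← h3, dt_smul_right] at h4
    exact h4
  have hcue2 : (1 - C5) * dt v (cr u e) = s * a := by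
    have h5 : τ * ((1 - C5) * dt v (cr u e) - s * a) = 0 := by
      rw [haτ]; linear_combination (1 - C5) * hcue - (s / 2) * hτ2
    have := (mul_eq_zero.1 h5).resolve_left hτ0
    linarith
  -- the points
  have key : ∀ σ : ℝ, (σ = S5 ∨ σ = -S5) → ∀ η : ℝ, σ = η * s → η ^ 2 = 1 →
      (a + η * b = 0 ∨ 0.998 ≤ 2 * (1 - C5) * ((1 - C5 ^ 2) * (a + η * b) ^ 2)) := by
    intro σ hσ η hη hη2
    have hσ2 : C5 ^ 2 + σ ^ 2 = 1 := by
      rw [hη, mul_pow, hη2]; linear_combination hcs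
    have hp : x + rot u C5 σ e ∈ X := P.rx y P.hy (by rw [P.he]; exact hA) σ hσ
    have hpy : x + rot u C5 σ e - y = rot u C5 σ e - e := by rw [he]; abel
    have hd1 : dt (rot u C5 σ e - e) (rot u C5 σ e - e) = 2 * (1 - C5) * (1 - a ^ 2) := by
      rw [dt_rot_sub_self P.hu hσ2, P.he]
    have hd2 : dt v (rot u C5 σ e - e) = -(1 - C5) * b + σ * dt v (cr u e) := by
      rw [dt_sub_right, rot, dt_add_right, dt_add_right, dt_smul_right, dt_smul_right,
        dt_smul_right, ← hb, dt_comm v u, huv]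
      ring
    have hd3 : (1 - C5) * (dt v (rot u C5 σ e - e)) = (1 - C5) * (-(1 - C5) * b + η * (1 + C5) * a)
        := by
      rw [hd2, hη]
      linear_combination (η * s) * hcue2 + (η * a) * hs2
    have hd4 : dt v (rot u C5 σ e - e) = -(1 - C5) * b + η * (1 + C5) * a := by
      have h6 : (1 - C5) ≠ 0 := by linarith
      exact mul_left_cancel₀ h6 hd3
    have hd5 : dt (cr v (rot u C5 σ e - e)) (cr v (rot u C5 σ e - e))
        = (1 - C5 ^ 2) * (a + η * b) ^ 2 := by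
      rw [dt_cr_axis P.hv, hd1, hd4]
      linear_combination (-4) * ha2 + (-(1 + C5) ^ 2 * a ^ 2 - (1 - C5 ^ 2) * b ^ 2) * hη2
    by_cases h7 : cr v (rot u C5 σ e - e) = 0
    · left
      rw [h7, dt_zero_left] at hd5
      have h8 : (1 - C5 ^ 2) ≠ 0 := by nlinarith
      have h9 := (mul_eq_zero.1 hd5.symm).resolve_left h8
      exact pow_eq_zero_iff (two_ne_zero) |>.1 h9
    · right
      have h8 := P.fy _ hp (by
        rw [hpy, hd1]
        nlinarith [sq_nonneg a]) (by rw [hpy]; exact h7)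
      rw [hpy, hd5] at h8
      exact h8
  have fin1 : ∀ b' : ℝ, a ^ 2 = b' ^ 2 → b' ^ 2 = b ^ 2 → b' ^ 2 = (13 - 8 * C5) / 41 := by
    intro b' h3 h4
    have h5 : b' ^ 2 = (1 - C5) / 2 * (1 - b' ^ 2) := by
      linear_combination ha2 - h3 + ((1 - C5) / 2) * h4
    linear_combination (2 * (14 + 4 * C5) / 41) * h5 + ((4 * b' ^ 2 - 4) / 41) * hC
  have k1 := key s hs 1 (by ring) (by norm_num)
  have k2 := key (-s) hns (-1) (by ring) (by norm_num)
  rcases k1 with k1 | k1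
  · -- a = -b
    have hab : a = -b := by linarith
    refine PD.core P.negv5 (s := -s) (b := -b) hns (by rw [dt_neg_left]) ?_ ?_
    · exact fin1 (-b) (by rw [hab]) (by ring)
    · have h3 : vc (y - x) (-v) (1 - C5) (-((1 - C5) * -b)) (- -s) = x1 := by
        rw [hx1v]
        simp only [vc, cr_neg_left, ← he]
        module
      rw [h3, hx1u]
      congr 1
      linarith
  rcases k2 with k2 | k2
  · have hab : a = b := by linarith
    refine PD.core P (s := s) (b := b) hs rfl ?_ ?_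
    · exact fin1 b (by rw [hab]) rfl
    · rw [← he, ← hx1v, hx1u]
      congr 1
      linarith
  · have h3 : 0 < 1 - C5 ^ 2 := by rw [hC]; linarith
    have h4 : 2 * (1 - C5) * (a ^ 2 + b ^ 2) ≤ 4 * (1 - C5) - 1.996 := by linarith
    have h5 := mul_le_mul_of_nonneg_left h4 h3.le
    have h6 : (1 - C5 ^ 2) ≤ 1 := by rw [hC]; linarith
    have h7 : 0 ≤ 4 * (1 - C5) - 1.996 := by linarith
    have h8 := mul_le_mul_of_nonneg_right h6 h7
    have h9 : 2 * (1 - C5) * ((1 - C5 ^ 2) * (a + 1 * b) ^ 2)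
        + 2 * (1 - C5) * ((1 - C5 ^ 2) * (a + -1 * b) ^ 2)
        = 2 * ((1 - C5 ^ 2) * (2 * (1 - C5) * (a ^ 2 + b ^ 2))) := by ring
    linarith

end Pool.Agent.H304
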