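import Pool.Agent.helper304_ico.PairDefs

set_option autoImplicit false

namespace Pool.Agent.H304

lemma gram (u e v : E) : dt (cr u e) v ^ 2 = dt u u * dt e e * dt v v
    + 2 * (dt u e * dt v e * dt u v) - dt u e ^ 2 * dt v v - dt v e ^ 2 * dt u u
    - dt u v ^ 2 * dt e e := by
  simp [dt]; ring

lemma dt_rot_rot_gen (u v e : E) (c s s' : ℝ) :
    dt (rot u c s e) (rot v c s' e) = c ^ 2 * dt e e
      + c * (1 - c) * (dt u e ^ 2 + dt v e ^ 2)
      + s * s' * (dt u v * dt e e - dt u e * dt v e)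
      + s * (1 - c) * dt v e * dt (cr u e) v - s' * (1 - c) * dt u e * dt (cr u e) v
      + (1 - c) ^ 2 * dt u e * dt v e * dt u v := by
  simp [rot, dt]; ring

lemma dt_rot_self_gen (u e : E) (c s : ℝ) :
    dt (rot u c s e) e = c * dt e e + (1 - c) * dt u e ^ 2 := by
  simp [rot, dt]; ring

lemma dt_rot_gen (u g v : E) (c s : ℝ) :
    dt (rot u c s g) v = c * dt g v + s * dt (cr u g) v + (1 - c) * dt u g * dt u v := by
  simp [rot, dt]; ring

lemma dt_u_rot_gen (u v e : E) (c s : ℝ) :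
    dt u (rot v c s e) = c * dt u e - s * dt (cr u e) v + (1 - c) * dt v e * dt u v := by
  simp [rot, dt]; ring

lemma dt_cr_rot_gen (u v e : E) (c s : ℝ) :
    dt (cr u (rot v c s e)) v = c * dt (cr u e) v
      + s * (dt u e * dt v v - dt u v * dt v e) := by
  simp [rot, dt]; ring

lemma caseE3_aux {X : Set E} {x y u v : E} (P : PD X x y u v) {s : ℝ}
    (hs : s = S5 ∨ s = -S5)
    (h : rot u C5 s (y - x) + rot v C5 (-s) (y - x) - (y - x) = 0) :
    dt u v ^ 2 = 1 / 5 ∧ dt (cr u (y - x)) v = 0 := by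
  obtain ⟨hx, hy, he, hu, hv, rx, ry, fx, fy, pr⟩ := P
  set e := y - x with hedef
  have hC := C5_eq
  have hC1 := C5_gt
  have hC2 := C5_lt
  have hss : s ^ 2 = 1 - C5 ^ 2 := by
    rcases hs with rfl | rfl
    · exact S5_sq
    · rw [neg_sq]; exact S5_sq
  have hcs : C5 ^ 2 + s ^ 2 = 1 := by rw [hss]; ring
  have hcs' : C5 ^ 2 + (-s) ^ 2 = 1 := by rw [neg_sq]; exact hcs
  set a := dt u e with hadef
  set b := dt v e with hbdef
  set t := dt u v with htdef
  set k := dt (cr u e) v with hkdef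
  have hA0 : 0 < 1 - C5 := by linarith
  -- a^2
  have e1 : rot u C5 s e - e = - rot v C5 (-s) e := by
    have := h
    rw [sub_eq_zero] at this
    rw [← sub_eq_zero]
    rw [← sub_eq_zero] at this
    rw [← this]; abel
  have e2 : rot v C5 (-s) e - e = - rot u C5 s e := by
    rw [← sub_eq_zero]
    have := h
    rw [← this]; abel
  have ha1 : 2 * (1 - C5) * (1 - a ^ 2) = 1 := by
    have h3 := dt_rot_sub_self hu hcs e
    rw [e1, dt_neg_left, dt_neg_right, neg_neg, dt_rot_rot hv hcs', he] at h3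
    exact h3.symm
  have hb1 : 2 * (1 - C5) * (1 - b ^ 2) = 1 := by
    have h3 := dt_rot_sub_self hv hcs' e
    rw [e2, dt_neg_left, dt_neg_right, neg_neg, dt_rot_rot hu hcs, he] at h3
    exact h3.symm
  have ha : a ^ 2 = 2 / 5 * (1 - C5) := by
    have : (1 - C5) * (a ^ 2 - 2 / 5 * (1 - C5)) = 0 := by
      linear_combination (-1 / 2) * ha1 + (-1 / 10) * hC
    rcases mul_eq_zero.mp this with h4 | h4
    · exact absurd h4 hA0.ne'
    · linarith
  have hb : b ^ 2 = 2 / 5 * (1 - C5) := by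
    have : (1 - C5) * (b ^ 2 - 2 / 5 * (1 - C5)) = 0 := by
      linear_combination (-1 / 2) * hb1 + (-1 / 10) * hC
    rcases mul_eq_zero.mp this with h4 | h4
    · exact absurd h4 hA0.ne'
    · linarith
  have hgram : k ^ 2 = 1 + 2 * (a * b * t) - a ^ 2 - b ^ 2 - t ^ 2 := by
    have := gram u e v
    rw [hu, hv, he] at this
    rw [hkdef, this]; ring
  -- the norm of the zero vector
  have hnorm : 0 = 3 + 2 * (C5 ^ 2 + C5 * (1 - C5) * (a ^ 2 + b ^ 2) - s ^ 2 * (t - a * b)
      + s * (1 - C5) * (a + b) * k + (1 - C5) ^ 2 * a * b * t)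
      - 2 * (C5 + (1 - C5) * a ^ 2) - 2 * (C5 + (1 - C5) * b ^ 2) := by
    have h3 : dt (rot u C5 s e + rot v C5 (-s) e - e) (rot u C5 s e + rot v C5 (-s) e - e) = 0 := by
      rw [h]; simp
    have h4 : dt (rot u C5 s e + rot v C5 (-s) e - e) (rot u C5 s e + rot v C5 (-s) e - e)
        = dt (rot u C5 s e) (rot u C5 s e) + dt (rot v C5 (-s) e) (rot v C5 (-s) e) + dt e e
          + 2 * dt (rot u C5 s e) (rot v C5 (-s) e) - 2 * dt (rot u C5 s e) e
          - 2 * dt (rot v C5 (-s) e) e := by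
      simp only [dt_add_left, dt_add_right, dt_sub_left, dt_sub_right]
      rw [dt_comm (rot v C5 (-s) e) (rot u C5 s e), dt_comm e (rot u C5 s e),
        dt_comm e (rot v C5 (-s) e)]
      ring
    rw [h4, dt_rot_rot hu hcs, dt_rot_rot hv hcs', dt_rot_rot_gen, dt_rot_self_gen,
      dt_rot_self_gen, he] at h3
    rw [← h3, ← hadef, ← hbdef, ← htdef, ← hkdef]; ring
  have hab : (b + a) * (b - a) = 0 := by linear_combination hb - ha
  rcases mul_eq_zero.mp hab with hab | hab
  · -- b = -a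
    have hb' : b = -a := by linarith
    rw [hb'] at hnorm hgram
    have hw : t = 1 - 4 / 5 * (1 - C5) := by
      have : (1 - C5) * (t - (1 - 4 / 5 * (1 - C5))) = 0 := by
        clear h rx ry fx fy pr e1 e2 hA0 hC1 hC2 hs
        grind
      rcases mul_eq_zero.mp this with h4 | h4
      · exact absurd h4 hA0.ne'
      · linarith
    have ht : t ^ 2 = 1 / 5 := by
      rw [hw]; linear_combination (4 / 25) * hC
    refine ⟨ht, ?_⟩
    have hk : k ^ 2 = 0 := by
      rw [hgram]
      clear h rx ry fx fy pr e1 e2 hA0 hC1 hC2 hs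
      grind
    exact pow_eq_zero_iff (two_ne_zero) |>.mp hk
  · exfalso
    have hb' : b = a := by linarith
    rw [hb'] at hnorm hgram
    have hA : 4 * (1 - C5) ^ 2 = 10 * (1 - C5) - 5 := by linear_combination hC
    have h5 : 3 / 4 = 5 / 2 * C5 * (t - a ^ 2) - 2 * (1 - C5) * a * (s * k) := by
      have := hnorm
      clear h rx ry fx fy pr e1 e2 hA0 hC1 hC2 hs
      grind
    have h6 : (5 / 2 * C5 * k + 2 * (1 - C5) * a * s * (t - a ^ 2)) ^ 2 = 0 := by
      clear h rx ry fx fy pr e1 e2 hA0 hC1 hC2 hs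
      grind
    have h7 : 5 / 2 * C5 * k + 2 * (1 - C5) * a * s * (t - a ^ 2) = 0 := pow_eq_zero_iff (two_ne_zero) |>.mp h6
    have hw : t = 1 - 4 / 15 * (1 - C5) := by
      have : (1 - C5) ^ 2 * (t - (1 - 4 / 15 * (1 - C5))) = 0 := by
        clear h rx ry fx fy pr e1 e2 hA0 hC1 hC2 hs
        grind
      rcases mul_eq_zero.mp this with h4 | h4
      · exact absurd h4 (pow_pos hA0 2).ne'
      · linarith
    have hk : s * k = - (2 / 3) * (1 + C5) * a := by
      have : (1 - C5) * (s * k + (2 / 3) * (1 + C5) * a) = 0 := by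
        clear h rx ry fx fy pr e1 e2 hA0 hC1 hC2 hs
        grind
      rcases mul_eq_zero.mp this with h4 | h4
      · exact absurd h4 hA0.ne'
      · linarith
    have hxy : x - y = -e := by rw [hedef]; abel
    have hq : y + rot v C5 s (x - y) ∈ X := by
      refine ry x hx ?_ s hs
      rw [hxy, dt_neg_left, dt_neg_right, neg_neg, he]
      linarith
    have hq1 : y + rot v C5 s (x - y) - x = e - rot v C5 s e := by
      rw [hxy, rot_neg, hedef]; abel
    have hq2 : dt (e - rot v C5 s e) (e - rot v C5 s e) = 1 := by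
      have h8 := dt_rot_sub_self hv hcs e
      have h9 : dt (e - rot v C5 s e) (e - rot v C5 s e)
          = dt (rot v C5 s e - e) (rot v C5 s e - e) := by
        rw [← neg_sub, dt_neg_left, dt_neg_right, neg_neg]
      rw [h9, h8, he, ← hbdef]
      exact hb1
    have hz : x + rot u C5 s (e - rot v C5 s e) ∈ X := by
      have := rx _ hq (by rw [hq1, hq2]; linarith) s hs
      rwa [hq1] at this
    set z0 := rot u C5 s (e - rot v C5 s e) with hz0
    have hzy : x + z0 - y = z0 - e := by rw [hedef]; abel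
    have hz00 : dt z0 z0 = 1 := by rw [hz0, dt_rot_rot hu hcs]; exact hq2
    have hz0e : dt z0 e = 1 / 3 := by
      have h8 : dt z0 e = dt (rot u C5 s e) e - dt (rot u C5 (-s) e) (rot v C5 s e) := by
        rw [hz0, rot_sub, dt_sub_left]
        congr 1
        rw [dt_rot_left hu hcs, dt_comm]
      rw [h8, dt_rot_self_gen, dt_rot_rot_gen, he, ← hadef, ← hbdef, ← htdef, ← hkdef, hb']
      clear h rx ry fx fy pr e1 e2 hA0 hC1 hC2 hs
      grind
    have hz0v : dt z0 v = s * (1 - C5) * k * (1 + t) - (s ^ 2 - (1 - C5) ^ 2 * t) * (a - t * b) := by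
      rw [hz0, dt_rot_gen]
      have g1 : dt (e - rot v C5 s e) v = 0 := by
        rw [dt_sub_left, dt_comm (rot v C5 s e) v, dt_axis_rot hv, dt_comm e v, sub_self]
      have g2 : dt u (e - rot v C5 s e) = a - (C5 * a - s * k + (1 - C5) * b * t) := by
        rw [dt_sub_right, dt_u_rot_gen, ← hadef, ← hbdef, ← htdef, ← hkdef]
      have g3 : dt (cr u (e - rot v C5 s e)) v = k - (C5 * k + s * (a - t * b)) := by
        rw [cr_sub_right, dt_sub_left, dt_cr_rot_gen, hv, ← hadef, ← hbdef, ← htdef, ← hkdef,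
          mul_one]
      rw [g1, g2, g3, ← htdef]
      ring
    have hd : dt (z0 - e) (z0 - e) = 4 / 3 := by
      have q1 := dt_sub_left z0 e (z0 - e)
      have q2 := dt_sub_right z0 e z0
      have q3 := dt_sub_right z0 e e
      have q4 := dt_comm e z0
      linarith
    have hD : dt (cr v (z0 - e)) (cr v (z0 - e)) = -16 / 27 + 352 / 405 * (1 - C5) := by
      rw [dt_cr_axis hv, hd, dt_sub_right, dt_comm v z0, hz0v, ← hbdef, hb']
      clear h rx ry fx fy pr e1 e2 hA0 hC1 hC2 hs
      grind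
    have hne : cr v (z0 - e) ≠ 0 := by
      intro h0
      rw [h0, dt_zero_left] at hD
      linarith
    have h8 := fy _ hz (by rw [hzy, hd]; linarith) (by rw [hzy]; exact hne)
    rw [hzy, hD] at h8
    nlinarith

/-- TARGET L6: equilateral case -/
theorem PD.caseE3 {X : Set E} {x y u v : E} (P : PD X x y u v) (h1 : cr u (y - x) ≠ 0)
    (h2 : cr v (y - x) ≠ 0) {s₁ s₂ : ℝ} (hs₁ : s₁ = S5 ∨ s₁ = -S5) (hs₂ : s₂ = S5 ∨ s₂ = -S5)
    (h : rot u C5 s₁ (y - x) + rot v C5 s₂ (y - x) - (y - x) = 0) :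
    dt u v ^ 2 = 1 / 5 ∧ dt (cr u (y - x)) v = 0 := by
  have hcase : s₂ = -s₁ ∨ s₂ = s₁ := by
    rcases hs₁ with rfl | rfl <;> rcases hs₂ with rfl | rfl <;> simp
  rcases hcase with rfl | rfl
  · exact caseE3_aux P hs₁ h
  · have P' : PD X x y u (-v) := by
      obtain ⟨hx, hy, he, hu, hv, rx, ry, fx, fy, pr⟩ := P
      refine ⟨hx, hy, he, hu, ?_, rx, ?_, fx, ?_, pr⟩
      · rw [dt_neg_left, dt_neg_right, neg_neg]; exact hv
      · intro z hz hd s hs
        rw [rot_neg_axis]
        refine ry z hz hd (-s) ?_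
        rcases hs with rfl | rfl <;> simp
      · intro z hz hd hcr
        rw [cr_neg_left] at hcr ⊢
        rw [dt_neg_left, dt_neg_right, neg_neg]
        exact fy z hz hd (by simpa using hcr)
    have h' := caseE3_aux P' hs₁ (by rw [rot_neg_axis, neg_neg]; exact h)
    rw [dt_neg_right, dt_neg_right, neg_sq] at h'
    exact ⟨h'.1, by linarith [h'.2]⟩

end Pool.Agent.H304
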