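import Pool.Agent.helper304_ico.PairDefs

set_option autoImplicit false

namespace Pool.Agent.H304

theorem H304_L12_par {w a : E} (hw : dt w w = 1) (h : cr w a = 0) : a = dt w a • w := by
  have h1 := cr_cr w w a
  rw [h, cr_zero_right, hw, one_smul] at h1
  exact (sub_eq_zero.1 h1.symm).symm

theorem H304_L12_norm {d : E} (hd : dt d d ≤ 2 * (1 - C5)) : ‖d‖ ≤ 3 / 2 := by
  have h1 := C5_gt
  have h2 := norm_sq_eq_dt d
  have h3 := norm_nonneg d
  nlinarith

theorem NW.H304_L12_c {X : Set E} {u : E → E} {c s : E → ℝ} (W : NW X u c s) {x : E} (hx : x ∈ X)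
    (hxn : ‖x‖ ≤ 10) : C5 ≤ c x ∧ c x < 1 := by
  have h1 := C5_lt
  rcases W.ang x hx hxn with ⟨h, -⟩ | ⟨h, h'⟩
  · rw [h]; exact ⟨le_refl _, by linarith⟩
  · exact ⟨by linarith, h'⟩

theorem H304_L12_cross {u : E} (hu : dt u u = 1) (c s : ℝ) (d : E) :
    dt u (cr (rot u c s d - d) (rot u c (-s) d - d)) = 2 * s * (1 - c) * dt (cr u d) (cr u d) := by
  have e1 : rot u c s d - d = ((c - 1) • d + ((1 - c) * dt u d) • u) + s • cr u d := by
    rw [rot]; module
  have e2 : rot u c (-s) d - d = ((c - 1) • d + ((1 - c) * dt u d) • u) - s • cr u d := by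
    rw [rot]; module
  have e3 : ∀ e f : E, cr (e + f) (e - f) = - ((2 : ℝ) • cr e f) := by
    intro e f
    rw [cr_add_left, cr_sub_right, cr_sub_right, cr_self, cr_self, cr_comm f e]
    module
  rw [e1, e2, e3, dt_neg_right, dt_smul_right, cr_add_left, cr_smul_left, cr_smul_left,
    cr_smul_right, cr_smul_right, dt_add_right, dt_smul_right, dt_smul_right, dt_smul_right,
    dt_smul_right, dt_self_cr_left, cr_cr, dt_sub_right, dt_smul_right, dt_smul_right, hu,
    dt_cr_axis hu, dt_comm d u]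
  ring

/-- TARGET L1: a point off the axis is far from the axis -/
theorem NW.far {X : Set E} {u : E → E} {c s : E → ℝ} (W : NW X u c s) {x z : E} (hx : x ∈ X)
    (hxn : ‖x‖ ≤ 8) (hz : z ∈ X) (hd : dt (z - x) (z - x) ≤ 2 * (1 - C5))
    (hoff : cr (u x) (z - x) ≠ 0) :
    0.998 ≤ 2 * (1 - c x) * dt (cr (u x) (z - x)) (cr (u x) (z - x)) := by
  by_contra hcon
  push Not at hcon
  have hx10 : ‖x‖ ≤ 10 := by linarith
  have hu := W.unit x hx hx10
  have hcs := W.cs x hx hx10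
  obtain ⟨hc1, hc2⟩ := W.H304_L12_c hx hx10
  obtain ⟨d, hdz⟩ : ∃ d, d = z - x := ⟨_, rfl⟩
  have hz' : z = x + d := by rw [hdz]; abel
  rw [← hdz] at hd hoff hcon
  obtain ⟨m1, m2⟩ := W.rot x hx hx10 d hd (hz' ▸ hz)
  have hcs' : c x ^ 2 + (-(s x)) ^ 2 = 1 := by rw [neg_sq]; exact hcs
  have hdn := H304_L12_norm hd
  have hzn : ‖z‖ ≤ 10 := by
    rw [hz']
    refine (norm_add_le _ _).trans ?_
    linarith
  have n1 : ‖x + H304.rot (u x) (c x) (s x) d‖ ≤ 10 := by
    refine (norm_add_le _ _).trans ?_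
    rw [norm_rot hu hcs]; linarith
  have n2 : ‖x + H304.rot (u x) (c x) (-(s x)) d‖ ≤ 10 := by
    refine (norm_add_le _ _).trans ?_
    rw [norm_rot hu hcs']; linarith
  have hpos : 0 < dt (cr (u x) d) (cr (u x) d) := by
    rcases (dt_self_nonneg (cr (u x) d)).lt_or_eq with h | h
    · exact h
    · exact absurd (dt_self_eq_zero h.symm) hoff
  have hc0 : 0 < 1 - c x := by linarith
  have huz := W.unit z hz hzn
  have key : ∀ σ : ℝ, c x ^ 2 + σ ^ 2 = 1 → x + H304.rot (u x) (c x) σ d ∈ X →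
      ‖x + H304.rot (u x) (c x) σ d‖ ≤ 10 → cr (u z) (H304.rot (u x) (c x) σ d - d) = 0 := by
    intro σ hσ hm hn
    have e1 : (x + H304.rot (u x) (c x) σ d) - z = H304.rot (u x) (c x) σ d - d := by
      rw [hz']; abel
    have e2 := dt_rot_sub_self hu hσ d
    rw [← dt_cr_axis hu] at e2
    have hne : z ≠ x + H304.rot (u x) (c x) σ d := by
      intro h
      rw [← h, sub_self] at e1
      rw [← e1, dt_zero_left] at e2
      have : 0 < 2 * (1 - c x) * dt (cr (u x) d) (cr (u x) d) := by positivity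
      linarith
    have h3 := (W.coax z hz hzn _ hm hn hne (by rw [e1, e2]; exact hcon)).1
    rwa [e1] at h3
  have k1 := key (s x) hcs m1 n1
  have k2 := key (-(s x)) hcs' m2 n2
  have p1 := H304_L12_par huz k1
  have p2 := H304_L12_par huz k2
  have hcr : cr (H304.rot (u x) (c x) (s x) d - d) (H304.rot (u x) (c x) (-(s x)) d - d) = 0 := by
    rw [p1, p2, cr_smul_left, cr_smul_right, cr_self, smul_zero, smul_zero]
  have h5 := H304_L12_cross hu (c x) (s x) d
  rw [hcr, dt_zero_right] at h5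
  have hs : s x ≠ 0 := by
    intro h
    rw [h] at hcs
    have := C5_gt
    nlinarith
  have h6 : 2 * s x * (1 - c x) * dt (cr (u x) d) (cr (u x) d) ≠ 0 := by positivity
  exact h6 h5.symm

/-- TARGET L2: a third point is far from the line through two close points -/
theorem NW.third {X : Set E} {u : E → E} {c s : E → ℝ} (W : NW X u c s) {P Q T : E} (hP : P ∈ X)
    (hQ : Q ∈ X) (hT : T ∈ X) (hPn : ‖P‖ ≤ 8) (hne : P ≠ Q) (hPQ : dt (Q - P) (Q - P) < 0.998)
    (hd : dt (T - P) (T - P) ≤ 2 * (1 - C5)) (hoff : cr (Q - P) (T - P) ≠ 0) :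
    0.998 * dt (Q - P) (Q - P) ≤ 2 * (1 - C5) * dt (cr (Q - P) (T - P)) (cr (Q - P) (T - P)) := by
  have hP10 : ‖P‖ ≤ 10 := by linarith
  have hQn : ‖Q‖ ≤ 10 := by
    have h1 : ‖Q - P‖ ≤ 1 := by
      have h2 := norm_sq_eq_dt (Q - P)
      have h3 := norm_nonneg (Q - P)
      nlinarith
    have h4 : Q = P + (Q - P) := by abel
    rw [h4]
    refine (norm_add_le _ _).trans ?_
    linarith
  have hu := W.unit P hP hP10
  have h1 := (W.coax P hP hP10 Q hQ hQn hne hPQ).1
  obtain ⟨f, hf⟩ : ∃ f : ℝ, Q - P = f • u P := ⟨_, H304_L12_par hu h1⟩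
  rw [hf, cr_smul_left] at hoff ⊢
  have hoff' : cr (u P) (T - P) ≠ 0 := by
    intro h
    apply hoff
    rw [h, smul_zero]
  have h2 := W.far hP hPn hT hd hoff'
  obtain ⟨hc1, hc2⟩ := W.H304_L12_c hP hP10
  have h3 := dt_self_nonneg (cr (u P) (T - P))
  have h4 : 2 * (1 - c P) * dt (cr (u P) (T - P)) (cr (u P) (T - P)) ≤
      2 * (1 - C5) * dt (cr (u P) (T - P)) (cr (u P) (T - P)) := by
    apply mul_le_mul_of_nonneg_right _ h3
    linarith
  simp only [dt_smul_left, dt_smul_right, hu]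
  have h5 : 0 ≤ f ^ 2 := sq_nonneg f
  nlinarith [mul_le_mul_of_nonneg_left (h2.trans h4) h5]

end Pool.Agent.H304
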