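import Pool.Agent.helper304_ico.PairDefs

set_option autoImplicit false

namespace Pool.Agent.H304

lemma kg_k (u v e : E) : dt (cr u v) e = -dt (cr u e) v := by simp [dt]; ring
lemma kg_k2 (u v e : E) : dt u (cr v e) = -dt (cr u e) v := by simp [dt]; ring
lemma kg_k3 (u v e : E) : dt (cr v e) u = -dt (cr u e) v := by simp [dt]; ring
lemma kg_k4 (u v e : E) : dt (cr v u) e = dt (cr u e) v := by simp [dt]; ring

/-- Gram determinant -/
lemma kg_gram {u v e : E} (hu : dt u u = 1) (hv : dt v v = 1) (he : dt e e = 1) :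
    (1 - dt u e ^ 2) * (1 - dt v e ^ 2) = (dt u v - dt u e * dt v e) ^ 2 + dt (cr u e) v ^ 2 := by
  have h : dt (cr u e) v ^ 2 = dt u u * dt e e * dt v v + 2 * dt u e * dt v e * dt u v
      - dt u u * dt v e ^ 2 - dt e e * dt u v ^ 2 - dt v v * dt u e ^ 2 := by
    simp [dt]; ring
  rw [h, hu, hv, he]
  ring

lemma kg_h {v e : E} (hv : dt v v = 1) (he : dt e e = 1) {c s : ℝ} (h : c ^ 2 + s ^ 2 = 1) :
    dt (e - rot v c s e) (e - rot v c s e) = 2 * (1 - c) * (1 - dt v e ^ 2) := by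
  have h1 := dt_rot_sub_self hv h e
  rw [he] at h1
  rw [← h1, dt_sub_left, dt_sub_right, dt_sub_right, dt_sub_left, dt_sub_right, dt_sub_right]
  ring

lemma kg_uh (u v e : E) (c s : ℝ) : dt u (e - rot v c s e) =
    (1 - c) * (dt u e - dt v e * dt u v) + s * dt (cr u e) v := by
  simp only [rot, dt_sub_right, dt_add_right, dt_smul_right, kg_k2]
  ring

lemma kg_N2 {u v e : E} (hu : dt u u = 1) (hv : dt v v = 1) (he : dt e e = 1) {c s : ℝ}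
    (h : c ^ 2 + s ^ 2 = 1) :
    dt (rot u c s e + rot v c (-s) e - e) (rot u c s e + rot v c (-s) e - e) =
      1 + 2 * (1 - c) ^ 2 * ((1 - dt u e ^ 2) * (1 - dt v e ^ 2))
      - 2 * (1 - c ^ 2 - (1 - c) ^ 2 * (dt u e * dt v e)) * (dt u v - dt u e * dt v e)
      + 2 * (1 - c) * s * (dt u e + dt v e) * dt (cr u e) v := by
  have e1 : dt e u = dt u e := dt_comm _ _
  have e2 : dt e v = dt v e := dt_comm _ _
  have e3 : dt v u = dt u v := dt_comm _ _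
  have b1 : dt (cr v e) u = -dt (cr u e) v := kg_k3 u v e
  have b2 : dt u (cr v e) = -dt (cr u e) v := kg_k2 u v e
  have b3 : dt v (cr u e) = dt (cr u e) v := dt_comm _ _
  have hs : s ^ 2 = 1 - c ^ 2 := by linarith
  simp only [rot, dt_sub_left, dt_add_left, dt_smul_left, dt_sub_right, dt_add_right,
    dt_smul_right, dt_self_cr_left, dt_self_cr_right, dt_cr_self_left, dt_cr_self_right, dt_cr_cr,
    b1, b2, b3, e1, e2, e3, hu, hv, he]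
  linear_combination (2 - dt u e ^ 2 - dt v e ^ 2 - 2 * (dt u v - dt u e * dt v e)) * hs

/-- the third point minus `y` -/
lemma kg_Z {u v e : E} (hu : dt u u = 1) (hv : dt v v = 1) (he : dt e e = 1) {c s : ℝ}
    (h : c ^ 2 + s ^ 2 = 1) :
    dt (rot u c s (e - rot v c s e)) e = c * (1 - c) * (1 - dt v e ^ 2) +
      (1 - c ^ 2) * (dt u v - dt u e * dt v e) + (1 - c) * s * (dt u e + dt v e) * dt (cr u e) v
      + (1 - c) ^ 2 * dt u e * (dt u e - dt v e * dt u v) := by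
  have e1 : dt e u = dt u e := dt_comm _ _
  have e2 : dt e v = dt v e := dt_comm _ _
  have e3 : dt v u = dt u v := dt_comm _ _
  have hs : s ^ 2 = 1 - c ^ 2 := by linarith
  have a1 : dt (rot u c s (e - rot v c s e)) e = c * dt (e - rot v c s e) e +
      s * dt (cr u (e - rot v c s e)) e + (1 - c) * dt u (e - rot v c s e) * dt u e := by
    conv_lhs => rw [rot]
    simp only [dt_add_left, dt_smul_left]
  rw [a1, kg_uh]
  simp only [rot, dt_sub_left, dt_add_left, dt_smul_left, cr_sub_right, cr_add_right, cr_smul_right,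
    cr_cr, dt_cr_self_left, dt_cr_self_right, kg_k u v e, he, e1, e2]
  linear_combination (dt u v - dt u e * dt v e) * hs

lemma kg_L {u v e : E} (hu : dt u u = 1) (hv : dt v v = 1) (he : dt e e = 1) {c s : ℝ}
    (h : c ^ 2 + s ^ 2 = 1) :
    dt v (rot u c s (e - rot v c s e) - e) = s * (1 - c) * dt (cr u e) v * (1 + dt u v) -
      (1 - c ^ 2 - (1 - c) ^ 2 * dt u v) * (dt u e - dt u v * dt v e) - dt v e := by
  have e1 : dt e u = dt u e := dt_comm _ _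
  have e2 : dt e v = dt v e := dt_comm _ _
  have e3 : dt v u = dt u v := dt_comm _ _
  have hs : s ^ 2 = 1 - c ^ 2 := by linarith
  have a0 : dt v (e - rot v c s e) = 0 := by rw [dt_sub_right, dt_axis_rot hv, sub_self]
  have a1 : dt v (rot u c s (e - rot v c s e)) = c * dt v (e - rot v c s e) +
      s * dt v (cr u (e - rot v c s e)) + (1 - c) * dt u (e - rot v c s e) * dt u v := by
    conv_lhs => rw [rot]
    simp only [dt_add_right, dt_smul_right, e3]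
  have a2 : dt v (cr u (e - rot v c s e)) = (1 - c) * dt (cr u e) v
      - s * (dt u e - dt v e * dt u v) := by
    rw [dt_cr_right]
    simp only [rot, dt_sub_right, dt_add_right, dt_smul_right, dt_cr_cr, dt_cr_self_left, kg_k4 u v e,
      hv, e3]
    ring
  rw [dt_sub_right, a1, a0, a2, kg_uh]
  linear_combination (-(dt u e - dt v e * dt u v)) * hs

lemma kg_r0 {X r k w : ℝ} (hX1 : X ≤ 1) (hX0 : 0.722 ≤ X) (hw0 : 0 ≤ w) (hr2 : r ^ 2 = w ^ 2 + k ^ 2)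
    (hrX : X ^ 2 ≤ r ^ 2) (hkr : 0.721357 * r ^ 2 - 0.00164 ≤ k ^ 2)
    (hk : 0.904508 * k ^ 2 ≤ 1.3819662 * X - 0.722159) : 0.928 ≤ X ∧ 0.491 ≤ w := by
  have h1 : 0.928 ≤ X := by
    by_contra hcon
    push Not at hcon
    nlinarith
  refine ⟨h1, ?_⟩
  have h2 : 0.2411 ≤ w ^ 2 := by nlinarith
  by_contra hcon
  push Not at hcon
  nlinarith

lemma kg_rk {A S2 X K : ℝ} (hAa : 0.690983 < A) (hAb : A < 0.6909831) (hS2a : 0.904508 < S2)
    (hK : 0 ≤ K) (hX : 0 ≤ X)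
    (h : 0.998 ≤ 2 * A * (2 * A * X - S2 * K)) : 0.904508 * K ≤ 1.3819662 * X - 0.722159 := by
  have h5 : 0.904508 * K ≤ S2 * K := mul_le_mul_of_nonneg_right hS2a.le hK
  have h6 : 0.722159 ≤ 2 * A * X - S2 * K := by
    by_contra hcon
    push Not at hcon
    have h8 : 2 * A * (2 * A * X - S2 * K) < 2 * A * 0.722159 :=
      mul_lt_mul_of_pos_left hcon (by linarith)
    linarith
  have h7 : 2 * A * X ≤ 1.3819662 * X := mul_le_mul_of_nonneg_right (by linarith) hX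
  linarith

lemma kg_rw {A2 S2 p r w : ℝ} (hS2a : 0.904508 < S2) (hA2a : 0.477457 < A2) (hA2b : A2 < 0.477458)
    (hp1 : p ≤ 0.278) (hrp : r ≤ 1 - p) (hr1 : r ≤ 1) (hr0 : 0 ≤ r) (hw0 : 0 ≤ w)
    (h2 : (S2 - A2 * p) * w ≤ A2 * r ^ 2 + 0.001) : w ≤ 0.527866 * r + 0.00155 := by
  have hwr : S2 * w ≤ A2 * r + 0.0014 := by
    rcases le_total 0 p with hp | hp
    · by_contra hcon
      push Not at hcon
      have h5 : (S2 - A2) * (p * w) ≥ 0 := mul_nonneg (by linarith) (mul_nonneg hp hw0)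
      have h6 : A2 * r * (1 - p - r) ≥ 0 := mul_nonneg (mul_nonneg (by linarith) hr0) (by linarith)
      have h7 : (1 - p) * (S2 * w - A2 * r - 0.0014) ≥ 0 := mul_nonneg (by linarith) (by linarith)
      linarith
    · have h5 : A2 * (-p) * w ≥ 0 := mul_nonneg (mul_nonneg (by linarith) (by linarith)) hw0
      have h6 : A2 * r * (1 - r) ≥ 0 := mul_nonneg (mul_nonneg (by linarith) hr0) (by linarith)
      linarith
  have h5 : 0.904508 * w ≤ S2 * w := mul_le_mul_of_nonneg_right hS2a.le hw0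
  have h6 : A2 * r ≤ 0.477458 * r := mul_le_mul_of_nonneg_right hA2b.le hr0
  linarith

lemma kg_rw2 {r w : ℝ} (hr1 : r ≤ 1) (hr0 : 0 ≤ r) (hw0 : 0 ≤ w)
    (h : w ≤ 0.527866 * r + 0.00155) : w ^ 2 ≤ 0.278643 * r ^ 2 + 0.00164 := by
  have h5 : w ^ 2 ≤ (0.527866 * r + 0.00155) ^ 2 := pow_le_pow_left₀ hw0 h 2
  nlinarith

lemma kg_r1 {C a b w k : ℝ} (hC : 4 * C ^ 2 + 2 * C = 1) (hC1 : 0.30901697 < C)
    (hC2 : C < 0.30901700) (hw0 : 0 ≤ w)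
    (hV : (1 - a ^ 2) * (1 - b ^ 2) = w ^ 2 + k ^ 2)
    (h1 : 0.998 ≤ 2 * (1 - C) * (1 - a ^ 2)) (h1' : 0.998 ≤ 2 * (1 - C) * (1 - b ^ 2))
    (h2 : (1 - C ^ 2 - (1 - C) ^ 2 * (a * b)) * w ≤ (1 - C) ^ 2 * (w ^ 2 + k ^ 2) + 0.001)
    (h3 : 0.998 ≤ 2 * (1 - C) * (2 * (1 - C) * (1 - b ^ 2) - (1 - C ^ 2) * k ^ 2))
    (h3' : 0.998 ≤ 2 * (1 - C) * (2 * (1 - C) * (1 - a ^ 2) - (1 - C ^ 2) * k ^ 2)) :
    a ^ 2 ≤ 0.072 ∧ b ^ 2 ≤ 0.072 ∧ 0.491 ≤ w ∧ w ≤ 0.5295 := by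
  -- numerical bounds
  have hS2a : 0.904508 < 1 - C ^ 2 := by linarith
  have hA2a : 0.477457 < (1 - C) ^ 2 := by linarith
  have hA2b : (1 - C) ^ 2 < 0.477458 := by linarith
  have ha0 : 0 ≤ a ^ 2 := sq_nonneg a
  have hb0 : 0 ≤ b ^ 2 := sq_nonneg b
  have ha1 : a ^ 2 ≤ 0.278 := by
    by_contra hcon
    push Not at hcon
    have : 2 * (1 - C) * (1 - a ^ 2) < 2 * (1 - C) * 0.722 :=
      mul_lt_mul_of_pos_left (by linarith) (by linarith)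
    linarith
  have hb1 : b ^ 2 ≤ 0.278 := by
    by_contra hcon
    push Not at hcon
    have : 2 * (1 - C) * (1 - b ^ 2) < 2 * (1 - C) * 0.722 :=
      mul_lt_mul_of_pos_left (by linarith) (by linarith)
    linarith
  have hk0 : 0 ≤ k ^ 2 := sq_nonneg k
  -- r = sqrt V
  obtain ⟨r, hr⟩ : ∃ r, r = Real.sqrt (w ^ 2 + k ^ 2) := ⟨_, rfl⟩
  have hr0 : 0 ≤ r := by rw [hr]; exact Real.sqrt_nonneg _
  have hr2 : r ^ 2 = w ^ 2 + k ^ 2 := by rw [hr]; exact Real.sq_sqrt (by positivity)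
  have hV' : r ^ 2 = (1 - a ^ 2) * (1 - b ^ 2) := by rw [hr2, hV]
  have hab : 0 ≤ (a - b) ^ 2 := sq_nonneg _
  have hp1 : a * b ≤ 0.278 := by linarith
  have hrp : r ≤ 1 - a * b := by
    rw [← pow_le_pow_iff_left₀ hr0 (by linarith) two_ne_zero, hV']
    linarith
  have hr1 : r ≤ 1 := by
    rw [← pow_le_pow_iff_left₀ hr0 zero_le_one two_ne_zero, hV']
    have := mul_nonneg ha0 (by linarith : 0 ≤ 1 - b ^ 2)
    linarith
  rw [← hr2] at h2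
  have hwr2 := kg_rw hS2a hA2a hA2b hp1 hrp hr1 hr0 hw0 h2
  have hw2 := kg_rw2 hr1 hr0 hw0 hwr2
  have hkr : 0.721357 * r ^ 2 - 0.00164 ≤ k ^ 2 := by linarith
  have hkb := kg_rk (A := 1 - C) (by linarith) (by linarith) hS2a hk0
    (by linarith : 0 ≤ 1 - b ^ 2) h3
  have hka := kg_rk (A := 1 - C) (by linarith) (by linarith) hS2a hk0
    (by linarith : 0 ≤ 1 - a ^ 2) h3'
  have hwu : w ≤ 0.5295 := by linarith
  rcases le_total (a ^ 2) (b ^ 2) with h | h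
  · have h5 : (1 - b ^ 2) ^ 2 ≤ r ^ 2 := by
      rw [hV', sq (1 - b ^ 2)]
      exact mul_le_mul_of_nonneg_right (by linarith) (by linarith)
    obtain ⟨h6, h7⟩ := kg_r0 (by linarith) (by linarith) hw0 hr2 h5 hkr hkb
    exact ⟨by linarith, by linarith, h7, hwu⟩
  · have h5 : (1 - a ^ 2) ^ 2 ≤ r ^ 2 := by
      rw [hV', sq (1 - a ^ 2)]
      exact mul_le_mul_of_nonneg_left (by linarith) (by linarith)
    obtain ⟨h6, h7⟩ := kg_r0 (by linarith) (by linarith) hw0 hr2 h5 hkr hka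
    exact ⟨by linarith, by linarith, h7, hwu⟩

lemma kg_step3 {p τ : ℝ} (hp1 : -0.072 ≤ p) (hp2 : p ≤ 0.072) (hτ : 1.491 + p ≤ τ) :
    0.1493 + 2 * p ≤ (0.0672 + 0.81 * p) * τ ^ 2 := by
  have h0 : 0 ≤ 0.0672 + 0.81 * p := by linarith
  have h1 : (1.491 + p) ^ 2 ≤ τ ^ 2 := pow_le_pow_left₀ (by linarith) hτ 2
  have h2 : (0.0672 + 0.81 * p) * (1.491 + p) ^ 2 ≤ (0.0672 + 0.81 * p) * τ ^ 2 :=
    mul_le_mul_of_nonneg_left h1 h0
  have h3 : 0 ≤ p ^ 2 * (0.072 + p) := mul_nonneg (sq_nonneg _) (by linarith)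
  nlinarith [sq_nonneg (p + 0.0002)]

lemma kg_step4 {p w : ℝ} (hp1 : -0.072 ≤ p) (hp2 : p ≤ 0.072) (hw1 : 0.491 ≤ w)
    (hw2 : w ≤ 0.5295) : (1 + w + p) ^ 2 * (0.856 + p ^ 2 - w ^ 2) ≤ 1.40 + 1.85 * p := by
  obtain ⟨δ, hδ⟩ : ∃ δ, δ = w - 0.51 := ⟨_, rfl⟩
  have hw : w = 0.51 + δ := by linarith
  have hδ1 : -0.019 ≤ δ := by linarith
  have hδ2 : δ ≤ 0.0195 := by linarith
  subst hw
  have h1 : (1 + (0.51 + δ) + p) ^ 2 ≤ 2.2885 + 3.02 * δ + 3.02 * p := by nlinarith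
  have h2 : 0.856 + p ^ 2 - (0.51 + δ) ^ 2 ≤ 0.6011 - 1.02 * δ := by nlinarith [sq_nonneg δ]
  have h3 : 0 ≤ 0.856 + p ^ 2 - (0.51 + δ) ^ 2 := by nlinarith [sq_nonneg p]
  have h4 : (1 + (0.51 + δ) + p) ^ 2 * (0.856 + p ^ 2 - (0.51 + δ) ^ 2) ≤
      (2.2885 + 3.02 * δ + 3.02 * p) * (0.6011 - 1.02 * δ) :=
    mul_le_mul h1 h2 h3 (by linarith)
  have h5 : -0.00141 ≤ p * δ := by
    nlinarith [mul_nonneg (by linarith : 0 ≤ p + 0.072) (by linarith : 0 ≤ δ + 0.0195),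
      mul_nonneg (by linarith : 0 ≤ 0.072 - p) (by linarith : 0 ≤ 0.0195 - δ)]
  nlinarith [sq_nonneg δ]

lemma kg_abs {a : ℝ} (ha : a ^ 2 ≤ 0.072) : -0.2684 ≤ a ∧ a ≤ 0.2684 := by
  constructor <;> nlinarith

lemma kg_p {a b : ℝ} (ha : a ^ 2 ≤ 0.072) (hb : b ^ 2 ≤ 0.072) :
    -0.072 ≤ a * b ∧ a * b ≤ 0.072 := by
  constructor <;> nlinarith [sq_nonneg (a - b), sq_nonneg (a + b)]

lemma kg_E {C t : ℝ} (hC1 : 0.30901697 < C) (hC2 : C < 0.30901700) (ht1 : 0.419 ≤ t)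
    (ht2 : t ≤ 0.6015) : 0 ≤ (C - (1 - C) * t) ^ 2 ∧ (C - (1 - C) * t) ^ 2 ≤ 0.01138 := by
  refine ⟨sq_nonneg _, ?_⟩
  have h1 : -0.10665 ≤ C - (1 - C) * t := by nlinarith
  have h2 : C - (1 - C) * t ≤ 0.10665 := by nlinarith
  have h3 : (C - (1 - C) * t) ^ 2 ≤ 0.10665 ^ 2 := sq_le_sq' h1 h2
  linarith

lemma kg_G {a b t : ℝ} (ha : -0.2684 ≤ a ∧ a ≤ 0.2684) (hb : -0.2684 ≤ b ∧ b ≤ 0.2684)
    (ht1 : 0.419 ≤ t) (ht2 : t ≤ 0.6015) : |a - t * b| ≤ 0.43 := by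
  have h1 : |t * b| ≤ 0.6015 * 0.2684 := by
    rw [abs_mul, abs_of_nonneg (by linarith : 0 ≤ t)]
    exact mul_le_mul ht2 (abs_le.mpr hb) (abs_nonneg _) (by norm_num)
  have h2 : |a| ≤ 0.2684 := abs_le.mpr ha
  have h3 := abs_sub a (t * b)
  linarith

/-- the squared vertical component -/
lemma kg_ell {a b p τ ℓ e1 : ℝ} (hp : p = a * b) (ha : -0.2684 ≤ a ∧ a ≤ 0.2684)
    (hb : -0.2684 ≤ b ∧ b ≤ 0.2684) (he : |e1| ≤ 0.0049) (h : τ * ℓ = a + b - e1) :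
    τ ^ 2 * ℓ ^ 2 ≤ a ^ 2 + b ^ 2 + 2 * p + 0.0053 := by
  have h1 : τ ^ 2 * ℓ ^ 2 = (a + b - e1) ^ 2 := by rw [← h]; ring
  have h2 : |(a + b) * e1| ≤ 0.5368 * 0.0049 := by
    rw [abs_mul]
    apply mul_le_mul _ he (abs_nonneg _) (by norm_num)
    rw [abs_le]
    constructor <;> linarith [ha.1, ha.2, hb.1, hb.2]
  have h3 := (abs_le.mp h2).1
  have h4 : e1 ^ 2 ≤ 0.0049 ^ 2 := sq_le_sq' (abs_le.mp he).1 (abs_le.mp he).2
  rw [h1, hp]
  nlinarith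

/-- lower bound for `D` -/
lemma kg_low {A2 S2 AS u p w ℓ x D : ℝ} (hA2a : 0.477457 < A2) (hA2b : A2 < 0.477458)
    (hS2a : 0.904508 < S2) (hS2b : S2 < 0.904509) (hAS : AS = A2 * S2)
    (hu : u ≤ 0.144) (hp1 : -0.072 ≤ p) (hp2 : p ≤ 0.072) (hw1 : 0.491 ≤ w) (hw2 : w ≤ 0.5295)
    (hℓ : (1 + w + p) ^ 2 * ℓ ^ 2 ≤ u + 2 * p + 0.0053) (hx : |x| ≤ 0.0057)
    (hD : D = 1 + 2 * A2 * (1 - u + p * (w + p)) - 2 * S2 * w
      - AS * (1 + w + p) ^ 2 * (1 - u + p ^ 2 - w ^ 2) - ℓ ^ 2 - x) : 0 < D := by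
  have hASb : AS ≤ 0.431866 := by
    rw [hAS]
    exact (mul_le_mul hA2b.le hS2b.le (by linarith) (by norm_num)).trans (by norm_num)
  have hASa : 0.43186 ≤ AS := by
    rw [hAS]
    exact le_trans (by norm_num) (mul_le_mul hA2a.le hS2a.le (by norm_num) (by linarith))
  obtain ⟨τ, hτ⟩ : ∃ τ, τ = 1 + w + p := ⟨_, rfl⟩
  rw [← hτ] at hD hℓ
  have hτ1 : 1.419 ≤ τ := by linarith
  have hτ2 : τ ≤ 1.6015 := by linarith
  have hτs1 : 2.0135 ≤ τ ^ 2 := by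
    have := pow_le_pow_left₀ (by norm_num) hτ1 2
    linarith
  have hτs2 : τ ^ 2 ≤ 2.56481 := by
    have := pow_le_pow_left₀ (by linarith) hτ2 2
    linarith
  have hτpos : 0 < τ ^ 2 := by linarith
  -- y = 1 / τ^2
  obtain ⟨y, hy⟩ : ∃ y, y = 1 / τ ^ 2 := ⟨_, rfl⟩
  have hyτ : y * τ ^ 2 = 1 := by rw [hy]; field_simp
  have hy0 : 0 < y := by rw [hy]; positivity
  have hy1 : 0.389 ≤ y := by
    by_contra hcon
    push Not at hcon
    have : y * τ ^ 2 < 0.389 * τ ^ 2 := mul_lt_mul_of_pos_right hcon hτpos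
    linarith
  have hℓy : ℓ ^ 2 ≤ (u + 2 * p + 0.0053) * y := by
    have h1 : ℓ ^ 2 = (τ ^ 2 * ℓ ^ 2) * y := by
      rw [mul_comm (τ ^ 2) (ℓ ^ 2), mul_assoc, mul_comm (τ ^ 2) y, hyτ, mul_one]
    rw [h1]
    exact mul_le_mul_of_nonneg_right hℓ hy0.le
  -- the coefficient of u is negative
  have hκ : 0 ≤ 2 * A2 - AS * τ ^ 2 + y := by
    have h1 : AS * τ ^ 2 ≤ 0.431866 * 2.56481 :=
      mul_le_mul hASb hτs2 hτpos.le (by norm_num)
    linarith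
  have hκu : (2 * A2 - AS * τ ^ 2 + y) * u ≤ (2 * A2 - AS * τ ^ 2 + y) * 0.144 :=
    mul_le_mul_of_nonneg_left hu hκ
  have h3 := kg_step3 (τ := τ) hp1 hp2 (by linarith)
  have h3y : (0.1493 + 2 * p) * y ≤ 0.0672 + 0.81 * p := by
    have h1 := mul_le_mul_of_nonneg_right h3 hy0.le
    have h2 : (0.0672 + 0.81 * p) * τ ^ 2 * y = 0.0672 + 0.81 * p := by
      rw [mul_assoc, mul_comm (τ ^ 2) y, hyτ, mul_one]
    linarith
  have h4 := kg_step4 hp1 hp2 hw1 hw2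
  rw [← hτ] at h4
  have h4a : AS * (τ ^ 2 * (0.856 + p ^ 2 - w ^ 2)) ≤ 0.431866 * (1.40 + 1.85 * p) := by
    have h1 : AS * (τ ^ 2 * (0.856 + p ^ 2 - w ^ 2)) ≤ AS * (1.40 + 1.85 * p) :=
      mul_le_mul_of_nonneg_left h4 (by linarith)
    have h2 : AS * (1.40 + 1.85 * p) ≤ 0.431866 * (1.40 + 1.85 * p) :=
      mul_le_mul_of_nonneg_right hASb (by linarith)
    linarith
  have h5 : 0.51 * p - 0.00141 ≤ p * w := by
    linarith [mul_nonneg (by linarith : 0 ≤ p + 0.072) (by linarith : 0 ≤ w - 0.4905),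
      mul_nonneg (by linarith : 0 ≤ 0.072 - p) (by linarith : 0 ≤ 0.5295 - w)]
  have h6 : 0.954914 * (0.856 + p * (w + p)) ≤ 2 * A2 * (0.856 + p * (w + p)) := by
    apply mul_le_mul_of_nonneg_right (by linarith)
    linarith [sq_nonneg p]
  have h7 : 2 * S2 * w ≤ 1.809018 * 0.5295 :=
    mul_le_mul (by linarith) hw2 (by linarith) (by norm_num)
  have hx1 := (abs_le.mp hx).2
  have hp0 := sq_nonneg p
  rw [hD]
  linarith

/-- upper bound for `D` -/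
lemma kg_up {A2 S2 AS u p w ℓ x D : ℝ} (hA2a : 0.477457 < A2) (hA2b : A2 < 0.477458)
    (hS2a : 0.904508 < S2) (hAS : AS = A2 * S2)
    (hu0 : 0 ≤ u) (hp1 : -0.072 ≤ p) (hp2 : p ≤ 0.072) (hw1 : 0.491 ≤ w) (hw2 : w ≤ 0.5295)
    (hV : 0.8611 ≤ 1 - u + p ^ 2) (hx : |x| ≤ 0.0057)
    (hD : D = 1 + 2 * A2 * (1 - u + p * (w + p)) - 2 * S2 * w
      - AS * (1 + w + p) ^ 2 * (1 - u + p ^ 2 - w ^ 2) - ℓ ^ 2 - x) : D ≤ 0.62 := by
  have hASa : 0.43186 ≤ AS := by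
    rw [hAS]
    exact le_trans (by norm_num) (mul_le_mul hA2a.le hS2a.le (by norm_num) (by linarith))
  have hτs1 : 2.0135 ≤ (1 + w + p) ^ 2 := by
    have := pow_le_pow_left₀ (by norm_num) (by linarith : 1.419 ≤ 1 + w + p) 2
    linarith
  have hpt : p * (w + p) ≤ 0.0434 := by
    rcases le_total 0 p with h | h
    · exact (mul_le_mul hp2 (by linarith : w + p ≤ 0.6015) (by linarith) (by norm_num)).trans
        (by norm_num)
    · have : p * (w + p) ≤ 0 := mul_nonpos_of_nonpos_of_nonneg h (by linarith)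
      linarith
  have h1 : 2 * A2 * (1 - u + p * (w + p)) ≤ 2 * A2 * 1.0434 :=
    mul_le_mul_of_nonneg_left (by linarith) (by linarith)
  have h2 : 1.809016 * 0.491 ≤ 2 * S2 * w :=
    mul_le_mul (by linarith) hw1 (by norm_num) (by linarith)
  have hVw : 0.5807 ≤ 1 - u + p ^ 2 - w ^ 2 := by
    have := pow_le_pow_left₀ (by linarith) hw2 2
    linarith
  have h3 : 0.43186 * 2.0135 ≤ AS * (1 + w + p) ^ 2 :=
    mul_le_mul hASa hτs1 (by norm_num) (by linarith)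
  have h4 : 0.43186 * 2.0135 * 0.5807 ≤ AS * (1 + w + p) ^ 2 * (1 - u + p ^ 2 - w ^ 2) :=
    mul_le_mul h3 hVw (by norm_num) (by positivity)
  have hx1 := (abs_le.mp hx).1
  have hl := sq_nonneg ℓ
  rw [hD]
  linarith

lemma kg_Zb {C a b w p σ : ℝ} (hC : 4 * C ^ 2 + 2 * C = 1) (hC1 : 0.30901697 < C)
    (hC2 : C < 0.30901700) (hb2 : b ^ 2 ≤ 0.072)
    (hw1 : 0.491 ≤ w) (hp : p = a * b) (hp2 : p ≤ 0.072) (ht1 : 0.419 ≤ w + p)
    (ht2 : w + p ≤ 0.6015) (hs : 0 ≤ σ * (a + b)) :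
    0.5 ≤ C * (1 - C) * (1 - b ^ 2) + (1 - C ^ 2) * w + (1 - C) * (a + b) * σ
      + (1 - C) ^ 2 * a * (a - b * (w + p)) := by
  have hCC : 0.2135 ≤ C * (1 - C) := by linarith
  have h1 : 0.2135 * 0.928 ≤ C * (1 - C) * (1 - b ^ 2) :=
    mul_le_mul hCC (by linarith) (by norm_num) (by linarith)
  have h2 : 0.904508 * 0.491 ≤ (1 - C ^ 2) * w :=
    mul_le_mul (by linarith) hw1 (by norm_num) (by linarith)
  have h3 : 0 ≤ (1 - C) * (a + b) * σ := by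
    have : (1 - C) * (a + b) * σ = (1 - C) * (σ * (a + b)) := by ring
    rw [this]
    exact mul_nonneg (by linarith) hs
  have h4 : (1 - C) ^ 2 * a * (a - b * (w + p)) = (1 - C) ^ 2 * (a ^ 2 - p * (w + p)) := by
    rw [hp]; ring
  have hpt : p * (w + p) ≤ 0.0434 := by
    rcases le_total 0 p with h | h
    · exact (mul_le_mul hp2 ht2 (by linarith) (by norm_num)).trans (by norm_num)
    · have : p * (w + p) ≤ 0 := mul_nonpos_of_nonpos_of_nonneg h (by linarith)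
      linarith
  have h5 : (1 - C) ^ 2 * (-0.0434) ≤ (1 - C) ^ 2 * (a ^ 2 - p * (w + p)) :=
    mul_le_mul_of_nonneg_left (by linarith [sq_nonneg a]) (by positivity)
  rw [h4]
  linarith

lemma kg_real {C a b w k σ : ℝ} (hC : 4 * C ^ 2 + 2 * C = 1) (hC1 : 0.30901697 < C)
    (hC2 : C < 0.30901700) (ha2 : a ^ 2 ≤ 0.072) (hb2 : b ^ 2 ≤ 0.072)
    (hw1 : 0.491 ≤ w) (hw2 : w ≤ 0.5295)
    (hV : (1 - a ^ 2) * (1 - b ^ 2) = w ^ 2 + k ^ 2)
    (hσ : σ ^ 2 = (1 - C ^ 2) * k ^ 2) (hs : 0 ≤ σ * (a + b)) {Z N L : ℝ}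
    (hZ : Z = C * (1 - C) * (1 - b ^ 2) + (1 - C ^ 2) * w + (1 - C) * (a + b) * σ
      + (1 - C) ^ 2 * a * (a - b * (w + a * b)))
    (hN : N = 2 * (1 - C) * (1 - b ^ 2) + 1 - 2 * Z)
    (hL : L = σ * (1 - C) * (1 + (w + a * b)) -
      (1 - C ^ 2 - (1 - C) ^ 2 * (w + a * b)) * (a - (w + a * b) * b) - b) :
    N ≤ 2 * (1 - C) ∧ 0 < N - L ^ 2 ∧ 2 * (1 - C) * (N - L ^ 2) < 0.998 := by
  have hS2a : 0.904508 < 1 - C ^ 2 := by linarith
  have hS2b : 1 - C ^ 2 < 0.904509 := by linarith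
  have hA2a : 0.477457 < (1 - C) ^ 2 := by linarith
  have hA2b : (1 - C) ^ 2 < 0.477458 := by linarith
  have ha := kg_abs ha2
  have hb := kg_abs hb2
  obtain ⟨hp1, hp2⟩ := kg_p ha2 hb2
  obtain ⟨p, hp⟩ : ∃ p, p = a * b := ⟨_, rfl⟩
  rw [← hp] at hp1 hp2 hZ hL
  have ht1 : 0.419 ≤ w + p := by linarith
  have ht2 : w + p ≤ 0.6015 := by linarith
  obtain ⟨hE0, hE1⟩ := kg_E hC1 hC2 ht1 ht2
  have hG := kg_G ha hb ht1 ht2
  obtain ⟨e1, he1⟩ : ∃ e1, e1 = (C - (1 - C) * (w + p)) ^ 2 * (a - (w + p) * b) := ⟨_, rfl⟩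
  have he1b : |e1| ≤ 0.0049 := by
    rw [he1, abs_mul, abs_of_nonneg hE0]
    exact (mul_le_mul hE1 hG (abs_nonneg _) (by norm_num)).trans (by norm_num)
  have hk0 : 0 ≤ k ^ 2 := sq_nonneg k
  have hkb : k ^ 2 ≤ 0.75892 := by
    have h1 : (1 - a ^ 2) * (1 - b ^ 2) ≤ 1 * 1 :=
      mul_le_mul (by linarith [sq_nonneg a]) (by linarith [sq_nonneg b]) (by linarith)
        (by norm_num)
    have h2 : 0.491 ^ 2 ≤ w ^ 2 := pow_le_pow_left₀ (by norm_num) hw1 2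
    linarith
  have hσb : |σ| ≤ 0.8286 := by
    apply abs_le_of_sq_le_sq _ (by norm_num)
    rw [hσ]
    have : (1 - C ^ 2) * k ^ 2 ≤ 0.904509 * 0.75892 :=
      mul_le_mul hS2b.le hkb hk0 (by norm_num)
    linarith
  obtain ⟨x, hx⟩ : ∃ x, x = 2 * (1 - C) * σ * e1 := ⟨_, rfl⟩
  have hxb : |x| ≤ 0.0057 := by
    rw [hx, abs_mul, abs_mul, abs_of_nonneg (by linarith : 0 ≤ 2 * (1 - C))]
    have h1 : 2 * (1 - C) * |σ| ≤ 1.3819662 * 0.8286 :=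
      mul_le_mul (by linarith) hσb (abs_nonneg _) (by norm_num)
    exact (mul_le_mul h1 he1b (abs_nonneg _) (by norm_num)).trans (by norm_num)
  obtain ⟨ℓ, hℓ⟩ : ∃ ℓ, ℓ = (1 - C ^ 2 - (1 - C) ^ 2 * (w + p)) * (a - (w + p) * b) + b :=
    ⟨_, rfl⟩
  have hτℓ : (1 + w + p) * ℓ = a + b - e1 := by
    rw [hℓ, he1]
    ring
  have hell := kg_ell hp ha hb he1b hτℓ
  have hu0 : 0 ≤ a ^ 2 + b ^ 2 := by positivity
  have hVu : (1 - a ^ 2) * (1 - b ^ 2) = 1 - (a ^ 2 + b ^ 2) + p ^ 2 := by rw [hp]; ring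
  have hD : N - L ^ 2 = 1 + 2 * (1 - C) ^ 2 * (1 - (a ^ 2 + b ^ 2) + p * (w + p))
      - 2 * (1 - C ^ 2) * w - ((1 - C) ^ 2 * (1 - C ^ 2)) * (1 + w + p) ^ 2
        * (1 - (a ^ 2 + b ^ 2) + p ^ 2 - w ^ 2) - ℓ ^ 2 - x := by
    have hk : 1 - (a ^ 2 + b ^ 2) + p ^ 2 - w ^ 2 = k ^ 2 := by linarith
    have hL' : L = σ * (1 - C) * (1 + w + p) - ℓ := by rw [hL, hℓ]; ring
    rw [hk, hN, hZ, hL', hx]
    have hp' : a * b = p := hp.symm
    linear_combination (-(1 - C) ^ 2 * (1 + w + p) ^ 2) * hσ + (2 * (1 - C) * σ) * hτℓ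
      + (2 * (1 - C) ^ 2 * (w + p)) * hp'
  have hV1 : 0.8611 ≤ 1 - (a ^ 2 + b ^ 2) + p ^ 2 := by
    rw [← hVu]
    have : 0.928 * 0.928 ≤ (1 - a ^ 2) * (1 - b ^ 2) :=
      mul_le_mul (by linarith) (by linarith) (by norm_num) (by linarith)
    linarith
  have hlow := kg_low hA2a hA2b hS2a hS2b rfl (by linarith : a ^ 2 + b ^ 2 ≤ 0.144) hp1 hp2 hw1 hw2
    hell hxb hD
  have hup := kg_up hA2a hA2b hS2a rfl hu0 hp1 hp2 hw1 hw2 hV1 hxb hD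
  refine ⟨?_, hlow, ?_⟩
  · have hZb : 0.5 ≤ Z := by
      rw [hZ]
      exact kg_Zb hC hC1 hC2 hb2 hw1 hp hp2 ht1 ht2 hs
    have h6 : 2 * (1 - C) * (1 - b ^ 2) ≤ 2 * (1 - C) * 1 :=
      mul_le_mul_of_nonneg_left (by linarith [sq_nonneg b]) (by linarith)
    rw [hN]
    linarith
  · have : 2 * (1 - C) * (N - L ^ 2) ≤ 1.3819662 * 0.62 :=
      mul_le_mul (by linarith) hup hlow.le (by norm_num)
    linarith

/-- TARGET L7: generic case -/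
theorem PD.killG {X : Set E} {x y u v : E} (P : PD X x y u v) (h1 : cr u (y - x) ≠ 0)
    (h2 : cr v (y - x) ≠ 0) (hw : 0 ≤ dt u v - dt u (y - x) * dt v (y - x))
    (hN : ∀ s : ℝ, (s = S5 ∨ s = -S5) →
      0.998 ≤ dt (rot u C5 s (y - x) + rot v C5 (-s) (y - x) - (y - x))
        (rot u C5 s (y - x) + rot v C5 (-s) (y - x) - (y - x)))
    (hX : ∀ s : ℝ, (s = S5 ∨ s = -S5) → cr u ((y - x) - rot v C5 s (y - x)) ≠ 0)
    (hY : ∀ s : ℝ, (s = S5 ∨ s = -S5) → cr v ((y - x) - rot u C5 s (y - x)) ≠ 0) : False := by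
  obtain ⟨e, he⟩ : ∃ e, e = y - x := ⟨_, rfl⟩
  have hee : dt e e = 1 := by rw [he]; exact P.he
  rw [← he] at h1 h2 hw hN hX hY
  have hu := P.hu
  have hv := P.hv
  have hC := C5_eq
  have hC1 := C5_gt
  have hC2 := C5_lt
  have hA : 1 ≤ 2 * (1 - C5) := by linarith
  have hApos : 0 < 2 * (1 - C5) := by linarith
  have hxy : x - y = -e := by rw [he]; abel
  obtain ⟨a, ha⟩ : ∃ a, a = dt u e := ⟨_, rfl⟩
  obtain ⟨b, hb⟩ : ∃ b, b = dt v e := ⟨_, rfl⟩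
  obtain ⟨k, hk⟩ : ∃ k, k = dt (cr u e) v := ⟨_, rfl⟩
  obtain ⟨w, hwd⟩ : ∃ w, w = dt u v - dt u e * dt v e := ⟨_, rfl⟩
  have ht : dt u v = w + a * b := by rw [hwd, ha, hb]; ring
  have hV : (1 - a ^ 2) * (1 - b ^ 2) = w ^ 2 + k ^ 2 := by
    rw [ha, hb, hk, hwd]; exact kg_gram hu hv hee
  rw [← hwd] at hw
  have hS : S5 ^ 2 = 1 - C5 ^ 2 := S5_sq
  have hcs : ∀ s : ℝ, (s = S5 ∨ s = -S5) → C5 ^ 2 + s ^ 2 = 1 := by
    rintro s (rfl | rfl)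
    · exact C5_S5
    · rw [neg_sq]; exact C5_S5
  -- (1)
  have H1 : 0.998 ≤ 2 * (1 - C5) * (1 - a ^ 2) := by
    have := P.fx y P.hy (by rw [← he, hee]; exact hA) (by rw [← he]; exact h1)
    rwa [← he, dt_cr_axis hu, hee, ← ha] at this
  have H1' : 0.998 ≤ 2 * (1 - C5) * (1 - b ^ 2) := by
    have := P.fy x P.hx (by rw [hxy, dt_neg_left, dt_neg_right, neg_neg, hee]; exact hA)
      (by rw [hxy, cr_neg_right]; exact neg_ne_zero.mpr h2)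
    rwa [hxy, dt_cr_axis hv, dt_neg_left, dt_neg_right, neg_neg, hee, dt_neg_right, neg_sq,
      ← hb] at this
  have hb1 : 0 ≤ b ^ 2 := sq_nonneg b
  have ha1 : 0 ≤ a ^ 2 := sq_nonneg a
  -- (2)
  have H2 : (1 - C5 ^ 2 - (1 - C5) ^ 2 * (a * b)) * w ≤ (1 - C5) ^ 2 * (w ^ 2 + k ^ 2) + 0.001 := by
    have e1 := hN S5 (Or.inl rfl)
    have e2 := hN (-S5) (Or.inr rfl)
    rw [kg_N2 hu hv hee (hcs _ (Or.inl rfl)), ← ha, ← hb, ← hk, hV, ht] at e1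
    rw [kg_N2 hu hv hee (hcs _ (Or.inr rfl)), ← ha, ← hb, ← hk, hV, ht] at e2
    linarith
  -- the rotated point
  have hhx : ∀ s : ℝ, y + rot v C5 s (x - y) - x = e - rot v C5 s e := by
    intro s
    rw [hxy, rot_neg, he]
    abel
  have hhh : ∀ s : ℝ, (s = S5 ∨ s = -S5) →
      dt (e - rot v C5 s e) (e - rot v C5 s e) = 2 * (1 - C5) * (1 - b ^ 2) := by
    intro s hs
    rw [kg_h hv hee (hcs s hs), ← hb]
  have hle : 2 * (1 - C5) * (1 - b ^ 2) ≤ 2 * (1 - C5) := by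
    have := mul_nonneg hApos.le hb1
    linarith
  have hle' : 2 * (1 - C5) * (1 - a ^ 2) ≤ 2 * (1 - C5) := by
    have := mul_nonneg hApos.le ha1
    linarith
  have hdxy : dt (x - y) (x - y) ≤ 2 * (1 - C5) := by
    rw [hxy, dt_neg_left, dt_neg_right, neg_neg, hee]; exact hA
  have hq : ∀ s : ℝ, (s = S5 ∨ s = -S5) → y + rot v C5 s (x - y) ∈ X := fun s hs =>
    P.ry x P.hx hdxy s hs
  -- (3)
  have H3s : ∀ s : ℝ, (s = S5 ∨ s = -S5) → 0.998 ≤ 2 * (1 - C5) *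
      (2 * (1 - C5) * (1 - b ^ 2) - ((1 - C5) * (a - b * (w + a * b)) + s * k) ^ 2) := by
    intro s hs
    have e1 := P.fx _ (hq s hs) (by rw [hhx, hhh s hs]; exact hle) (by rw [hhx]; exact hX s hs)
    rwa [hhx, dt_cr_axis hu, hhh s hs, kg_uh, ← ha, ← hb, ← hk, ht] at e1
  have H3 : 0.998 ≤ 2 * (1 - C5) * (2 * (1 - C5) * (1 - b ^ 2) - (1 - C5 ^ 2) * k ^ 2) := by
    have e1 := H3s S5 (Or.inl rfl)
    have e2 := H3s (-S5) (Or.inr rfl)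
    have e3 : 0 ≤ 2 * (1 - C5) * ((1 - C5) * (a - b * (w + a * b))) ^ 2 :=
      mul_nonneg hApos.le (sq_nonneg _)
    have e4 : 2 * (1 - C5) * (S5 ^ 2 * k ^ 2) = 2 * (1 - C5) * ((1 - C5 ^ 2) * k ^ 2) := by rw [hS]
    linarith
  have hhy : ∀ s : ℝ, x + rot u C5 s (y - x) - y = -(e - rot u C5 s e) := by
    intro s
    rw [← he, he]
    abel
  have H3s' : ∀ s : ℝ, (s = S5 ∨ s = -S5) → 0.998 ≤ 2 * (1 - C5) *
      (2 * (1 - C5) * (1 - a ^ 2) - ((1 - C5) * (b - a * (w + a * b)) - s * k) ^ 2) := by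
    intro s hs
    have hm : x + rot u C5 s (y - x) ∈ X := P.rx y P.hy (by rw [← he, hee]; exact hA) s hs
    have hd : dt (-(e - rot u C5 s e)) (-(e - rot u C5 s e)) = 2 * (1 - C5) * (1 - a ^ 2) := by
      rw [dt_neg_left, dt_neg_right, neg_neg, kg_h hu hee (hcs s hs), ← ha]
    have e1 := P.fy _ hm (by rw [hhy, hd]; exact hle')
      (by rw [hhy, cr_neg_right]; exact neg_ne_zero.mpr (hY s hs))
    rw [hhy, dt_cr_axis hv, hd, dt_neg_right, neg_sq, kg_uh v u e, kg_k3 u v e, dt_comm v u, ht, ← ha,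
      ← hb, ← hk] at e1
    refine e1.trans (le_of_eq ?_)
    ring
  have H3' : 0.998 ≤ 2 * (1 - C5) * (2 * (1 - C5) * (1 - a ^ 2) - (1 - C5 ^ 2) * k ^ 2) := by
    have e1 := H3s' S5 (Or.inl rfl)
    have e2 := H3s' (-S5) (Or.inr rfl)
    have e3 : 0 ≤ 2 * (1 - C5) * ((1 - C5) * (b - a * (w + a * b))) ^ 2 :=
      mul_nonneg hApos.le (sq_nonneg _)
    have e4 : 2 * (1 - C5) * (S5 ^ 2 * k ^ 2) = 2 * (1 - C5) * ((1 - C5 ^ 2) * k ^ 2) := by rw [hS]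
    linarith
  obtain ⟨ha2, hb2, hw1, hw2⟩ := kg_r1 hC hC1 hC2 hw hV H1 H1' H2 H3 H3'
  -- (5)
  obtain ⟨s, hs, hsk⟩ : ∃ s : ℝ, (s = S5 ∨ s = -S5) ∧ 0 ≤ s * k * (a + b) := by
    rcases le_total 0 (k * (a + b)) with h | h
    · exact ⟨S5, Or.inl rfl, by have := mul_nonneg S5_pos.le h; linarith⟩
    · exact ⟨-S5, Or.inr rfl, by have := mul_nonneg S5_pos.le (neg_nonneg.mpr h); linarith⟩
  have hcs' := hcs s hs
  have hz := P.rx _ (hq s hs) (by rw [hhx, hhh s hs]; exact hle) s hs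
  rw [hhx] at hz
  have hzy : x + rot u C5 s (e - rot v C5 s e) - y = rot u C5 s (e - rot v C5 s e) - e := by
    rw [he]; abel
  have hNn : dt (rot u C5 s (e - rot v C5 s e) - e) (rot u C5 s (e - rot v C5 s e) - e) =
      2 * (1 - C5) * (1 - b ^ 2) + 1 - 2 * dt (rot u C5 s (e - rot v C5 s e)) e := by
    rw [dt_sub_left, dt_sub_right, dt_sub_right, dt_rot_rot hu hcs', hhh s hs, hee,
      dt_comm e (rot u C5 s (e - rot v C5 s e))]
    ring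
  have hZ := kg_Z hu hv hee hcs'
  have hL := kg_L hu hv hee hcs'
  rw [← ha, ← hb, ← hk, ht] at hZ hL
  have hσ : (s * k) ^ 2 = (1 - C5 ^ 2) * k ^ 2 := by
    rw [mul_pow]
    congr 1
    linarith
  obtain ⟨f1, f2, f3⟩ := kg_real hC hC1 hC2 ha2 hb2 hw1 hw2 hV hσ hsk
    (Z := dt (rot u C5 s (e - rot v C5 s e)) e)
    (N := dt (rot u C5 s (e - rot v C5 s e) - e) (rot u C5 s (e - rot v C5 s e) - e))
    (L := dt v (rot u C5 s (e - rot v C5 s e) - e))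
    (by rw [hZ]; ring) hNn (by rw [hL]; ring)
  have f4 := P.fy _ hz (by rw [hzy]; exact f1) (by
    rw [hzy]
    intro h0
    have h5 := dt_cr_axis hv (rot u C5 s (e - rot v C5 s e) - e)
    rw [h0, dt_zero_left] at h5
    linarith)
  rw [hzy, dt_cr_axis hv] at f4
  linarith

end Pool.Agent.H304
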