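import Pool.Agent.helper304_ico.PairFar

set_option autoImplicit false

namespace Pool.Agent.H304

/-- TARGET L3: pair data in a normalised world; both rotations are by 72 degrees. Only `z` off the axis of `y` is needed to
know the type of `y`. -/
theorem NW.pd {X : Set E} {u : E → E} {c s : E → ℝ} (W : NW X u c s) {x y : E} (hx : x ∈ X)
    (hy : y ∈ X) (hxn : ‖x‖ ≤ 2) (hyn : ‖y‖ ≤ 3) (he : dt (y - x) (y - x) = 1)
    (hoff : cr (u x) (y - x) ≠ 0) :
    (c x = C5 ∧ s x = S5) ∧ (c y = C5 ∧ s y = S5) ∧ PD X x y (u x) (u y) := by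
  have hC1 := C5_gt
  have hC2 := C5_lt
  have hx10 : ‖x‖ ≤ 10 := by linarith
  have hy10 : ‖y‖ ≤ 10 := by linarith
  have hx8 : ‖x‖ ≤ 8 := by linarith
  have hy8 : ‖y‖ ≤ 8 := by linarith
  have hux := W.unit x hx hx10
  have huy := W.unit y hy hy10
  have key : ∀ c' t : ℝ, (c' = C5 ∨ (0.59 ≤ c' ∧ c' < 1)) → t ≤ 1 → 0.998 ≤ 2 * (1 - c') * t →
      c' < 0.59 := by
    intro c' t hc ht h
    have h1 : 0 ≤ 1 - c' := by
      rcases hc with hc | hc
      · rw [hc]; linarith
      · linarith [hc.2]
    have h2 : 2 * (1 - c') * t ≤ 2 * (1 - c') * 1 := mul_le_mul_of_nonneg_left ht (by linarith)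
    linarith
  have key2 : ∀ z ∈ X, ‖z‖ ≤ 10 → ∀ t : ℝ, t ≤ 1 → 0.998 ≤ 2 * (1 - c z) * t →
      c z = C5 ∧ s z = S5 := by
    intro z hz hz10 t ht h
    rcases W.ang z hz hz10 with h1 | h1
    · exact h1
    · have := key (c z) t (Or.inr h1) ht h
      linarith [h1.1]
  -- the point x
  have hax : dt (cr (u x) (y - x)) (cr (u x) (y - x)) = 1 - dt (u x) (y - x) ^ 2 := by
    rw [dt_cr_axis hux, he]
  have hcx : c x = C5 ∧ s x = S5 := by
    have h1 := W.far hx hx8 hy (by rw [he]; linarith) hoff
    refine key2 x hx hx10 _ ?_ h1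
    rw [hax]; nlinarith [sq_nonneg (dt (u x) (y - x))]
  have haxpos : 0 < 1 - dt (u x) (y - x) ^ 2 := by
    rw [← hax]
    rcases lt_or_eq_of_le (dt_self_nonneg (cr (u x) (y - x))) with h | h
    · exact h
    · exact absurd (dt_self_eq_zero h.symm) hoff
  have hex : dt (x - y) (x - y) = 1 := by
    rw [← he]; simp [dt]; ring
  -- the point y
  have hcy : c y = C5 ∧ s y = S5 := by
    by_cases hcase : cr (u y) (x - y) = 0
    · set p : E := x + Pool.Agent.H304.rot (u x) (c x) (s x) (y - x) with hp
      have hpX : p ∈ X := (W.rot x hx hx10 (y - x) (by rw [he]; linarith) (by simpa using hy)).1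
      have hcs := W.cs x hx hx10
      have hpx : p - x = Pool.Agent.H304.rot (u x) (c x) (s x) (y - x) := by rw [hp]; abel
      have hpy : p - y = Pool.Agent.H304.rot (u x) (c x) (s x) (y - x) - (y - x) := by rw [hp]; abel
      have hpy2 : dt (p - y) (p - y) = 2 * (1 - C5) * (1 - dt (u x) (y - x) ^ 2) := by
        rw [hpy, dt_rot_sub_self hux hcs, he, hcx.1]
      have hpxn : dt (p - x) (p - x) = 1 := by
        rw [hpx, dt_rot_rot hux hcs, he]
      have hdtp : dt (y - x) (p - x) = C5 + (1 - C5) * dt (u x) (y - x) ^ 2 := by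
        have h1 := dt_rot_sub_self hux hcs (y - x)
        have h2 := dt_rot_rot hux hcs (y - x) (y - x)
        have hgen : ∀ r e : E, dt (r - e) (r - e) = dt r r - 2 * dt e r + dt e e := by
          intro r e; simp [dt]; ring
        rw [hgen, h2, he] at h1
        rw [hpx]
        have hc := hcx.1
        have h5 : (1 - c x) = 1 - C5 := by rw [hc]
        rw [h5] at h1
        linarith
      have hcr1 : cr (u y) (p - y) = cr (u y) (p - x) := by
        have : p - y = (p - x) + (x - y) := by abel
        rw [this, cr_add_right, hcase, add_zero]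
      have hne : cr (u y) (p - y) ≠ 0 := by
        intro h0
        rw [hcr1] at h0
        have h1 : dt (cr (u y) (p - x)) (cr (u y) (p - x)) = 0 := by rw [h0]; simp
        rw [dt_cr_axis huy, hpxn] at h1
        have h2 : cr (u y) (y - x) = 0 := by
          have : y - x = -(x - y) := by abel
          rw [this, cr_neg_right, hcase, neg_zero]
        have h3 : dt (cr (u y) (y - x)) (cr (u y) (y - x)) = 0 := by rw [h2]; simp
        rw [dt_cr_axis huy, he] at h3
        have h4 : dt (cr (u y) (p - x)) (cr (u y) (y - x)) = 0 := by rw [h2]; simp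
        rw [dt_cr_cr, huy, one_mul, dt_comm (p - x) (u y), dt_comm (p - x) (y - x)] at h4
        -- dt (y-x) (p-x) = dt (u y) (y-x) * dt (u y) (p-x)
        have h5 : dt (y - x) (p - x) ^ 2 = 1 := by
          have h6 : dt (y - x) (p - x) = dt (u y) (y - x) * dt (u y) (p - x) := by linarith
          rw [h6, mul_pow]
          have h7 : dt (u y) (y - x) ^ 2 = 1 := by linarith
          have h8 : dt (u y) (p - x) ^ 2 = 1 := by linarith
          rw [h7, h8, one_mul]
        rw [hdtp] at h5
        have ha0 := sq_nonneg (dt (u x) (y - x))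
        have hlt : C5 + (1 - C5) * dt (u x) (y - x) ^ 2 < 1 := by nlinarith
        have hgt : 0 < C5 + (1 - C5) * dt (u x) (y - x) ^ 2 := by
          have : 0 ≤ (1 - C5) * dt (u x) (y - x) ^ 2 := mul_nonneg (by linarith) ha0
          linarith
        nlinarith
      have h1 := W.far hy hy8 hpX (by
        rw [hpy2]
        have : 1 - dt (u x) (y - x) ^ 2 ≤ 1 := by nlinarith [sq_nonneg (dt (u x) (y - x))]
        have h2 := mul_le_mul_of_nonneg_left this (show 0 ≤ 2 * (1 - C5) by linarith)
        linarith) hne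
      refine key2 y hy hy10 _ ?_ h1
      rw [hcr1, dt_cr_axis huy, hpxn]
      nlinarith [sq_nonneg (dt (u y) (p - x))]
    · have h1 := W.far hy hy8 hx (by rw [hex]; linarith) hcase
      refine key2 y hy hy10 _ ?_ h1
      rw [dt_cr_axis huy, hex]
      nlinarith [sq_nonneg (dt (u y) (x - y))]
  refine ⟨hcx, hcy, ?_⟩
  refine ⟨hx, hy, he, hux, huy, ?_, ?_, ?_, ?_, ?_⟩
  · intro z hz hd s' hs'
    have h := W.rot x hx hx10 (z - x) hd (by simpa using hz)
    rw [hcx.1, hcx.2] at h
    rcases hs' with rfl | rfl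
    · exact h.1
    · exact h.2
  · intro z hz hd s' hs'
    have h := W.rot y hy hy10 (z - y) hd (by simpa using hz)
    rw [hcy.1, hcy.2] at h
    rcases hs' with rfl | rfl
    · exact h.1
    · exact h.2
  · intro z hz hd hc
    have h := W.far hx hx8 hz hd hc
    rw [hcx.1] at h
    exact h
  · intro z hz hd hc
    have h := W.far hy hy8 hz hd hc
    rw [hcy.1] at h
    exact h
  · intro P hP Q hQ T hT hPx hne hPQ hd hc
    refine W.third hP hQ hT ?_ hne hPQ hd hc
    have h1 : ‖P‖ ≤ ‖P - x‖ + ‖x‖ := by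
      have := norm_add_le (P - x) x
      simpa using this
    linarith

end Pool.Agent.H304
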