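import Pool.Agent.helper304_ico.LineEq
import Pool.Agent.helper304_ico.PairFar
import Pool.Agent.helper304_ico.PairPD
import Pool.Agent.helper304_ico.PairA
import Pool.Agent.helper304_ico.PairE1
import Pool.Agent.helper304_ico.PairE3
import Pool.Agent.helper304_ico.PairG

set_option autoImplicit false

namespace Pool.Agent.H304

/-- rotations preserve the cross product -/
lemma cr_rot_rot {u : E} (hu : dt u u = 1) {c s : ℝ} (h : c ^ 2 + s ^ 2 = 1) (v w : E) :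
    cr (rot u c s v) (rot u c s w) = rot u c s (cr v w) := by
  have hu' : u 0 * u 0 + u 1 * u 1 + u 2 * u 2 = 1 := hu
  apply ext3
  · have e : (cr u (cr v w)) 0 = u 1 * (v 0 * w 1 - v 1 * w 0) - u 2 * (v 2 * w 0 - v 0 * w 2) := by
      simp
    simp only [rot, cr_0, cr_1, cr_2, dt, PiLp.add_apply, PiLp.smul_apply, smul_eq_mul]
    linear_combination ((s * (1 - c)) * (u 1 * (v 0 * w 1 - v 1 * w 0) -
      u 2 * (v 2 * w 0 - v 0 * w 2)) + c * (1 - c) * (v 1 * w 2 - v 2 * w 1)) * hu' +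
      (u 0 * (v 1 * w 2 - v 2 * w 1) + u 1 * (v 2 * w 0 - v 0 * w 2) +
        u 2 * (v 0 * w 1 - v 1 * w 0)) * u 0 * h
  · simp only [rot, cr_0, cr_1, cr_2, dt, PiLp.add_apply, PiLp.smul_apply, smul_eq_mul]
    linear_combination ((s * (1 - c)) * (u 2 * (v 1 * w 2 - v 2 * w 1) -
      u 0 * (v 0 * w 1 - v 1 * w 0)) + c * (1 - c) * (v 2 * w 0 - v 0 * w 2)) * hu' +
      (u 0 * (v 1 * w 2 - v 2 * w 1) + u 1 * (v 2 * w 0 - v 0 * w 2) +
        u 2 * (v 0 * w 1 - v 1 * w 0)) * u 1 * h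
  · simp only [rot, cr_0, cr_1, cr_2, dt, PiLp.add_apply, PiLp.smul_apply, smul_eq_mul]
    linear_combination ((s * (1 - c)) * (u 0 * (v 2 * w 0 - v 0 * w 2) -
      u 1 * (v 1 * w 2 - v 2 * w 1)) + c * (1 - c) * (v 0 * w 1 - v 1 * w 0)) * hu' +
      (u 0 * (v 1 * w 2 - v 2 * w 1) + u 1 * (v 2 * w 0 - v 0 * w 2) +
        u 2 * (v 0 * w 1 - v 1 * w 0)) * u 2 * h

lemma two_C5 : 1 ≤ 2 * (1 - C5) := by
  have := C5_lt
  linarith

/-- pair data for the swapped pair -/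
lemma PD.swap {X : Set E} {u : E → E} {c s : E → ℝ} (W : NW X u c s) {x y a b : E}
    (P : PD X x y a b) (hyn : ‖y‖ ≤ 3) : PD X y x b a where
  hx := P.hy
  hy := P.hx
  he := by
    have h := P.he
    have e1 : x - y = -(y - x) := by abel
    rw [e1, dt_neg_left, dt_neg_right, neg_neg, h]
  hu := P.hv
  hv := P.hu
  rx := P.ry
  ry := P.rx
  fx := P.fy
  fy := P.fx
  pr := by
    intro Q hQ R hR T hT hn hne hd hd2 hoff
    refine W.third hQ hR hT ?_ hne hd hd2 hoff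
    have h1 : ‖Q‖ ≤ ‖Q - y‖ + ‖y‖ := by
      have := norm_add_le (Q - y) y
      simpa using this
    linarith

/-- pair data with the opposite axis -/
lemma PD.negv8 {X : Set E} {x y a b : E} (P : PD X x y a b) : PD X x y a (-b) where
  hx := P.hx
  hy := P.hy
  he := P.he
  hu := P.hu
  hv := by rw [dt_neg_left, dt_neg_right, neg_neg, P.hv]
  rx := P.rx
  ry := by
    intro z hz hd s hs
    rw [rot_neg_axis]
    apply P.ry z hz hd
    rcases hs with rfl | rfl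
    · right; rfl
    · left; rw [neg_neg]
  fx := P.fx
  fy := by
    intro z hz hd hne
    rw [cr_neg_left] at hne ⊢
    rw [dt_neg_left, dt_neg_right, neg_neg]
    exact P.fy z hz hd (fun h => hne (by rw [h, neg_zero]))
  pr := P.pr

lemma sq_of_pm {s : ℝ} (hs : s = S5 ∨ s = -S5) : C5 ^ 2 + s ^ 2 = 1 := by
  rcases hs with rfl | rfl
  · exact C5_S5
  · rw [neg_sq]; exact C5_S5

lemma pm_neg {s : ℝ} (hs : s = S5 ∨ s = -S5) : (-s = S5 ∨ -s = -S5) := by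
  rcases hs with rfl | rfl
  · right; rfl
  · left; rw [neg_neg]

lemma norm_le_of_dt {v : E} {r : ℝ} (hr : 0 ≤ r) (h : dt v v ≤ r ^ 2) : ‖v‖ ≤ r := by
  rw [← norm_sq_eq_dt] at h
  exact (sq_le_sq₀ (norm_nonneg v) hr).1 h

/-- the rotated difference: `y - (x + rot u C (-s₁) (q - x))`, one half of the main step -/
lemma half_step {X : Set E} {u : E → E} {c s : E → ℝ} (W : NW X u c s) {x y a b : E}
    (hy : y ∈ X) (hxn : ‖x‖ ≤ 3) (hyn : ‖y‖ ≤ 3) (hb : u y = b) (he : dt (y - x) (y - x) = 1)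
    (ha1 : dt a a = 1) (hb1 : dt b b = 1)
    (rx : ∀ z ∈ X, dt (z - x) (z - x) ≤ 2 * (1 - C5) → ∀ s : ℝ, (s = S5 ∨ s = -S5) →
      x + rot a C5 s (z - x) ∈ X)
    (hxX : x ∈ X)
    (ry : ∀ z ∈ X, dt (z - y) (z - y) ≤ 2 * (1 - C5) → ∀ s : ℝ, (s = S5 ∨ s = -S5) →
      y + rot b C5 s (z - y) ∈ X)
    {s₁ s₂ : ℝ} (h1 : s₁ = S5 ∨ s₁ = -S5) (h2 : s₂ = S5 ∨ s₂ = -S5)
    (hM0 : rot a C5 s₁ (y - x) + rot b C5 s₂ (y - x) - (y - x) ≠ 0)
    (hM : dt (rot a C5 s₁ (y - x) + rot b C5 s₂ (y - x) - (y - x))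
        (rot a C5 s₁ (y - x) + rot b C5 s₂ (y - x) - (y - x)) < 0.998) :
    cr (rot a C5 s₁ b) (rot a C5 s₁ (y - x) + rot b C5 s₂ (y - x) - (y - x)) = 0 := by
  have k1 := sq_of_pm h1
  have k2 := sq_of_pm h2
  have k1' := sq_of_pm (pm_neg h1)
  set e := y - x with he'
  set M := rot a C5 s₁ e + rot b C5 s₂ e - e with hMdef
  have exy : x - y = -e := by rw [he']; abel
  -- the point q
  have hq : y + rot b C5 s₂ (x - y) ∈ X := by
    apply ry x hxX _ s₂ h2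
    rw [exy, dt_neg_left, dt_neg_right, neg_neg, he]
    exact two_C5
  set q := y + rot b C5 s₂ (x - y) with hqdef
  have qx : q - x = -(rot b C5 s₂ e - e) := by
    rw [hqdef, exy, rot_neg]
    rw [he']
    abel
  have hC : (0 : ℝ) ≤ 2 * (1 - C5) := by linarith [two_C5]
  have dq : dt (q - x) (q - x) ≤ 2 * (1 - C5) := by
    rw [qx, dt_neg_left, dt_neg_right, neg_neg, dt_rot_sub_self hb1 k2, he]
    nlinarith [sq_nonneg (dt b e)]
  have hy' : x + rot a C5 (-s₁) (q - x) ∈ X := rx q hq dq (-s₁) (pm_neg h1)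
  set y' := x + rot a C5 (-s₁) (q - x) with hy'def
  have hdiff : y - y' = rot a C5 (-s₁) M := by
    have e1 : M = rot a C5 s₁ e - (q - x) := by
      rw [hMdef, qx]; abel
    rw [e1, rot_sub, rot_inv ha1 k1, hy'def, he']
    abel
  have hdiff' : y' - y = -rot a C5 (-s₁) M := by
    rw [← hdiff]; abel
  have hne : y ≠ y' := by
    intro h
    have h3 : rot a C5 (-s₁) M = 0 := by rw [← hdiff, ← h, sub_self]
    have h4 := rot_inv' ha1 k1 M
    rw [h3, rot_zero] at h4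
    exact hM0 h4.symm
  have hd : dt (y' - y) (y' - y) < 0.998 := by
    rw [hdiff', dt_neg_left, dt_neg_right, neg_neg, dt_rot_rot ha1 k1']
    exact hM
  have hn' : ‖y'‖ ≤ 10 := by
    have hn1 : ‖q - x‖ ≤ 2 := by
      apply norm_le_of_dt (by norm_num)
      have := C5_gt
      linarith
    have hn2 : ‖rot a C5 (-s₁) (q - x)‖ ≤ 2 := by rw [norm_rot ha1 k1']; exact hn1
    calc ‖y'‖ ≤ ‖x‖ + ‖rot a C5 (-s₁) (q - x)‖ := norm_add_le _ _
      _ ≤ 10 := by linarith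
  have hco := (W.coax y hy (by linarith) y' hy' hn' hne hd).1
  rw [hb, hdiff', cr_neg_right, neg_eq_zero] at hco
  have h5 := cr_rot_rot ha1 k1 b (rot a C5 (-s₁) M)
  rw [hco, rot_zero, rot_inv' ha1 k1] at h5
  exact h5

/-- the main step: a short nonzero difference -/
lemma short_step {X : Set E} {u : E → E} {c s : E → ℝ} (W : NW X u c s) {x y : E}
    (hxn : ‖x‖ ≤ 2) (hyn : ‖y‖ ≤ 3) (P : PD X x y (u x) (u y))
    (hoff : cr (u x) (y - x) ≠ 0) {s₁ s₂ : ℝ} (h1 : s₁ = S5 ∨ s₁ = -S5)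
    (h2 : s₂ = S5 ∨ s₂ = -S5)
    (hM0 : rot (u x) C5 s₁ (y - x) + rot (u y) C5 s₂ (y - x) - (y - x) ≠ 0)
    (hM : dt (rot (u x) C5 s₁ (y - x) + rot (u y) C5 s₂ (y - x) - (y - x))
        (rot (u x) C5 s₁ (y - x) + rot (u y) C5 s₂ (y - x) - (y - x)) < 0.998) :
    dt (u x) (u y) ^ 2 = 1 / 5 ∧ dt (cr (u x) (y - x)) (u y) = 0 := by
  have hg := half_step W P.hy (by linarith) hyn rfl P.he P.hu P.hv P.rx P.hx P.ry h1 h2 hM0 hM
  have exy : x - y = -(y - x) := by abel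
  have eM : rot (u y) C5 s₂ (x - y) + rot (u x) C5 s₁ (x - y) - (x - y) =
      -(rot (u x) C5 s₁ (y - x) + rot (u y) C5 s₂ (y - x) - (y - x)) := by
    rw [exy, rot_neg, rot_neg]; abel
  have he2 : dt (x - y) (x - y) = 1 := by
    rw [exy, dt_neg_left, dt_neg_right, neg_neg, P.he]
  have hh := half_step W (x := y) (y := x) (a := u y) (b := u x) P.hx hyn (by linarith) rfl he2
    P.hv P.hu P.ry P.hy P.rx h2 h1 (by rw [eM]; exact neg_ne_zero.2 hM0)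
    (by rw [eM, dt_neg_left, dt_neg_right, neg_neg]; exact hM)
  rw [eM, cr_neg_right, neg_eq_zero] at hh
  have g1 := C5_gt
  have g2 := C5_lt
  refine line_eq P.hu P.hv C5 s₁ s₂ C5_eq (by linarith) (by linarith) ?_ ?_ hoff hM0 hg hh
  · linarith [sq_of_pm h1]
  · linarith [sq_of_pm h2]

/-- the pair lemma, normalised -/
theorem pair_aux {X : Set E} {u : E → E} {c s : E → ℝ} (W : NW X u c s) {x y : E} (hx : x ∈ X)
    (hy : y ∈ X) (hxn : ‖x‖ ≤ 2) (hyn : ‖y‖ ≤ 3) (he : dt (y - x) (y - x) = 1)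
    (hoff : cr (u x) (y - x) ≠ 0) :
    (c x = C5 ∧ s x = S5) ∧ (c y = C5 ∧ s y = S5) ∧
      ((cr (u y) (y - x) = 0 ∧ dt (u x) (y - x) ^ 2 = 1 / 5) ∨
        (cr (u y) (y - x) ≠ 0 ∧ dt (u x) (u y) ^ 2 = 1 / 5 ∧
          dt (cr (u x) (y - x)) (u y) = 0)) := by
  obtain ⟨tx, ty, P⟩ := W.pd hx hy hxn hyn he hoff
  refine ⟨tx, ty, ?_⟩
  by_cases hv0 : cr (u y) (y - x) = 0
  · left
    exact ⟨hv0, P.caseA hoff hv0⟩
  right
  refine ⟨hv0, ?_⟩
  -- the case of a vanishing or short difference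
  by_cases hS : ∃ s₁ s₂ : ℝ, (s₁ = S5 ∨ s₁ = -S5) ∧ (s₂ = S5 ∨ s₂ = -S5) ∧
      dt (rot (u x) C5 s₁ (y - x) + rot (u y) C5 s₂ (y - x) - (y - x))
        (rot (u x) C5 s₁ (y - x) + rot (u y) C5 s₂ (y - x) - (y - x)) < 0.998
  · obtain ⟨s₁, s₂, h1, h2, hM⟩ := hS
    by_cases hM0 : rot (u x) C5 s₁ (y - x) + rot (u y) C5 s₂ (y - x) - (y - x) = 0
    · exact P.caseE3 hoff hv0 h1 h2 hM0
    · exact short_step W hxn hyn P hoff h1 h2 hM0 hM
  exfalso
  have hL : ∀ s₁ s₂ : ℝ, (s₁ = S5 ∨ s₁ = -S5) → (s₂ = S5 ∨ s₂ = -S5) →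
      0.998 ≤ dt (rot (u x) C5 s₁ (y - x) + rot (u y) C5 s₂ (y - x) - (y - x))
        (rot (u x) C5 s₁ (y - x) + rot (u y) C5 s₂ (y - x) - (y - x)) := by
    intro s₁ s₂ h1 h2
    by_contra h
    exact hS ⟨s₁, s₂, h1, h2, not_le.1 h⟩
  have hX : ∀ s : ℝ, (s = S5 ∨ s = -S5) → cr (u x) ((y - x) - rot (u y) C5 s (y - x)) ≠ 0 :=
    fun s hs h => P.killE1 hoff hv0 hs h
  have exy : x - y = -(y - x) := by abel
  have hY : ∀ s : ℝ, (s = S5 ∨ s = -S5) → cr (u y) ((y - x) - rot (u x) C5 s (y - x)) ≠ 0 := by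
    intro s hs h
    refine (P.swap W hyn).killE1 ?_ ?_ hs ?_
    · rw [exy, cr_neg_right]; exact neg_ne_zero.2 hv0
    · rw [exy, cr_neg_right]; exact neg_ne_zero.2 hoff
    · rw [exy, rot_neg]
      have e1 : -(y - x) - -rot (u x) C5 s (y - x) = -((y - x) - rot (u x) C5 s (y - x)) := by
        abel
      rw [e1, cr_neg_right, h, neg_zero]
  by_cases hw : 0 ≤ dt (u x) (u y) - dt (u x) (y - x) * dt (u y) (y - x)
  · exact P.killG hoff hv0 hw (fun s hs => hL s (-s) hs (pm_neg hs)) hX hY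
  · refine P.negv8.killG hoff ?_ ?_ ?_ ?_ ?_
    · rw [cr_neg_left]; exact neg_ne_zero.2 hv0
    · rw [dt_neg_right, dt_neg_left]
      have := not_le.1 hw
      linarith
    · intro s hs
      rw [rot_neg_axis, neg_neg]
      exact hL s s hs hs
    · intro s hs
      rw [rot_neg_axis]
      exact hX (-s) (pm_neg hs)
    · intro s hs
      rw [cr_neg_left]
      exact neg_ne_zero.2 (hY s hs)



/-- TARGET L8: the pair lemma, normalised -/
theorem NW.pair {X : Set E} {u : E → E} {c s : E → ℝ} (W : NW X u c s) {x y : E} (hx : x ∈ X)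
    (hy : y ∈ X) (hxn : ‖x‖ ≤ 2) (hyn : ‖y‖ ≤ 3) (he : dt (y - x) (y - x) = 1)
    (hoff : cr (u x) (y - x) ≠ 0) :
    (c x = C5 ∧ s x = S5) ∧ (c y = C5 ∧ s y = S5) ∧
      ((cr (u y) (y - x) = 0 ∧ dt (u x) (y - x) ^ 2 = 1 / 5) ∨
        (cr (u y) (y - x) ≠ 0 ∧ dt (u x) (u y) ^ 2 = 1 / 5 ∧
          dt (cr (u x) (y - x)) (u y) = 0)) :=
  pair_aux W hx hy hxn hyn he hoff

end Pool.Agent.H304
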