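import Pool.Agent.helper304_ico.Consts

set_option autoImplicit false

namespace Pool.Agent.H304

/-- normalised world: every point of `X` in the ball of radius 10 has a rotation preserving the cluster of squared radius
`2 (1 - C5)` (about 1.382), and any two points at squared distance `< 0.998` are coaxial -/
structure NW (X : Set E) (u : E → E) (c s : E → ℝ) : Prop where
  unit : ∀ x ∈ X, ‖x‖ ≤ 10 → dt (u x) (u x) = 1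
  cs : ∀ x ∈ X, ‖x‖ ≤ 10 → c x ^ 2 + s x ^ 2 = 1
  ang : ∀ x ∈ X, ‖x‖ ≤ 10 → (c x = C5 ∧ s x = S5) ∨ (0.59 ≤ c x ∧ c x < 1)
  rot : ∀ x ∈ X, ‖x‖ ≤ 10 → ∀ v : E, dt v v ≤ 2 * (1 - C5) → x + v ∈ X →
    x + rot (u x) (c x) (s x) v ∈ X ∧ x + rot (u x) (c x) (-(s x)) v ∈ X
  coax : ∀ x ∈ X, ‖x‖ ≤ 10 → ∀ y ∈ X, ‖y‖ ≤ 10 → x ≠ y → dt (y - x) (y - x) < 0.998 →
    cr (u x) (y - x) = 0 ∧ cr (u y) (y - x) = 0

/-- pair data: two points of `X` at distance 1 with five-fold rotations about the lines `x + ℝ u`, `y + ℝ v` -/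
structure PD (X : Set E) (x y u v : E) : Prop where
  hx : x ∈ X
  hy : y ∈ X
  he : dt (y - x) (y - x) = 1
  hu : dt u u = 1
  hv : dt v v = 1
  rx : ∀ z ∈ X, dt (z - x) (z - x) ≤ 2 * (1 - C5) → ∀ s : ℝ, (s = S5 ∨ s = -S5) →
    x + rot u C5 s (z - x) ∈ X
  ry : ∀ z ∈ X, dt (z - y) (z - y) ≤ 2 * (1 - C5) → ∀ s : ℝ, (s = S5 ∨ s = -S5) →
    y + rot v C5 s (z - y) ∈ X
  fx : ∀ z ∈ X, dt (z - x) (z - x) ≤ 2 * (1 - C5) → cr u (z - x) ≠ 0 →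
    0.998 ≤ 2 * (1 - C5) * dt (cr u (z - x)) (cr u (z - x))
  fy : ∀ z ∈ X, dt (z - y) (z - y) ≤ 2 * (1 - C5) → cr v (z - y) ≠ 0 →
    0.998 ≤ 2 * (1 - C5) * dt (cr v (z - y)) (cr v (z - y))
  pr : ∀ P ∈ X, ∀ Q ∈ X, ∀ T ∈ X, ‖P - x‖ ≤ 5 → P ≠ Q → dt (Q - P) (Q - P) < 0.998 →
    dt (T - P) (T - P) ≤ 2 * (1 - C5) → cr (Q - P) (T - P) ≠ 0 →
    0.998 * dt (Q - P) (Q - P) ≤ 2 * (1 - C5) * dt (cr (Q - P) (T - P)) (cr (Q - P) (T - P))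

end Pool.Agent.H304
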