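import Pool.Agent.helper304_ico.WorldDefs
import Pool.Agent.helper304_ico.ChainWorld

set_option autoImplicit false

namespace Pool.Agent.H304

/-- TARGET M1: in a general world of radius `20 R` there is a close pair that is not coaxial -/
theorem GW.close {X : Set E} {R T : ℝ} {p₀ : E} {u : E → E} {c s : E → ℝ}
    (W : GW X R p₀ T u c s) (hT : 20 * R ≤ T) :
    ∃ x ∈ X, ∃ y ∈ X, ‖x - p₀‖ ≤ 20 * R ∧ ‖y - p₀‖ ≤ 20 * R ∧ cr (u x) (y - x) ≠ 0 ∧
      (1 - C5) * dt (y - x) (y - x) < 2 * R ^ 2 := by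
  by_contra hcon
  have hR := W.Rpos
  have hR2 : 0 < R ^ 2 := by positivity
  have key : ∀ x ∈ X, ∀ y ∈ X, ‖x - p₀‖ ≤ 20 * R → ‖y - p₀‖ ≤ 20 * R →
      (1 - C5) * dt (y - x) (y - x) < 2 * R ^ 2 → cr (u x) (y - x) = 0 := by
    intro x hx y hy hxp hyp hlt
    by_contra hne
    exact hcon ⟨x, hx, y, hy, hxp, hyp, hne, hlt⟩
  have hsub : ∀ v : E, (p₀ + R • v) - p₀ = R • v := fun v => by abel
  have hnorm : ∀ v : E, ‖R • v‖ = R * ‖v‖ := fun v => by
    rw [norm_smul, Real.norm_of_nonneg hR.le]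
  have hball : ∀ v : E, ‖v‖ ≤ 20 → ‖(p₀ + R • v) - p₀‖ ≤ 20 * R := by
    intro v hv
    rw [hsub, hnorm]
    nlinarith
  have hdiff : ∀ v w : E, (p₀ + R • w) - (p₀ + R • v) = R • (w - v) := fun v w => by
    rw [smul_sub]; abel
  have hdt : ∀ v : E, dt (R • v) (R • v) = R ^ 2 * dt v v := fun v => by
    rw [dt_smul_left, dt_smul_right]; ring
  have cw : CW {v : E | p₀ + R • v ∈ X} (fun v => u (p₀ + R • v)) (fun v => c (p₀ + R • v))
      (fun v => s (p₀ + R • v)) := by
    refine ⟨?_, ?_, ?_, ?_, ?_, ?_, ?_⟩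
    · intro y
      obtain ⟨x, hx, hxy⟩ := W.cov (p₀ + R • y)
      have e : p₀ + R • (R⁻¹ • (x - p₀)) = x := by
        rw [smul_smul, mul_inv_cancel₀ hR.ne', one_smul]; abel
      refine ⟨R⁻¹ • (x - p₀), ?_, ?_⟩
      · change p₀ + R • (R⁻¹ • (x - p₀)) ∈ X
        rw [e]; exact hx
      · have e2 : R • (R⁻¹ • (x - p₀) - y) = x - (p₀ + R • y) := by
          rw [smul_sub, smul_smul, mul_inv_cancel₀ hR.ne', one_smul]; abel
        have e3 := hnorm (R⁻¹ • (x - p₀) - y)
        rw [e2] at e3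
        rw [e3] at hxy
        by_contra hgt
        push Not at hgt
        nlinarith
    · intro K
      have hf := W.fin (‖p₀‖ + R * K)
      have hinj : Set.InjOn (fun v : E => p₀ + R • v) ((fun v : E => p₀ + R • v) ⁻¹'
          (X ∩ {x | ‖x‖ ≤ ‖p₀‖ + R * K})) := by
        intro a _ b _ hab
        have h1 : R • a = R • b := add_left_cancel hab
        exact smul_right_injective E hR.ne' h1
      refine (hf.preimage hinj).subset ?_
      rintro v ⟨hv, hvK⟩
      refine ⟨hv, ?_⟩
      change ‖p₀ + R • v‖ ≤ ‖p₀‖ + R * K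
      refine (norm_add_le _ _).trans ?_
      rw [hnorm]
      have : ‖v‖ ≤ K := hvK
      nlinarith
    · intro x hx hx20
      exact W.unit _ hx ((hball x hx20).trans hT)
    · intro x hx hx20
      exact W.cs _ hx ((hball x hx20).trans hT)
    · intro x hx hx20
      exact W.ang _ hx ((hball x hx20).trans hT)
    · intro x hx hx20 v hv hxv
      have hv2 : ‖R • v‖ ≤ 2 * R := by
        rw [hnorm]
        have : ‖v‖ ≤ 2 := by
          rw [← norm_sq_eq_dt] at hv
          nlinarith [norm_nonneg v]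
        nlinarith
      have e : ∀ z : E, p₀ + R • x + R • z = p₀ + R • (x + z) := fun z => by
        rw [smul_add, add_assoc]
      have hxv' : (p₀ + R • x) + R • v ∈ X := by
        rw [e]; exact hxv
      have h := W.rot _ hx ((hball x hx20).trans hT) (R • v) hv2 hxv'
      rw [rot_smul, rot_smul, e, e] at h
      exact h
    · intro x hx hx20 y hy hy20 hxy hlt
      have h1 := key _ hx _ hy (hball x hx20) (hball y hy20) (by
        rw [hdiff, hdt]; nlinarith)
      have h2 := key _ hy _ hx (hball y hy20) (hball x hx20) (by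
        rw [hdiff, hdt]
        have : dt (x - y) (x - y) = dt (y - x) (y - x) := by
          rw [← neg_sub y x, dt_neg_left, dt_neg_right, neg_neg]
        rw [this]; nlinarith)
      rw [hdiff, cr_smul_right] at h1 h2
      have h1' := (smul_eq_zero.1 h1).resolve_left hR.ne'
      have h2' := (smul_eq_zero.1 h2).resolve_left hR.ne'
      refine ⟨h1', ?_⟩
      rw [← neg_sub x y, cr_neg_right, h2', neg_zero]
  exact cw.false

end Pool.Agent.H304
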