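import Pool.Agent.helper304_ico.WorldDefs

set_option autoImplicit false

namespace Pool.Agent.H304

/-- TARGET M3: distance to the axis -/
theorem LW.far {X : Set E} {R D : ℝ} {x₀ : E} {u : E → E} {c s : E → ℝ} (W : LW X R D x₀ u c s)
    {x z : E} (hx : x ∈ X) (hxn : ‖x - x₀‖ ≤ 90 * D) (hz : z ∈ X) (hzD : ‖z - x‖ ≤ 4 * D)
    (hzR : ‖z - x‖ ≤ 2 * R) (hoff : cr (u x) (z - x) ≠ 0) :
    0.9998 * D ^ 2 ≤ 2 * (1 - c x) * dt (cr (u x) (z - x)) (cr (u x) (z - x)) := by
  by_contra hcon
  push Not at hcon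
  have hD := W.Dpos
  have hx100 : ‖x - x₀‖ ≤ 100 * D := by linarith
  have hu := W.unit x hx hx100
  have hcs := W.cs x hx hx100
  have hz100 : ‖z - x₀‖ ≤ 100 * D := by
    have := norm_add_le (z - x) (x - x₀)
    rw [sub_add_sub_cancel] at this
    linarith
  have huz := W.unit z hz hz100
  have hxd : x + (z - x) ∈ X := by rwa [add_sub_cancel]
  obtain ⟨h1, h2⟩ := W.rot x hx hx100 (z - x) hzR hxd
  have hc1 : c x < 1 := by
    rcases W.ang x hx hx100 with ⟨h, _⟩ | ⟨_, h⟩
    · rw [h]; linarith [C5_lt]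
    · exact h
  have hc0 : -1 < c x := by
    rcases W.ang x hx hx100 with ⟨h, _⟩ | ⟨h, _⟩
    · rw [h]; linarith [C5_gt]
    · linarith
  have hpos : 0 < dt (cr (u x) (z - x)) (cr (u x) (z - x)) := by
    refine lt_of_le_of_ne (dt_self_nonneg _) fun h => hoff (dt_self_eq_zero h.symm)
  set d : E := z - x with hd
  have hcs' : c x ^ 2 + (-(s x)) ^ 2 = 1 := by rw [neg_sq]; exact hcs
  have key : ∀ σ : ℝ, c x ^ 2 + σ ^ 2 = 1 → x + Pool.Agent.H304.rot (u x) (c x) σ d ∈ X →
      cr (u z) (Pool.Agent.H304.rot (u x) (c x) σ d - d) = 0 := by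
    intro σ hσ hmem
    have hn : ‖x + Pool.Agent.H304.rot (u x) (c x) σ d - x₀‖ ≤ 100 * D := by
      have e : x + Pool.Agent.H304.rot (u x) (c x) σ d - x₀ =
          Pool.Agent.H304.rot (u x) (c x) σ d + (x - x₀) := by abel
      rw [e]
      have := norm_add_le (Pool.Agent.H304.rot (u x) (c x) σ d) (x - x₀)
      rw [norm_rot hu hσ] at this
      linarith
    have hsub : x + Pool.Agent.H304.rot (u x) (c x) σ d - z =
        Pool.Agent.H304.rot (u x) (c x) σ d - d := by
      rw [hd]; abel
    have hdt : dt (x + Pool.Agent.H304.rot (u x) (c x) σ d - z)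
        (x + Pool.Agent.H304.rot (u x) (c x) σ d - z) =
        2 * (1 - c x) * dt (cr (u x) d) (cr (u x) d) := by
      rw [hsub, dt_rot_sub_self hu hσ, dt_cr_axis hu]
    have hne : z ≠ x + Pool.Agent.H304.rot (u x) (c x) σ d := by
      intro h
      rw [← h, sub_self, dt_zero_left] at hdt
      have : 0 < 2 * (1 - c x) * dt (cr (u x) d) (cr (u x) d) := by
        have h3 : 0 < 1 - c x := by linarith
        positivity
      linarith
    have := (W.coax z hz hz100 _ hmem hn hne (by rw [hdt]; exact hcon)).1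
    rwa [hsub] at this
  have k1 := key (s x) hcs h1
  have k2 := key (-(s x)) hcs' h2
  have par : ∀ v : E, cr (u z) v = 0 → v = dt (u z) v • u z := by
    intro v hv
    have := cr_cr (u z) (u z) v
    rw [hv, cr_zero_right, huz, one_smul] at this
    exact (sub_eq_zero.1 this.symm).symm
  have hz0 : cr (Pool.Agent.H304.rot (u x) (c x) (s x) d - d)
      (Pool.Agent.H304.rot (u x) (c x) (-(s x)) d - d) = 0 := by
    rw [par _ k1, par _ k2, cr_smul_left, cr_smul_right, cr_self, smul_zero, smul_zero]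
  have hw : cr (Pool.Agent.H304.rot (u x) (c x) (s x) d - d)
      (Pool.Agent.H304.rot (u x) (c x) (-(s x)) d - d) =
      (2 * (1 - c x) * s x) • cr (d - dt (u x) d • u x) (cr (u x) d) := by
    have e1 : Pool.Agent.H304.rot (u x) (c x) (s x) d - d =
        (-(1 - c x)) • (d - dt (u x) d • u x) + s x • cr (u x) d := by
      unfold Pool.Agent.H304.rot; module
    have e2 : Pool.Agent.H304.rot (u x) (c x) (-(s x)) d - d =
        (-(1 - c x)) • (d - dt (u x) d • u x) + (-(s x)) • cr (u x) d := by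
      unfold Pool.Agent.H304.rot; module
    rw [e1, e2]
    generalize d - dt (u x) d • u x = p
    generalize cr (u x) d = w
    rw [cr_add_left, cr_add_right, cr_add_right, cr_smul_left, cr_smul_left, cr_smul_left,
      cr_smul_left, cr_smul_right, cr_smul_right, cr_smul_right, cr_smul_right, cr_self, cr_self,
      cr_comm w p]
    module
  rw [hw] at hz0
  have hs0 : s x ≠ 0 := by
    intro h
    rw [h] at hcs
    have : (1 - c x) * (1 + c x) = 0 := by linear_combination -hcs
    rcases mul_eq_zero.1 this with h | h <;> linarith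
  have hcoef : 2 * (1 - c x) * s x ≠ 0 :=
    mul_ne_zero (mul_ne_zero two_ne_zero (by linarith)) hs0
  rw [smul_eq_zero, or_iff_right hcoef] at hz0
  have h5' : ∀ e : E, dt (u x) (cr (e - dt (u x) e • u x) (cr (u x) e)) =
      dt (cr (u x) e) (cr (u x) e) := by
    intro e
    rw [dt_cr_axis hu, cr_sub_left, cr_smul_left, cr_cr, cr_cr]
    simp only [dt_sub_right, dt_smul_right, hu]
    rw [dt_comm e (u x)]
    ring
  have h5 := h5' d
  rw [hz0, dt_zero_right] at h5
  linarith

end Pool.Agent.H304
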