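import Pool.Agent.helper304_ico.WFar
import Pool.Agent.helper304_ico.Pair

set_option autoImplicit false

namespace Pool.Agent.H304

lemma M4_nw {X : Set E} {R D : ℝ} {x₀ : E} {u : E → E} {c s : E → ℝ} (W : LW X R D x₀ u c s)
    (hR : 0 < R) {x : E} (hxn : ‖x - x₀‖ ≤ 80 * D) {D' : ℝ} (hD' : 0 < D')
    (hDD : D' ≤ D) :
    NW {v : E | x + D' • v ∈ X} (fun v => u (x + D' • v)) (fun v => c (x + D' • v))
      (fun v => s (x + D' • v)) := by
  have hnear : ∀ v : E, ‖v‖ ≤ 10 → ‖x + D' • v - x₀‖ ≤ 100 * D := by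
    intro v hv
    have h1 : x + D' • v - x₀ = (x - x₀) + D' • v := by abel
    have h2 : ‖D' • v‖ = D' * ‖v‖ := by rw [norm_smul, Real.norm_of_nonneg hD'.le]
    have h3 : D' * ‖v‖ ≤ D * 10 := mul_le_mul hDD hv (norm_nonneg _) (hD'.le.trans hDD)
    have h4 := norm_add_le (x - x₀) (D' • v)
    rw [h1]
    have := W.Dpos
    linarith
  have hsq : D' ^ 2 ≤ D ^ 2 := by
    have := W.Dpos
    nlinarith
  refine ⟨?_, ?_, ?_, ?_, ?_⟩
  · intro v hv hn
    exact W.unit _ hv (hnear v hn)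
  · intro v hv hn
    exact W.cs _ hv (hnear v hn)
  · intro v hv hn
    exact W.ang _ hv (hnear v hn)
  · intro p hp hn w hw hpw
    have h1 : x + D' • p + D' • w ∈ X := by
      have h2 : x + D' • p + D' • w = x + D' • (p + w) := by rw [smul_add]; abel
      rw [h2]
      exact hpw
    have h3 : ‖D' • w‖ ≤ 2 * R := by
      apply le_of_sq_le_sq _ (by linarith)
      rw [norm_sq_eq_dt, dt_smul_left, dt_smul_right]
      have h4 := W.DR
      have h5 : D' ^ 2 * dt w w ≤ D ^ 2 * (2 * (1 - C5)) :=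
        mul_le_mul hsq hw (dt_self_nonneg _) (by positivity)
      nlinarith
    obtain ⟨h6, h7⟩ := W.rot _ hp (hnear p hn) (D' • w) h3 h1
    rw [rot_smul] at h6 h7
    constructor
    · show x + D' • (p + rot (u (x + D' • p)) (c (x + D' • p)) (s (x + D' • p)) w) ∈ X
      rw [smul_add, ← add_assoc]
      exact h6
    · show x + D' • (p + rot (u (x + D' • p)) (c (x + D' • p)) (-(s (x + D' • p))) w) ∈ X
      rw [smul_add, ← add_assoc]
      exact h7
  · intro p hp hpn q hq hqn hpq hd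
    have h1 : x + D' • q - (x + D' • p) = D' • (q - p) := by rw [smul_sub]; abel
    have h2 : x + D' • p ≠ x + D' • q := by
      intro h
      apply hpq
      have h3 : D' • p = D' • q := add_left_cancel h
      exact smul_right_injective E hD'.ne' h3
    have h4 : dt (x + D' • q - (x + D' • p)) (x + D' • q - (x + D' • p)) < 0.9998 * D ^ 2 := by
      rw [h1, dt_smul_left, dt_smul_right]
      have h5 : D' ^ 2 * dt (q - p) (q - p) < D' ^ 2 * 0.998 :=
        mul_lt_mul_of_pos_left hd (by positivity)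
      nlinarith
    obtain ⟨h6, h7⟩ := W.coax _ hp (hnear p hpn) _ hq (hnear q hqn) h2 h4
    rw [h1, cr_smul_right] at h6 h7
    exact ⟨(smul_eq_zero.1 h6).resolve_left hD'.ne', (smul_eq_zero.1 h7).resolve_left hD'.ne'⟩

/-- TARGET M4: the pair lemma in a local world -/
theorem LW.pair {X : Set E} {R D : ℝ} {x₀ : E} {u : E → E} {c s : E → ℝ} (W : LW X R D x₀ u c s)
    {x y : E} (hx : x ∈ X) (hy : y ∈ X) (hxn : ‖x - x₀‖ ≤ 80 * D)
    (hD : dt (y - x) (y - x) ≤ D ^ 2) (hoff : cr (u x) (y - x) ≠ 0) :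
    (c x = C5 ∧ s x = S5) ∧ (c y = C5 ∧ s y = S5) ∧
      ((cr (u y) (y - x) = 0 ∧ dt (u x) (y - x) ^ 2 = 1 / 5 * dt (y - x) (y - x)) ∨
        (cr (u y) (y - x) ≠ 0 ∧ dt (u x) (u y) ^ 2 = 1 / 5 ∧
          dt (cr (u x) (y - x)) (u y) = 0)) := by
  have hR := W.Rpos
  have hyx : y - x ≠ 0 := by
    intro h
    rw [h] at hoff
    exact hoff (cr_zero_right _)
  have hpos : 0 < ‖y - x‖ := norm_pos_iff.2 hyx
  have hle : ‖y - x‖ ≤ D := by
    apply le_of_sq_le_sq _ W.Dpos.le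
    rw [norm_sq_eq_dt]
    exact hD
  have N := M4_nw W hR hxn hpos hle
  set D' := ‖y - x‖ with hD'
  have e0 : x + D' • (0 : E) = x := by simp
  have e1 : x + D' • (D'⁻¹ • (y - x)) = y := by
    rw [smul_smul, mul_inv_cancel₀ hpos.ne', one_smul]
    abel
  have hdd : dt (y - x) (y - x) = D' ^ 2 := (norm_sq_eq_dt _).symm
  have hN := N.pair (x := 0) (y := D'⁻¹ • (y - x)) (by rw [Set.mem_ofPred_eq, e0]; exact hx)
    (by rw [Set.mem_ofPred_eq, e1]; exact hy) (by simp) (by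
      rw [norm_smul, norm_inv, norm_norm, ← hD', inv_mul_cancel₀ hpos.ne']
      norm_num) (by
      rw [sub_zero, dt_smul_left, dt_smul_right, hdd]
      field_simp) (by
      simp only [e0, sub_zero, cr_smul_right]
      exact smul_ne_zero (inv_ne_zero hpos.ne') hoff)
  simp only [e0, e1, sub_zero, cr_smul_right, dt_smul_right, dt_smul_left] at hN
  obtain ⟨h1, h2, h3⟩ := hN
  refine ⟨h1, h2, ?_⟩
  rcases h3 with ⟨h4, h5⟩ | ⟨h4, h5, h6⟩
  · left
    refine ⟨(smul_eq_zero.1 h4).resolve_left (inv_ne_zero hpos.ne'), ?_⟩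
    rw [hdd]
    have h7 : (D'⁻¹ * dt (u x) (y - x)) ^ 2 = dt (u x) (y - x) ^ 2 / D' ^ 2 := by
      field_simp
    rw [h7, div_eq_iff (by positivity)] at h5
    exact h5
  · right
    refine ⟨fun h => h4 (by rw [h, smul_zero]), h5, ?_⟩
    exact (mul_eq_zero.1 h6).resolve_left (inv_ne_zero hpos.ne')

end Pool.Agent.H304
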