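import Pool.Agent.helper304_ico.Consts

set_option autoImplicit false

namespace Pool.Agent.H304

/-- general world: covering radius `R`; every point of `X` within `T` of `p₀` has a rotation preserving its `2R`-cluster -/
structure GW (X : Set E) (R : ℝ) (p₀ : E) (T : ℝ) (u : E → E) (c s : E → ℝ) : Prop where
  Rpos : 0 < R
  cov : ∀ y : E, ∃ x ∈ X, ‖x - y‖ ≤ R
  fin : ∀ K : ℝ, (X ∩ {x | ‖x‖ ≤ K}).Finite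
  unit : ∀ x ∈ X, ‖x - p₀‖ ≤ T → dt (u x) (u x) = 1
  cs : ∀ x ∈ X, ‖x - p₀‖ ≤ T → c x ^ 2 + s x ^ 2 = 1
  ang : ∀ x ∈ X, ‖x - p₀‖ ≤ T → (c x = C5 ∧ s x = S5) ∨ (0.59 ≤ c x ∧ c x < 1)
  rot : ∀ x ∈ X, ‖x - p₀‖ ≤ T → ∀ v : E, ‖v‖ ≤ 2 * R → x + v ∈ X →
    x + rot (u x) (c x) (s x) v ∈ X ∧ x + rot (u x) (c x) (-(s x)) v ∈ X

/-- local world at scale `D` around `x₀` -/
structure LW (X : Set E) (R D : ℝ) (x₀ : E) (u : E → E) (c s : E → ℝ) : Prop where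
  Dpos : 0 < D
  Rpos : 0 < R
  DR : (1 - C5) * D ^ 2 < 2 * R ^ 2
  unit : ∀ x ∈ X, ‖x - x₀‖ ≤ 100 * D → dt (u x) (u x) = 1
  cs : ∀ x ∈ X, ‖x - x₀‖ ≤ 100 * D → c x ^ 2 + s x ^ 2 = 1
  ang : ∀ x ∈ X, ‖x - x₀‖ ≤ 100 * D → (c x = C5 ∧ s x = S5) ∨ (0.59 ≤ c x ∧ c x < 1)
  rot : ∀ x ∈ X, ‖x - x₀‖ ≤ 100 * D → ∀ v : E, ‖v‖ ≤ 2 * R → x + v ∈ X →
    x + rot (u x) (c x) (s x) v ∈ X ∧ x + rot (u x) (c x) (-(s x)) v ∈ X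
  coax : ∀ x ∈ X, ‖x - x₀‖ ≤ 100 * D → ∀ y ∈ X, ‖y - x₀‖ ≤ 100 * D → x ≠ y →
    dt (y - x) (y - x) < 0.9998 * D ^ 2 → cr (u x) (y - x) = 0 ∧ cr (u y) (y - x) = 0

/-- twelve vertices of a regular icosahedron with centre `q` and circumradius `a` in `X`, given by two adjacent unit
vertex directions `p₀`, `p₁` -/
def Ico (X : Set E) (q : E) (a : ℝ) (p₀ p₁ : E) : Prop :=
  0 < a ∧ dt p₀ p₀ = 1 ∧ dt p₁ p₁ = 1 ∧ (1 - C5) * dt p₀ p₁ = C5 ∧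
    (∀ σ : ℝ, (σ = 1 ∨ σ = -1) → q + (σ * a) • p₀ ∈ X) ∧
    (∀ σ : ℝ, (σ = 1 ∨ σ = -1) → ∀ n : ℕ, q + (σ * a) • ((rot p₀ C5 S5)^[n] p₁) ∈ X)

end Pool.Agent.H304
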